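import Pool.Agent.Work.MP_d2a4bb_nt.NC.Basic

set_option autoImplicit false

open MeasureTheory UpperHalfPlane Matrix
open scoped MatrixGroups ModularForm Manifold ENNReal Classical

noncomputable section

namespace Pool.Agent.HoloQUE

namespace XCt

variable {O : Subring Mat} {p : ℕ}

/-- generators of the lines of the plane -/
def vec {p : ℕ} : Option (ZMod p) → Fin 2 → ZMod p
  | none => ![0, 1]
  | some t => ![1, t]

/-- a nonzero matrix which kills a line -/
def kil {p : ℕ} : Option (ZMod p) → Matrix (Fin 2) (Fin 2) (ZMod p)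
  | none => !![1, 0; 0, 0]
  | some t => !![-t, 1; 0, 0]

lemma vec_ne [Fact p.Prime] (o : Option (ZMod p)) : vec o ≠ 0 := by
  intro h
  cases o with
  | none =>
    have := congrFun h 1
    simp [vec] at this
  | some t =>
    have := congrFun h 0
    simp [vec] at this

lemma kil_ne [Fact p.Prime] (o : Option (ZMod p)) : kil o ≠ 0 := by
  intro h
  cases o with
  | none =>
    have := congrFun (congrFun h 0) 0
    simp [kil] at this
  | some t =>
    have := congrFun (congrFun h 0) 1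
    simp [kil] at this

lemma kil_vec (o : Option (ZMod p)) : kil o *ᵥ vec o = 0 := by
  cases o with
  | none =>
    ext i
    fin_cases i <;> simp [kil, vec, Matrix.mulVec, dotProduct, Fin.sum_univ_two]
  | some t =>
    ext i
    fin_cases i <;> simp [kil, vec, Matrix.mulVec, dotProduct, Fin.sum_univ_two]

lemma ex_vec [Fact p.Prime] {M : Matrix (Fin 2) (Fin 2) (ZMod p)} {w : Fin 2 → ZMod p}
    (hw : w ≠ 0) (h : M *ᵥ w = 0) : ∃ o : Option (ZMod p), M *ᵥ vec o = 0 := by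
  by_cases h0 : w 0 = 0
  · have h1 : w 1 ≠ 0 := by
      intro h1
      apply hw
      ext i
      fin_cases i
      · simpa using h0
      · simpa using h1
    refine ⟨none, ?_⟩
    have e : w = w 1 • (vec none : Fin 2 → ZMod p) := by
      ext i
      fin_cases i <;> simp [vec, h0]
    rw [e, Matrix.mulVec_smul] at h
    exact (smul_eq_zero.1 h).resolve_left h1
  · refine ⟨some (w 1 / w 0), ?_⟩
    have e : w = w 0 • (vec (some (w 1 / w 0)) : Fin 2 → ZMod p) := by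
      ext i
      fin_cases i
      · simp [vec]
      · simp [vec]
        field_simp
    rw [e, Matrix.mulVec_smul] at h
    exact (smul_eq_zero.1 h).resolve_left h0

lemma two_vec [Fact p.Prime] {M : Matrix (Fin 2) (Fin 2) (ZMod p)} {o o' : Option (ZMod p)}
    (hne : o ≠ o') (h : M *ᵥ vec o = 0) (h' : M *ᵥ vec o' = 0) : M = 0 := by
  have key : ∀ i, M i 0 = 0 ∧ M i 1 = 0 := by
    intro i
    have e := congrFun h i
    have e' := congrFun h' i
    simp only [Matrix.mulVec, dotProduct, Fin.sum_univ_two, Pi.zero_apply] at e e'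
    cases o with
    | none =>
      cases o' with
      | none => exact absurd rfl hne
      | some t =>
        simp [vec] at e e'
        rw [e] at e'
        simp at e'
        exact ⟨e', e⟩
    | some s =>
      cases o' with
      | none =>
        simp [vec] at e e'
        rw [e'] at e
        simp at e
        exact ⟨e, e'⟩
      | some t =>
        simp [vec] at e e'
        have hst : s - t ≠ 0 := by
          intro hst
          apply hne
          rw [sub_eq_zero.1 hst]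
        have h1 : M i 1 * (s - t) = 0 := by linear_combination e - e'
        have h2 : M i 1 = 0 := (mul_eq_zero.1 h1).resolve_right hst
        rw [h2] at e
        simp at e
        exact ⟨e, h2⟩
  ext i j
  fin_cases j
  · exact (key i).1
  · exact (key i).2

/-- the left ideal of a line -/
def LL (ρ : O →+* Matrix (Fin 2) (Fin 2) (ZMod p)) (o : Option (ZMod p)) : AddSubgroup Mat where
  carrier := {x | ∃ h : x ∈ O, ρ ⟨x, h⟩ *ᵥ vec o = 0}
  add_mem' := by
    rintro x y ⟨hx, hx'⟩ ⟨hy, hy'⟩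
    refine ⟨O.add_mem hx hy, ?_⟩
    have e : (⟨x + y, O.add_mem hx hy⟩ : O) = ⟨x, hx⟩ + ⟨y, hy⟩ := rfl
    rw [e, map_add, Matrix.add_mulVec, hx', hy', add_zero]
  zero_mem' := by
    refine ⟨O.zero_mem, ?_⟩
    have e : (⟨0, O.zero_mem⟩ : O) = 0 := rfl
    rw [e, map_zero, Matrix.zero_mulVec]
  neg_mem' := by
    rintro x ⟨hx, hx'⟩
    refine ⟨O.neg_mem hx, ?_⟩
    have e : (⟨-x, O.neg_mem hx⟩ : O) = -⟨x, hx⟩ := rfl
    rw [e, map_neg, Matrix.neg_mulVec, hx', neg_zero]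

lemma mul_mem_LL {ρ : O →+* Matrix (Fin 2) (Fin 2) (ZMod p)} {o : Option (ZMod p)} {u x : Mat}
    (hu : u ∈ O) (hx : x ∈ LL ρ o) : u * x ∈ LL ρ o := by
  obtain ⟨h, h'⟩ := hx
  refine ⟨O.mul_mem hu h, ?_⟩
  have e : (⟨u * x, O.mul_mem hu h⟩ : O) = ⟨u, hu⟩ * ⟨x, h⟩ := rfl
  rw [e, map_mul, ← Matrix.mulVec_mulVec, h', Matrix.mulVec_zero]

/-- an element of determinant `± p` is not divisible by `p` -/
lemma not_dv (hO : QOrder O) (hp : p.Prime) {x : Mat} (hx : x.det = p ∨ x.det = -(p : ℝ)) :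
    ¬ Dv O p x := by
  rintro ⟨y, hy, rfl⟩
  obtain ⟨n, hn⟩ := hO.dt y hy
  rw [det_smul2, hn] at hx
  have h1 : (p : ℤ) ^ 2 * n = p ∨ (p : ℤ) ^ 2 * n = -p := by
    rcases hx with h | h
    · left; exact_mod_cast h
    · right; exact_mod_cast h
  have hp0 : (p : ℤ) ≠ 0 := by exact_mod_cast hp.ne_zero
  have h2 : (p : ℤ) ∣ 1 := by
    rcases h1 with h | h
    · refine ⟨n, ?_⟩
      have : (p : ℤ) * (p * n) = p * 1 := by rw [mul_one]; linear_combination h
      exact (mul_left_cancel₀ hp0 this).symm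
    · refine ⟨-n, ?_⟩
      have : (p : ℤ) * (p * -n) = p * 1 := by rw [mul_one]; linear_combination -h
      exact (mul_left_cancel₀ hp0 this).symm
  have h3 : p ∣ 1 := by exact_mod_cast h2
  exact hp.one_lt.ne' (Nat.dvd_one.1 h3)

/-- elements of norm `p` have a singular reduction -/
lemma det_red (hO : QOrder O) (hp : p.Prime) {ρ : O →+* Matrix (Fin 2) (Fin 2) (ZMod p)}
    (hρ : ∀ x : O, ρ x = 0 ↔ Dv O p x) {x : Mat} (hx : x ∈ O) (hd : x.det = p) :
    (ρ ⟨x, hx⟩).det = 0 := by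
  have : Fact p.Prime := ⟨hp⟩
  have ha : x.adjugate ∈ O := hO.adj_mem hx
  by_contra hne
  have hu : IsUnit (ρ ⟨x, hx⟩).det := isUnit_iff_ne_zero.2 hne
  have e : (⟨x, hx⟩ * ⟨x.adjugate, ha⟩ : O) = ⟨(p : ℝ) • (1 : Mat), natc_mem O p⟩ := by
    apply Subtype.ext
    show x * x.adjugate = _
    rw [mul_adj, hd]
  have h0 : ρ ⟨(p : ℝ) • (1 : Mat), natc_mem O p⟩ = 0 := (hρ _).2 ⟨1, O.one_mem, rfl⟩
  have h1 : ρ ⟨x, hx⟩ * ρ ⟨x.adjugate, ha⟩ = 0 := by rw [← map_mul, e, h0]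
  have h2 : ρ ⟨x.adjugate, ha⟩ = 0 := by
    have := congrArg (fun M => (ρ ⟨x, hx⟩)⁻¹ * M) h1
    simpa [← mul_assoc, Matrix.nonsing_inv_mul _ hu] using this
  have h3 := (hρ _).1 h2
  exact not_dv hO hp (Or.inl (by rw [det_adj, hd])) h3

lemma exists_gen (hO : QOrder O) (hp : p.Prime)
    (hL : ∀ L : AddSubgroup Mat, (∀ x ∈ L, x ∈ O) → (∀ u ∈ O, ∀ x ∈ L, u * x ∈ L) →
      ∃ z ∈ L, ∀ x ∈ L, ∃ u ∈ O, x = u * z)
    (he : ∃ e ∈ O, e.det = -1) {ρ : O →+* Matrix (Fin 2) (Fin 2) (ZMod p)}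
    (hs : Function.Surjective ρ) (hρ : ∀ x : O, ρ x = 0 ↔ Dv O p x) (o : Option (ZMod p)) :
    ∃ x : G2, (x : Mat) ∈ LL ρ o ∧ (x : Mat).det = p ∧
      ∀ y ∈ LL ρ o, ∃ u ∈ O, y = u * (x : Mat) := by
  have : Fact p.Prime := ⟨hp⟩
  obtain ⟨z, hz, hgen⟩ := hL (LL ρ o) (fun x hx => hx.1) (fun u hu x hx => mul_mem_LL hu hx)
  obtain ⟨hzO, hzv⟩ := hz
  have hpL : (p : ℝ) • (1 : Mat) ∈ LL ρ o := by
    refine ⟨natc_mem O p, ?_⟩
    rw [(hρ _).2 ⟨1, O.one_mem, rfl⟩, Matrix.zero_mulVec]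
  obtain ⟨u, hu, hpu⟩ := hgen _ hpL
  obtain ⟨a, ha⟩ := hO.dt u hu
  obtain ⟨b, hb⟩ := hO.dt z hzO
  have hab : a * b = (p : ℤ) ^ 2 := by
    have h := congrArg Matrix.det hpu
    rw [det_smul2, Matrix.det_one, mul_one, Matrix.det_mul, ha, hb] at h
    exact_mod_cast h.symm
  have hnab : a.natAbs * b.natAbs = p ^ 2 := by
    rw [← Int.natAbs_mul, hab, Int.natAbs_pow, Int.natAbs_natCast]
  have hbdvd : b.natAbs ∣ p ^ 2 := ⟨a.natAbs, by rw [mul_comm, hnab]⟩
  have hb1 : b.natAbs ≠ 1 := by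
    intro h1
    have hadj := hO.adj_mem hzO
    have e : (⟨z.adjugate, hadj⟩ * ⟨z, hzO⟩ : O) = (b : O) := by
      apply Subtype.ext
      show z.adjugate * z = ((b : O) : Mat)
      rw [adj_mul_self, hb]
      rw [Subring.coe_intCast]
      ext i j
      simp [Matrix.intCast_apply, Matrix.one_apply]
    have h2 : ρ ⟨z.adjugate, hadj⟩ * ρ ⟨z, hzO⟩ = (b : Matrix (Fin 2) (Fin 2) (ZMod p)) := by
      rw [← map_mul, e, map_intCast]
    have h3 : (b : Matrix (Fin 2) (Fin 2) (ZMod p)) *ᵥ vec o = 0 := by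
      rw [← h2, ← Matrix.mulVec_mulVec, hzv, Matrix.mulVec_zero]
    rcases Int.natAbs_eq b with hb2 | hb2
    · rw [h1] at hb2
      rw [hb2] at h3
      simp at h3
      exact vec_ne o h3
    · rw [h1] at hb2
      rw [hb2] at h3
      have e1 : ((-((1 : ℕ) : ℤ) : ℤ) : Matrix (Fin 2) (Fin 2) (ZMod p)) = -1 := by simp
      rw [e1, Matrix.neg_mulVec, Matrix.one_mulVec, neg_eq_zero] at h3
      exact vec_ne o h3
  have ha1 : a.natAbs ≠ 1 := by
    intro h1
    have hadj := hO.adj_mem hu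
    have hz2 : Dv O p z := by
      have h3 : (a : ℝ) • z = (p : ℝ) • u.adjugate := by
        have h4 := congrArg (fun M => u.adjugate * M) hpu
        simp only [mul_smul_comm, mul_one, ← mul_assoc, adj_mul_self, ha, smul_mul_assoc,
          one_mul] at h4
        exact h4.symm
      rcases Int.natAbs_eq a with ha2 | ha2
      · rw [h1] at ha2
        refine ⟨u.adjugate, hadj, ?_⟩
        rw [ha2] at h3
        simpa using h3
      · rw [h1] at ha2
        refine ⟨-u.adjugate, O.neg_mem hadj, ?_⟩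
        rw [ha2] at h3
        rw [smul_neg, ← h3]
        simp
    have hz3 : ρ ⟨z, hzO⟩ = 0 := (hρ _).2 hz2
    obtain ⟨x, hx⟩ := hs (kil o)
    obtain ⟨w, hw, hxw⟩ := hgen x ⟨x.2, by
      have : (⟨(x : Mat), x.2⟩ : O) = x := rfl
      rw [this, hx]
      exact kil_vec o⟩
    have e : x = (⟨w, hw⟩ * ⟨z, hzO⟩ : O) := Subtype.ext hxw
    rw [e, map_mul, hz3, mul_zero] at hx
    exact kil_ne o hx.symm
  have hbp : b.natAbs = p := by
    rcases (Nat.dvd_prime_pow hp).1 hbdvd with ⟨m, hm, hbm⟩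
    interval_cases m
    · simp at hbm
      exact absurd hbm hb1
    · simpa using hbm
    · exfalso
      rw [hbm] at hnab
      apply ha1
      have hpos : 0 < p ^ 2 := pow_pos hp.pos 2
      exact Nat.eq_of_mul_eq_mul_right hpos (by rw [hnab, one_mul])
  rcases Int.natAbs_eq b with hb2 | hb2
  · rw [hbp] at hb2
    have hdz : z.det = p := by rw [hb, hb2]; simp
    obtain ⟨x, hx⟩ := exists_G2 (x := z) (by rw [hdz]; exact_mod_cast hp.ne_zero)
    refine ⟨x, ?_, ?_, ?_⟩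
    · rw [hx]
      exact ⟨hzO, hzv⟩
    · rw [hx, hdz]
    · rw [hx]
      exact hgen
  · rw [hbp] at hb2
    have hdz : z.det = -(p : ℝ) := by rw [hb, hb2]; simp
    obtain ⟨e, heO, hed⟩ := he
    have hdz' : (e * z).det = p := by rw [Matrix.det_mul, hed, hdz]; ring
    obtain ⟨x, hx⟩ := exists_G2 (x := e * z) (by rw [hdz']; exact_mod_cast hp.ne_zero)
    refine ⟨x, ?_, ?_, ?_⟩
    · rw [hx]
      exact mul_mem_LL heO ⟨hzO, hzv⟩
    · rw [hx, hdz']
    · rw [hx]
      intro y hy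
      obtain ⟨w, hw, hyw⟩ := hgen y hy
      refine ⟨w * (-e.adjugate), O.mul_mem hw (O.neg_mem (hO.adj_mem heO)), ?_⟩
      rw [hyw]
      have h5 : -e.adjugate * (e * z) = z := by
        rw [← mul_assoc, neg_mul, adj_mul_self, hed]
        simp
      rw [mul_assoc, h5]

end XCt

open XCt in
theorem prf_Ct : S_Ct := by
  intro O p hO hp hL he hred
  obtain ⟨ρ, hs, hρ⟩ := hred
  have : Fact p.Prime := ⟨hp⟩
  choose X hX1 hX2 hX3 using exists_gen hO hp hL he hs hρ
  have hmemO : ∀ o, (X o : Mat) ∈ O := fun o => (hX1 o).1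
  have hkill : ∀ o, ρ ⟨X o, hmemO o⟩ *ᵥ vec o = 0 := fun o => (hX1 o).2
  have hne : ∀ o, ρ ⟨X o, hmemO o⟩ ≠ 0 := by
    intro o h
    exact not_dv hO hp (Or.inl (hX2 o)) ((hρ _).1 h)
  have key : ∀ o o', (X o' * (X o)⁻¹ : G2) ∈ normOne O → o = o' := by
    intro o o' h
    by_contra hoo
    have hg : ((X o' * (X o)⁻¹ : G2) : Mat) ∈ O := h.1
    have e : (X o' : Mat) = ((X o' * (X o)⁻¹ : G2) : Mat) * (X o : Mat) := by
      rw [← Units.val_mul, inv_mul_cancel_right]
    have hk : ρ ⟨X o', hmemO o'⟩ *ᵥ vec o = 0 := by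
      have e2 : (⟨X o', hmemO o'⟩ : O) =
          ⟨((X o' * (X o)⁻¹ : G2) : Mat), hg⟩ * ⟨X o, hmemO o⟩ := Subtype.ext e
      rw [e2, map_mul, ← Matrix.mulVec_mulVec, hkill o, Matrix.mulVec_zero]
    exact hne o' (two_vec hoo hk (hkill o'))
  have hinj : Function.Injective X := by
    intro o o' h
    apply key o o'
    rw [h, mul_inv_cancel]
    exact (normOne O).one_mem
  refine ⟨Finset.univ.image X, ⟨?_, ?_, ?_⟩, ?_⟩
  · intro x hx
    obtain ⟨o, -, rfl⟩ := Finset.mem_image.1 hx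
    exact ⟨hmemO o, hX2 o⟩
  · intro y hy
    obtain ⟨hyO, hyd⟩ := hy
    have hdet := det_red hO hp hρ hyO hyd
    obtain ⟨w, hw0, hw⟩ := Matrix.exists_mulVec_eq_zero_iff.2 hdet
    obtain ⟨o, ho⟩ := ex_vec hw0 hw
    obtain ⟨u, hu, hyu⟩ := hX3 o y ⟨hyO, ho⟩
    refine ⟨X o, Finset.mem_image_of_mem _ (Finset.mem_univ _), ?_⟩
    exact hO.normOne_of_eq hu hyu (by rw [hyd, hX2 o])
  · intro x hx y hy h
    obtain ⟨o, -, rfl⟩ := Finset.mem_image.1 hx
    obtain ⟨o', -, rfl⟩ := Finset.mem_image.1 hy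
    rw [key o o' h]
  · rw [Finset.card_image_of_injective _ hinj, Finset.card_univ, Fintype.card_option,
      ZMod.card]

end Pool.Agent.HoloQUE
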