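import Pool.Agent.Work.MP_d2a4bb_nt.NC.Basic

/-!
# Item ExE: the order of discriminant 6 is principal (Euclidean algorithm)
-/

set_option autoImplicit false

open MeasureTheory UpperHalfPlane Matrix
open scoped MatrixGroups ModularForm Manifold ENNReal Classical

noncomputable section

namespace Pool.Agent.HoloQUE

namespace XExE

theorem det_q6 (a b c d : ℝ) : (q6 a b c d).det = a ^ 2 + b ^ 2 - 3 * c ^ 2 - 3 * d ^ 2 := by
  have h3 : √(3 : ℝ) * √3 = 3 := Real.mul_self_sqrt (by norm_num)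
  rw [q6, Matrix.det_fin_two_of]
  linear_combination (-(c ^ 2) - d ^ 2) * h3

theorem sub_q6 (a b c d a' b' c' d' : ℝ) :
    q6 a b c d - q6 a' b' c' d' = q6 (a - a') (b - b') (c - c') (d - d') := by
  ext i j
  fin_cases i <;> fin_cases j <;> simp [q6] <;> ring

theorem exists_q6 (x : Mat) : ∃ a b c d : ℝ, x = q6 a b c d := by
  have h3 : √(3 : ℝ) * √3 = 3 := Real.mul_self_sqrt (by norm_num)
  have h0 : √(3 : ℝ) ≠ 0 := by
    intro h
    rw [h] at h3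
    norm_num at h3
  refine ⟨(x 0 0 + x 1 1) / 2, (x 1 0 - x 0 1) / 2, (x 0 0 - x 1 1) / (2 * √3),
    (x 0 1 + x 1 0) / (2 * √3), ?_⟩
  ext i j
  fin_cases i <;> fin_cases j <;> simp [q6] <;> field_simp <;> ring

/-- An odd integer near `2 t`. -/
theorem half (t : ℝ) (n : ℤ) (h : |t - n| ≤ 1 / 2) :
    ∃ m : ℤ, m % 2 = 1 ∧ (t - m / 2) ^ 2 ≤ 1 / 4 ∧
      (1 / 16 ≤ (t - n) ^ 2 → (t - m / 2) ^ 2 ≤ 1 / 16) := by
  rw [abs_le] at h
  obtain ⟨h1, h2⟩ := h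
  rcases le_total 0 (t - n) with h0 | h0
  · refine ⟨2 * n + 1, by omega, ?_, ?_⟩
    · push_cast
      nlinarith
    · intro h3
      push_cast
      have h4 : 1 / 4 ≤ t - n := by
        by_contra h5
        push Not at h5
        nlinarith
      nlinarith
  · refine ⟨2 * n - 1, by omega, ?_, ?_⟩
    · push_cast
      nlinarith
    · intro h3
      push_cast
      have h4 : t - n ≤ -(1 / 4) := by
        by_contra h5
        push Not at h5
        nlinarith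
      nlinarith

theorem sq_le_quarter {t : ℝ} (h : |t| ≤ 1 / 2) : t ^ 2 ≤ 1 / 4 := by
  rw [abs_le] at h
  nlinarith [h.1, h.2]

/-- The Euclidean property. -/
theorem euclid (a b c d : ℝ) : ∃ A B C D : ℤ, (A - B) % 2 = 0 ∧ (A - C) % 2 = 0 ∧
    (A - D) % 2 = 0 ∧
    |(a - A / 2) ^ 2 + (b - B / 2) ^ 2 - 3 * (c - C / 2) ^ 2 - 3 * (d - D / 2) ^ 2| < 1 := by
  have ha := abs_sub_round a
  have hb := abs_sub_round b
  have hc := abs_sub_round c
  have hd := abs_sub_round d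
  have ha2 := sq_le_quarter ha
  have hb2 := sq_le_quarter hb
  have hc2 := sq_le_quarter hc
  have hd2 := sq_le_quarter hd
  have ea : (0 : ℝ) ≤ (a - round a) ^ 2 := sq_nonneg _
  have eb : (0 : ℝ) ≤ (b - round b) ^ 2 := sq_nonneg _
  have ec : (0 : ℝ) ≤ (c - round c) ^ 2 := sq_nonneg _
  have ed : (0 : ℝ) ≤ (d - round d) ^ 2 := sq_nonneg _
  by_cases hN : -1 < (a - round a) ^ 2 + (b - round b) ^ 2 - 3 * (c - round c) ^ 2 -
      3 * (d - round d) ^ 2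
  · refine ⟨2 * round a, 2 * round b, 2 * round c, 2 * round d, by omega, by omega, by omega, ?_⟩
    push_cast
    rw [mul_div_cancel_left₀ _ (two_ne_zero), mul_div_cancel_left₀ _ (two_ne_zero),
      mul_div_cancel_left₀ _ (two_ne_zero), mul_div_cancel_left₀ _ (two_ne_zero), abs_lt]
    constructor
    · exact hN
    · linarith
  · push Not at hN
    obtain ⟨A, hA1, hA2, -⟩ := half a _ ha
    obtain ⟨B, hB1, hB2, -⟩ := half b _ hb
    obtain ⟨C, hC1, -, hC3⟩ := half c _ hc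
    obtain ⟨D, hD1, -, hD3⟩ := half d _ hd
    have hC4 := hC3 (by linarith)
    have hD4 := hD3 (by linarith)
    have fa : (0 : ℝ) ≤ (a - A / 2) ^ 2 := sq_nonneg _
    have fb : (0 : ℝ) ≤ (b - B / 2) ^ 2 := sq_nonneg _
    have fc : (0 : ℝ) ≤ (c - C / 2) ^ 2 := sq_nonneg _
    have fd : (0 : ℝ) ≤ (d - D / 2) ^ 2 := sq_nonneg _
    refine ⟨A, B, C, D, by omega, by omega, by omega, ?_⟩
    rw [abs_lt]
    constructor <;> linarith

/-- Two squares whose sum is divisible by three. -/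
theorem three_dvd (a b : ℤ) (h : (3 : ℤ) ∣ a ^ 2 + b ^ 2) : (3 : ℤ) ∣ a ∧ (3 : ℤ) ∣ b := by
  have ha : a % 3 = 0 ∨ a % 3 = 1 ∨ a % 3 = 2 := by omega
  have hb : b % 3 = 0 ∨ b % 3 = 1 ∨ b % 3 = 2 := by omega
  have h1 : (a ^ 2 + b ^ 2) % 3 = 0 := Int.emod_eq_zero_of_dvd h
  have h2 : (a ^ 2 + b ^ 2) % 3 = ((a % 3) ^ 2 + (b % 3) ^ 2) % 3 := by
    simp [Int.add_emod, pow_two, Int.mul_emod]
  rw [h2] at h1
  rcases ha with ha | ha | ha <;> rcases hb with hb | hb | hb <;> rw [ha, hb] at h1 <;>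
    first
      | exact ⟨Int.dvd_of_emod_eq_zero ha, Int.dvd_of_emod_eq_zero hb⟩
      | (exfalso; revert h1; decide)

/-- Descent. -/
theorem descent : ∀ n : ℕ, ∀ a b c d : ℤ, a.natAbs + b.natAbs + c.natAbs + d.natAbs ≤ n →
    a ^ 2 + b ^ 2 = 3 * (c ^ 2 + d ^ 2) → a = 0 ∧ b = 0 ∧ c = 0 ∧ d = 0 := by
  intro n
  induction n with
  | zero =>
    intro a b c d h _
    refine ⟨?_, ?_, ?_, ?_⟩ <;> omega
  | succ n ih =>
    intro a b c d h e
    obtain ⟨⟨a', ha⟩, ⟨b', hb⟩⟩ := three_dvd a b ⟨_, e⟩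
    have e1 : c ^ 2 + d ^ 2 = 3 * (a' ^ 2 + b' ^ 2) := by
      rw [ha, hb] at e
      linarith
    obtain ⟨⟨c', hc⟩, ⟨d', hd⟩⟩ := three_dvd c d ⟨_, e1⟩
    have e2 : a' ^ 2 + b' ^ 2 = 3 * (c' ^ 2 + d' ^ 2) := by
      rw [hc, hd] at e1
      linarith
    by_cases hz : a' = 0 ∧ b' = 0 ∧ c' = 0 ∧ d' = 0
    · obtain ⟨z1, z2, z3, z4⟩ := hz
      subst z1 z2 z3 z4
      refine ⟨?_, ?_, ?_, ?_⟩ <;> omega
    · have := ih a' b' c' d' (by omega) e2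
      exact absurd this hz

theorem int_det (a b c d : ℤ) (h1 : (a - b) % 2 = 0) (h2 : (a - c) % 2 = 0)
    (h3 : (a - d) % 2 = 0) :
    ∃ n : ℤ, a ^ 2 + b ^ 2 - 3 * c ^ 2 - 3 * d ^ 2 = 4 * n := by
  rcases Int.emod_two_eq_zero_or_one a with h | h
  · obtain ⟨a', ha⟩ : ∃ k, a = 2 * k := ⟨a / 2, by omega⟩
    obtain ⟨b', hb⟩ : ∃ k, b = 2 * k := ⟨b / 2, by omega⟩
    obtain ⟨c', hc⟩ : ∃ k, c = 2 * k := ⟨c / 2, by omega⟩
    obtain ⟨d', hd⟩ : ∃ k, d = 2 * k := ⟨d / 2, by omega⟩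
    refine ⟨a' ^ 2 + b' ^ 2 - 3 * c' ^ 2 - 3 * d' ^ 2, ?_⟩
    rw [ha, hb, hc, hd]
    ring
  · obtain ⟨a', ha⟩ : ∃ k, a = 2 * k + 1 := ⟨a / 2, by omega⟩
    obtain ⟨b', hb⟩ : ∃ k, b = 2 * k + 1 := ⟨b / 2, by omega⟩
    obtain ⟨c', hc⟩ : ∃ k, c = 2 * k + 1 := ⟨c / 2, by omega⟩
    obtain ⟨d', hd⟩ : ∃ k, d = 2 * k + 1 := ⟨d / 2, by omega⟩
    refine ⟨a' ^ 2 + a' + b' ^ 2 + b' - 3 * (c' ^ 2 + c') - 3 * (d' ^ 2 + d') - 1, ?_⟩
    rw [ha, hb, hc, hd]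
    ring

/-- The determinants of the elements are integers, nonzero for nonzero elements. -/
theorem r6_det {x : Mat} (hx : IsR6 x) : (∃ n : ℤ, x.det = n) ∧ (x.det = 0 → x = 0) := by
  obtain ⟨a, b, c, d, h1, h2, h3, rfl⟩ := hx
  obtain ⟨n, hn⟩ := int_det a b c d h1 h2 h3
  have hn' : (a : ℝ) ^ 2 + (b : ℝ) ^ 2 - 3 * (c : ℝ) ^ 2 - 3 * (d : ℝ) ^ 2 = 4 * (n : ℝ) := by
    exact_mod_cast hn
  have hdet : (q6 (a / 2) (b / 2) (c / 2) (d / 2)).det = n := by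
    rw [det_q6]
    linarith
  refine ⟨⟨n, hdet⟩, ?_⟩
  intro h0
  rw [hdet] at h0
  have hn0 : n = 0 := by exact_mod_cast h0
  rw [hn0] at hn
  obtain ⟨z1, z2, z3, z4⟩ := descent _ a b c d le_rfl (by linarith)
  rw [z1, z2, z3, z4]
  ext i j
  fin_cases i <;> fin_cases j <;> simp [q6]

/-- Division with remainder. -/
theorem division (x z : Mat) (hz : z.det ≠ 0) :
    ∃ q : Mat, IsR6 q ∧ |(x - q * z).det| < |z.det| := by
  obtain ⟨a, b, c, d, h⟩ := exists_q6 (x * z⁻¹)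
  obtain ⟨A, B, C, D, h1, h2, h3, h4⟩ := euclid a b c d
  refine ⟨q6 (A / 2) (B / 2) (C / 2) (D / 2), ⟨A, B, C, D, h1, h2, h3, rfl⟩, ?_⟩
  have hu : IsUnit z.det := isUnit_iff_ne_zero.mpr hz
  have e : x - q6 (A / 2) (B / 2) (C / 2) (D / 2) * z =
      q6 (a - A / 2) (b - B / 2) (c - C / 2) (d - D / 2) * z := by
    rw [← sub_q6, ← h, sub_mul, mul_assoc, Matrix.nonsing_inv_mul z hu, mul_one]
  rw [e, Matrix.det_mul, det_q6, abs_mul]
  have hp : 0 < |z.det| := abs_pos.mpr hz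
  calc _ < 1 * |z.det| := mul_lt_mul_of_pos_right h4 hp
    _ = _ := one_mul _

end XExE

open XExE in
theorem prf_ExE : S_ExE := by
  intro O hO
  constructor
  · intro L hL hmul
    by_cases hz : ∃ z ∈ L, z ≠ 0
    · have hP : ∃ n : ℕ, ∃ z ∈ L, z ≠ 0 ∧ |z.det| = n := by
        obtain ⟨z, hz1, hz2⟩ := hz
        obtain ⟨n, hn⟩ := (r6_det ((hO z).mp (hL z hz1))).1
        refine ⟨n.natAbs, z, hz1, hz2, ?_⟩
        rw [hn, Nat.cast_natAbs, Int.cast_abs]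
      obtain ⟨z, hz1, hz2, hz3⟩ := Nat.find_spec hP
      have hzd : z.det ≠ 0 := fun h => hz2 ((r6_det ((hO z).mp (hL z hz1))).2 h)
      refine ⟨z, hz1, ?_⟩
      intro x hx
      obtain ⟨q, hq, hlt⟩ := division x z hzd
      have hqO : q ∈ O := (hO q).mpr hq
      have hr : x - q * z ∈ L := L.sub_mem hx (hmul q hqO z hz1)
      refine ⟨q, hqO, ?_⟩
      by_contra hne
      have hr0 : x - q * z ≠ 0 := fun h => hne (sub_eq_zero.mp h)
      obtain ⟨m, hm⟩ := (r6_det ((hO _).mp (hL _ hr))).1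
      have hm2 : |(x - q * z).det| = (m.natAbs : ℕ) := by
        rw [hm, Nat.cast_natAbs, Int.cast_abs]
      have hle : Nat.find hP ≤ m.natAbs := Nat.find_min' hP ⟨x - q * z, hr, hr0, hm2⟩
      rw [hm2, hz3] at hlt
      have : m.natAbs < Nat.find hP := by exact_mod_cast hlt
      omega
    · push Not at hz
      refine ⟨0, L.zero_mem, ?_⟩
      intro x hx
      refine ⟨0, O.zero_mem, ?_⟩
      rw [hz x hx, mul_zero]
  · refine ⟨q6 1 1 1 0, ?_, ?_⟩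
    · rw [hO]
      refine ⟨2, 2, 2, 0, by norm_num, by norm_num, by norm_num, ?_⟩
      norm_num
    · rw [det_q6]
      norm_num

end Pool.Agent.HoloQUE
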