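import Pool.Agent.Work.MP_d2a4bb_nt.NC.Basic

/-!
# The order of discriminant 6
-/

set_option autoImplicit false

open MeasureTheory UpperHalfPlane Matrix
open scoped MatrixGroups ModularForm Manifold ENNReal Classical

noncomputable section

namespace Pool.Agent.HoloQUE

namespace XExQ

theorem q6_mul (a b c d a' b' c' d' : ℝ) : q6 a b c d * q6 a' b' c' d' =
    q6 (a * a' - b * b' + 3 * c * c' + 3 * d * d') (a * b' + b * a' - 3 * c * d' + 3 * d * c')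
      (a * c' + c * a' - b * d' + d * b') (a * d' + d * a' + b * c' - c * b') := by
  have h3 : √3 * √3 = (3 : ℝ) := Real.mul_self_sqrt (by norm_num)
  ext i j
  fin_cases i <;> fin_cases j
  · simp [q6, Matrix.mul_apply, Fin.sum_univ_two]
    linear_combination (c * c' + d * d') * h3
  · simp [q6, Matrix.mul_apply, Fin.sum_univ_two]
    linear_combination (c * d' - d * c') * h3
  · simp [q6, Matrix.mul_apply, Fin.sum_univ_two]
    linear_combination (d * c' - c * d') * h3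
  · simp [q6, Matrix.mul_apply, Fin.sum_univ_two]
    linear_combination (c * c' + d * d') * h3

theorem q6_add (a b c d a' b' c' d' : ℝ) : q6 a b c d + q6 a' b' c' d' =
    q6 (a + a') (b + b') (c + c') (d + d') := by
  ext i j
  fin_cases i <;> fin_cases j <;> simp [q6] <;> ring

theorem q6_neg (a b c d : ℝ) : -q6 a b c d = q6 (-a) (-b) (-c) (-d) := by
  ext i j
  fin_cases i <;> fin_cases j <;> simp [q6] <;> ring

theorem q6_one : (1 : Mat) = q6 1 0 0 0 := by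
  ext i j
  fin_cases i <;> fin_cases j <;> simp [q6]

theorem q6_zero : (0 : Mat) = q6 0 0 0 0 := by
  ext i j
  fin_cases i <;> fin_cases j <;> simp [q6]

theorem q6_trace (a b c d : ℝ) : (q6 a b c d).trace = 2 * a := by
  simp [q6, Matrix.trace_fin_two]
  ring

theorem q6_det (a b c d : ℝ) : (q6 a b c d).det = a ^ 2 + b ^ 2 - 3 * c ^ 2 - 3 * d ^ 2 := by
  have h3 : √3 * √3 = (3 : ℝ) := Real.mul_self_sqrt (by norm_num)
  simp [q6, Matrix.det_fin_two]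
  linear_combination (-c ^ 2 - d ^ 2) * h3

/-- normal form of the elements -/
theorem isR6_iff (x : Mat) : IsR6 x ↔ ∃ a β γ δ : ℤ,
    x = q6 (a / 2) (a / 2 + β) (a / 2 + γ) (a / 2 + δ) := by
  constructor
  · rintro ⟨a, b, c, d, h1, h2, h3, rfl⟩
    obtain ⟨β, hβ⟩ : ∃ β : ℤ, b = a + 2 * β := ⟨(b - a) / 2, by omega⟩
    obtain ⟨γ, hγ⟩ : ∃ β : ℤ, c = a + 2 * β := ⟨(c - a) / 2, by omega⟩
    obtain ⟨δ, hδ⟩ : ∃ β : ℤ, d = a + 2 * β := ⟨(d - a) / 2, by omega⟩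
    refine ⟨a, β, γ, δ, ?_⟩
    rw [hβ, hγ, hδ]
    congr 1 <;> push_cast <;> ring
  · rintro ⟨a, β, γ, δ, rfl⟩
    refine ⟨a, a + 2 * β, a + 2 * γ, a + 2 * δ, by omega, by omega, by omega, ?_⟩
    congr 1 <;> push_cast <;> ring

theorem mk (a β γ δ : ℤ) : IsR6 (q6 (a / 2) (a / 2 + β) (a / 2 + γ) (a / 2 + δ)) :=
  (isR6_iff _).2 ⟨a, β, γ, δ, rfl⟩

/-- the order -/
def ring6 : Subring Mat where
  carrier := {x | IsR6 x}
  mul_mem' := by
    intro x y hx hy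
    obtain ⟨a, β, γ, δ, rfl⟩ := (isR6_iff x).1 hx
    obtain ⟨a', β', γ', δ', rfl⟩ := (isR6_iff y).1 hy
    show IsR6 _
    rw [q6_mul, isR6_iff]
    refine ⟨3 * a * a' - (a * β' + a' * β + 2 * β * β') + 3 * (a * γ' + a' * γ + 2 * γ * γ') +
      3 * (a * δ' + a' * δ + 2 * δ * δ'),
      -(a * a') + a * β' + a' * β + β * β' - 3 * (a' * γ) - 3 * γ * γ' - 3 * (a * δ') -
        3 * δ * δ' - 3 * γ * δ' + 3 * δ * γ',
      -(a * a') + a * β' + β * β' - a * γ' - a' * γ - 3 * γ * γ' - 2 * (a * δ') - a' * δ -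
        3 * δ * δ' - β * δ' + δ * β',
      -(a * a') + a' * β + β * β' - a * γ' - 2 * (a' * γ) - 3 * γ * γ' - (a * δ') - a' * δ -
        3 * δ * δ' + β * γ' - γ * β', ?_⟩
    congr 1 <;> push_cast <;> ring
  one_mem' := by
    show IsR6 1
    rw [q6_one, isR6_iff]
    refine ⟨2, -1, -1, -1, ?_⟩
    congr 1 <;> norm_num
  add_mem' := by
    intro x y hx hy
    obtain ⟨a, β, γ, δ, rfl⟩ := (isR6_iff x).1 hx
    obtain ⟨a', β', γ', δ', rfl⟩ := (isR6_iff y).1 hy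
    show IsR6 _
    rw [q6_add, isR6_iff]
    refine ⟨a + a', β + β', γ + γ', δ + δ', ?_⟩
    congr 1 <;> push_cast <;> ring
  zero_mem' := by
    show IsR6 0
    rw [q6_zero, isR6_iff]
    refine ⟨0, 0, 0, 0, ?_⟩
    congr 1 <;> norm_num
  neg_mem' := by
    intro x hx
    obtain ⟨a, β, γ, δ, rfl⟩ := (isR6_iff x).1 hx
    show IsR6 _
    rw [q6_neg, isR6_iff]
    refine ⟨-a, -β, -γ, -δ, ?_⟩
    congr 1 <;> push_cast <;> ring

theorem three_dvd {a b t : ℤ} (h : a ^ 2 + b ^ 2 = 3 * t) : (3 : ℤ) ∣ a ∧ (3 : ℤ) ∣ b := by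
  have h1 : (a ^ 2 + b ^ 2) % 3 = 0 := by rw [h]; omega
  rcases (by omega : a % 3 = 0 ∨ a % 3 = 1 ∨ a % 3 = 2) with ha | ha | ha <;>
  rcases (by omega : b % 3 = 0 ∨ b % 3 = 1 ∨ b % 3 = 2) with hb | hb | hb <;>
  simp [pow_two, Int.add_emod, Int.mul_emod, ha, hb] at h1
  exact ⟨Int.dvd_of_emod_eq_zero ha, Int.dvd_of_emod_eq_zero hb⟩

theorem descent (n : ℕ) : ∀ a b c d : ℤ, a.natAbs + b.natAbs + c.natAbs + d.natAbs ≤ n →
    a ^ 2 + b ^ 2 = 3 * (c ^ 2 + d ^ 2) → a = 0 ∧ b = 0 ∧ c = 0 ∧ d = 0 := by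
  induction n with
  | zero =>
    intro a b c d h _
    omega
  | succ n ih =>
    intro a b c d h e
    obtain ⟨⟨a', rfl⟩, ⟨b', rfl⟩⟩ := three_dvd e
    have e2 : c ^ 2 + d ^ 2 = 3 * (a' ^ 2 + b' ^ 2) := by linarith
    by_cases h0 : a' = 0 ∧ b' = 0
    · obtain ⟨rfl, rfl⟩ := h0
      have hc : c ^ 2 = 0 := by nlinarith [sq_nonneg c, sq_nonneg d]
      have hd : d ^ 2 = 0 := by nlinarith [sq_nonneg c, sq_nonneg d]
      exact ⟨by simp, by simp, pow_eq_zero_iff (two_ne_zero) |>.1 hc,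
        pow_eq_zero_iff (two_ne_zero) |>.1 hd⟩
    · have h3 : c.natAbs + d.natAbs + a'.natAbs + b'.natAbs ≤ n := by omega
      obtain ⟨h4, h5, h6, h7⟩ := ih c d a' b' h3 e2
      exact absurd ⟨h6, h7⟩ h0

theorem ring6_order : QOrder ring6 where
  tr := by
    intro x hx
    obtain ⟨a, β, γ, δ, rfl⟩ := (isR6_iff x).1 hx
    refine ⟨a, ?_⟩
    rw [q6_trace]
    ring
  dt := by
    intro x hx
    obtain ⟨a, β, γ, δ, rfl⟩ := (isR6_iff x).1 hx
    refine ⟨-a ^ 2 + a * β + β ^ 2 - 3 * a * γ - 3 * γ ^ 2 - 3 * a * δ - 3 * δ ^ 2, ?_⟩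
    rw [q6_det]
    push_cast
    ring
  ne := by
    intro x hx h0 hd
    obtain ⟨a, b, c, d, -, -, -, rfl⟩ := hx
    rw [q6_det] at hd
    have h1 : (a : ℝ) ^ 2 + (b : ℝ) ^ 2 = 3 * ((c : ℝ) ^ 2 + (d : ℝ) ^ 2) := by linarith
    have h2 : a ^ 2 + b ^ 2 = 3 * (c ^ 2 + d ^ 2) := by exact_mod_cast h1
    obtain ⟨rfl, rfl, rfl, rfl⟩ := descent _ a b c d le_rfl h2
    apply h0
    rw [q6_zero]
    congr 1 <;> norm_num
  span := by
    have hs : (0 : ℝ) < √3 := Real.sqrt_pos.2 (by norm_num)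
    have hm : ∀ a b c d : ℤ, q6 a b c d ∈ Submodule.span ℝ (ring6 : Set Mat) := by
      intro a b c d
      refine Submodule.subset_span ?_
      refine ⟨2 * a, 2 * b, 2 * c, 2 * d, by omega, by omega, by omega, ?_⟩
      congr 1 <;> push_cast <;> ring
    rw [eq_top_iff]
    intro x _
    have e : x = ((x 0 0 + x 1 1) / 2) • q6 (1 : ℤ) (0 : ℤ) (0 : ℤ) (0 : ℤ) +
        ((x 1 0 - x 0 1) / 2) • q6 (0 : ℤ) (1 : ℤ) (0 : ℤ) (0 : ℤ) +
        ((x 0 0 - x 1 1) / (2 * √3)) • q6 (0 : ℤ) (0 : ℤ) (1 : ℤ) (0 : ℤ) +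
        ((x 0 1 + x 1 0) / (2 * √3)) • q6 (0 : ℤ) (0 : ℤ) (0 : ℤ) (1 : ℤ) := by
      ext i j
      fin_cases i <;> fin_cases j <;> simp [q6] <;> field_simp <;> ring
    rw [e]
    exact Submodule.add_mem _ (Submodule.add_mem _ (Submodule.add_mem _
      (Submodule.smul_mem _ _ (hm 1 0 0 0)) (Submodule.smul_mem _ _ (hm 0 1 0 0)))
      (Submodule.smul_mem _ _ (hm 0 0 1 0))) (Submodule.smul_mem _ _ (hm 0 0 0 1))

end XExQ

theorem prf_ExQ : S_ExQ := ⟨XExQ.ring6, fun _ => Iff.rfl, XExQ.ring6_order⟩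

end Pool.Agent.HoloQUE
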