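import Pool.Agent.Work.MP_d2a4bb_nt.NC.Final
import Pool.Agent.Work.MP_d2a4bb_nt.NC.I_ExQ

/-!
# The order of discriminant 6 as a QuatOrder
-/

set_option autoImplicit false

open MeasureTheory UpperHalfPlane Matrix HQ
open scoped MatrixGroups Manifold ENNReal

noncomputable section

namespace Pool.Agent.HoloQUE

namespace XExQO

/-- the basis vectors -/
def vec : Fin 4 → Mat :=
  ![q6 (1 / 2) (1 / 2) (1 / 2) (1 / 2), q6 0 1 0 0, q6 0 0 1 0, q6 0 0 0 1]

theorem comb (c : Fin 4 → ℝ) : ∑ i, c i • vec i =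
    q6 (c 0 / 2) (c 0 / 2 + c 1) (c 0 / 2 + c 2) (c 0 / 2 + c 3) := by
  rw [Fin.sum_univ_four]
  ext i j
  fin_cases i <;> fin_cases j <;> simp [vec, q6] <;> ring

theorem q6_eq_zero {a b c d : ℝ} (h : q6 a b c d = 0) : a = 0 ∧ b = 0 ∧ c = 0 ∧ d = 0 := by
  have h3 : (0 : ℝ) < √3 := Real.sqrt_pos.2 (by norm_num)
  have e00 : a + c * √3 = 0 := by simpa [q6] using congrFun (congrFun h 0) 0
  have e01 : -b + d * √3 = 0 := by simpa [q6] using congrFun (congrFun h 0) 1
  have e10 : b + d * √3 = 0 := by simpa [q6] using congrFun (congrFun h 1) 0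
  have e11 : a - c * √3 = 0 := by simpa [q6] using congrFun (congrFun h 1) 1
  have ha : a = 0 := by linarith
  have hb : b = 0 := by linarith
  have hc : c * √3 = 0 := by linarith
  have hd : d * √3 = 0 := by linarith
  exact ⟨ha, hb, (mul_eq_zero.1 hc).resolve_right h3.ne', (mul_eq_zero.1 hd).resolve_right h3.ne'⟩

theorem li : LinearIndependent ℝ vec := by
  rw [Fintype.linearIndependent_iff]
  intro c hc
  rw [comb] at hc
  obtain ⟨h0, h1, h2, h3⟩ := q6_eq_zero hc
  intro i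
  fin_cases i
  · change c 0 = 0
    linarith
  · change c 1 = 0
    linarith
  · change c 2 = 0
    linarith
  · change c 3 = 0
    linarith

theorem card_eq : Fintype.card (Fin 4) = Module.finrank ℝ Mat := by
  rw [Module.finrank_matrix]
  simp

/-- the basis -/
def bas : Module.Basis (Fin 4) ℝ Mat := basisOfLinearIndependentOfCardEqFinrank li card_eq

theorem bas_apply (i : Fin 4) : bas i = vec i := by
  unfold bas
  rw [coe_basisOfLinearIndependentOfCardEqFinrank]

end XExQO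

theorem prf_ExQO : S_ExQO := by
  refine ⟨⟨XExQ.ring6, XExQO.bas, ?_, XExQ.ring6_order.ne⟩, fun x => Iff.rfl⟩
  intro x
  have h0 : x ∈ XExQ.ring6 ↔ IsR6 x := Iff.rfl
  rw [h0, XExQ.isR6_iff]
  simp only [XExQO.bas_apply]
  constructor
  · rintro ⟨a, β, γ, δ, rfl⟩
    refine ⟨![a, β, γ, δ], ?_⟩
    rw [XExQO.comb]
    rfl
  · rintro ⟨c, rfl⟩
    refine ⟨c 0, c 1, c 2, c 3, ?_⟩
    rw [XExQO.comb]

end Pool.Agent.HoloQUE
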