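import Pool.Agent.Work.MP_d2a4bb_nt.NC.Stmts

/-!
# Basic facts
-/

set_option autoImplicit false

open MeasureTheory UpperHalfPlane Matrix
open scoped MatrixGroups ModularForm Manifold ENNReal Classical

noncomputable section

namespace Pool.Agent.HoloQUE

variable {O : Subring Mat}

theorem adj_eq (x : Mat) : x.adjugate = x.trace • (1 : Mat) - x := by
  ext i j
  fin_cases i <;> fin_cases j <;>
    simp [Matrix.adjugate_fin_two, Matrix.trace_fin_two]

theorem adj_adj (x : Mat) : x.adjugate.adjugate = x := by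
  ext i j
  fin_cases i <;> fin_cases j <;> simp [Matrix.adjugate_fin_two]

theorem adj_smul (a : ℝ) (x : Mat) : (a • x).adjugate = a • x.adjugate := by
  ext i j
  fin_cases i <;> fin_cases j <;> simp [Matrix.adjugate_fin_two]

theorem adj_mul (x y : Mat) : (x * y).adjugate = y.adjugate * x.adjugate :=
  Matrix.adjugate_mul_distrib x y

theorem det_adj (x : Mat) : x.adjugate.det = x.det := by
  simp [Matrix.det_fin_two, Matrix.adjugate_fin_two]
  ring

theorem det_smul2 (a : ℝ) (x : Mat) : (a • x).det = a ^ 2 * x.det := by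
  simp

theorem mul_adj (x : Mat) : x * x.adjugate = x.det • (1 : Mat) := Matrix.mul_adjugate x

theorem adj_mul_self (x : Mat) : x.adjugate * x = x.det • (1 : Mat) := Matrix.adjugate_mul x

theorem intc_mem (O : Subring Mat) (n : ℤ) : (n : ℝ) • (1 : Mat) ∈ O := by
  have h : (n : ℝ) • (1 : Mat) = n • (1 : Mat) := Int.cast_smul_eq_zsmul ℝ n (1 : Mat)
  rw [h]
  exact O.zsmul_mem O.one_mem n

theorem natc_mem (O : Subring Mat) (n : ℕ) : (n : ℝ) • (1 : Mat) ∈ O := by
  have h := intc_mem O (n : ℤ)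
  simpa using h

theorem int_smul_mem {x : Mat} (n : ℤ) (hx : x ∈ O) : (n : ℝ) • x ∈ O := by
  have h := O.mul_mem (intc_mem O n) hx
  rwa [smul_mul_assoc, one_mul] at h

theorem nat_smul_mem {x : Mat} (n : ℕ) (hx : x ∈ O) : (n : ℝ) • x ∈ O := by
  have h := int_smul_mem (n : ℤ) hx
  simpa using h

theorem QOrder.adj_mem (hO : QOrder O) {x : Mat} (hx : x ∈ O) : x.adjugate ∈ O := by
  obtain ⟨n, hn⟩ := hO.tr x hx
  rw [adj_eq, hn]
  exact O.sub_mem (intc_mem O n) hx

theorem coe_inv (g : G2) : ((g⁻¹ : G2) : Mat) = (g : Mat).det⁻¹ • (g : Mat).adjugate := by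
  rw [Matrix.coe_units_inv, Matrix.inv_def, Ring.inverse_eq_inv']

theorem det_ne (g : G2) : (g : Mat).det ≠ 0 := g.det_ne_zero

theorem QOrder.mem_normOne (hO : QOrder O) {g : G2} :
    g ∈ normOne O ↔ (g : Mat) ∈ O ∧ (g : Mat).det = 1 := by
  constructor
  · rintro ⟨h1, -, h3⟩
    exact ⟨h1, h3⟩
  · rintro ⟨h1, h3⟩
    refine ⟨h1, ?_, h3⟩
    rw [coe_inv, h3, inv_one, one_smul]
    exact hO.adj_mem h1

theorem mem_Rn {n : ℕ} {x : G2} : x ∈ Rn O n ↔ (x : Mat) ∈ O ∧ (x : Mat).det = n := Iff.rfl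

/-- The scalar matrix as an element of `GL₂(ℝ)`. -/
theorem coe_scalar (a : ℝˣ) :
    ((GeneralLinearGroup.scalar (Fin 2) a : G2) : Mat) = (a : ℝ) • (1 : Mat) := by
  ext i j
  fin_cases i <;> fin_cases j <;> simp

theorem scalar_comm (a : ℝˣ) (g : G2) :
    g * GeneralLinearGroup.scalar (Fin 2) a = GeneralLinearGroup.scalar (Fin 2) a * g := by
  apply Units.ext
  rw [Units.val_mul, Units.val_mul, coe_scalar, mul_smul_comm, smul_mul_assoc, mul_one, one_mul]

/-- An element of `GL₂(ℝ)` from a matrix with nonzero determinant. -/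
theorem exists_G2 {x : Mat} (hx : x.det ≠ 0) : ∃ g : G2, (g : Mat) = x :=
  ⟨GeneralLinearGroup.mkOfDetNeZero x hx, rfl⟩

theorem ext_G2 {g h : G2} (e : (g : Mat) = h) : g = h := Units.ext e

/-- If `y = u x` with `u ∈ O` and `det x = det y` then `y x⁻¹ ∈ O¹`. -/
theorem QOrder.normOne_of_eq (hO : QOrder O) {x y : G2} {u : Mat} (hu : u ∈ O)
    (h : (y : Mat) = u * x) (hd : (y : Mat).det = (x : Mat).det) : y * x⁻¹ ∈ normOne O := by
  have hx := det_ne x
  have h1 : ((y * x⁻¹ : G2) : Mat) = u := by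
    rw [Units.val_mul, h, mul_assoc, ← Units.val_mul, mul_inv_cancel, Units.val_one, mul_one]
  rw [hO.mem_normOne, h1]
  refine ⟨hu, ?_⟩
  rw [h, Matrix.det_mul] at hd
  exact mul_right_cancel₀ hx (by rw [hd, one_mul])

end Pool.Agent.HoloQUE
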