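import Mathlib
import Pool.Agent.Work.MP_d2a4bb_nt.NC.Basic

/-!
# Reduction modulo `p` of the order of discriminant `6` (item ExR)
-/

set_option autoImplicit false

open MeasureTheory UpperHalfPlane Matrix
open scoped MatrixGroups ModularForm Manifold ENNReal Classical

noncomputable section

namespace Pool.Agent.HoloQUE

namespace XExR

theorem q6_inj {a b c d a' b' c' d' : ℝ} (h : q6 a b c d = q6 a' b' c' d') :
    a = a' ∧ b = b' ∧ c = c' ∧ d = d' := by
  have h00 := congrFun (congrFun h 0) 0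
  have h01 := congrFun (congrFun h 0) 1
  have h10 := congrFun (congrFun h 1) 0
  have h11 := congrFun (congrFun h 1) 1
  simp only [q6, Matrix.of_apply, Matrix.cons_val', Matrix.cons_val_zero, Matrix.cons_val_one,
    Matrix.cons_val_fin_one] at h00 h01 h10 h11
  have hs : (0 : ℝ) < √3 := by positivity
  refine ⟨by linarith, by linarith, ?_, ?_⟩
  · have h1 : c * √3 = c' * √3 := by linarith
    exact mul_right_cancel₀ hs.ne' h1
  · have h1 : d * √3 = d' * √3 := by linarith
    exact mul_right_cancel₀ hs.ne' h1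

theorem q6h_inj {a b c d a' b' c' d' : ℤ}
    (h : q6 ((a : ℝ) / 2) ((b : ℝ) / 2) ((c : ℝ) / 2) ((d : ℝ) / 2) =
      q6 ((a' : ℝ) / 2) ((b' : ℝ) / 2) ((c' : ℝ) / 2) ((d' : ℝ) / 2)) :
    a = a' ∧ b = b' ∧ c = c' ∧ d = d' := by
  obtain ⟨h1, h2, h3, h4⟩ := q6_inj h
  refine ⟨?_, ?_, ?_, ?_⟩
  · have : (a : ℝ) = a' := by linarith
    exact_mod_cast this
  · have : (b : ℝ) = b' := by linarith
    exact_mod_cast this
  · have : (c : ℝ) = c' := by linarith
    exact_mod_cast this
  · have : (d : ℝ) = d' := by linarith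
    exact_mod_cast this

theorem q6_mul (a b c d a' b' c' d' : ℝ) : q6 a b c d * q6 a' b' c' d' =
    q6 (a * a' - b * b' + 3 * (c * c') + 3 * (d * d'))
      (a * b' + b * a' - 3 * (c * d') + 3 * (d * c'))
      (a * c' + c * a' - b * d' + d * b') (a * d' + d * a' + b * c' - c * b') := by
  have hs : √3 * √3 = (3 : ℝ) := Real.mul_self_sqrt (by norm_num)
  have hs' : √3 ^ 2 = (3 : ℝ) := Real.sq_sqrt (by norm_num)
  unfold q6
  ext i j
  fin_cases i <;> fin_cases j
  · simp [Matrix.mul_apply, Fin.sum_univ_two]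
    linear_combination (c * c' + d * d') * hs'
  · simp [Matrix.mul_apply, Fin.sum_univ_two]
    linear_combination (c * d' - d * c') * hs'
  · simp [Matrix.mul_apply, Fin.sum_univ_two]
    linear_combination (d * c' - c * d') * hs'
  · simp [Matrix.mul_apply, Fin.sum_univ_two]
    linear_combination (c * c' + d * d') * hs'

theorem q6_add (a b c d a' b' c' d' : ℝ) : q6 a b c d + q6 a' b' c' d' =
    q6 (a + a') (b + b') (c + c') (d + d') := by
  unfold q6
  ext i j
  fin_cases i <;> fin_cases j <;> simp <;> ring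

theorem q6_smul (r a b c d : ℝ) : r • q6 a b c d = q6 (r * a) (r * b) (r * c) (r * d) := by
  unfold q6
  ext i j
  fin_cases i <;> fin_cases j <;> simp <;> ring

theorem q6_one : q6 1 0 0 0 = 1 := by
  unfold q6
  ext i j
  fin_cases i <;> fin_cases j <;> simp

theorem q6_zero : q6 0 0 0 0 = 0 := by
  unfold q6
  ext i j
  fin_cases i <;> fin_cases j <;> simp

/-- the reduced matrix -/
def R {p : ℕ} (h s t a b c d : ZMod p) : Matrix (Fin 2) (Fin 2) (ZMod p) :=
  !![h * (a + c * s - d * t), h * (-b + c * t + d * s);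
    h * (b + c * t + d * s), h * (a - c * s + d * t)]

theorem R_mul {p : ℕ} {h s t a b c d a' b' c' d' A B C D : ZMod p} (h2 : 2 * h = 1)
    (hst : s ^ 2 + t ^ 2 = 3)
    (hA : 2 * A = a * a' - b * b' + 3 * (c * c') + 3 * (d * d'))
    (hB : 2 * B = a * b' + b * a' - 3 * (c * d') + 3 * (d * c'))
    (hC : 2 * C = a * c' + c * a' - b * d' + d * b')
    (hD : 2 * D = a * d' + d * a' + b * c' - c * b') :
    R h s t A B C D = R h s t a b c d * R h s t a' b' c' d' := by
  have key : ∀ X Y : ZMod p, 2 * X = Y → h * X = h * h * Y := by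
    intro X Y hXY
    linear_combination (h * h) * hXY - h * X * h2
  unfold R
  ext i j
  fin_cases i <;> fin_cases j
  · simp [Matrix.mul_apply, Fin.sum_univ_two]
    rw [key _ ((a + c * s - d * t) * (a' + c' * s - d' * t) +
      (-b + c * t + d * s) * (b' + c' * t + d' * s))]
    · ring
    · linear_combination hA + s * hC - t * hD - (c * c' + d * d') * hst
  · simp [Matrix.mul_apply, Fin.sum_univ_two]
    rw [key _ ((a + c * s - d * t) * (-b' + c' * t + d' * s) +
      (-b + c * t + d * s) * (a' - c' * s + d' * t))]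
    · ring
    · linear_combination -hB + t * hC + s * hD - (c * d' - d * c') * hst
  · simp [Matrix.mul_apply, Fin.sum_univ_two]
    rw [key _ ((b + c * t + d * s) * (a' + c' * s - d' * t) +
      (a - c * s + d * t) * (b' + c' * t + d' * s))]
    · ring
    · linear_combination hB + t * hC + s * hD - (d * c' - c * d') * hst
  · simp [Matrix.mul_apply, Fin.sum_univ_two]
    rw [key _ ((b + c * t + d * s) * (-b' + c' * t + d' * s) +
      (a - c * s + d * t) * (a' - c' * s + d' * t))]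
    · ring
    · linear_combination hA - s * hC + t * hD - (c * c' + d * d') * hst

theorem R_one {p : ℕ} {h s t : ZMod p} (h2 : 2 * h = 1) : R h s t 2 0 0 0 = 1 := by
  unfold R
  ext i j
  fin_cases i <;> fin_cases j <;> simp
  · linear_combination h2
  · linear_combination h2

theorem R_zero {p : ℕ} {h s t : ZMod p} : R h s t 0 0 0 0 = 0 := by
  unfold R
  ext i j
  fin_cases i <;> fin_cases j <;> simp

theorem R_add {p : ℕ} {h s t a b c d a' b' c' d' : ZMod p} :
    R h s t (a + a') (b + b') (c + c') (d + d') = R h s t a b c d + R h s t a' b' c' d' := by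
  unfold R
  ext i j
  fin_cases i <;> fin_cases j <;> simp <;> ring

/-- the kernel of the reduction in coordinates -/
theorem R_eq_zero {p : ℕ} [Fact p.Prime] {h s t a b c d : ZMod p} (h2 : 2 * h = 1)
    (h3 : (3 : ZMod p) ≠ 0) (hst : s ^ 2 + t ^ 2 = 3) (hR : R h s t a b c d = 0) :
    a = 0 ∧ b = 0 ∧ c = 0 ∧ d = 0 := by
  have e00 := congrFun (congrFun hR 0) 0
  have e01 := congrFun (congrFun hR 0) 1
  have e10 := congrFun (congrFun hR 1) 0
  have e11 := congrFun (congrFun hR 1) 1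
  simp only [R, Matrix.of_apply, Matrix.cons_val', Matrix.cons_val_zero, Matrix.cons_val_one,
    Matrix.cons_val_fin_one, Matrix.zero_apply] at e00 e01 e10 e11
  refine ⟨?_, ?_, ?_, ?_⟩
  · linear_combination e00 + e11 - a * h2
  · linear_combination e10 - e01 - b * h2
  · have h4 : 3 * c = 0 := by
      linear_combination s * e00 + t * e01 + t * e10 - s * e11 - 3 * c * h2 - 2 * h * c * hst
    exact (mul_eq_zero.1 h4).resolve_left h3
  · have h4 : 3 * d = 0 := by
      linear_combination s * e01 + s * e10 + t * e11 - t * e00 - 3 * d * h2 - 2 * h * d * hst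
    exact (mul_eq_zero.1 h4).resolve_left h3

/-- the reduction is onto in coordinates -/
theorem R_surj {p : ℕ} [Fact p.Prime] {h s t : ZMod p} (h2 : 2 * h = 1)
    (h3 : (3 : ZMod p) ≠ 0) (hst : s ^ 2 + t ^ 2 = 3) (M : Matrix (Fin 2) (Fin 2) (ZMod p)) :
    ∃ α β γ δ : ZMod p, R h s t (2 * α) (2 * β) (2 * γ) (2 * δ) = M := by
  have hi : (3 : ZMod p) * 3⁻¹ = 1 := mul_inv_cancel₀ h3
  refine ⟨h * (M 0 0 + M 1 1), h * (M 1 0 - M 0 1),
    3⁻¹ * h * (s * (M 0 0 - M 1 1) + t * (M 0 1 + M 1 0)),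
    3⁻¹ * h * (s * (M 0 1 + M 1 0) - t * (M 0 0 - M 1 1)), ?_⟩
  unfold R
  ext i j
  fin_cases i <;> fin_cases j <;>
    simp only [Fin.zero_eta, Fin.mk_one, Matrix.of_apply, Matrix.cons_val', Matrix.cons_val_zero,
      Matrix.cons_val_one, Matrix.cons_val_fin_one]
  · linear_combination (h * (M 0 0 + M 1 1) + 3⁻¹ * h * (M 0 0 - M 1 1) * (s ^ 2 + t ^ 2) +
      M 0 0) * h2 + 3⁻¹ * h * (M 0 0 - M 1 1) * hst + h * (M 0 0 - M 1 1) * hi
  · linear_combination (-h * (M 1 0 - M 0 1) + 3⁻¹ * h * (M 0 1 + M 1 0) * (s ^ 2 + t ^ 2) +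
      M 0 1) * h2 + 3⁻¹ * h * (M 0 1 + M 1 0) * hst + h * (M 0 1 + M 1 0) * hi
  · linear_combination (h * (M 1 0 - M 0 1) + 3⁻¹ * h * (M 0 1 + M 1 0) * (s ^ 2 + t ^ 2) +
      M 1 0) * h2 + 3⁻¹ * h * (M 0 1 + M 1 0) * hst + h * (M 0 1 + M 1 0) * hi
  · linear_combination (h * (M 0 0 + M 1 1) - 3⁻¹ * h * (M 0 0 - M 1 1) * (s ^ 2 + t ^ 2) +
      M 1 1) * h2 - 3⁻¹ * h * (M 0 0 - M 1 1) * hst - h * (M 0 0 - M 1 1) * hi

end XExR

open XExR

theorem prf_ExR : S_ExR := by
  intro O p hO hp hp3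
  have : Fact p.Prime := ⟨hp⟩
  have hp2 : p % 2 = 1 := by
    rcases hp.eq_two_or_odd with h | h
    · omega
    · exact h
  have n2 : (2 : ZMod p) ≠ 0 := by
    intro h
    have h1 : ((2 : ℕ) : ZMod p) = 0 := by exact_mod_cast h
    rw [ZMod.natCast_eq_zero_iff] at h1
    have := Nat.le_of_dvd (by norm_num) h1
    omega
  have n3 : (3 : ZMod p) ≠ 0 := by
    intro h
    have h1 : ((3 : ℕ) : ZMod p) = 0 := by exact_mod_cast h
    rw [ZMod.natCast_eq_zero_iff] at h1
    have := Nat.le_of_dvd (by norm_num) h1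
    omega
  obtain ⟨s, t, hst⟩ := ZMod.sq_add_sq p (3 : ZMod p)
  set h : ZMod p := 2⁻¹ with hh
  have h2 : 2 * h = 1 := mul_inv_cancel₀ n2
  have H : ∀ x : O, ∃ a b c d : ℤ, (a - b) % 2 = 0 ∧ (a - c) % 2 = 0 ∧ (a - d) % 2 = 0 ∧
      (x : Mat) = q6 (a / 2) (b / 2) (c / 2) (d / 2) := fun x => (hO x).1 x.2
  choose a b c d hab hac had hx using H
  have uniq : ∀ (x : O) (a' b' c' d' : ℤ),
      (x : Mat) = q6 ((a' : ℝ) / 2) ((b' : ℝ) / 2) ((c' : ℝ) / 2) ((d' : ℝ) / 2) →
      a x = a' ∧ b x = b' ∧ c x = c' ∧ d x = d' := by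
    intro x a' b' c' d' e
    rw [hx x] at e
    exact q6h_inj e
  have hmul : ∀ x y : O,
      2 * a (x * y) = a x * a y - b x * b y + 3 * (c x * c y) + 3 * (d x * d y) ∧
      2 * b (x * y) = a x * b y + b x * a y - 3 * (c x * d y) + 3 * (d x * c y) ∧
      2 * c (x * y) = a x * c y + c x * a y - b x * d y + d x * b y ∧
      2 * d (x * y) = a x * d y + d x * a y + b x * c y - c x * b y := by
    intro x y
    have e : ((x * y : O) : Mat) = (x : Mat) * (y : Mat) := rfl
    rw [hx (x * y), hx x, hx y, q6_mul] at e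
    obtain ⟨e1, e2, e3, e4⟩ := q6_inj e
    refine ⟨?_, ?_, ?_, ?_⟩
    · have : (2 * a (x * y) : ℝ) =
          a x * a y - b x * b y + 3 * (c x * c y) + 3 * (d x * d y) := by
        linear_combination 4 * e1
      exact_mod_cast this
    · have : (2 * b (x * y) : ℝ) =
          a x * b y + b x * a y - 3 * (c x * d y) + 3 * (d x * c y) := by
        linear_combination 4 * e2
      exact_mod_cast this
    · have : (2 * c (x * y) : ℝ) = a x * c y + c x * a y - b x * d y + d x * b y := by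
        linear_combination 4 * e3
      exact_mod_cast this
    · have : (2 * d (x * y) : ℝ) = a x * d y + d x * a y + b x * c y - c x * b y := by
        linear_combination 4 * e4
      exact_mod_cast this
  have hadd : ∀ x y : O, a (x + y) = a x + a y ∧ b (x + y) = b x + b y ∧
      c (x + y) = c x + c y ∧ d (x + y) = d x + d y := by
    intro x y
    apply uniq
    have e : ((x + y : O) : Mat) = (x : Mat) + (y : Mat) := rfl
    rw [e, hx x, hx y, q6_add]
    push_cast
    congr 1 <;> ring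
  have hone : a 1 = 2 ∧ b 1 = 0 ∧ c 1 = 0 ∧ d 1 = 0 := by
    apply uniq
    have e : ((1 : O) : Mat) = 1 := rfl
    rw [e, ← q6_one]
    push_cast
    norm_num
  have hzero : a 0 = 0 ∧ b 0 = 0 ∧ c 0 = 0 ∧ d 0 = 0 := by
    apply uniq
    have e : ((0 : O) : Mat) = 0 := rfl
    rw [e, ← q6_zero]
    push_cast
    norm_num
  let ρ : O →+* Matrix (Fin 2) (Fin 2) (ZMod p) :=
    { toFun := fun x => R h s t (a x) (b x) (c x) (d x)
      map_one' := by
        obtain ⟨e1, e2, e3, e4⟩ := hone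
        show R h s t (a 1) (b 1) (c 1) (d 1) = 1
        rw [e1, e2, e3, e4]
        push_cast
        exact R_one h2
      map_zero' := by
        obtain ⟨e1, e2, e3, e4⟩ := hzero
        show R h s t (a 0) (b 0) (c 0) (d 0) = 0
        rw [e1, e2, e3, e4]
        push_cast
        exact R_zero
      map_add' := by
        intro x y
        obtain ⟨e1, e2, e3, e4⟩ := hadd x y
        show R h s t (a (x + y)) (b (x + y)) (c (x + y)) (d (x + y)) = _
        rw [e1, e2, e3, e4]
        push_cast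
        exact R_add
      map_mul' := by
        intro x y
        obtain ⟨e1, e2, e3, e4⟩ := hmul x y
        apply R_mul h2 hst
        · exact_mod_cast congrArg (Int.cast : ℤ → ZMod p) e1
        · exact_mod_cast congrArg (Int.cast : ℤ → ZMod p) e2
        · exact_mod_cast congrArg (Int.cast : ℤ → ZMod p) e3
        · exact_mod_cast congrArg (Int.cast : ℤ → ZMod p) e4 }
  have hρ : ∀ x, ρ x = R h s t (a x) (b x) (c x) (d x) := fun x => rfl
  refine ⟨ρ, ?_, ?_⟩
  · intro M
    obtain ⟨α, β, γ, δ, hM⟩ := R_surj h2 n3 hst M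
    obtain ⟨α', rfl⟩ := ZMod.intCast_surjective α
    obtain ⟨β', rfl⟩ := ZMod.intCast_surjective β
    obtain ⟨γ', rfl⟩ := ZMod.intCast_surjective γ
    obtain ⟨δ', rfl⟩ := ZMod.intCast_surjective δ
    have hm : q6 (((2 * α' : ℤ) : ℝ) / 2) (((2 * β' : ℤ) : ℝ) / 2) (((2 * γ' : ℤ) : ℝ) / 2)
        (((2 * δ' : ℤ) : ℝ) / 2) ∈ O :=
      (hO _).2 ⟨2 * α', 2 * β', 2 * γ', 2 * δ', by omega, by omega, by omega, rfl⟩
    refine ⟨⟨_, hm⟩, ?_⟩
    obtain ⟨e1, e2, e3, e4⟩ := uniq ⟨_, hm⟩ (2 * α') (2 * β') (2 * γ') (2 * δ') rfl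
    rw [hρ, e1, e2, e3, e4, ← hM]
    push_cast
    rfl
  · intro x
    constructor
    · intro h0
      rw [hρ] at h0
      obtain ⟨e1, e2, e3, e4⟩ := R_eq_zero h2 n3 hst h0
      rw [ZMod.intCast_zmod_eq_zero_iff_dvd] at e1 e2 e3 e4
      obtain ⟨a', ha'⟩ := e1
      obtain ⟨b', hb'⟩ := e2
      obtain ⟨c', hc'⟩ := e3
      obtain ⟨d', hd'⟩ := e4
      have par : ∀ u v : ℤ, ((p : ℤ) * u - p * v) % 2 = 0 → (u - v) % 2 = 0 := by
        intro u v huv
        have h1 : (2 : ℤ) ∣ p * (u - v) := by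
          have := Int.dvd_of_emod_eq_zero huv
          rwa [← mul_sub] at this
        have h3 : IsCoprime (2 : ℤ) p := by
          have h4 : Nat.Coprime 2 p := by
            rw [Nat.coprime_primes Nat.prime_two hp]
            omega
          exact_mod_cast Nat.isCoprime_iff_coprime.2 h4
        exact Int.emod_eq_zero_of_dvd (h3.dvd_of_dvd_mul_left h1)
      refine ⟨q6 ((a' : ℝ) / 2) ((b' : ℝ) / 2) ((c' : ℝ) / 2) ((d' : ℝ) / 2), ?_, ?_⟩
      · refine (hO _).2 ⟨a', b', c', d', ?_, ?_, ?_, rfl⟩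
        · apply par
          rw [← ha', ← hb']
          exact hab x
        · apply par
          rw [← ha', ← hc']
          exact hac x
        · apply par
          rw [← ha', ← hd']
          exact had x
      · rw [hx x, q6_smul, ha', hb', hc', hd']
        push_cast
        congr 1 <;> ring
    · rintro ⟨y, hy, hxy⟩
      obtain ⟨a', b', c', d', -, -, -, hy'⟩ := (hO y).1 hy
      have e : (x : Mat) = q6 (((p * a' : ℤ) : ℝ) / 2) (((p * b' : ℤ) : ℝ) / 2)
          (((p * c' : ℤ) : ℝ) / 2) (((p * d' : ℤ) : ℝ) / 2) := by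
        rw [hxy, hy', q6_smul]
        push_cast
        congr 1 <;> ring
      obtain ⟨e1, e2, e3, e4⟩ := uniq x _ _ _ _ e
      rw [hρ, e1, e2, e3, e4]
      push_cast
      simp only [CharP.cast_eq_zero, zero_mul]
      exact R_zero

end Pool.Agent.HoloQUE
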