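import Pool.Agent.Work.MP_d2a4bb_nt.NC.Basic

/-!
# Item Pr: many primes in `(N, 3 N]`
-/

set_option autoImplicit false

noncomputable section

namespace Pool.Agent.HoloQUE

namespace XPr

open Real Chebyshev

theorem sum_le (N : ℕ) (hN : 1 ≤ N) :
    θ ((3 * N : ℕ) : ℝ) - θ (N : ℝ) ≤
      (((Finset.Ioc N (3 * N)).filter Nat.Prime).card : ℝ) * Real.log (3 * (N : ℝ)) := by
  have h1 : θ ((3 * N : ℕ) : ℝ) - θ (N : ℝ) =
      ∑ p ∈ (Finset.Ioc N (3 * N)).filter Nat.Prime, Real.log p := by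
    rw [Chebyshev.theta, Chebyshev.theta, Nat.floor_natCast, Nat.floor_natCast,
      sub_eq_iff_eq_add, ← Finset.sum_union]
    · congr 1
      ext p
      simp only [Finset.mem_union, Finset.mem_filter, Finset.mem_Ioc]
      constructor
      · rintro ⟨⟨h2, h3⟩, h4⟩
        by_cases h5 : N < p
        · exact Or.inl ⟨⟨h5, h3⟩, h4⟩
        · exact Or.inr ⟨⟨h2, by omega⟩, h4⟩
      · rintro (⟨⟨h2, h3⟩, h4⟩ | ⟨⟨h2, h3⟩, h4⟩)
        · exact ⟨⟨by omega, h3⟩, h4⟩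
        · exact ⟨⟨h2, by omega⟩, h4⟩
    · rw [Finset.disjoint_left]
      intro p hp hp'
      simp only [Finset.mem_filter, Finset.mem_Ioc] at hp hp'
      omega
  rw [h1, ← nsmul_eq_mul]
  refine Finset.sum_le_card_nsmul _ _ _ fun p hp => ?_
  simp only [Finset.mem_filter, Finset.mem_Ioc] at hp
  have hp0 : (0 : ℝ) < p := by
    have : 0 < p := by omega
    exact_mod_cast this
  refine Real.log_le_log hp0 ?_
  exact_mod_cast hp.1.2

theorem real_bound (δ : ℝ) (hδ : 0 < δ) (hδ' : δ ≤ 1 / 4) (x : ℝ) (hx : 1 ≤ x)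
    (hbig : 38 / δ ≤ x ^ δ) :
    x ^ (1 - 2 * δ) * Real.log (3 * x) + Real.log (3 * x + 1) +
      2 * √(3 * x) * Real.log (3 * x) ≤ x * Real.log 2 := by
  have hx0 : 0 < x := by linarith
  have hlog2 : (1 : ℝ) / 2 ≤ Real.log 2 := by
    have := Real.log_two_gt_d9
    linarith
  have h3 : (3 : ℝ) ^ δ ≤ 3 := by
    have := Real.rpow_le_rpow_of_exponent_le (show (1 : ℝ) ≤ 3 by norm_num)
      (show δ ≤ 1 by linarith)
    simpa using this
  have h4 : (4 : ℝ) ^ δ ≤ 4 := by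
    have := Real.rpow_le_rpow_of_exponent_le (show (1 : ℝ) ≤ 4 by norm_num)
      (show δ ≤ 1 by linarith)
    simpa using this
  have hxd : 0 < x ^ δ := Real.rpow_pos_of_pos hx0 δ
  have l1 : Real.log (3 * x) ≤ 3 / δ * x ^ δ := by
    have h := Real.log_le_rpow_div (show 0 ≤ 3 * x by linarith) hδ
    rw [Real.mul_rpow (by norm_num) hx0.le] at h
    refine h.trans ?_
    rw [div_mul_eq_mul_div]
    exact div_le_div_of_nonneg_right (mul_le_mul_of_nonneg_right h3 hxd.le) hδ.le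
  have l2 : Real.log (3 * x + 1) ≤ 4 / δ * x ^ δ := by
    have h0 : Real.log (3 * x + 1) ≤ Real.log (4 * x) :=
      Real.log_le_log (by linarith) (by linarith)
    have h := Real.log_le_rpow_div (show 0 ≤ 4 * x by linarith) hδ
    rw [Real.mul_rpow (by norm_num) hx0.le] at h
    refine h0.trans (h.trans ?_)
    rw [div_mul_eq_mul_div]
    exact div_le_div_of_nonneg_right (mul_le_mul_of_nonneg_right h4 hxd.le) hδ.le
  have e1 : x ^ (1 - 2 * δ) * x ^ δ = x ^ (1 - δ) := by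
    rw [← Real.rpow_add hx0]
    congr 1
    ring
  have l3 : x ^ δ ≤ x ^ (1 - δ) := Real.rpow_le_rpow_of_exponent_le hx (by linarith)
  have l4 : √x * x ^ δ ≤ x ^ (1 - δ) := by
    rw [Real.sqrt_eq_rpow, ← Real.rpow_add hx0]
    exact Real.rpow_le_rpow_of_exponent_le hx (by linarith)
  have l5 : √(3 * x) ≤ 2 * √x := by
    rw [Real.sqrt_le_left (by positivity), mul_pow, Real.sq_sqrt hx0.le]
    linarith
  have l6 : x ^ (1 - δ) * x ^ δ = x := by
    rw [← Real.rpow_add hx0]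
    simp
  have hy : 0 < x ^ (1 - δ) := Real.rpow_pos_of_pos hx0 _
  have hz : 0 < x ^ (1 - 2 * δ) := Real.rpow_pos_of_pos hx0 _
  have hd : 0 < 1 / δ := by positivity
  have t1 : x ^ (1 - 2 * δ) * Real.log (3 * x) ≤ 3 / δ * x ^ (1 - δ) := by
    calc x ^ (1 - 2 * δ) * Real.log (3 * x) ≤ x ^ (1 - 2 * δ) * (3 / δ * x ^ δ) :=
          mul_le_mul_of_nonneg_left l1 hz.le
      _ = 3 / δ * x ^ (1 - δ) := by rw [← e1]; ring
  have t2 : Real.log (3 * x + 1) ≤ 4 / δ * x ^ (1 - δ) :=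
    l2.trans (mul_le_mul_of_nonneg_left l3 (by positivity))
  have t3 : 2 * √(3 * x) * Real.log (3 * x) ≤ 12 / δ * x ^ (1 - δ) := by
    calc 2 * √(3 * x) * Real.log (3 * x) ≤ 2 * (2 * √x) * (3 / δ * x ^ δ) := by
          refine mul_le_mul (by linarith) l1 (Real.log_nonneg (by linarith)) (by positivity)
      _ = 12 / δ * (√x * x ^ δ) := by ring
      _ ≤ 12 / δ * x ^ (1 - δ) := mul_le_mul_of_nonneg_left l4 (by positivity)
  have t4 : 19 / δ * x ^ (1 - δ) ≤ x / 2 := by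
    have h : 38 / δ * x ^ (1 - δ) ≤ x ^ δ * x ^ (1 - δ) := mul_le_mul_of_nonneg_right hbig hy.le
    rw [mul_comm (x ^ δ), l6] at h
    have e : 38 / δ * x ^ (1 - δ) = 2 * (19 / δ * x ^ (1 - δ)) := by ring
    linarith
  have t5 : x / 2 ≤ x * Real.log 2 := by
    nlinarith
  have e2 : 19 / δ * x ^ (1 - δ) =
      3 / δ * x ^ (1 - δ) + 4 / δ * x ^ (1 - δ) + 12 / δ * x ^ (1 - δ) := by ring
  linarith

end XPr

theorem prf_Pr : S_Pr := by
  intro ε hε
  let δ : ℝ := min (ε / 2) (1 / 4)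
  have hδ : 0 < δ := lt_min (by linarith) (by norm_num)
  have hδ' : δ ≤ 1 / 4 := min_le_right _ _
  have hδe : 2 * δ ≤ ε := by
    have : δ ≤ ε / 2 := min_le_left _ _
    linarith
  refine ⟨⌈(38 / δ) ^ (1 / δ)⌉₊ + 1, fun N hN => ?_⟩
  have hN1 : 1 ≤ N := by omega
  have hx : (1 : ℝ) ≤ N := by exact_mod_cast hN1
  have hx0 : (0 : ℝ) < N := by linarith
  have hbig : 38 / δ ≤ (N : ℝ) ^ δ := by
    have h1 : (38 / δ) ^ (1 / δ) ≤ (N : ℝ) := by
      refine (Nat.le_ceil _).trans ?_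
      exact_mod_cast (by omega : ⌈(38 / δ) ^ (1 / δ)⌉₊ ≤ N)
    have h2 := Real.rpow_le_rpow (by positivity) h1 hδ.le
    rwa [← Real.rpow_mul (by positivity), one_div_mul_cancel hδ.ne', Real.rpow_one] at h2
  have hb := XPr.real_bound δ hδ hδ' N hx hbig
  have h1 := XPr.sum_le N hN1
  have h2 := Chebyshev.theta_ge (3 * N)
  have h3 := Chebyshev.theta_le_log4_mul_x (x := (N : ℝ)) hx0.le
  have h4 : Real.log 4 = 2 * Real.log 2 := by
    rw [show (4 : ℝ) = 2 ^ 2 by norm_num, Real.log_pow]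
    norm_num
  rw [h4] at h3
  push_cast at h1 h2
  have hlog : 0 < Real.log (3 * (N : ℝ)) := Real.log_pos (by linarith)
  have h5 : (N : ℝ) ^ (1 - 2 * δ) * Real.log (3 * (N : ℝ)) ≤
      (((Finset.Ioc N (3 * N)).filter Nat.Prime).card : ℝ) * Real.log (3 * (N : ℝ)) := by
    linarith
  have h6 := le_of_mul_le_mul_right h5 hlog
  exact (Real.rpow_le_rpow_of_exponent_le hx (by linarith)).trans h6

end Pool.Agent.HoloQUE
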