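import Pool.Agent.Work.MP_d2a4bb_nt.NC.Basic

/-!
# Item C1b: counting near the identity
-/

set_option autoImplicit false

open MeasureTheory UpperHalfPlane Matrix
open scoped MatrixGroups ModularForm Manifold ENNReal Classical

noncomputable section

namespace Pool.Agent.HoloQUE

namespace XC1b

/-- `cosh x - 1 ≤ (x² / 2) e^128` on `[0, 16]`. -/
theorem cosh_sub_one_le {x : ℝ} (h0 : 0 ≤ x) (h1 : x ≤ 16) :
    Real.cosh x - 1 ≤ x ^ 2 / 2 * Real.exp 128 := by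
  have h2 : Real.cosh x ≤ Real.exp (x ^ 2 / 2) := Real.cosh_le_exp_half_sq x
  have h3 : -(x ^ 2 / 2) + 1 ≤ Real.exp (-(x ^ 2 / 2)) := Real.add_one_le_exp _
  have h4 : Real.exp (-(x ^ 2 / 2)) * Real.exp (x ^ 2 / 2) = 1 := by
    rw [← Real.exp_add]; simp
  have h5 : Real.exp (x ^ 2 / 2) ≤ Real.exp 128 := by
    apply Real.exp_le_exp.mpr
    nlinarith
  have h6 := Real.exp_pos (x ^ 2 / 2)
  have h7 : Real.exp (x ^ 2 / 2) - 1 ≤ x ^ 2 / 2 * Real.exp (x ^ 2 / 2) := by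
    have := mul_le_mul_of_nonneg_right h3 h6.le
    rw [h4] at this
    linarith
  have h8 : x ^ 2 / 2 * Real.exp (x ^ 2 / 2) ≤ x ^ 2 / 2 * Real.exp 128 :=
    mul_le_mul_of_nonneg_left h5 (by positivity)
  linarith

/-- The integer cell of a matrix. -/
def cell (g : G2) : ℤ × ℤ × ℤ × ℤ :=
  (⌊(g : Mat) 0 0 + (g : Mat) 1 1⌋, ⌊(g : Mat) 0 1 - (g : Mat) 1 0⌋,
    ⌊(g : Mat) 0 0 - (g : Mat) 1 1⌋, ⌊(g : Mat) 0 1 + (g : Mat) 1 0⌋)

theorem floor_close {u v : ℝ} (h : ⌊u⌋ = ⌊v⌋) : (u - v) ^ 2 < 1 := by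
  have h1 := Int.abs_sub_lt_one_of_floor_eq_floor h
  rw [abs_lt] at h1
  nlinarith

theorem cell_inj {O : Subring Mat} (hO : QOrder O) {x y : G2} (hx : (x : Mat) ∈ O)
    (hy : (y : Mat) ∈ O) (h : cell x = cell y) : x = y := by
  unfold cell at h
  simp only [Prod.mk.injEq] at h
  obtain ⟨h1, h2, h3, h4⟩ := h
  have k1 := floor_close h1
  have k2 := floor_close h2
  have k3 := floor_close h3
  have k4 := floor_close h4
  have hm : (x : Mat) - (y : Mat) ∈ O := O.sub_mem hx hy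
  obtain ⟨n, hn⟩ := hO.dt _ hm
  have hd : 4 * ((x : Mat) - (y : Mat)).det =
      ((x : Mat) 0 0 + (x : Mat) 1 1 - ((y : Mat) 0 0 + (y : Mat) 1 1)) ^ 2 +
      ((x : Mat) 0 1 - (x : Mat) 1 0 - ((y : Mat) 0 1 - (y : Mat) 1 0)) ^ 2 -
      ((x : Mat) 0 0 - (x : Mat) 1 1 - ((y : Mat) 0 0 - (y : Mat) 1 1)) ^ 2 -
      ((x : Mat) 0 1 + (x : Mat) 1 0 - ((y : Mat) 0 1 + (y : Mat) 1 0)) ^ 2 := by
    rw [Matrix.det_fin_two]
    simp only [Matrix.sub_apply]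
    ring
  rw [hn] at hd
  have p1 := sq_nonneg ((x : Mat) 0 0 + (x : Mat) 1 1 - ((y : Mat) 0 0 + (y : Mat) 1 1))
  have p2 := sq_nonneg ((x : Mat) 0 1 - (x : Mat) 1 0 - ((y : Mat) 0 1 - (y : Mat) 1 0))
  have p3 := sq_nonneg ((x : Mat) 0 0 - (x : Mat) 1 1 - ((y : Mat) 0 0 - (y : Mat) 1 1))
  have p4 := sq_nonneg ((x : Mat) 0 1 + (x : Mat) 1 0 - ((y : Mat) 0 1 + (y : Mat) 1 0))
  have hn0 : n = 0 := by
    have a1 : (n : ℝ) < 1 := by linarith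
    have a2 : (-1 : ℝ) < n := by linarith
    have b1 : n < 1 := by exact_mod_cast a1
    have b2 : -1 < n := by exact_mod_cast a2
    omega
  have h0 : (x : Mat) - (y : Mat) = 0 := by
    by_contra hne
    apply hO.ne _ hm hne
    rw [hn, hn0]; simp
  exact ext_G2 (sub_eq_zero.mp h0)

theorem floor_mem {u U : ℝ} (h : |u| ≤ U) : ⌊u⌋ ∈ Finset.Icc ⌊-U⌋ ⌊U⌋ := by
  rw [abs_le] at h
  rw [Finset.mem_Icc]
  exact ⟨Int.floor_le_floor h.1, Int.floor_le_floor h.2⟩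

theorem card_Icc_le {U : ℝ} (hU : 0 ≤ U) : ((Finset.Icc ⌊-U⌋ ⌊U⌋).card : ℝ) ≤ 2 * U + 2 := by
  rw [Int.card_Icc]
  have h1 : (⌊U⌋ : ℝ) ≤ U := Int.floor_le U
  have h2 : -U < (⌊-U⌋ : ℝ) + 1 := Int.lt_floor_add_one _
  have h3 : (0 : ℤ) ≤ ⌊U⌋ + 1 - ⌊-U⌋ := by
    have : ⌊-U⌋ ≤ ⌊U⌋ := Int.floor_le_floor (by linarith)
    omega
  have h4 : (((⌊U⌋ + 1 - ⌊-U⌋).toNat : ℤ) : ℝ) = ((⌊U⌋ + 1 - ⌊-U⌋ : ℤ) : ℝ) := by
    rw [Int.toNat_of_nonneg h3]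
  have h5 : (((⌊U⌋ + 1 - ⌊-U⌋).toNat : ℕ) : ℝ) = ((⌊U⌋ + 1 - ⌊-U⌋ : ℤ) : ℝ) := by
    rw [← h4]; exact (Int.cast_natCast _).symm
  rw [h5]
  push_cast
  linarith

end XC1b

open XC1b in
/-- Item C1b. -/
theorem prf_C1b (h1 : S_Geo) : S_C1b := by
  set E : ℝ := Real.exp 128 with hE
  have hE1 : 1 ≤ E := Real.one_le_exp (by norm_num)
  set A : ℝ := √(300 * E) with hA
  set B : ℝ := √E with hB
  have hA0 : 0 ≤ A := Real.sqrt_nonneg _
  have hB0 : 0 ≤ B := Real.sqrt_nonneg _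
  have hA2 : A ^ 2 = 300 * E := Real.sq_sqrt (by positivity)
  have hB2 : B ^ 2 = E := Real.sq_sqrt (by positivity)
  refine ⟨(2 * A + 2) ^ 2 * (2 * B + 2) ^ 2, by positivity, ?_⟩
  intro O ρ X hO hρ0 hρ hX
  set s : ℝ := √X with hs
  have hs1 : 1 ≤ s := by
    rw [hs]; exact Real.one_le_sqrt.mpr hX
  have hs2 : s ^ 2 = X := Real.sq_sqrt (by linarith)
  set U : ℝ := A * s with hU
  set V : ℝ := B * (s * ρ) with hV
  have hU0 : 0 ≤ U := by positivity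
  have hV0 : 0 ≤ V := by positivity
  set T : Finset (ℤ × ℤ × ℤ × ℤ) := Finset.Icc ⌊-U⌋ ⌊U⌋ ×ˢ Finset.Icc ⌊-U⌋ ⌊U⌋ ×ˢ
    Finset.Icc ⌊-V⌋ ⌊V⌋ ×ˢ Finset.Icc ⌊-V⌋ ⌊V⌋ with hT
  have hmaps : ∀ g ∈ C1 O (Sb I ρ) X, cell g ∈ (T : Set (ℤ × ℤ × ℤ × ℤ)) := by
    rintro g ⟨⟨hdet, hdist⟩, hgO, -, hgX⟩
    obtain ⟨g1, g2⟩ := h1 g hdet
    have hd0 : 0 ≤ dist (g • I) I := dist_nonneg
    have hc := cosh_sub_one_le hd0 (hdist.trans hρ)
    have hdd : dist (g • I) I ^ 2 ≤ ρ ^ 2 := by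
      exact pow_le_pow_left₀ hd0 hdist 2
    have hc1 : Real.cosh (dist (g • I) I) - 1 ≤ ρ ^ 2 / 2 * E :=
      hc.trans (mul_le_mul_of_nonneg_right (by linarith) (by positivity))
    have hc0 : 0 ≤ Real.cosh (dist (g • I) I) - 1 := by
      have := Real.one_le_cosh (dist (g • I) I)
      linarith
    have q1 : ((g : Mat) 0 0 - (g : Mat) 1 1) ^ 2 + ((g : Mat) 0 1 + (g : Mat) 1 0) ^ 2 ≤
        V ^ 2 := by
      rw [g1]
      have : 2 * (g : Mat).det * (Real.cosh (dist (g • I) I) - 1) ≤ 2 * X * (ρ ^ 2 / 2 * E) := by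
        apply mul_le_mul (by linarith) hc1 hc0 (by positivity)
      refine this.trans (le_of_eq ?_)
      rw [hV, mul_pow, mul_pow, hB2, hs2]
      ring
    have q2 : ((g : Mat) 0 0 + (g : Mat) 1 1) ^ 2 + ((g : Mat) 0 1 - (g : Mat) 1 0) ^ 2 ≤
        U ^ 2 := by
      rw [g2]
      have hρ2 : ρ ^ 2 ≤ 256 := by nlinarith
      have e1 : Real.cosh (dist (g • I) I) + 1 ≤ 150 * E := by nlinarith
      have : 2 * (g : Mat).det * (Real.cosh (dist (g • I) I) + 1) ≤ 2 * X * (150 * E) := by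
        apply mul_le_mul (by linarith) e1 (by linarith) (by positivity)
      refine this.trans (le_of_eq ?_)
      rw [hU, mul_pow, hA2, hs2]
      ring
    have r1 : |(g : Mat) 0 0 + (g : Mat) 1 1| ≤ U := by
      apply abs_le_of_sq_le_sq _ hU0
      nlinarith [sq_nonneg ((g : Mat) 0 1 - (g : Mat) 1 0)]
    have r2 : |(g : Mat) 0 1 - (g : Mat) 1 0| ≤ U := by
      apply abs_le_of_sq_le_sq _ hU0
      nlinarith [sq_nonneg ((g : Mat) 0 0 + (g : Mat) 1 1)]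
    have r3 : |(g : Mat) 0 0 - (g : Mat) 1 1| ≤ V := by
      apply abs_le_of_sq_le_sq _ hV0
      nlinarith [sq_nonneg ((g : Mat) 0 1 + (g : Mat) 1 0)]
    have r4 : |(g : Mat) 0 1 + (g : Mat) 1 0| ≤ V := by
      apply abs_le_of_sq_le_sq _ hV0
      nlinarith [sq_nonneg ((g : Mat) 0 0 - (g : Mat) 1 1)]
    rw [Finset.mem_coe, hT]
    simp only [cell, Finset.mem_product]
    exact ⟨floor_mem r1, floor_mem r2, floor_mem r3, floor_mem r4⟩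
  have hinj : Set.InjOn cell (C1 O (Sb I ρ) X) := by
    rintro x ⟨-, hx, -⟩ y ⟨-, hy, -⟩ h
    exact cell_inj hO hx hy h
  refine ⟨Set.Finite.of_injOn hmaps hinj T.finite_toSet, ?_⟩
  have hn : (C1 O (Sb I ρ) X).ncard ≤ T.card := by
    have := Set.ncard_le_ncard_of_injOn cell hmaps hinj T.finite_toSet
    rwa [Set.ncard_coe_finset] at this
  have hcard : (T.card : ℝ) ≤ (2 * U + 2) * ((2 * U + 2) * ((2 * V + 2) * (2 * V + 2))) := by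
    rw [hT]
    simp only [Finset.card_product, Nat.cast_mul]
    have cU := card_Icc_le hU0
    have cV := card_Icc_le hV0
    gcongr
  have hn' : ((C1 O (Sb I ρ) X).ncard : ℝ) ≤ T.card := by exact_mod_cast hn
  refine (hn'.trans hcard).trans ?_
  have u1 : 2 * U + 2 ≤ (2 * A + 2) * s := by rw [hU]; nlinarith
  have v1 : 2 * V + 2 ≤ (2 * B + 2) * (1 + s * ρ) := by
    rw [hV]
    have : 0 ≤ s * ρ := by positivity
    nlinarith
  have hsr : 0 ≤ s * ρ := by positivity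
  calc (2 * U + 2) * ((2 * U + 2) * ((2 * V + 2) * (2 * V + 2)))
      ≤ ((2 * A + 2) * s) * (((2 * A + 2) * s) *
          (((2 * B + 2) * (1 + s * ρ)) * ((2 * B + 2) * (1 + s * ρ)))) := by gcongr
    _ = (2 * A + 2) ^ 2 * (2 * B + 2) ^ 2 * s ^ 2 * (1 + s * ρ) ^ 2 := by ring
    _ = (2 * A + 2) ^ 2 * (2 * B + 2) ^ 2 * X * (1 + s * ρ) ^ 2 := by rw [hs2]

end Pool.Agent.HoloQUE
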