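import Pool.Agent.Work.MP_d2a4bb_nt.NC.Basic

/-!
# Item C2b: counting elements whose norm is a square
-/

set_option autoImplicit false

open MeasureTheory UpperHalfPlane Matrix
open scoped MatrixGroups ModularForm Manifold ENNReal Classical

noncomputable section

namespace Pool.Agent.HoloQUE

namespace XC2b

theorem cosh_bd {x : ℝ} (h0 : 0 ≤ x) (h1 : x ≤ 16) :
    2 * (Real.cosh x - 1) ≤ Real.exp 64 ^ 2 * x ^ 2 := by
  have h2 : Real.cosh x ≤ Real.exp (x ^ 2 / 2) := Real.cosh_le_exp_half_sq x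
  have h3 : Real.exp (x ^ 2 / 2) - 1 ≤ x ^ 2 / 2 * Real.exp (x ^ 2 / 2) := by
    have h4 : 1 - x ^ 2 / 2 ≤ Real.exp (-(x ^ 2 / 2)) := by
      have := Real.add_one_le_exp (-(x ^ 2 / 2))
      linarith
    have h5 : Real.exp (-(x ^ 2 / 2)) * Real.exp (x ^ 2 / 2) = 1 := by
      rw [← Real.exp_add]
      simp
    have h6 := mul_le_mul_of_nonneg_right h4 (Real.exp_pos (x ^ 2 / 2)).le
    linarith
  have h6 : Real.exp (x ^ 2 / 2) ≤ Real.exp 64 ^ 2 := by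
    rw [← Real.exp_nat_mul]
    apply Real.exp_le_exp.mpr
    push_cast
    nlinarith
  have h7 := mul_le_mul_of_nonneg_left h6 (sq_nonneg x)
  nlinarith

/-- The constant of the item. -/
def K : ℝ := 20 * Real.exp 64

theorem K_ge : 1 ≤ K := by
  have : 1 ≤ Real.exp 64 := Real.one_le_exp (by norm_num)
  unfold K
  linarith

theorem K_ge2 : Real.exp 64 ≤ K := by
  have : 0 ≤ Real.exp 64 := (Real.exp_pos _).le
  unfold K
  linarith

theorem bds (h1 : S_Geo) {g : G2} {m ρ : ℝ} (hm : 0 < m) (hd : (g : Mat).det = m ^ 2)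
    (h0 : 0 ≤ ρ) (h16 : ρ ≤ 16) (hg : dist (g • I) I ≤ ρ) :
    |(g : Mat) 0 0 - (g : Mat) 1 1| ≤ K * (m * ρ) ∧
      |(g : Mat) 0 1 + (g : Mat) 1 0| ≤ K * (m * ρ) ∧
      |(g : Mat) 0 1 - (g : Mat) 1 0| ≤ K * m := by
  have hdp : 0 < (g : Mat).det := by rw [hd]; positivity
  obtain ⟨e1, e2⟩ := h1 g hdp
  have hdist : 0 ≤ dist (g • I) I := dist_nonneg
  have hc := cosh_bd hdist (hg.trans h16)
  have hE : 1 ≤ Real.exp 64 := Real.one_le_exp (by norm_num)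
  have hdd : dist (g • I) I ^ 2 ≤ ρ ^ 2 := pow_le_pow_left₀ hdist hg 2
  have hc2 : 2 * (Real.cosh (dist (g • I) I) - 1) ≤ Real.exp 64 ^ 2 * ρ ^ 2 :=
    hc.trans (mul_le_mul_of_nonneg_left hdd (by positivity))
  have hm2 : 0 < m ^ 2 := by positivity
  have hb1 : ((g : Mat) 0 0 - (g : Mat) 1 1) ^ 2 + ((g : Mat) 0 1 + (g : Mat) 1 0) ^ 2 ≤
      (Real.exp 64 * (m * ρ)) ^ 2 := by
    rw [e1, hd]
    have := mul_le_mul_of_nonneg_left hc2 hm2.le
    calc 2 * m ^ 2 * (Real.cosh (dist (g • I) I) - 1)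
        = m ^ 2 * (2 * (Real.cosh (dist (g • I) I) - 1)) := by ring
      _ ≤ m ^ 2 * (Real.exp 64 ^ 2 * ρ ^ 2) := this
      _ = (Real.exp 64 * (m * ρ)) ^ 2 := by ring
  have hb2 : ((g : Mat) 0 0 + (g : Mat) 1 1) ^ 2 + ((g : Mat) 0 1 - (g : Mat) 1 0) ^ 2 ≤
      (K * m) ^ 2 := by
    rw [e2, hd]
    have hρ2 : ρ ^ 2 ≤ 256 := by nlinarith
    have h3 : 2 * (Real.cosh (dist (g • I) I) + 1) ≤ K ^ 2 := by
      have h4 : Real.exp 64 ^ 2 * ρ ^ 2 ≤ Real.exp 64 ^ 2 * 256 :=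
        mul_le_mul_of_nonneg_left hρ2 (by positivity)
      have h5 : 1 ≤ Real.exp 64 ^ 2 := one_le_pow₀ hE
      have h6 : K ^ 2 = 400 * Real.exp 64 ^ 2 := by
        unfold K
        ring
      rw [h6]
      linarith
    have := mul_le_mul_of_nonneg_left h3 hm2.le
    calc 2 * m ^ 2 * (Real.cosh (dist (g • I) I) + 1)
        = m ^ 2 * (2 * (Real.cosh (dist (g • I) I) + 1)) := by ring
      _ ≤ m ^ 2 * K ^ 2 := this
      _ = (K * m) ^ 2 := by ring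
  have hmρ : 0 ≤ m * ρ := mul_nonneg hm.le h0
  have hEρ : Real.exp 64 * (m * ρ) ≤ K * (m * ρ) := mul_le_mul_of_nonneg_right K_ge2 hmρ
  have hEρ0 : 0 ≤ Real.exp 64 * (m * ρ) := by positivity
  have hK0 : 0 ≤ K := le_trans zero_le_one K_ge
  refine ⟨?_, ?_, ?_⟩
  · refine (abs_le_of_sq_le_sq ?_ hEρ0).trans hEρ
    nlinarith [sq_nonneg ((g : Mat) 0 1 + (g : Mat) 1 0)]
  · refine (abs_le_of_sq_le_sq ?_ hEρ0).trans hEρ
    nlinarith [sq_nonneg ((g : Mat) 0 0 - (g : Mat) 1 1)]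
  · refine abs_le_of_sq_le_sq ?_ (mul_nonneg hK0 hm.le)
    nlinarith [sq_nonneg ((g : Mat) 0 0 + (g : Mat) 1 1)]

/-- Counting by fibres. -/
theorem count {α β : Type*} (S : Set α) (f : α → β) (B : Finset β) (n : ℕ)
    (hf : ∀ a ∈ S, f a ∈ B)
    (hn : ∀ b ∈ B, {a | a ∈ S ∧ f a = b}.Finite ∧ {a | a ∈ S ∧ f a = b}.ncard ≤ n) :
    S.Finite ∧ S.ncard ≤ n * B.card := by
  have hfin : S.Finite := by
    apply Set.Finite.subset (Set.Finite.biUnion B.finite_toSet (fun b hb => (hn b hb).1))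
    intro a ha
    simp only [Set.mem_iUnion]
    exact ⟨f a, hf a ha, ha, rfl⟩
  refine ⟨hfin, ?_⟩
  rw [Set.ncard_eq_toFinset_card _ hfin]
  apply Finset.card_le_mul_card_image_of_maps_to (f := f) (t := B)
  · intro a ha
    exact hf a (by simpa using ha)
  · intro b hb
    have := (hn b hb).2
    rw [Set.ncard_eq_toFinset_card _ (hn b hb).1] at this
    refine le_trans (le_of_eq ?_) this
    congr 1
    ext a
    simp

theorem inj_count {α β : Type*} (S : Set α) (f : α → β) (B : Finset β) (hf : ∀ a ∈ S, f a ∈ B)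
    (hi : Set.InjOn f S) : S.Finite ∧ S.ncard ≤ B.card := by
  have hsub : f '' S ⊆ (B : Set β) := by
    rintro _ ⟨a, ha, rfl⟩
    exact hf a ha
  have hfin : S.Finite := Set.Finite.of_finite_image (B.finite_toSet.subset hsub) hi
  refine ⟨hfin, ?_⟩
  rw [← hi.ncard_image, ← Set.ncard_coe_finset B]
  exact Set.ncard_le_ncard hsub B.finite_toSet

/-- The matrix `2 x - tr x`. -/
def X0 (x : Mat) : Mat := (2 : ℝ) • x - x.trace • (1 : Mat)

theorem X0_mem {O : Subring Mat} (hO : QOrder O) {x : Mat} (hx : x ∈ O) : X0 x ∈ O := by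
  obtain ⟨n, hn⟩ := hO.tr x hx
  unfold X0
  rw [hn]
  refine O.sub_mem ?_ (intc_mem O n)
  have := int_smul_mem (O := O) 2 hx
  simpa using this

theorem det_X0_sub (x y : Mat) : (X0 x - X0 y).det =
    ((x 0 1 - x 1 0) - (y 0 1 - y 1 0)) ^ 2 - ((x 0 0 - x 1 1) - (y 0 0 - y 1 1)) ^ 2 -
      ((x 0 1 + x 1 0) - (y 0 1 + y 1 0)) ^ 2 := by
  simp [X0, Matrix.det_fin_two, Matrix.trace_fin_two]
  ring

theorem det_X0 (x : Mat) : (X0 x).det =
    (x 0 1 - x 1 0) ^ 2 - (x 0 0 - x 1 1) ^ 2 - (x 0 1 + x 1 0) ^ 2 := by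
  simp [X0, Matrix.det_fin_two, Matrix.trace_fin_two]
  ring

theorem det_X0' (x : Mat) : (X0 x).det = 4 * x.det - x.trace ^ 2 := by
  simp [X0, Matrix.det_fin_two, Matrix.trace_fin_two]
  ring

/-- The cell of an element. -/
def cell (x : Mat) : ℤ × ℤ × ℤ :=
  (⌊2 * (x 0 1 - x 1 0)⌋, ⌊2 * (x 0 0 - x 1 1)⌋, ⌊2 * (x 0 1 + x 1 0)⌋)

theorem X0_eq {O : Subring Mat} (hO : QOrder O) {x y : Mat} (hx : x ∈ O) (hy : y ∈ O)
    (h : cell x = cell y) : X0 x = X0 y := by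
  unfold cell at h
  simp only [Prod.mk.injEq] at h
  obtain ⟨a1, a2, a3⟩ := h
  have f1 := Int.abs_sub_lt_one_of_floor_eq_floor a1
  have f2 := Int.abs_sub_lt_one_of_floor_eq_floor a2
  have f3 := Int.abs_sub_lt_one_of_floor_eq_floor a3
  rw [abs_lt] at f1 f2 f3
  by_contra hne
  have hmem : X0 x - X0 y ∈ O := O.sub_mem (X0_mem hO hx) (X0_mem hO hy)
  have hdet := hO.ne _ hmem (sub_ne_zero.mpr hne)
  obtain ⟨n, hn⟩ := hO.dt _ hmem
  rw [hn] at hdet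
  have hn0 : n ≠ 0 := by
    intro h0
    apply hdet
    rw [h0]
    simp
  rw [det_X0_sub] at hn
  have b1 : (n : ℝ) < 1 := by nlinarith
  have b2 : (-1 : ℝ) < (n : ℝ) := by nlinarith
  have c1 : n < 1 := by exact_mod_cast b1
  have c2 : -1 < n := by exact_mod_cast b2
  omega

theorem recover {x y : Mat} (h : X0 x = X0 y) (ht : x.trace = y.trace) : x = y := by
  unfold X0 at h
  rw [ht] at h
  have h2 : (2 : ℝ) • x = (2 : ℝ) • y := sub_left_inj.mp h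
  exact smul_right_injective Mat (two_ne_zero : (2 : ℝ) ≠ 0) h2

/-- The signed divisors. -/
def sd (D : ℤ) : Finset ℤ :=
  (D.natAbs.divisors.image fun n : ℕ => (n : ℤ)) ∪ (D.natAbs.divisors.image fun n : ℕ => -(n : ℤ))

theorem mem_sd {D u : ℤ} (hD : D ≠ 0) (hu : u ∣ D) : u ∈ sd D := by
  unfold sd
  rw [Finset.mem_union, Finset.mem_image, Finset.mem_image]
  have h1 : u.natAbs ∈ D.natAbs.divisors := by
    rw [Nat.mem_divisors]
    exact ⟨Int.natAbs_dvd_natAbs.mpr hu, by simpa using hD⟩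
  rcases Int.natAbs_eq u with h | h
  · left
    exact ⟨u.natAbs, h1, h.symm⟩
  · right
    exact ⟨u.natAbs, h1, h.symm⟩

theorem card_sd (D : ℤ) : (sd D).card ≤ 2 * D.natAbs.divisors.card := by
  unfold sd
  refine (Finset.card_union_le _ _).trans ?_
  have h1 := Finset.card_image_le (s := D.natAbs.divisors) (f := fun n : ℕ => (n : ℤ))
  have h2 := Finset.card_image_le (s := D.natAbs.divisors) (f := fun n : ℕ => -(n : ℤ))
  omega

/-- The factor `2 m - t`. -/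
def uu (g : G2) : ℤ := ⌊2 * √(g : Mat).det - (g : Mat).trace⌋

/-- The elements of a cell: at most twice the number of divisors. -/
theorem fibre {O : Subring Mat} (hO : QOrder O) (S : Set G2) (b : ℤ × ℤ × ℤ) (N : ℕ)
    (hS : ∀ g ∈ S, (g : Mat) ∈ O ∧ X0 (g : Mat) ≠ 0 ∧ ∃ m : ℕ, (g : Mat).det = (m : ℝ) ^ 2)
    (hb : ∀ g ∈ S, cell (g : Mat) = b)
    (hN : ∀ g ∈ S, ∀ D : ℤ, (X0 (g : Mat)).det = D → 2 * D.natAbs.divisors.card ≤ N) :
    S.Finite ∧ S.ncard ≤ N := by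
  rcases S.eq_empty_or_nonempty with rfl | ⟨g₀, hg₀⟩
  · simp
  obtain ⟨D, hD⟩ := hO.dt _ (X0_mem hO (hS g₀ hg₀).1)
  have hD0 : D ≠ 0 := by
    intro h0
    apply hO.ne _ (X0_mem hO (hS g₀ hg₀).1) (hS g₀ hg₀).2.1
    rw [hD, h0]
    simp
  have hall : ∀ g ∈ S, X0 (g : Mat) = X0 (g₀ : Mat) := fun g hg =>
    X0_eq hO (hS g hg).1 (hS g₀ hg₀).1 ((hb g hg).trans (hb g₀ hg₀).symm)
  have key : ∀ g ∈ S, ∃ (m : ℕ) (t : ℤ), (g : Mat).det = (m : ℝ) ^ 2 ∧ (g : Mat).trace = t ∧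
      uu g = 2 * m - t ∧ (2 * (m : ℤ) - t) * (2 * m + t) = D := by
    intro g hg
    obtain ⟨h1, h2, m, h3⟩ := hS g hg
    obtain ⟨t, ht⟩ := hO.tr _ h1
    refine ⟨m, t, h3, ht, ?_, ?_⟩
    · unfold uu
      rw [h3, ht, Real.sqrt_sq (Nat.cast_nonneg m)]
      have : (2 * (m : ℝ) - (t : ℝ)) = ((2 * (m : ℤ) - t : ℤ) : ℝ) := by push_cast; ring
      rw [this, Int.floor_intCast]
    · have h4 : (X0 (g : Mat)).det = D := by rw [hall g hg, hD]
      rw [det_X0', h3, ht] at h4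
      have h5 : (((2 * (m : ℤ) - t) * (2 * m + t) : ℤ) : ℝ) = (D : ℝ) := by
        push_cast
        rw [← h4]
        ring
      exact_mod_cast h5
  have hmap : ∀ g ∈ S, uu g ∈ sd D := by
    intro g hg
    obtain ⟨m, t, h1, h2, h3, h4⟩ := key g hg
    rw [h3]
    exact mem_sd hD0 ⟨_, h4.symm⟩
  have hinj : Set.InjOn uu S := by
    intro g hg g' hg' he
    obtain ⟨m, t, h1, h2, h3, h4⟩ := key g hg
    obtain ⟨m', t', h1', h2', h3', h4'⟩ := key g' hg'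
    rw [h3, h3'] at he
    have hu : 2 * (m : ℤ) - t ≠ 0 := by
      intro h0
      rw [h0, zero_mul] at h4
      exact hD0 h4.symm
    have h5 : 2 * (m : ℤ) + t = 2 * m' + t' := by
      apply mul_left_cancel₀ hu
      rw [h4, he, h4']
    have h6 : t = t' := by linarith
    apply ext_G2
    apply recover
    · rw [hall g hg, hall g' hg']
    · rw [h2, h2', h6]
  obtain ⟨r1, r2⟩ := inj_count S uu (sd D) hmap hinj
  exact ⟨r1, r2.trans ((card_sd D).trans (hN g₀ hg₀ D hD))⟩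

/-- The integers of an interval. -/
def Jv (r : ℝ) : Finset ℤ := Finset.Icc ⌊-(2 * r)⌋ ⌊2 * r⌋

theorem mem_Jv {r x : ℝ} (h : |x| ≤ r) : ⌊2 * x⌋ ∈ Jv r := by
  rw [abs_le] at h
  unfold Jv
  rw [Finset.mem_Icc]
  exact ⟨Int.floor_le_floor (by linarith), Int.floor_le_floor (by linarith)⟩

theorem card_Jv {r : ℝ} (hr : 0 ≤ r) : ((Jv r).card : ℝ) ≤ 4 * r + 2 := by
  unfold Jv
  rw [Int.card_Icc]
  have h1 : -(2 * r) < ⌊-(2 * r)⌋ + 1 := Int.lt_floor_add_one _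
  have h2 : (⌊2 * r⌋ : ℝ) ≤ 2 * r := Int.floor_le _
  have h3 : 0 ≤ ⌊2 * r⌋ + 1 - ⌊-(2 * r)⌋ := by
    have h4 : ⌊-(2 * r)⌋ ≤ ⌊2 * r⌋ := Int.floor_le_floor (by linarith)
    omega
  have h5 : (((⌊2 * r⌋ + 1 - ⌊-(2 * r)⌋).toNat : ℤ) : ℝ) =
      ((⌊2 * r⌋ + 1 - ⌊-(2 * r)⌋ : ℤ) : ℝ) := by rw [Int.toNat_of_nonneg h3]
  rw [Int.cast_natCast] at h5
  rw [h5]
  push_cast
  linarith

/-- The scalar elements. -/
theorem scal {S : Set G2} {Y : ℝ} (hY : 1 ≤ Y)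
    (hS : ∀ g ∈ S, X0 (g : Mat) = 0 ∧ ∃ m : ℕ, (m : ℝ) ≤ Y ∧ (g : Mat).det = (m : ℝ) ^ 2) :
    S.Finite ∧ (S.ncard : ℝ) ≤ 3 * Y := by
  have key : ∀ g ∈ S, ∃ n : ℤ, |(n : ℝ)| ≤ Y ∧ (g : Mat) = (n : ℝ) • (1 : Mat) := by
    intro g hg
    obtain ⟨h0, m, hm, hd⟩ := hS g hg
    have e1 := congrFun (congrFun h0 0) 0
    have e2 := congrFun (congrFun h0 0) 1
    have e3 := congrFun (congrFun h0 1) 0
    simp [X0, Matrix.trace_fin_two] at e1 e2 e3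
    have e4 : (g : Mat) 1 1 = (g : Mat) 0 0 := by linarith
    rw [Matrix.det_fin_two, e2, e3, e4] at hd
    have hd2 : ((g : Mat) 0 0 - m) * ((g : Mat) 0 0 + m) = 0 := by
      linear_combination hd
    have hmn : (0 : ℝ) ≤ m := Nat.cast_nonneg m
    rcases mul_eq_zero.mp hd2 with h | h
    · refine ⟨m, ?_, ?_⟩
      · rw [Int.cast_natCast, abs_of_nonneg hmn]
        exact hm
      · have e5 : (g : Mat) 0 0 = m := by linarith
        ext i j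
        fin_cases i <;> fin_cases j <;> simp [e2, e3, e4, e5]
    · refine ⟨-m, ?_, ?_⟩
      · rw [Int.cast_neg, abs_neg, Int.cast_natCast, abs_of_nonneg hmn]
        exact hm
      · have e5 : (g : Mat) 0 0 = -m := by linarith
        ext i j
        fin_cases i <;> fin_cases j <;> simp [e2, e3, e4, e5]
  have hmap : ∀ g ∈ S, ⌊(g : Mat) 0 0⌋ ∈ Finset.Icc (-⌊Y⌋) ⌊Y⌋ := by
    intro g hg
    obtain ⟨n, hn, he⟩ := key g hg
    rw [he]
    simp only [Matrix.smul_apply, Matrix.one_apply_eq, smul_eq_mul, mul_one, Int.floor_intCast]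
    rw [abs_le] at hn
    rw [Finset.mem_Icc]
    constructor
    · have : -n ≤ ⌊Y⌋ := Int.le_floor.mpr (by push_cast; linarith)
      omega
    · exact Int.le_floor.mpr hn.2
  have hinj : Set.InjOn (fun g : G2 => ⌊(g : Mat) 0 0⌋) S := by
    intro g hg g' hg' he
    obtain ⟨n, -, h1⟩ := key g hg
    obtain ⟨n', -, h2⟩ := key g' hg'
    simp only at he
    rw [h1, h2] at he
    simp only [Matrix.smul_apply, Matrix.one_apply_eq, smul_eq_mul, mul_one,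
      Int.floor_intCast] at he
    apply ext_G2
    rw [h1, h2, he]
  obtain ⟨r1, r2⟩ := inj_count S _ _ hmap hinj
  refine ⟨r1, ?_⟩
  have h3 : (S.ncard : ℝ) ≤ ((Finset.Icc (-⌊Y⌋) ⌊Y⌋).card : ℝ) := by exact_mod_cast r2
  refine h3.trans ?_
  rw [Int.card_Icc]
  have hf0 : 0 ≤ ⌊Y⌋ := Int.floor_nonneg.mpr (by linarith)
  have h4 : 0 ≤ ⌊Y⌋ + 1 - -⌊Y⌋ := by omega
  have h5 : (((⌊Y⌋ + 1 - -⌊Y⌋).toNat : ℤ) : ℝ) = ((⌊Y⌋ + 1 - -⌊Y⌋ : ℤ) : ℝ) := by
    rw [Int.toNat_of_nonneg h4]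
  rw [Int.cast_natCast] at h5
  rw [h5]
  push_cast
  have h6 : (⌊Y⌋ : ℝ) ≤ Y := Int.floor_le Y
  linarith

end XC2b

open XC2b

theorem prf_C2b (h1 : S_Geo) (h2 : S_Dvb) : S_C2b := by
  intro ε hε
  obtain ⟨C₁, hC₁, hdv⟩ := h2 (ε / 2) (by positivity)
  have hK := K_ge
  have hK0 : 0 < K := by linarith
  set L : ℝ := 2 * C₁ * (513 * K ^ 2) ^ (ε / 2) with hL
  have hL0 : 0 < L := by positivity
  refine ⟨L * (96 * K ^ 3) + 3, by positivity, ?_⟩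
  intro O ρ Y hO hρ0 hρ16 hY
  have hY0 : 0 < Y := by linarith
  set S := C2 O (Sb I ρ) Y with hS
  -- the bounds for the elements of the set
  have hb : ∀ g ∈ S, |(g : Mat) 0 0 - (g : Mat) 1 1| ≤ K * (Y * ρ) ∧
      |(g : Mat) 0 1 + (g : Mat) 1 0| ≤ K * (Y * ρ) ∧
      |(g : Mat) 0 1 - (g : Mat) 1 0| ≤ K * Y := by
    rintro g ⟨⟨hg1, hg2⟩, hg3, m, hm1, hmY, hd⟩
    have hm0 : (0 : ℝ) < m := by exact_mod_cast hm1
    obtain ⟨c1, c2, c3⟩ := bds h1 hm0 hd hρ0 hρ16 hg2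
    have hh : K * (m * ρ) ≤ K * (Y * ρ) :=
      mul_le_mul_of_nonneg_left (mul_le_mul_of_nonneg_right hmY hρ0) hK0.le
    exact ⟨c1.trans hh, c2.trans hh, c3.trans (mul_le_mul_of_nonneg_left hmY hK0.le)⟩
  set S₀ : Set G2 := {g | g ∈ S ∧ X0 (g : Mat) = 0} with hS₀
  set S₁ : Set G2 := {g | g ∈ S ∧ X0 (g : Mat) ≠ 0} with hS₁
  obtain ⟨f0, n0⟩ := scal (S := S₀) hY (by
    rintro g ⟨⟨-, -, m, -, hmY, hd⟩, h0⟩
    exact ⟨h0, m, hmY, hd⟩)
  -- the elements of trace zero part not zero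
  set B : Finset (ℤ × ℤ × ℤ) := Jv (K * Y) ×ˢ (Jv (K * (Y * ρ)) ×ˢ Jv (K * (Y * ρ))) with hB
  set N : ℕ := ⌊L * Y ^ ε⌋₊ with hN
  have hYε : 0 < Y ^ ε := Real.rpow_pos_of_pos hY0 ε
  obtain ⟨f1, n1⟩ := count S₁ (fun g : G2 => cell (g : Mat)) B N (by
      rintro g ⟨hg, -⟩
      obtain ⟨c1, c2, c3⟩ := hb g hg
      simp only [hB, cell, Finset.mem_product]
      exact ⟨mem_Jv c3, mem_Jv c1, mem_Jv c2⟩) (by
      intro b hbB
      apply fibre hO _ b N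
      · rintro g ⟨⟨⟨-, hg, m, -, -, hd⟩, hx⟩, -⟩
        exact ⟨hg, hx, m, hd⟩
      · rintro g ⟨-, hg⟩
        exact hg
      · rintro g ⟨⟨hg, hx⟩, -⟩ D hD
        obtain ⟨c1, c2, c3⟩ := hb g hg
        have hD0 : D ≠ 0 := by
          intro h0
          apply hO.ne _ (X0_mem hO hg.2.1) hx
          rw [hD, h0]
          simp
        have hDn : 0 < D.natAbs := Int.natAbs_pos.mpr hD0
        have hb1 : ((D.natAbs : ℕ) : ℝ) ≤ 513 * K ^ 2 * Y ^ 2 := by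
          have e1 : ((D.natAbs : ℕ) : ℝ) = |(D : ℝ)| := by
            rw [← Int.cast_abs, Int.abs_eq_natAbs]
            simp
          rw [e1, ← hD, det_X0]
          have q1 : ((g : Mat) 0 0 - (g : Mat) 1 1) ^ 2 ≤ (K * (Y * ρ)) ^ 2 :=
            sq_le_sq' (abs_le.mp c1).1 (abs_le.mp c1).2
          have q2 : ((g : Mat) 0 1 + (g : Mat) 1 0) ^ 2 ≤ (K * (Y * ρ)) ^ 2 :=
            sq_le_sq' (abs_le.mp c2).1 (abs_le.mp c2).2
          have q3 : ((g : Mat) 0 1 - (g : Mat) 1 0) ^ 2 ≤ (K * Y) ^ 2 :=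
            sq_le_sq' (abs_le.mp c3).1 (abs_le.mp c3).2
          have q4 : ρ ^ 2 ≤ 256 := by nlinarith
          have q5 : (K * (Y * ρ)) ^ 2 ≤ 256 * (K * Y) ^ 2 := by
            have := mul_le_mul_of_nonneg_left q4 (sq_nonneg (K * Y))
            calc (K * (Y * ρ)) ^ 2 = (K * Y) ^ 2 * ρ ^ 2 := by ring
              _ ≤ (K * Y) ^ 2 * 256 := this
              _ = 256 * (K * Y) ^ 2 := by ring
          have q6 : (K * Y) ^ 2 = K ^ 2 * Y ^ 2 := by ring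
          rw [abs_le]
          constructor
          · nlinarith [sq_nonneg ((g : Mat) 0 1 - (g : Mat) 1 0), sq_nonneg (K * Y)]
          · nlinarith [sq_nonneg ((g : Mat) 0 0 - (g : Mat) 1 1),
              sq_nonneg ((g : Mat) 0 1 + (g : Mat) 1 0), sq_nonneg (K * Y)]
        have hb2 := hdv D.natAbs hDn
        rw [hN]
        apply Nat.le_floor
        push_cast
        have hb3 : ((D.natAbs : ℕ) : ℝ) ^ (ε / 2) ≤ (513 * K ^ 2) ^ (ε / 2) * Y ^ ε := by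
          calc ((D.natAbs : ℕ) : ℝ) ^ (ε / 2) ≤ (513 * K ^ 2 * Y ^ 2) ^ (ε / 2) :=
                Real.rpow_le_rpow (Nat.cast_nonneg _) hb1 (by positivity)
            _ = (513 * K ^ 2) ^ (ε / 2) * (Y ^ 2) ^ (ε / 2) :=
                Real.mul_rpow (by positivity) (by positivity)
            _ = (513 * K ^ 2) ^ (ε / 2) * Y ^ ε := by
                congr 1
                rw [← Real.rpow_natCast Y 2, ← Real.rpow_mul hY0.le]
                congr 1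
                push_cast
                ring
        calc 2 * (D.natAbs.divisors.card : ℝ) ≤ 2 * (C₁ * ((D.natAbs : ℕ) : ℝ) ^ (ε / 2)) := by
              linarith
          _ ≤ 2 * (C₁ * ((513 * K ^ 2) ^ (ε / 2) * Y ^ ε)) := by
              have := mul_le_mul_of_nonneg_left hb3 hC₁.le
              linarith
          _ = L * Y ^ ε := by rw [hL]; ring)
  have hSU : S = S₀ ∪ S₁ := by
    ext g
    simp only [hS₀, hS₁, Set.mem_union, Set.mem_ofPred_eq]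
    tauto
  refine ⟨hSU ▸ f0.union f1, ?_⟩
  have hcard : (S.ncard : ℝ) ≤ (S₀.ncard : ℝ) + (S₁.ncard : ℝ) := by
    have := Set.ncard_union_le S₀ S₁
    rw [← hSU] at this
    exact_mod_cast this
  have hBc : (B.card : ℝ) ≤ (96 * K ^ 3) * (Y * (1 + Y * ρ) ^ 2) := by
    rw [hB, Finset.card_product, Finset.card_product]
    push_cast
    have j1 : ((Jv (K * Y)).card : ℝ) ≤ 6 * (K * Y) := by
      have := card_Jv (r := K * Y) (by positivity)
      have hKY : 1 ≤ K * Y := by nlinarith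
      linarith
    have hYρ : 0 ≤ Y * ρ := by positivity
    have j2 : ((Jv (K * (Y * ρ))).card : ℝ) ≤ 4 * K * (1 + Y * ρ) := by
      have := card_Jv (r := K * (Y * ρ)) (by positivity)
      nlinarith
    have j3 : ((Jv (K * (Y * ρ))).card : ℝ) * ((Jv (K * (Y * ρ))).card : ℝ) ≤
        (4 * K * (1 + Y * ρ)) * (4 * K * (1 + Y * ρ)) :=
      mul_le_mul j2 j2 (Nat.cast_nonneg _) (by positivity)
    calc ((Jv (K * Y)).card : ℝ) * (((Jv (K * (Y * ρ))).card : ℝ) *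
          ((Jv (K * (Y * ρ))).card : ℝ)) ≤
          (6 * (K * Y)) * ((4 * K * (1 + Y * ρ)) * (4 * K * (1 + Y * ρ))) :=
          mul_le_mul j1 j3 (mul_nonneg (Nat.cast_nonneg _) (Nat.cast_nonneg _)) (by positivity)
      _ = (96 * K ^ 3) * (Y * (1 + Y * ρ) ^ 2) := by ring
  have hn1 : (S₁.ncard : ℝ) ≤ (L * Y ^ ε) * ((96 * K ^ 3) * (Y * (1 + Y * ρ) ^ 2)) := by
    have h3 : (S₁.ncard : ℝ) ≤ (N : ℝ) * (B.card : ℝ) := by exact_mod_cast n1
    refine h3.trans (mul_le_mul ?_ hBc (Nat.cast_nonneg _) (by positivity))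
    exact Nat.floor_le (by positivity)
  have hpow : Y ^ (1 + ε) = Y * Y ^ ε := by
    rw [Real.rpow_add hY0, Real.rpow_one]
  have hYρ : 0 ≤ Y * ρ := by positivity
  have hfin : 3 * Y ≤ 3 * (Y ^ (1 + ε) * (1 + Y * ρ) ^ 2) := by
    have g1 : (1 : ℝ) ≤ Y ^ ε := Real.one_le_rpow hY hε.le
    have g2 : (1 : ℝ) ≤ (1 + Y * ρ) ^ 2 := one_le_pow₀ (by linarith)
    have g3 : Y ≤ Y ^ (1 + ε) := by rw [hpow]; nlinarith
    have g4 : Y ^ (1 + ε) ≤ Y ^ (1 + ε) * (1 + Y * ρ) ^ 2 := by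
      have : 0 ≤ Y ^ (1 + ε) := Real.rpow_nonneg hY0.le _
      nlinarith
    linarith
  calc (S.ncard : ℝ) ≤ (S₀.ncard : ℝ) + (S₁.ncard : ℝ) := hcard
    _ ≤ 3 * Y + (L * Y ^ ε) * ((96 * K ^ 3) * (Y * (1 + Y * ρ) ^ 2)) := add_le_add n0 hn1
    _ ≤ 3 * (Y ^ (1 + ε) * (1 + Y * ρ) ^ 2) +
        (L * Y ^ ε) * ((96 * K ^ 3) * (Y * (1 + Y * ρ) ^ 2)) := by linarith
    _ = (L * (96 * K ^ 3) + 3) * Y ^ (1 + ε) * (1 + Y * ρ) ^ 2 := by
        rw [hpow]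
        ring

end Pool.Agent.HoloQUE
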