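import Pool.Agent.Work.MP_d2a4bb_nt.NC.Basic

/-!
# Item Ball: the small ball estimate for amplified functions
-/

set_option autoImplicit false

open MeasureTheory UpperHalfPlane Matrix
open scoped MatrixGroups ModularForm Manifold ENNReal Classical

noncomputable section

namespace Pool.Agent.HoloQUE

namespace XBall

theorem c1z (h3 : S_C1b) (h6 : S_Cj) : ∃ C : ℝ, 0 < C ∧ ∀ (O : Subring Mat) (z : ℍ) (ρ X : ℝ),
    QOrder O → 0 ≤ ρ → ρ ≤ 16 → 1 ≤ X →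
    ∃ m : ℕ, (C1 O (Sb z ρ) X).encard = m ∧ (m : ℝ) ≤ C * X * (1 + √X * ρ) ^ 2 := by
  obtain ⟨C, hC, h⟩ := h3
  refine ⟨C, hC, fun O z ρ X hO h0 h16 hX => ?_⟩
  obtain ⟨g, hg⟩ := MulAction.exists_smul_eq G2 I z
  obtain ⟨hO', hc1, -, hcs⟩ := h6 O g hO
  obtain ⟨hfin, hle⟩ := h (cj g O) ρ X hO' h0 h16 hX
  refine ⟨(C1 (cj g O) (Sb I ρ) X).ncard, ?_, hle⟩
  rw [← hg, ← hcs ρ, hc1]
  exact hfin.cast_ncard_eq.symm

theorem c2z (h4 : S_C2b) (h6 : S_Cj) (ε : ℝ) (hε : 0 < ε) : ∃ C : ℝ, 0 < C ∧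
    ∀ (O : Subring Mat) (z : ℍ) (ρ Y : ℝ), QOrder O → 0 ≤ ρ → ρ ≤ 16 → 1 ≤ Y →
    ∃ m : ℕ, (C2 O (Sb z ρ) Y).encard = m ∧ (m : ℝ) ≤ C * Y ^ (1 + ε) * (1 + Y * ρ) ^ 2 := by
  obtain ⟨C, hC, h⟩ := h4 ε hε
  refine ⟨C, hC, fun O z ρ Y hO h0 h16 hY => ?_⟩
  obtain ⟨g, hg⟩ := MulAction.exists_smul_eq G2 I z
  obtain ⟨hO', -, hc2, hcs⟩ := h6 O g hO
  obtain ⟨hfin, hle⟩ := h (cj g O) ρ Y hO' h0 h16 hY
  refine ⟨(C2 (cj g O) (Sb I ρ) Y).ncard, ?_, hle⟩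
  rw [← hg, ← hcs ρ, hc2]
  exact hfin.cast_ncard_eq.symm

/-- averaging -/
theorem avg (P : Finset ℕ) (A : ℕ → Finset G2) (G : G2 → ℝ) (a c : ℝ) (hP : 0 < P.card)
    (hd : ∀ p ∈ P, ∀ q ∈ P, p ≠ q → Disjoint (A p) (A q))
    (h : ∀ p ∈ P, a ≤ c * ∑ x ∈ A p, G x) :
    a ≤ c / P.card * ∑ x ∈ P.biUnion A, G x := by
  have hP' : (0 : ℝ) < P.card := by exact_mod_cast hP
  rw [Finset.sum_biUnion (fun p hp q hq hpq => hd p hp q hq hpq)]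
  have h1 : (P.card : ℝ) * a ≤ ∑ p ∈ P, c * ∑ x ∈ A p, G x := by
    rw [← nsmul_eq_mul]
    exact Finset.card_nsmul_le_sum P _ a h
  rw [← Finset.mul_sum] at h1
  rw [div_mul_eq_mul_div, le_div_iff₀ hP', mul_comm a]
  exact h1

theorem sq3 {n : ℝ} (hn : 1 ≤ n) : 1 ≤ (3 * n) ^ 2 := one_le_pow₀ (by linarith)

theorem sq289 {r : ℝ} (hr : 0 < r) (hr8 : r ≤ 8) : (1 + 1 * (2 * r)) ^ 2 ≤ 289 := by
  calc (1 + 1 * (2 * r)) ^ 2 ≤ 17 ^ 2 := pow_le_pow_left₀ (by linarith) (by linarith) 2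
    _ = 289 := by norm_num

theorem sumA {a b L x : ℝ} (h : 0 ≤ b * (L * x)) : a * (L * x) ≤ (a + b) * L * x := by
  have e : (a + b) * L * x = a * (L * x) + b * (L * x) := by ring
  rw [e]
  linarith

theorem sumB {a b L x : ℝ} (h : 0 ≤ a * (L * x)) : b * (L * x) ≤ (a + b) * L * x := by
  have e : (a + b) * L * x = a * (L * x) + b * (L * x) := by ring
  rw [e]
  linarith

theorem sc1 {m u : ℝ} (hm : 0 ≤ m) (hu : 1 / 4 ≤ u) : m ≤ (4 * m + 5) * u := by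
  calc m ≤ (4 * m + 5) * (1 / 4) := by linarith
    _ ≤ (4 * m + 5) * u := mul_le_mul_of_nonneg_left hu (by linarith)

theorem sc2 {m u c : ℝ} (hm : 0 ≤ m) (hu : 1 / 4 ≤ u) (hc : c ≤ u + 1) :
    c ≤ (4 * m + 5) * u := by
  have h := mul_nonneg hm (show (0 : ℝ) ≤ u by linarith)
  have e : (4 * m + 5) * u = 4 * (m * u) + 5 * u := by ring
  rw [e]
  linarith

theorem numA (C C₂ n r K1 K2 P : ℝ) (hC : 0 < C) (hn : 1 ≤ n) (hr : 0 < r) (hr8 : r ≤ 8)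
    (hnr : n * r ≤ C₂) (h1 : K1 ≤ C * (3 * n) ^ 2 * (1 + √((3 * n) ^ 2) * (2 * r)) ^ 2)
    (h2 : K2 ≤ C * 1 * (1 + √1 * (2 * r)) ^ 2) (hK2 : 0 ≤ K2) (hP0 : 0 ≤ P) (hP : P ≤ 3 * n) :
    2 * K1 + P * (3 * n + 1) * K2 ≤ C * (18 * (1 + 6 * C₂) ^ 2 + 3468) * n ^ 2 := by
  rw [Real.sqrt_sq (by positivity)] at h1
  rw [Real.sqrt_one] at h2
  have hC2 : 0 ≤ C₂ := le_trans (by positivity) hnr
  have e1 : (1 + 3 * n * (2 * r)) ^ 2 ≤ (1 + 6 * C₂) ^ 2 := by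
    apply pow_le_pow_left₀ (by positivity)
    linarith
  have e2 : K1 ≤ C * (3 * n) ^ 2 * (1 + 6 * C₂) ^ 2 := h1.trans (by gcongr)
  have e3 : (1 + 1 * (2 * r)) ^ 2 ≤ 289 := sq289 hr hr8
  have e4 : K2 ≤ C * 289 := by
    refine h2.trans ?_
    rw [mul_one]
    gcongr
  have e5 : P * (3 * n + 1) ≤ 12 * n ^ 2 := by
    calc P * (3 * n + 1) ≤ 3 * n * (4 * n) := by
          gcongr
          linarith
      _ = 12 * n ^ 2 := by ring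
  have e6 : P * (3 * n + 1) * K2 ≤ 12 * n ^ 2 * (C * 289) :=
    mul_le_mul e5 e4 hK2 (by positivity)
  calc 2 * K1 + P * (3 * n + 1) * K2
      ≤ 2 * (C * (3 * n) ^ 2 * (1 + 6 * C₂) ^ 2) + 12 * n ^ 2 * (C * 289) :=
        add_le_add (mul_le_mul_of_nonneg_left e2 (by norm_num)) e6
    _ = _ := by ring

theorem numB (C C₂ n s t r K1 K2 K3 P ε : ℝ) (hC : 0 < C) (hn : 1 ≤ n) (hr : 0 < r) (hr8 : r ≤ 8)
    (hε : 0 < ε) (hε1 : ε ≤ 1) (hs : s ^ 2 = n) (hs1 : 1 ≤ s) (ht : t = n ^ ε) (ht1 : 1 ≤ t)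
    (hnr : n * r ≤ C₂) (hnr2 : n ^ 2 * r ≤ C₂ * s)
    (h1 : K1 ≤ C * ((3 * n) ^ 2) ^ (1 + ε) * (1 + (3 * n) ^ 2 * (2 * r)) ^ 2)
    (h2 : K2 ≤ C * (3 * n) ^ (1 + ε) * (1 + 3 * n * (2 * r)) ^ 2)
    (h3 : K3 ≤ C * 1 ^ (1 + ε) * (1 + 1 * (2 * r)) ^ 2)
    (hK2 : 0 ≤ K2) (hK3 : 0 ≤ K3) (hP0 : 0 ≤ P) (hP : P ≤ 3 * n) :
    2 * K1 + (3 * n + 1) * K2 + P * (3 * n + 1) ^ 2 * K3 ≤
      C * (162 * (1 + 18 * C₂) ^ 2 + 36 * (1 + 6 * C₂) ^ 2 + 13872) * (n ^ 3 * t ^ 2) := by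
  have hC2 : 0 ≤ C₂ := le_trans (by positivity) hnr
  have hn0 : 0 < n := by linarith
  have h3e : (3 : ℝ) ^ (1 + ε) ≤ 9 := by
    calc (3 : ℝ) ^ (1 + ε) ≤ (3 : ℝ) ^ (2 : ℝ) :=
          Real.rpow_le_rpow_of_exponent_le (by norm_num) (by linarith)
      _ = 9 := by norm_num
  have h3e0 : 0 < (3 : ℝ) ^ (1 + ε) := by positivity
  have hne : n ^ (1 + ε) = n * t := by
    rw [Real.rpow_add hn0, Real.rpow_one, ht]
  have h3n : (3 * n) ^ (1 + ε) ≤ 9 * (n * t) := by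
    rw [Real.mul_rpow (by norm_num) hn0.le, hne]
    gcongr
  have h3n0 : 0 < (3 * n) ^ (1 + ε) := by positivity
  have h9n : ((3 * n) ^ 2) ^ (1 + ε) ≤ 81 * (n ^ 2 * t ^ 2) := by
    have e : ((3 * n) ^ 2) ^ (1 + ε) = ((3 * n) ^ (1 + ε)) ^ 2 := by
      rw [← Real.rpow_natCast (3 * n) 2, ← Real.rpow_mul (by positivity),
        ← Real.rpow_natCast ((3 * n) ^ (1 + ε)) 2, ← Real.rpow_mul (by positivity)]
      congr 1
      ring
    rw [e]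
    calc ((3 * n) ^ (1 + ε)) ^ 2 ≤ (9 * (n * t)) ^ 2 := by gcongr
      _ = 81 * (n ^ 2 * t ^ 2) := by ring
  have e1 : (1 + (3 * n) ^ 2 * (2 * r)) ^ 2 ≤ (1 + 18 * C₂) ^ 2 * n := by
    have : 1 + (3 * n) ^ 2 * (2 * r) ≤ (1 + 18 * C₂) * s := by linarith
    calc (1 + (3 * n) ^ 2 * (2 * r)) ^ 2 ≤ ((1 + 18 * C₂) * s) ^ 2 :=
          pow_le_pow_left₀ (by positivity) this 2
      _ = (1 + 18 * C₂) ^ 2 * n := by rw [mul_pow, hs]
  have e2 : K1 ≤ C * (81 * (n ^ 2 * t ^ 2)) * ((1 + 18 * C₂) ^ 2 * n) := h1.trans (by gcongr)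
  have e3 : (1 + 3 * n * (2 * r)) ^ 2 ≤ (1 + 6 * C₂) ^ 2 := by
    apply pow_le_pow_left₀ (by positivity)
    linarith
  have e4 : K2 ≤ C * (9 * (n * t)) * (1 + 6 * C₂) ^ 2 := h2.trans (by gcongr)
  have e5 : (1 + 1 * (2 * r)) ^ 2 ≤ 289 := sq289 hr hr8
  have e6 : K3 ≤ C * 289 := by
    refine h3.trans ?_
    rw [Real.one_rpow, mul_one]
    gcongr
  have e7 : (3 * n + 1) * K2 ≤ 4 * n * (C * (9 * (n * t)) * (1 + 6 * C₂) ^ 2) := by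
    apply mul_le_mul (by linarith) e4 hK2 (by positivity)
  have e8 : P * (3 * n + 1) ^ 2 ≤ 48 * n ^ 3 := by
    calc P * (3 * n + 1) ^ 2 ≤ 3 * n * (4 * n) ^ 2 := by
          gcongr
          linarith
      _ = 48 * n ^ 3 := by ring
  have e9 : P * (3 * n + 1) ^ 2 * K3 ≤ 48 * n ^ 3 * (C * 289) :=
    mul_le_mul e8 e6 hK3 (by positivity)
  have f1 : n ^ 2 * t ≤ n ^ 3 * t ^ 2 := by
    have a1 : n ^ 2 ≤ n ^ 3 := pow_le_pow_right₀ hn (by norm_num)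
    have a2 : t ≤ t ^ 2 := le_self_pow₀ ht1 two_ne_zero
    exact mul_le_mul a1 a2 (by positivity) (by positivity)
  have f2 : n ^ 3 ≤ n ^ 3 * t ^ 2 := by
    have a2 : 1 ≤ t ^ 2 := one_le_pow₀ ht1
    exact le_mul_of_one_le_right (by positivity) a2
  have g1 : 4 * n * (C * (9 * (n * t)) * (1 + 6 * C₂) ^ 2) ≤
      C * (36 * (1 + 6 * C₂) ^ 2) * (n ^ 3 * t ^ 2) := by
    calc 4 * n * (C * (9 * (n * t)) * (1 + 6 * C₂) ^ 2)
        = C * (36 * (1 + 6 * C₂) ^ 2) * (n ^ 2 * t) := by ring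
      _ ≤ _ := by gcongr
  have g2 : 48 * n ^ 3 * (C * 289) ≤ C * 13872 * (n ^ 3 * t ^ 2) := by
    calc 48 * n ^ 3 * (C * 289) = C * 13872 * n ^ 3 := by ring
      _ ≤ _ := by gcongr
  calc 2 * K1 + (3 * n + 1) * K2 + P * (3 * n + 1) ^ 2 * K3
      ≤ 2 * (C * (81 * (n ^ 2 * t ^ 2)) * ((1 + 18 * C₂) ^ 2 * n)) +
          C * (36 * (1 + 6 * C₂) ^ 2) * (n ^ 3 * t ^ 2) + C * 13872 * (n ^ 3 * t ^ 2) :=
        add_le_add (add_le_add (mul_le_mul_of_nonneg_left e2 (by norm_num)) (e7.trans g1))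
          (e9.trans g2)
    _ = _ := by ring

/-- the final comparison -/
theorem numF (δ ε n t r : ℝ) (hε : 0 < ε) (hε1 : 4 * ε ≤ 1) (hδ : δ ≤ 2 / 3 * (1 - 4 * ε))
    (hr : 0 < r) (hr8 : r ≤ 8) (hn : r ^ (-(2 / 3) : ℝ) ≤ n) (hn1 : 1 ≤ n) (ht : t = n ^ ε) :
    t ^ 4 / n ≤ 8 ^ (2 / 3 * (1 - 4 * ε) - δ) * r ^ δ := by
  have hn0 : 0 < n := by linarith
  have e1 : t ^ 4 / n = n ^ (4 * ε - 1) := by
    rw [ht, ← Real.rpow_natCast, ← Real.rpow_mul hn0.le, Real.rpow_sub hn0, Real.rpow_one]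
    congr 2
    push_cast
    ring
  have e2 : n ^ (4 * ε - 1) ≤ (r ^ (-(2 / 3) : ℝ)) ^ (4 * ε - 1) :=
    Real.rpow_le_rpow_of_nonpos (by positivity) hn (by linarith)
  have e3 : (r ^ (-(2 / 3) : ℝ)) ^ (4 * ε - 1) = r ^ (2 / 3 * (1 - 4 * ε) - δ) * r ^ δ := by
    rw [← Real.rpow_mul hr.le, ← Real.rpow_add hr]
    congr 1
    ring
  rw [e1]
  refine e2.trans ?_
  rw [e3]
  gcongr

/-- the scale -/
theorem scale (N₁ : ℕ) (hN₁ : 1 ≤ N₁) : ∃ C₂ : ℝ, 0 < C₂ ∧ ∀ r : ℝ, 0 < r → r ≤ 8 →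
    ∃ N : ℕ, N₁ ≤ N ∧ r ^ (-(2 / 3) : ℝ) ≤ N ∧ (N : ℝ) * r ≤ C₂ ∧
      (N : ℝ) ^ 2 * r ≤ C₂ * √(N : ℝ) := by
  refine ⟨(4 * N₁ + 5 : ℝ) ^ (3 / 2 : ℝ), by positivity, fun r hr hr8 => ?_⟩
  set u : ℝ := r ^ (-(2 / 3) : ℝ) with hu
  have hu0 : 0 < u := by positivity
  have hu4 : 1 / 4 ≤ u := by
    have h1 : (8 : ℝ) ^ (-(2 / 3) : ℝ) ≤ u :=
      Real.rpow_le_rpow_of_nonpos hr hr8 (by norm_num)
    have h2 : (8 : ℝ) ^ (-(2 / 3) : ℝ) = 1 / 4 := by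
      have h3 : (8 : ℝ) = 2 ^ (3 : ℝ) := by norm_num
      rw [h3, ← Real.rpow_mul (by norm_num)]
      have h4 : (3 : ℝ) * (-(2 / 3)) = -(2 : ℕ) := by norm_num
      rw [h4, Real.rpow_neg (by norm_num), Real.rpow_natCast]
      norm_num
    rwa [h2] at h1
  refine ⟨max N₁ ⌈u⌉₊, le_max_left _ _, ?_, ?_⟩
  · refine (Nat.le_ceil u).trans ?_
    exact_mod_cast le_max_right _ _
  · set N : ℕ := max N₁ ⌈u⌉₊ with hN
    have hN1 : (1 : ℝ) ≤ N := by exact_mod_cast hN₁.trans (le_max_left _ _)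
    have hNu : (N : ℝ) ≤ (4 * N₁ + 5) * u := by
      have h1 : (N : ℝ) = max (N₁ : ℝ) (⌈u⌉₊ : ℝ) := by rw [hN]; push_cast; rfl
      rw [h1]
      have h2 : (⌈u⌉₊ : ℝ) ≤ u + 1 := (Nat.ceil_lt_add_one hu0.le).le
      have h3 : (0 : ℝ) ≤ N₁ := by positivity
      exact max_le (sc1 h3 hu4) (sc2 h3 hu4 h2)
    have hs : (√(N : ℝ)) ^ 2 = N := Real.sq_sqrt (by positivity)
    have hs1 : 1 ≤ √(N : ℝ) := by
      rw [Real.one_le_sqrt]; exact hN1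
    have hcube : (√(N : ℝ)) ^ 3 * r ≤ (4 * N₁ + 5 : ℝ) ^ (3 / 2 : ℝ) := by
      have h1 : (√(N : ℝ)) ^ 3 = (N : ℝ) ^ (3 / 2 : ℝ) := by
        rw [Real.sqrt_eq_rpow, ← Real.rpow_natCast, ← Real.rpow_mul (by positivity)]
        norm_num
      rw [h1]
      have h2 : (N : ℝ) ^ (3 / 2 : ℝ) ≤ ((4 * N₁ + 5) * u) ^ (3 / 2 : ℝ) :=
        Real.rpow_le_rpow (by positivity) hNu (by norm_num)
      have h3 : ((4 * N₁ + 5) * u) ^ (3 / 2 : ℝ) = (4 * N₁ + 5 : ℝ) ^ (3 / 2 : ℝ) * r⁻¹ := by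
        rw [Real.mul_rpow (by positivity) hu0.le, hu, ← Real.rpow_mul hr.le]
        congr 1
        rw [← Real.rpow_neg_one]
        norm_num
      rw [h3] at h2
      calc (N : ℝ) ^ (3 / 2 : ℝ) * r ≤ (4 * N₁ + 5 : ℝ) ^ (3 / 2 : ℝ) * r⁻¹ * r := by gcongr
        _ = _ := by rw [mul_assoc, inv_mul_cancel₀ hr.ne', mul_one]
    refine ⟨?_, ?_⟩
    · refine le_trans ?_ hcube
      rw [← hs]
      have : √(((√(N : ℝ)) ^ 2 : ℝ)) = √(N : ℝ) := by rw [hs]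
      rw [this]
      gcongr
      · norm_num
    · calc (N : ℝ) ^ 2 * r = (√(N : ℝ)) ^ 3 * r * √(N : ℝ) := by
            rw [← hs]
            have : √(((√(N : ℝ)) ^ 2 : ℝ)) = √(N : ℝ) := by rw [hs]
            rw [this]
            ring
        _ ≤ _ := by gcongr

/-- the two cases -/
theorem alt (h5 : S_Pr) (p₀ : ℕ) (ε : ℝ) (hε : 0 < ε) : ∃ N₁ : ℕ, 1 ≤ N₁ ∧
    ∀ (O : Subring Mat) (F : ℍ → ℝ), (∀ p : ℕ, p.Prime → p₀ < p → Good O p) → AmpFn O p₀ F →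
    ∀ N : ℕ, N₁ ≤ N → ∃ (A : ℕ → Finset G2) (P : Finset ℕ),
      (∀ p ∈ P, Good O p ∧ N < p ∧ p ≤ 3 * N ∧ Reps O p (A p) ∧ (A p).card = p + 1) ∧
      (N : ℝ) ^ (1 - ε) ≤ 2 * P.card ∧ P.card ≤ 3 * N ∧
      ((∀ p ∈ P, ∀ z, F z ≤ 2 / √(p : ℝ) * ∑ x ∈ A p, F (x • z)) ∨
        ∀ p ∈ P, ∀ z, F z ≤ 4 / (3 * (p : ℝ)) * ∑ x ∈ NB O p (A p), F (x • z)) := by
  obtain ⟨N₀, hN₀⟩ := h5 ε hε
  refine ⟨max (max N₀ p₀) 1, le_max_right _ _, fun O F hgood hF N hN => ?_⟩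
  have hN0 : N₀ ≤ N := (le_max_left _ _).trans ((le_max_left _ _).trans hN)
  have hNp : p₀ ≤ N := (le_max_right _ _).trans ((le_max_left _ _).trans hN)
  have hex : ∀ p : ℕ, ∃ A : Finset G2, p.Prime → N < p → Reps O p A ∧ A.card = p + 1 ∧
      ((∀ z, F z ≤ 2 / √(p : ℝ) * ∑ x ∈ A, F (x • z)) ∨
      ∀ z, F z ≤ 4 / (3 * (p : ℝ)) * ∑ x ∈ NB O p A, F (x • z)) := by
    intro p
    by_cases hp : p.Prime ∧ N < p
    · obtain ⟨A, hA⟩ := hF.amp p (lt_of_le_of_lt hNp hp.2) (hgood p hp.1 (lt_of_le_of_lt hNp hp.2))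
      exact ⟨A, fun _ _ => hA⟩
    · exact ⟨∅, fun h1 h2 => absurd ⟨h1, h2⟩ hp⟩
  choose A hA using hex
  set P : Finset ℕ := (Finset.Ioc N (3 * N)).filter Nat.Prime with hP
  have hPm : ∀ p ∈ P, N < p ∧ p ≤ 3 * N ∧ p.Prime := by
    intro p hp
    rw [hP, Finset.mem_filter, Finset.mem_Ioc] at hp
    exact ⟨hp.1.1, hp.1.2, hp.2⟩
  have hPc : P.card ≤ 3 * N := by
    refine (Finset.card_filter_le _ _).trans ?_
    rw [Nat.card_Ioc]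
    omega
  have hPb := hN₀ N hN0
  rw [← hP] at hPb
  set Pa : Finset ℕ := P.filter fun p => ∀ z, F z ≤ 2 / √(p : ℝ) * ∑ x ∈ A p, F (x • z) with hPa
  set Pn : Finset ℕ := P.filter fun p => ¬ ∀ z, F z ≤ 2 / √(p : ℝ) * ∑ x ∈ A p, F (x • z) with hPn
  have hsum : Pa.card + Pn.card = P.card := Finset.card_filter_add_card_filter_not _
  have hbase : ∀ p ∈ P, Good O p ∧ N < p ∧ p ≤ 3 * N ∧ Reps O p (A p) ∧ (A p).card = p + 1 := by
    intro p hp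
    obtain ⟨h1, h2, h3⟩ := hPm p hp
    obtain ⟨h4, h5, -⟩ := hA p h3 h1
    exact ⟨hgood p h3 (lt_of_le_of_lt hNp h1), h1, h2, h4, h5⟩
  have hsumR : (Pa.card : ℝ) + Pn.card = P.card := by exact_mod_cast hsum
  by_cases hc : P.card ≤ 2 * Pa.card
  · refine ⟨A, Pa, fun p hp => hbase p (Finset.mem_filter.1 hp).1, ?_, ?_, Or.inl ?_⟩
    · have : (P.card : ℝ) ≤ 2 * Pa.card := by exact_mod_cast hc
      linarith
    · exact (Finset.card_filter_le _ _).trans hPc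
    · exact fun p hp => (Finset.mem_filter.1 hp).2
  · refine ⟨A, Pn, fun p hp => hbase p (Finset.mem_filter.1 hp).1, ?_, ?_, Or.inr ?_⟩
    · have : P.card ≤ 2 * Pn.card := by omega
      have : (P.card : ℝ) ≤ 2 * Pn.card := by exact_mod_cast this
      linarith
    · exact (Finset.card_filter_le _ _).trans hPc
    · intro p hp
      obtain ⟨h1, h2⟩ := Finset.mem_filter.1 hp
      obtain ⟨h3, h4, h5⟩ := hPm p h1
      obtain ⟨-, -, h6⟩ := hA p h5 h3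
      exact h6.resolve_left h2

end XBall

open XBall in
/-- Item Ball. -/
theorem prf_Ball (h1 : S_Ma) (h2 : S_Mb) (h3 : S_C1b) (h4 : S_C2b) (h5 : S_Pr) (h6 : S_Cj)
    (h7 : S_Sc) (h8 : S_Iso) (h9 : S_TTc) (h10 : S_NBi) : S_Ball := by
  intro p₀ δ hδ
  set ε : ℝ := min (1 / 8) (3 / 8 * (2 / 3 - δ)) with hε
  have hε0 : 0 < ε := by
    rw [hε]
    exact lt_min (by norm_num) (by linarith)
  have hε8 : ε ≤ 1 / 8 := min_le_left _ _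
  have hεδ : δ ≤ 2 / 3 * (1 - 4 * ε) := by
    have : ε ≤ 3 / 8 * (2 / 3 - δ) := min_le_right _ _
    linarith
  obtain ⟨C1c, hC1c, hc1⟩ := c1z h3 h6
  obtain ⟨C2c, hC2c, hc2⟩ := c2z h4 h6 ε hε0
  obtain ⟨N₁, hN₁, halt⟩ := alt h5 p₀ ε hε0
  obtain ⟨C₂, hC₂, hscale⟩ := scale N₁ hN₁
  set Ka : ℝ := C1c * (18 * (1 + 6 * C₂) ^ 2 + 3468) with hKa
  set Kb : ℝ := C2c * (162 * (1 + 18 * C₂) ^ 2 + 36 * (1 + 6 * C₂) ^ 2 + 13872) with hKb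
  have hKa0 : 0 < Ka := by positivity
  have hKb0 : 0 < Kb := by positivity
  set L : ℝ := 8 ^ (2 / 3 * (1 - 4 * ε) - δ) with hL
  have hL0 : 0 < L := by positivity
  refine ⟨(16 * Ka + 64 / 9 * Kb) * L, by positivity, ?_⟩
  intro O F D hO hgood hF hD hFD z r hr hr8
  obtain ⟨N, hN1, hNr, hNC, hNC2⟩ := hscale r hr hr8
  obtain ⟨A, P, hP, hPlow, hPup, hcase⟩ := halt O F hgood hF N hN1
  -- common facts
  set n : ℝ := (N : ℝ) with hn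
  have hn1 : 1 ≤ n := by
    show (1 : ℝ) ≤ (N : ℝ)
    exact_mod_cast hN₁.trans hN1
  have hn0 : 0 < n := by linarith
  set t : ℝ := n ^ ε with ht
  have ht1 : 1 ≤ t := Real.one_le_rpow hn1 hε0.le
  have ht0 : 0 < t := by linarith
  set q : ℝ := (P.card : ℝ) with hq
  have hqlow : n / (2 * t) ≤ q := by
    rw [Real.rpow_sub hn0, Real.rpow_one, ← ht] at hPlow
    rw [div_le_iff₀ (by positivity)]
    rw [div_le_iff₀ ht0] at hPlow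
    linarith
  have hq0 : 0 < q := lt_of_lt_of_le (by positivity) hqlow
  have hPc0 : 0 < P.card := by
    have h0 : (0 : ℝ) < (P.card : ℝ) := hq0
    exact_mod_cast h0
  have hq3 : q ≤ 3 * n := by
    rw [hq, hn]
    exact_mod_cast hPup
  have hfin := numF δ ε n t r hε0 (by linarith) hεδ hr hr8 hNr hn1 ht
  have hSc := h7.1 z (2 * r)
  have hB1 : MeasurableSet (Metric.closedBall z r) := Metric.isClosed_closedBall.measurableSet
  have hB2 : Bornology.IsBounded (Metric.closedBall z r) := Metric.isBounded_closedBall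
  have hB3 : ∀ g : G2, 0 < (g : Mat).det → ∀ w ∈ Metric.closedBall z r,
      g • w ∈ Metric.closedBall z r → g ∈ Sb z (2 * r) := by
    intro g hg w hw hgw
    refine ⟨hg, ?_⟩
    rw [Metric.mem_closedBall] at hw hgw
    calc dist (g • z) z ≤ dist (g • z) (g • w) + dist (g • w) z := dist_triangle _ _ _
      _ = dist z w + dist (g • w) z := by rw [h8]
      _ ≤ 2 * r := by rw [dist_comm z w]; linarith
  have h2r : (0 : ℝ) ≤ 2 * r := by positivity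
  have h2r16 : 2 * r ≤ 16 := by linarith
  have hR : ((3 * N : ℕ) : ℝ) = 3 * n := by push_cast; rfl
  have hdisj : ∀ p ∈ P, ∀ q ∈ P, p ≠ q → Disjoint (A p) (A q) := by
    intro p hp q hq hpq
    rw [Finset.disjoint_left]
    intro x hx hx'
    have e1 := ((hP p hp).2.2.2.1.mem x hx).2
    have e2 := ((hP q hq).2.2.2.1.mem x hx').2
    rw [e1] at e2
    exact hpq (by exact_mod_cast e2)
  have hdisj2 : ∀ p ∈ P, ∀ q ∈ P, p ≠ q → Disjoint (NB O p (A p)) (NB O q (A q)) := by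
    intro p hp q hq hpq
    rw [Finset.disjoint_left]
    intro x hx hx'
    have e1 := ((h10 O p (A p) hO (hP p hp).1 (hP p hp).2.2.2.1).1 x hx).2
    have e2 := ((h10 O q (A q) hO (hP q hq).1 (hP q hq).2.2.2.1).1 x hx').2
    rw [e1] at e2
    have e3 : p ^ 2 = q ^ 2 := by exact_mod_cast e2
    exact hpq (Nat.pow_left_injective (by norm_num : 2 ≠ 0) e3)
  have hPM : ∀ p ∈ P, Good O p ∧ p ≤ 3 * N ∧ Reps O p (A p) ∧ (A p).card = p + 1 := fun p hp =>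
    ⟨(hP p hp).1, (hP p hp).2.2.1, (hP p hp).2.2.2.1, (hP p hp).2.2.2.2⟩
  have hnp : ∀ p ∈ P, n ≤ p := by
    intro p hp
    rw [hn]
    exact_mod_cast (hP p hp).2.1.le
  rcases hcase with hca | hcb
  · -- first case
    obtain ⟨m1, hm1, hm1'⟩ := hc1 O z (2 * r) ((3 * n) ^ 2) hO h2r h2r16 (sq3 hn1)
    obtain ⟨m2, hm2, hm2'⟩ := hc1 O z (2 * r) 1 hO h2r h2r16 le_rfl
    have hTri := h1 O P (3 * N) A (Sb z (2 * r)) hO hSc hPM
    rw [hR, hm1, hm2] at hTri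
    set K : ℕ := 2 * m1 + P.card * (3 * N + 1) * m2 with hK
    have hTri' : (Tri O (P.biUnion A) (Sb z (2 * r))).encard ≤ (K : ℕ∞) := by
      refine hTri.trans (le_of_eq ?_)
      rw [hK]
      push_cast
      rfl
    have hKle : (K : ℝ) ≤ Ka * n ^ 2 := by
      have := numA C1c C₂ n r m1 m2 q hC1c hn1 hr hr8 hNC hm1' hm2' (by positivity) hq0.le hq3
      refine le_trans (le_of_eq ?_) this
      rw [hK, hq, hn]
      push_cast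
      ring
    have hw : ∀ w ∈ Metric.closedBall z r, F w ≤ 2 / √n / q * ∑ x ∈ P.biUnion A, F (x • w) := by
      intro w _
      refine avg P A (fun x => F (x • w)) (F w) (2 / √n) hPc0 hdisj fun p hp => ?_
      refine (hca p hp w).trans ?_
      have hs0 : 0 ≤ ∑ x ∈ A p, F (x • w) := Finset.sum_nonneg fun x _ => hF.nn _
      refine mul_le_mul_of_nonneg_right ?_ hs0
      have hsn : 0 < √n := Real.sqrt_pos.2 hn0
      have : √n ≤ √(p : ℝ) := Real.sqrt_le_sqrt (hnp p hp)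
      gcongr
    have hdet : ∀ x ∈ P.biUnion A, 0 < (x : Mat).det := by
      intro x hx
      obtain ⟨p, hp, hx⟩ := Finset.mem_biUnion.1 hx
      rw [((hP p hp).2.2.2.1.mem x hx).2]
      exact_mod_cast (hP p hp).1.prime.pos
    have hmain := h9 O F D (Metric.closedBall z r) (P.biUnion A) (2 / √n / q) (Sb z (2 * r)) K hO
      hF.cont hF.nn hF.inv hD hFD hB1 (by positivity) hw hB2 hdet hB3 hTri'
    refine hmain.trans (ENNReal.ofReal_le_ofReal ?_)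
    have hsq : √n ^ 2 = n := Real.sq_sqrt hn0.le
    have hq2 : n ^ 2 / (4 * t ^ 2) ≤ q ^ 2 := by
      calc n ^ 2 / (4 * t ^ 2) = (n / (2 * t)) ^ 2 := by rw [div_pow]; ring
        _ ≤ q ^ 2 := by gcongr
    have e1 : (2 / √n / q) ^ 2 * (K : ℝ) ≤ 4 / n / q ^ 2 * (Ka * n ^ 2) := by
      have : (2 / √n / q) ^ 2 = 4 / n / q ^ 2 := by
        rw [div_pow, div_pow, hsq]; norm_num
      rw [this]
      gcongr
    have e2 : 4 / n / q ^ 2 * (Ka * n ^ 2) ≤ 16 * Ka * (t ^ 4 / n) := by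
      have h1 : 4 / n / q ^ 2 * (Ka * n ^ 2) = 4 * Ka * n / q ^ 2 := by
        field_simp
      have h2 : 4 * Ka * n / q ^ 2 ≤ 4 * Ka * n / (n ^ 2 / (4 * t ^ 2)) := by
        gcongr
      have h3 : 4 * Ka * n / (n ^ 2 / (4 * t ^ 2)) = 16 * Ka * (t ^ 2 / n) := by
        field_simp
        ring
      have h4 : t ^ 2 ≤ t ^ 4 := pow_le_pow_right₀ ht1 (by norm_num)
      rw [h1]
      refine h2.trans ?_
      rw [h3]
      gcongr
    calc (2 / √n / q) ^ 2 * (K : ℝ) ≤ 16 * Ka * (t ^ 4 / n) := e1.trans e2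
      _ ≤ 16 * Ka * (L * r ^ δ) := by gcongr
      _ ≤ (16 * Ka + 64 / 9 * Kb) * L * r ^ δ := sumA (by positivity)
  · -- second case
    obtain ⟨m1, hm1, hm1'⟩ := hc2 O z (2 * r) ((3 * n) ^ 2) hO h2r h2r16 (sq3 hn1)
    obtain ⟨m2, hm2, hm2'⟩ := hc2 O z (2 * r) (3 * n) hO h2r h2r16 (by linarith)
    obtain ⟨m3, hm3, hm3'⟩ := hc2 O z (2 * r) 1 hO h2r h2r16 le_rfl
    have hTri := h2 O P (3 * N) A (Sb z (2 * r)) hO hSc hPM
    rw [hR, hm1, hm2, hm3] at hTri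
    set K : ℕ := 2 * m1 + (3 * N + 1) * m2 + P.card * (3 * N + 1) ^ 2 * m3 with hK
    have hTri' : (Tri O (P.biUnion fun p => NB O p (A p)) (Sb z (2 * r))).encard ≤ (K : ℕ∞) := by
      refine hTri.trans (le_of_eq ?_)
      rw [hK]
      push_cast
      rfl
    have hs2 : √n ^ 2 = n := Real.sq_sqrt hn0.le
    have hs1 : 1 ≤ √n := by rw [Real.one_le_sqrt]; exact hn1
    have hKle : (K : ℝ) ≤ Kb * (n ^ 3 * t ^ 2) := by
      have := numB C2c C₂ n (√n) t r m1 m2 m3 q ε hC2c hn1 hr hr8 hε0 (by linarith) hs2 hs1 ht ht1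
        hNC hNC2 hm1' hm2' hm3' (by positivity) (by positivity) hq0.le hq3
      refine le_trans (le_of_eq ?_) this
      rw [hK, hq, hn]
      push_cast
      ring
    have hw : ∀ w ∈ Metric.closedBall z r,
        F w ≤ 4 / (3 * n) / q * ∑ x ∈ P.biUnion fun p => NB O p (A p), F (x • w) := by
      intro w _
      refine avg P (fun p => NB O p (A p)) (fun x => F (x • w)) (F w) (4 / (3 * n)) hPc0 hdisj2
        fun p hp => ?_
      refine (hcb p hp w).trans ?_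
      have hs0 : 0 ≤ ∑ x ∈ NB O p (A p), F (x • w) := Finset.sum_nonneg fun x _ => hF.nn _
      refine mul_le_mul_of_nonneg_right ?_ hs0
      have := hnp p hp
      gcongr
    have hdet : ∀ x ∈ P.biUnion fun p => NB O p (A p), 0 < (x : Mat).det := by
      intro x hx
      obtain ⟨p, hp, hx⟩ := Finset.mem_biUnion.1 hx
      rw [((h10 O p (A p) hO (hP p hp).1 (hP p hp).2.2.2.1).1 x hx).2]
      have := (hP p hp).1.prime.pos
      exact_mod_cast pow_pos this 2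
    have hmain := h9 O F D (Metric.closedBall z r) (P.biUnion fun p => NB O p (A p))
      (4 / (3 * n) / q) (Sb z (2 * r)) K hO
      hF.cont hF.nn hF.inv hD hFD hB1 (by positivity) hw hB2 hdet hB3 hTri'
    refine hmain.trans (ENNReal.ofReal_le_ofReal ?_)
    have hq2 : n ^ 2 / (4 * t ^ 2) ≤ q ^ 2 := by
      calc n ^ 2 / (4 * t ^ 2) = (n / (2 * t)) ^ 2 := by rw [div_pow]; ring
        _ ≤ q ^ 2 := by gcongr
    have e1 : (4 / (3 * n) / q) ^ 2 * (K : ℝ) ≤ 16 / (9 * n ^ 2) / q ^ 2 * (Kb * (n ^ 3 * t ^ 2)) := by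
      have : (4 / (3 * n) / q) ^ 2 = 16 / (9 * n ^ 2) / q ^ 2 := by
        rw [div_pow, div_pow, mul_pow]; norm_num
      rw [this]
      gcongr
    have e2 : 16 / (9 * n ^ 2) / q ^ 2 * (Kb * (n ^ 3 * t ^ 2)) ≤ 64 / 9 * Kb * (t ^ 4 / n) := by
      have h1 : 16 / (9 * n ^ 2) / q ^ 2 * (Kb * (n ^ 3 * t ^ 2)) =
          16 / 9 * Kb * n * t ^ 2 / q ^ 2 := by
        field_simp
      have h2 : 16 / 9 * Kb * n * t ^ 2 / q ^ 2 ≤
          16 / 9 * Kb * n * t ^ 2 / (n ^ 2 / (4 * t ^ 2)) := by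
        gcongr
      have h3 : 16 / 9 * Kb * n * t ^ 2 / (n ^ 2 / (4 * t ^ 2)) = 64 / 9 * Kb * (t ^ 4 / n) := by
        field_simp
        ring
      rw [h1]
      refine h2.trans ?_
      rw [h3]
    calc (4 / (3 * n) / q) ^ 2 * (K : ℝ) ≤ 64 / 9 * Kb * (t ^ 4 / n) := e1.trans e2
      _ ≤ 64 / 9 * Kb * (L * r ^ δ) := by gcongr
      _ ≤ (16 * Ka + 64 / 9 * Kb) * L * r ^ δ := sumB (by positivity)

end Pool.Agent.HoloQUE
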