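import Pool.Agent.Work.MP_d2a4bb_nt.NC.Gen
import Pool.Agent.Work.MP_d2a4bb_nt.NC.I_Ball

/-!
# Item BallP: the small ball estimate for amplified functions, plentiful sets of primes
-/

set_option autoImplicit false

open MeasureTheory UpperHalfPlane Matrix HQ
open scoped MatrixGroups ModularForm Manifold ENNReal Classical

noncomputable section

namespace Pool.Agent.HoloQUE

namespace XBallP

/-- the two cases -/
theorem altP (N₀ : ℝ → ℕ) (ε : ℝ) (hε : 0 < ε) : ∃ N₁ : ℕ, 1 ≤ N₁ ∧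
    ∀ (O : Subring Mat) (PP : Set ℕ) (F : ℍ → ℝ), (∀ p ∈ PP, Good O p) → Plenty PP N₀ →
    AmpP O PP F →
    ∀ N : ℕ, N₁ ≤ N → ∃ (A : ℕ → Finset G2) (P : Finset ℕ),
      (∀ p ∈ P, Good O p ∧ N < p ∧ p ≤ 3 * N ∧ Reps O p (A p) ∧ (A p).card = p + 1) ∧
      (N : ℝ) ^ (1 - ε) ≤ 2 * P.card ∧ P.card ≤ 3 * N ∧
      ((∀ p ∈ P, ∀ z, F z ≤ 2 / √(p : ℝ) * ∑ x ∈ A p, F (x • z)) ∨
        ∀ p ∈ P, ∀ z, F z ≤ 4 / (3 * (p : ℝ)) * ∑ x ∈ NB O p (A p), F (x • z)) := by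
  refine ⟨max (N₀ ε) 1, le_max_right _ _, fun O PP F hgood hPP hF N hN => ?_⟩
  have hN0 : N₀ ε ≤ N := (le_max_left _ _).trans hN
  have hex : ∀ p : ℕ, ∃ A : Finset G2, p ∈ PP → Reps O p A ∧ A.card = p + 1 ∧
      ((∀ z, F z ≤ 2 / √(p : ℝ) * ∑ x ∈ A, F (x • z)) ∨
      ∀ z, F z ≤ 4 / (3 * (p : ℝ)) * ∑ x ∈ NB O p A, F (x • z)) := by
    intro p
    by_cases hp : p ∈ PP
    · obtain ⟨A, hA⟩ := hF.amp p hp
      exact ⟨A, fun _ => hA⟩
    · exact ⟨∅, fun h1 => absurd h1 hp⟩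
  choose A hA using hex
  set P : Finset ℕ := (Finset.Ioc N (3 * N)).filter (· ∈ PP) with hP
  have hPm : ∀ p ∈ P, N < p ∧ p ≤ 3 * N ∧ p ∈ PP := by
    intro p hp
    rw [hP, Finset.mem_filter, Finset.mem_Ioc] at hp
    exact ⟨hp.1.1, hp.1.2, hp.2⟩
  have hPc : P.card ≤ 3 * N := by
    refine (Finset.card_filter_le _ _).trans ?_
    rw [Nat.card_Ioc]
    omega
  have hPb := hPP ε hε N hN0
  rw [← hP] at hPb
  set Pa : Finset ℕ := P.filter fun p => ∀ z, F z ≤ 2 / √(p : ℝ) * ∑ x ∈ A p, F (x • z) with hPa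
  set Pn : Finset ℕ := P.filter fun p => ¬ ∀ z, F z ≤ 2 / √(p : ℝ) * ∑ x ∈ A p, F (x • z) with hPn
  have hsum : Pa.card + Pn.card = P.card := Finset.card_filter_add_card_filter_not _
  have hbase : ∀ p ∈ P, Good O p ∧ N < p ∧ p ≤ 3 * N ∧ Reps O p (A p) ∧ (A p).card = p + 1 := by
    intro p hp
    obtain ⟨h1, h2, h3⟩ := hPm p hp
    obtain ⟨h4, h5, -⟩ := hA p h3
    exact ⟨hgood p h3, h1, h2, h4, h5⟩
  have hsumR : (Pa.card : ℝ) + Pn.card = P.card := by exact_mod_cast hsum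
  by_cases hc : P.card ≤ 2 * Pa.card
  · refine ⟨A, Pa, fun p hp => hbase p (Finset.mem_filter.1 hp).1, ?_, ?_, Or.inl ?_⟩
    · have : (P.card : ℝ) ≤ 2 * Pa.card := by exact_mod_cast hc
      linarith
    · exact (Finset.card_filter_le _ _).trans hPc
    · exact fun p hp => (Finset.mem_filter.1 hp).2
  · refine ⟨A, Pn, fun p hp => hbase p (Finset.mem_filter.1 hp).1, ?_, ?_, Or.inr ?_⟩
    · have : P.card ≤ 2 * Pn.card := by omega
      have : (P.card : ℝ) ≤ 2 * Pn.card := by exact_mod_cast this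
      linarith
    · exact (Finset.card_filter_le _ _).trans hPc
    · intro p hp
      obtain ⟨h1, h2⟩ := Finset.mem_filter.1 hp
      obtain ⟨h3, h4, h5⟩ := hPm p h1
      obtain ⟨-, -, h6⟩ := hA p h5
      exact h6.resolve_left h2

end XBallP

open XBall XBallP in
/-- Item BallP. -/
theorem prf_BallP (h1 : S_Ma) (h2 : S_Mb) (h3 : S_C1b) (h4 : S_C2b) (h6 : S_Cj)
    (h7 : S_Sc) (h8 : S_Iso) (h9 : S_TTc) (h10 : S_NBi) : S_BallP := by
  intro N₀ δ hδ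
  set ε : ℝ := min (1 / 8) (3 / 8 * (2 / 3 - δ)) with hε
  have hε0 : 0 < ε := by
    rw [hε]
    exact lt_min (by norm_num) (by linarith)
  have hε8 : ε ≤ 1 / 8 := min_le_left _ _
  have hεδ : δ ≤ 2 / 3 * (1 - 4 * ε) := by
    have : ε ≤ 3 / 8 * (2 / 3 - δ) := min_le_right _ _
    linarith
  obtain ⟨C1c, hC1c, hc1⟩ := c1z h3 h6
  obtain ⟨C2c, hC2c, hc2⟩ := c2z h4 h6 ε hε0
  obtain ⟨N₁, hN₁, halt⟩ := altP N₀ ε hε0
  obtain ⟨C₂, hC₂, hscale⟩ := scale N₁ hN₁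
  set Ka : ℝ := C1c * (18 * (1 + 6 * C₂) ^ 2 + 3468) with hKa
  set Kb : ℝ := C2c * (162 * (1 + 18 * C₂) ^ 2 + 36 * (1 + 6 * C₂) ^ 2 + 13872) with hKb
  have hKa0 : 0 < Ka := by positivity
  have hKb0 : 0 < Kb := by positivity
  set L : ℝ := 8 ^ (2 / 3 * (1 - 4 * ε) - δ) with hL
  have hL0 : 0 < L := by positivity
  refine ⟨(16 * Ka + 64 / 9 * Kb) * L, by positivity, ?_⟩
  intro O PP F D hO hgood hPP hF hD hFD z r hr hr8
  obtain ⟨N, hN1, hNr, hNC, hNC2⟩ := hscale r hr hr8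
  obtain ⟨A, P, hP, hPlow, hPup, hcase⟩ := halt O PP F hgood hPP hF N hN1
  -- common facts
  set n : ℝ := (N : ℝ) with hn
  have hn1 : 1 ≤ n := by
    show (1 : ℝ) ≤ (N : ℝ)
    exact_mod_cast hN₁.trans hN1
  have hn0 : 0 < n := by linarith
  set t : ℝ := n ^ ε with ht
  have ht1 : 1 ≤ t := Real.one_le_rpow hn1 hε0.le
  have ht0 : 0 < t := by linarith
  set q : ℝ := (P.card : ℝ) with hq
  have hqlow : n / (2 * t) ≤ q := by
    rw [Real.rpow_sub hn0, Real.rpow_one, ← ht] at hPlow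
    rw [div_le_iff₀ (by positivity)]
    rw [div_le_iff₀ ht0] at hPlow
    linarith
  have hq0 : 0 < q := lt_of_lt_of_le (by positivity) hqlow
  have hPc0 : 0 < P.card := by
    have h0 : (0 : ℝ) < (P.card : ℝ) := hq0
    exact_mod_cast h0
  have hq3 : q ≤ 3 * n := by
    rw [hq, hn]
    exact_mod_cast hPup
  have hfin := numF δ ε n t r hε0 (by linarith) hεδ hr hr8 hNr hn1 ht
  have hSc := h7.1 z (2 * r)
  have hB1 : MeasurableSet (Metric.closedBall z r) := Metric.isClosed_closedBall.measurableSet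
  have hB2 : Bornology.IsBounded (Metric.closedBall z r) := Metric.isBounded_closedBall
  have hB3 : ∀ g : G2, 0 < (g : Mat).det → ∀ w ∈ Metric.closedBall z r,
      g • w ∈ Metric.closedBall z r → g ∈ Sb z (2 * r) := by
    intro g hg w hw hgw
    refine ⟨hg, ?_⟩
    rw [Metric.mem_closedBall] at hw hgw
    calc dist (g • z) z ≤ dist (g • z) (g • w) + dist (g • w) z := dist_triangle _ _ _
      _ = dist z w + dist (g • w) z := by rw [h8]
      _ ≤ 2 * r := by rw [dist_comm z w]; linarith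
  have h2r : (0 : ℝ) ≤ 2 * r := by positivity
  have h2r16 : 2 * r ≤ 16 := by linarith
  have hR : ((3 * N : ℕ) : ℝ) = 3 * n := by push_cast; rfl
  have hdisj : ∀ p ∈ P, ∀ q ∈ P, p ≠ q → Disjoint (A p) (A q) := by
    intro p hp q hq hpq
    rw [Finset.disjoint_left]
    intro x hx hx'
    have e1 := ((hP p hp).2.2.2.1.mem x hx).2
    have e2 := ((hP q hq).2.2.2.1.mem x hx').2
    rw [e1] at e2
    exact hpq (by exact_mod_cast e2)
  have hdisj2 : ∀ p ∈ P, ∀ q ∈ P, p ≠ q → Disjoint (NB O p (A p)) (NB O q (A q)) := by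
    intro p hp q hq hpq
    rw [Finset.disjoint_left]
    intro x hx hx'
    have e1 := ((h10 O p (A p) hO (hP p hp).1 (hP p hp).2.2.2.1).1 x hx).2
    have e2 := ((h10 O q (A q) hO (hP q hq).1 (hP q hq).2.2.2.1).1 x hx').2
    rw [e1] at e2
    have e3 : p ^ 2 = q ^ 2 := by exact_mod_cast e2
    exact hpq (Nat.pow_left_injective (by norm_num : 2 ≠ 0) e3)
  have hPM : ∀ p ∈ P, Good O p ∧ p ≤ 3 * N ∧ Reps O p (A p) ∧ (A p).card = p + 1 := fun p hp =>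
    ⟨(hP p hp).1, (hP p hp).2.2.1, (hP p hp).2.2.2.1, (hP p hp).2.2.2.2⟩
  have hnp : ∀ p ∈ P, n ≤ p := by
    intro p hp
    rw [hn]
    exact_mod_cast (hP p hp).2.1.le
  rcases hcase with hca | hcb
  · -- first case
    obtain ⟨m1, hm1, hm1'⟩ := hc1 O z (2 * r) ((3 * n) ^ 2) hO h2r h2r16 (sq3 hn1)
    obtain ⟨m2, hm2, hm2'⟩ := hc1 O z (2 * r) 1 hO h2r h2r16 le_rfl
    have hTri := h1 O P (3 * N) A (Sb z (2 * r)) hO hSc hPM
    rw [hR, hm1, hm2] at hTri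
    set K : ℕ := 2 * m1 + P.card * (3 * N + 1) * m2 with hK
    have hTri' : (Tri O (P.biUnion A) (Sb z (2 * r))).encard ≤ (K : ℕ∞) := by
      refine hTri.trans (le_of_eq ?_)
      rw [hK]
      push_cast
      rfl
    have hKle : (K : ℝ) ≤ Ka * n ^ 2 := by
      have := numA C1c C₂ n r m1 m2 q hC1c hn1 hr hr8 hNC hm1' hm2' (by positivity) hq0.le hq3
      refine le_trans (le_of_eq ?_) this
      rw [hK, hq, hn]
      push_cast
      ring
    have hw : ∀ w ∈ Metric.closedBall z r, F w ≤ 2 / √n / q * ∑ x ∈ P.biUnion A, F (x • w) := by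
      intro w _
      refine avg P A (fun x => F (x • w)) (F w) (2 / √n) hPc0 hdisj fun p hp => ?_
      refine (hca p hp w).trans ?_
      have hs0 : 0 ≤ ∑ x ∈ A p, F (x • w) := Finset.sum_nonneg fun x _ => hF.nn _
      refine mul_le_mul_of_nonneg_right ?_ hs0
      have hsn : 0 < √n := Real.sqrt_pos.2 hn0
      have : √n ≤ √(p : ℝ) := Real.sqrt_le_sqrt (hnp p hp)
      gcongr
    have hdet : ∀ x ∈ P.biUnion A, 0 < (x : Mat).det := by
      intro x hx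
      obtain ⟨p, hp, hx⟩ := Finset.mem_biUnion.1 hx
      rw [((hP p hp).2.2.2.1.mem x hx).2]
      exact_mod_cast (hP p hp).1.prime.pos
    have hmain := h9 O F D (Metric.closedBall z r) (P.biUnion A) (2 / √n / q) (Sb z (2 * r)) K hO
      hF.cont hF.nn hF.inv hD hFD hB1 (by positivity) hw hB2 hdet hB3 hTri'
    refine hmain.trans (ENNReal.ofReal_le_ofReal ?_)
    have hsq : √n ^ 2 = n := Real.sq_sqrt hn0.le
    have hq2 : n ^ 2 / (4 * t ^ 2) ≤ q ^ 2 := by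
      calc n ^ 2 / (4 * t ^ 2) = (n / (2 * t)) ^ 2 := by rw [div_pow]; ring
        _ ≤ q ^ 2 := by gcongr
    have e1 : (2 / √n / q) ^ 2 * (K : ℝ) ≤ 4 / n / q ^ 2 * (Ka * n ^ 2) := by
      have : (2 / √n / q) ^ 2 = 4 / n / q ^ 2 := by
        rw [div_pow, div_pow, hsq]; norm_num
      rw [this]
      gcongr
    have e2 : 4 / n / q ^ 2 * (Ka * n ^ 2) ≤ 16 * Ka * (t ^ 4 / n) := by
      have h1 : 4 / n / q ^ 2 * (Ka * n ^ 2) = 4 * Ka * n / q ^ 2 := by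
        field_simp
      have h2 : 4 * Ka * n / q ^ 2 ≤ 4 * Ka * n / (n ^ 2 / (4 * t ^ 2)) := by
        gcongr
      have h3 : 4 * Ka * n / (n ^ 2 / (4 * t ^ 2)) = 16 * Ka * (t ^ 2 / n) := by
        field_simp
        ring
      have h4 : t ^ 2 ≤ t ^ 4 := pow_le_pow_right₀ ht1 (by norm_num)
      rw [h1]
      refine h2.trans ?_
      rw [h3]
      gcongr
    calc (2 / √n / q) ^ 2 * (K : ℝ) ≤ 16 * Ka * (t ^ 4 / n) := e1.trans e2
      _ ≤ 16 * Ka * (L * r ^ δ) := by gcongr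
      _ ≤ (16 * Ka + 64 / 9 * Kb) * L * r ^ δ := sumA (by positivity)
  · -- second case
    obtain ⟨m1, hm1, hm1'⟩ := hc2 O z (2 * r) ((3 * n) ^ 2) hO h2r h2r16 (sq3 hn1)
    obtain ⟨m2, hm2, hm2'⟩ := hc2 O z (2 * r) (3 * n) hO h2r h2r16 (by linarith)
    obtain ⟨m3, hm3, hm3'⟩ := hc2 O z (2 * r) 1 hO h2r h2r16 le_rfl
    have hTri := h2 O P (3 * N) A (Sb z (2 * r)) hO hSc hPM
    rw [hR, hm1, hm2, hm3] at hTri
    set K : ℕ := 2 * m1 + (3 * N + 1) * m2 + P.card * (3 * N + 1) ^ 2 * m3 with hK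
    have hTri' : (Tri O (P.biUnion fun p => NB O p (A p)) (Sb z (2 * r))).encard ≤ (K : ℕ∞) := by
      refine hTri.trans (le_of_eq ?_)
      rw [hK]
      push_cast
      rfl
    have hs2 : √n ^ 2 = n := Real.sq_sqrt hn0.le
    have hs1 : 1 ≤ √n := by rw [Real.one_le_sqrt]; exact hn1
    have hKle : (K : ℝ) ≤ Kb * (n ^ 3 * t ^ 2) := by
      have := numB C2c C₂ n (√n) t r m1 m2 m3 q ε hC2c hn1 hr hr8 hε0 (by linarith) hs2 hs1 ht ht1
        hNC hNC2 hm1' hm2' hm3' (by positivity) (by positivity) hq0.le hq3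
      refine le_trans (le_of_eq ?_) this
      rw [hK, hq, hn]
      push_cast
      ring
    have hw : ∀ w ∈ Metric.closedBall z r,
        F w ≤ 4 / (3 * n) / q * ∑ x ∈ P.biUnion fun p => NB O p (A p), F (x • w) := by
      intro w _
      refine avg P (fun p => NB O p (A p)) (fun x => F (x • w)) (F w) (4 / (3 * n)) hPc0 hdisj2
        fun p hp => ?_
      refine (hcb p hp w).trans ?_
      have hs0 : 0 ≤ ∑ x ∈ NB O p (A p), F (x • w) := Finset.sum_nonneg fun x _ => hF.nn _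
      refine mul_le_mul_of_nonneg_right ?_ hs0
      have := hnp p hp
      gcongr
    have hdet : ∀ x ∈ P.biUnion fun p => NB O p (A p), 0 < (x : Mat).det := by
      intro x hx
      obtain ⟨p, hp, hx⟩ := Finset.mem_biUnion.1 hx
      rw [((h10 O p (A p) hO (hP p hp).1 (hP p hp).2.2.2.1).1 x hx).2]
      have := (hP p hp).1.prime.pos
      exact_mod_cast pow_pos this 2
    have hmain := h9 O F D (Metric.closedBall z r) (P.biUnion fun p => NB O p (A p))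
      (4 / (3 * n) / q) (Sb z (2 * r)) K hO
      hF.cont hF.nn hF.inv hD hFD hB1 (by positivity) hw hB2 hdet hB3 hTri'
    refine hmain.trans (ENNReal.ofReal_le_ofReal ?_)
    have hq2 : n ^ 2 / (4 * t ^ 2) ≤ q ^ 2 := by
      calc n ^ 2 / (4 * t ^ 2) = (n / (2 * t)) ^ 2 := by rw [div_pow]; ring
        _ ≤ q ^ 2 := by gcongr
    have e1 : (4 / (3 * n) / q) ^ 2 * (K : ℝ) ≤ 16 / (9 * n ^ 2) / q ^ 2 * (Kb * (n ^ 3 * t ^ 2)) := by
      have : (4 / (3 * n) / q) ^ 2 = 16 / (9 * n ^ 2) / q ^ 2 := by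
        rw [div_pow, div_pow, mul_pow]; norm_num
      rw [this]
      gcongr
    have e2 : 16 / (9 * n ^ 2) / q ^ 2 * (Kb * (n ^ 3 * t ^ 2)) ≤ 64 / 9 * Kb * (t ^ 4 / n) := by
      have h1 : 16 / (9 * n ^ 2) / q ^ 2 * (Kb * (n ^ 3 * t ^ 2)) =
          16 / 9 * Kb * n * t ^ 2 / q ^ 2 := by
        field_simp
      have h2 : 16 / 9 * Kb * n * t ^ 2 / q ^ 2 ≤
          16 / 9 * Kb * n * t ^ 2 / (n ^ 2 / (4 * t ^ 2)) := by
        gcongr
      have h3 : 16 / 9 * Kb * n * t ^ 2 / (n ^ 2 / (4 * t ^ 2)) = 64 / 9 * Kb * (t ^ 4 / n) := by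
        field_simp
        ring
      rw [h1]
      refine h2.trans ?_
      rw [h3]
    calc (4 / (3 * n) / q) ^ 2 * (K : ℝ) ≤ 64 / 9 * Kb * (t ^ 4 / n) := e1.trans e2
      _ ≤ 64 / 9 * Kb * (L * r ^ δ) := by gcongr
      _ ≤ (16 * Ka + 64 / 9 * Kb) * L * r ^ δ := sumB (by positivity)

end Pool.Agent.HoloQUE
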