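import Pool.Agent.Work.MP_d2a4bb_nt.NC.Basic

/-!
# Item Tube: the estimate for neighbourhoods of geodesics
-/

set_option autoImplicit false

open MeasureTheory UpperHalfPlane Matrix
open scoped MatrixGroups ModularForm Manifold ENNReal Classical

noncomputable section

namespace Pool.Agent.HoloQUE

namespace XTube

/-! ### Counting triples: from `encard` to real bounds -/

theorem triA (h1 : S_Ma) {O : Subring Mat} {P : Finset ℕ} {R : ℕ} {A : ℕ → Finset G2}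
    {S : Set G2} {b1 b2 : ℝ} (hO : QOrder O) (hS : ScInv S)
    (hP : ∀ p ∈ P, Good O p ∧ p ≤ R ∧ Reps O p (A p) ∧ (A p).card = p + 1)
    (hf1 : (C1 O S ((R : ℝ) ^ 2)).Finite) (hb1 : ((C1 O S ((R : ℝ) ^ 2)).ncard : ℝ) ≤ b1)
    (hf2 : (C1 O S 1).Finite) (hb2 : ((C1 O S 1).ncard : ℝ) ≤ b2) :
    ∃ K : ℕ, (Tri O (P.biUnion A) S).encard ≤ K ∧
      (K : ℝ) ≤ 2 * b1 + P.card * (R + 1) * b2 := by
  refine ⟨2 * (C1 O S ((R : ℝ) ^ 2)).ncard + P.card * (R + 1) * (C1 O S 1).ncard, ?_, ?_⟩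
  · refine (h1 O P R A S hO hS hP).trans (le_of_eq ?_)
    rw [← hf1.cast_ncard_eq, ← hf2.cast_ncard_eq]
    push_cast
    rfl
  · push_cast
    have : (0 : ℝ) ≤ (P.card : ℝ) * (R + 1) := by positivity
    nlinarith [mul_le_mul_of_nonneg_left hb2 this]

theorem triB (h2 : S_Mb) {O : Subring Mat} {P : Finset ℕ} {R : ℕ} {A : ℕ → Finset G2}
    {S : Set G2} {b1 b2 b3 : ℝ} (hO : QOrder O) (hS : ScInv S)
    (hP : ∀ p ∈ P, Good O p ∧ p ≤ R ∧ Reps O p (A p) ∧ (A p).card = p + 1)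
    (hf1 : (C2 O S ((R : ℝ) ^ 2)).Finite) (hb1 : ((C2 O S ((R : ℝ) ^ 2)).ncard : ℝ) ≤ b1)
    (hf2 : (C2 O S R).Finite) (hb2 : ((C2 O S R).ncard : ℝ) ≤ b2)
    (hf3 : (C2 O S 1).Finite) (hb3 : ((C2 O S 1).ncard : ℝ) ≤ b3) :
    ∃ K : ℕ, (Tri O (P.biUnion fun p => NB O p (A p)) S).encard ≤ K ∧
      (K : ℝ) ≤ 2 * b1 + (R + 1) * b2 + P.card * (R + 1) ^ 2 * b3 := by
  refine ⟨2 * (C2 O S ((R : ℝ) ^ 2)).ncard + (R + 1) * (C2 O S R).ncard +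
    P.card * (R + 1) ^ 2 * (C2 O S 1).ncard, ?_, ?_⟩
  · refine (h2 O P R A S hO hS hP).trans (le_of_eq ?_)
    rw [← hf1.cast_ncard_eq, ← hf2.cast_ncard_eq, ← hf3.cast_ncard_eq]
    push_cast
    rfl
  · push_cast
    have h3 : (0 : ℝ) ≤ (P.card : ℝ) * (R + 1) ^ 2 := by positivity
    have h4 : (0 : ℝ) ≤ (R : ℝ) + 1 := by positivity
    nlinarith [mul_le_mul_of_nonneg_left hb3 h3, mul_le_mul_of_nonneg_left hb2 h4]

theorem triU {O : Subring Mat} {E : Finset G2} {S S' : Set G2} {K K' : ℕ}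
    (h : (Tri O E S).encard ≤ K) (h' : (Tri O E S').encard ≤ K') :
    (Tri O E (S ∪ S')).encard ≤ (K + K' : ℕ) := by
  have e : Tri O E (S ∪ S') = Tri O E S ∪ Tri O E S' := by
    ext t
    constructor
    · rintro ⟨a, b, c, d | d⟩
      · exact Or.inl ⟨a, b, c, d⟩
      · exact Or.inr ⟨a, b, c, d⟩
    · rintro (⟨a, b, c, d⟩ | ⟨a, b, c, d⟩)
      · exact ⟨a, b, c, Or.inl d⟩
      · exact ⟨a, b, c, Or.inr d⟩
  rw [e]
  refine (Set.encard_union_le _ _).trans ?_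
  push_cast
  exact add_le_add h h'

theorem trf {s t : Set G2} (h : s.encard = t.encard) {b : ℝ} (ht : t.Finite ∧ (t.ncard : ℝ) ≤ b) :
    s.Finite ∧ (s.ncard : ℝ) ≤ b := by
  refine ⟨?_, ?_⟩
  · rw [← Set.encard_ne_top_iff, h, Set.encard_ne_top_iff]
    exact ht.1
  · rw [Set.ncard_def, h, ← Set.ncard_def]
    exact ht.2

/-! ### The numerical lemma -/

theorem num {N w K1 X a b s u v : ℝ} (hN : 1 ≤ N) (hNs : 1 ≤ N * s)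
    (ha : 0 ≤ a) (hw : 0 ≤ w) (hw1 : w ≤ 4 * N ^ (-u)) (hu : 0 ≤ u)
    (hK : K1 ≤ a * N ^ v) (hX : X ≤ b * s ^ (3 / 5 : ℝ)) (hX0 : 0 ≤ X)
    (huv : 3 / 5 ≤ 2 * u - v) :
    w ^ 2 * K1 + w * X ≤ (16 * a + 4 * b) * s ^ (3 / 5 : ℝ) := by
  have hN0 : 0 < N := by linarith
  have h1 : w ^ 2 ≤ 16 * N ^ (-(2 * u)) := by
    have : (4 * N ^ (-u)) ^ 2 = 16 * N ^ (-(2 * u)) := by
      rw [mul_pow, ← Real.rpow_natCast (N ^ (-u)) 2, ← Real.rpow_mul hN0.le]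
      norm_num
      ring_nf
    rw [← this]
    exact pow_le_pow_left₀ hw hw1 2
  have h2 : N ^ (-(2 * u)) * N ^ v ≤ s ^ (3 / 5 : ℝ) := by
    rw [← Real.rpow_add hN0]
    have e1 : N ^ (-(2 * u) + v) ≤ N ^ (-(3 / 5 : ℝ)) :=
      Real.rpow_le_rpow_of_exponent_le hN (by linarith)
    refine e1.trans ?_
    rw [Real.rpow_neg hN0.le, ← Real.inv_rpow hN0.le]
    refine Real.rpow_le_rpow (by positivity) ?_ (by norm_num)
    rw [inv_le_iff_one_le_mul₀ hN0]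
    linarith [mul_comm N s]
  have h3 : w ≤ 4 := by
    refine hw1.trans ?_
    have : N ^ (-u) ≤ 1 := Real.rpow_le_one_of_one_le_of_nonpos hN (by linarith)
    linarith
  have h4 : w ^ 2 * K1 ≤ 16 * a * s ^ (3 / 5 : ℝ) := by
    calc w ^ 2 * K1 ≤ w ^ 2 * (a * N ^ v) := mul_le_mul_of_nonneg_left hK (sq_nonneg w)
      _ ≤ (16 * N ^ (-(2 * u))) * (a * N ^ v) := mul_le_mul_of_nonneg_right h1 (by positivity)
      _ = 16 * a * (N ^ (-(2 * u)) * N ^ v) := by ring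
      _ ≤ 16 * a * s ^ (3 / 5 : ℝ) := mul_le_mul_of_nonneg_left h2 (by positivity)
  have h5 : w * X ≤ 4 * (b * s ^ (3 / 5 : ℝ)) := mul_le_mul h3 hX hX0 (by norm_num)
  nlinarith

theorem numX {K2 c b CB N s : ℝ} (hs : 0 < s) (hs1 : s ≤ 1) (hN : 1 ≤ N) (hNs : N * s ≤ 2)
    (hK : K2 ≤ b * N ^ 8) (hb : 0 ≤ b) (hCB : 0 ≤ CB) (hc : c = CB * s ^ 20) :
    √(K2 * c) ≤ √(256 * b * CB) * s ^ (3 / 5 : ℝ) := by
  have h1 : K2 * c ≤ (256 * b * CB) * (s ^ 6) ^ 2 := by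
    rw [hc]
    have e1 : (N * s) ^ 8 ≤ 256 := by
      calc (N * s) ^ 8 ≤ 2 ^ 8 := pow_le_pow_left₀ (by positivity) hNs 8
        _ = 256 := by norm_num
    calc K2 * (CB * s ^ 20) ≤ (b * N ^ 8) * (CB * s ^ 20) :=
          mul_le_mul_of_nonneg_right hK (by positivity)
      _ = (b * CB * s ^ 12) * (N * s) ^ 8 := by ring
      _ ≤ (b * CB * s ^ 12) * 256 := mul_le_mul_of_nonneg_left e1 (by positivity)
      _ = (256 * b * CB) * (s ^ 6) ^ 2 := by ring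
  calc √(K2 * c) ≤ √((256 * b * CB) * (s ^ 6) ^ 2) := Real.sqrt_le_sqrt h1
    _ = √(256 * b * CB) * s ^ 6 := by
        rw [Real.sqrt_mul (by positivity), Real.sqrt_sq (by positivity)]
    _ ≤ √(256 * b * CB) * s ^ (3 / 5 : ℝ) := by
        refine mul_le_mul_of_nonneg_left ?_ (Real.sqrt_nonneg _)
        rw [← Real.rpow_natCast s 6]
        exact Real.rpow_le_rpow_of_exponent_ge hs hs1 (by norm_num)

/-! ### Averaging -/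

theorem avgA {O : Subring Mat} {F : ℍ → ℝ} {P : Finset ℕ} {A : ℕ → Finset G2} {N : ℕ} (hN : 0 < N)
    (hF : ∀ z, 0 ≤ F z) (hP : ∀ p ∈ P, N < p) (hR : ∀ p ∈ P, Reps O p (A p)) (hne : 0 < P.card)
    (hA : ∀ p ∈ P, ∀ z, F z ≤ 2 / √(p : ℝ) * ∑ x ∈ A p, F (x • z)) (z : ℍ) :
    F z ≤ 2 / (√(N : ℝ) * P.card) * ∑ x ∈ P.biUnion A, F (x • z) := by
  have hd : (P : Set ℕ).PairwiseDisjoint A := by
    intro p hp q hq hpq
    refine Finset.disjoint_left.2 fun x hx hx' => hpq ?_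
    have e1 := ((hR p hp).mem x hx).2
    have e2 := ((hR q hq).mem x hx').2
    rw [e1] at e2
    exact_mod_cast e2
  rw [Finset.sum_biUnion hd]
  have hN' : (0 : ℝ) < N := by exact_mod_cast hN
  have hs : 0 < √(N : ℝ) := Real.sqrt_pos.2 hN'
  have hc : (0 : ℝ) < P.card := by exact_mod_cast hne
  have h1 : (P.card : ℝ) * F z ≤ 2 / √(N : ℝ) * ∑ p ∈ P, ∑ x ∈ A p, F (x • z) := by
    rw [Finset.mul_sum, ← nsmul_eq_mul, ← Finset.sum_const]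
    refine Finset.sum_le_sum fun p hp => (hA p hp z).trans ?_
    refine mul_le_mul_of_nonneg_right ?_ (Finset.sum_nonneg fun x _ => hF _)
    refine div_le_div_of_nonneg_left (by norm_num) hs (Real.sqrt_le_sqrt ?_)
    exact_mod_cast (hP p hp).le
  have h2 : 2 / (√(N : ℝ) * P.card) * ∑ p ∈ P, ∑ x ∈ A p, F (x • z) =
      (2 / √(N : ℝ) * ∑ p ∈ P, ∑ x ∈ A p, F (x • z)) / P.card := by
    field_simp
  rw [h2, le_div_iff₀ hc]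
  linarith [mul_comm (F z) (P.card : ℝ)]

theorem avgB (h10 : S_NBi) {O : Subring Mat} {F : ℍ → ℝ} {P : Finset ℕ} {A : ℕ → Finset G2}
    {N : ℕ} (hO : QOrder O) (hN : 0 < N) (hF : ∀ z, 0 ≤ F z) (hP : ∀ p ∈ P, N < p)
    (hG : ∀ p ∈ P, Good O p) (hR : ∀ p ∈ P, Reps O p (A p)) (hne : 0 < P.card)
    (hA : ∀ p ∈ P, ∀ z, F z ≤ 4 / (3 * (p : ℝ)) * ∑ x ∈ NB O p (A p), F (x • z)) (z : ℍ) :
    F z ≤ 4 / (3 * (N : ℝ) * P.card) * ∑ x ∈ P.biUnion (fun p => NB O p (A p)), F (x • z) := by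
  have hd : (P : Set ℕ).PairwiseDisjoint (fun p => NB O p (A p)) := by
    intro p hp q hq hpq
    refine Finset.disjoint_left.2 fun x hx hx' => hpq ?_
    have e1 := ((h10 O p (A p) hO (hG p hp) (hR p hp)).1 x hx).2
    have e2 := ((h10 O q (A q) hO (hG q hq) (hR q hq)).1 x hx').2
    rw [e1] at e2
    have e3 : p ^ 2 = q ^ 2 := by exact_mod_cast e2
    exact Nat.pow_left_injective (n := 2) (by norm_num) e3
  rw [Finset.sum_biUnion hd]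
  have hN' : (0 : ℝ) < N := by exact_mod_cast hN
  have hc : (0 : ℝ) < P.card := by exact_mod_cast hne
  have h1 : (P.card : ℝ) * F z ≤ 4 / (3 * (N : ℝ)) * ∑ p ∈ P, ∑ x ∈ NB O p (A p), F (x • z) := by
    rw [Finset.mul_sum, ← nsmul_eq_mul, ← Finset.sum_const]
    refine Finset.sum_le_sum fun p hp => (hA p hp z).trans ?_
    refine mul_le_mul_of_nonneg_right ?_ (Finset.sum_nonneg fun x _ => hF _)
    refine div_le_div_of_nonneg_left (by norm_num) (by positivity) ?_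
    have : (N : ℝ) ≤ p := by exact_mod_cast (hP p hp).le
    linarith
  have h2 : 4 / (3 * (N : ℝ) * P.card) * ∑ p ∈ P, ∑ x ∈ NB O p (A p), F (x • z) =
      (4 / (3 * (N : ℝ)) * ∑ p ∈ P, ∑ x ∈ NB O p (A p), F (x • z)) / P.card := by
    field_simp
  rw [h2, le_div_iff₀ hc]
  linarith [mul_comm (F z) (P.card : ℝ)]

/-! ### The two types -/

theorem typeA (h1 : S_Ma) (h9 : S_TTs) {O : Subring Mat} {F : ℍ → ℝ} {D B : Set ℍ} {P : Finset ℕ}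
    {N : ℕ} {A : ℕ → Finset G2} {s c CB a a1 : ℝ} {Sa Sb' S₂ : Set G2}
    (hO : QOrder O) (hFc : Continuous F) (hF : ∀ z, 0 ≤ F z)
    (hFi : ∀ g ∈ normOne O, ∀ z, F (g • z) = F z)
    (hD : IsFundamentalDomain (Gam O) D volume) (hm : ms F D = 1)
    (hB1 : MeasurableSet B) (hB2 : Bornology.IsBounded B)
    (hSa : ScInv Sa) (hSb : ScInv Sb') (hS2 : ScInv S₂)
    (hN : 1 ≤ N) (hs : 0 < s) (hs1 : s ≤ 1) (hNs : 1 ≤ N * s) (hNs2 : N * s ≤ 2)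
    (hP : ∀ p ∈ P, Good O p ∧ p ≤ 3 * N ∧ Reps O p (A p) ∧ (A p).card = p + 1)
    (hP1 : ∀ p ∈ P, N < p) (hPc : P.card ≤ 3 * N)
    (hPn : (N : ℝ) ^ (29 / 30 : ℝ) ≤ 2 * P.card)
    (hA : ∀ p ∈ P, ∀ z, F z ≤ 2 / √(p : ℝ) * ∑ x ∈ A p, F (x • z))
    (hc : c = CB * s ^ 20) (hCB : 0 ≤ CB) (ha : 0 ≤ a) (ha1 : 0 ≤ a1)
    (hS₂ : ∀ g : G2, 0 < (g : Mat).det → ∀ z ∈ B, g • z ∈ B → g ∈ S₂)
    (hS₁ : ∀ g : G2, 0 < (g : Mat).det → g ∉ Sa ∪ Sb' →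
      ms F {z ∈ B | g • z ∈ B} ≤ ENNReal.ofReal c)
    (fa : ∀ X : ℝ, 1 ≤ X → X ≤ (3 * N) ^ 2 → (C1 O Sa X).Finite ∧ ((C1 O Sa X).ncard : ℝ) ≤ a * X)
    (fb : ∀ X : ℝ, 1 ≤ X → X ≤ (3 * N) ^ 2 →
      (C1 O Sb' X).Finite ∧ ((C1 O Sb' X).ncard : ℝ) ≤ a * X)
    (f2 : ∀ X : ℝ, 1 ≤ X → (C1 O S₂ X).Finite ∧
      ((C1 O S₂ X).ncard : ℝ) ≤ a1 * X * (1 + √X * 8) ^ 2) :
    ms F B ≤ ENNReal.ofReal
      ((16 * (60 * a) + 4 * √(256 * (20000 * a1) * CB)) * s ^ (3 / 5 : ℝ)) := by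
  have hN1 : (1 : ℝ) ≤ N := by exact_mod_cast hN
  have hN0 : (0 : ℝ) < N := by linarith
  have hPc' : (P.card : ℝ) ≤ 3 * N := by exact_mod_cast hPc
  have hm0 : (0 : ℝ) < P.card := by
    have := Real.rpow_pos_of_pos hN0 (29 / 30 : ℝ)
    linarith
  have hm0' : 0 < P.card := by exact_mod_cast hm0
  have hR1 : ((3 * N : ℕ) : ℝ) = 3 * N := by push_cast; ring
  have hX1 : (1 : ℝ) ≤ ((3 * N : ℕ) : ℝ) ^ 2 := by
    rw [hR1]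
    nlinarith
  have hX2 : ((3 * N : ℕ) : ℝ) ^ 2 ≤ (3 * N) ^ 2 := by rw [hR1]
  obtain ⟨Ka, hKa, hKa'⟩ := triA h1 hO hSa hP (fa _ hX1 hX2).1 (fa _ hX1 hX2).2
    (fa 1 le_rfl (hX1.trans hX2)).1 (fa 1 le_rfl (hX1.trans hX2)).2
  obtain ⟨Kb, hKb, hKb'⟩ := triA h1 hO hSb hP (fb _ hX1 hX2).1 (fb _ hX1 hX2).2
    (fb 1 le_rfl (hX1.trans hX2)).1 (fb 1 le_rfl (hX1.trans hX2)).2
  obtain ⟨K2, hK2, hK2'⟩ := triA h1 hO hS2 hP (f2 _ hX1).1 (f2 _ hX1).2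
    (f2 1 le_rfl).1 (f2 1 le_rfl).2
  rw [hR1] at hKa' hKb' hK2'
  have hR3 : (P.card : ℝ) * (3 * N + 1) ≤ 12 * (N : ℝ) ^ 2 := by
    calc (P.card : ℝ) * (3 * N + 1) ≤ (3 * N) * (4 * N) :=
          mul_le_mul hPc' (by linarith) (by positivity) (by positivity)
      _ = 12 * (N : ℝ) ^ 2 := by ring
  have hKa2 : (Ka : ℝ) ≤ 30 * a * (N : ℝ) ^ 2 := by
    have := mul_le_mul_of_nonneg_right hR3 ha
    nlinarith
  have hKb2 : (Kb : ℝ) ≤ 30 * a * (N : ℝ) ^ 2 := by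
    have := mul_le_mul_of_nonneg_right hR3 ha
    nlinarith
  have hK22 : (K2 : ℝ) ≤ 20000 * a1 * (N : ℝ) ^ 8 := by
    rw [Real.sqrt_sq (by positivity), Real.sqrt_one] at hK2'
    have e1 : (1 + 3 * (N : ℝ) * 8) ^ 2 ≤ 625 * (N : ℝ) ^ 2 := by nlinarith
    have e2 : (N : ℝ) ^ 4 ≤ (N : ℝ) ^ 8 := pow_le_pow_right₀ hN1 (by norm_num)
    have e3 : (N : ℝ) ^ 2 ≤ (N : ℝ) ^ 8 := pow_le_pow_right₀ hN1 (by norm_num)
    calc (K2 : ℝ) ≤ 2 * (a1 * (3 * N) ^ 2 * (1 + 3 * N * 8) ^ 2) +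
          P.card * (3 * N + 1) * (a1 * 1 * (1 + 1 * 8) ^ 2) := hK2'
      _ ≤ 2 * (a1 * (3 * N) ^ 2 * (625 * (N : ℝ) ^ 2)) +
          (12 * (N : ℝ) ^ 2) * (a1 * 1 * (1 + 1 * 8) ^ 2) := by
          gcongr
      _ = a1 * (11250 * (N : ℝ) ^ 4 + 972 * (N : ℝ) ^ 2) := by ring
      _ ≤ a1 * (20000 * (N : ℝ) ^ 8) := by
          refine mul_le_mul_of_nonneg_left ?_ ha1
          linarith
      _ = 20000 * a1 * (N : ℝ) ^ 8 := by ring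
  have hdet : ∀ x ∈ P.biUnion A, 0 < (x : Mat).det := by
    intro x hx
    obtain ⟨p, hp, hx⟩ := Finset.mem_biUnion.1 hx
    rw [((hP p hp).2.2.1.mem x hx).2]
    exact_mod_cast lt_of_le_of_lt (Nat.zero_le _) (hP1 p hp)
  have hw0 : 0 ≤ 2 / (√(N : ℝ) * P.card) := by positivity
  have hc0 : 0 ≤ c := by rw [hc]; positivity
  have key := h9 O F D B (P.biUnion A) (2 / (√(N : ℝ) * P.card)) (Sa ∪ Sb') S₂ (Ka + Kb) K2 c hO
    hFc hF hFi hD hm hB1 hw0 (fun z _ => avgA hN hF hP1 (fun p hp => (hP p hp).2.2.1) hm0' hA z)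
    hB2 hdet hc0 hS₂ hS₁ (triU hKa hKb) hK2
  refine key.trans (ENNReal.ofReal_le_ofReal ?_)
  refine num (u := 22 / 15) (v := 2) hN1 hNs (by positivity) hw0 ?_ (by norm_num) ?_ ?_
    (Real.sqrt_nonneg _) (by norm_num)
  · rw [Real.rpow_neg hN0.le, div_le_iff₀ (by positivity)]
    have e1 : √(N : ℝ) * (N : ℝ) ^ (29 / 30 : ℝ) = (N : ℝ) ^ (22 / 15 : ℝ) := by
      rw [Real.sqrt_eq_rpow, ← Real.rpow_add hN0]
      norm_num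
    have e2 : (N : ℝ) ^ (22 / 15 : ℝ) ≤ √(N : ℝ) * (2 * P.card) := by
      rw [← e1]
      exact mul_le_mul_of_nonneg_left hPn (Real.sqrt_nonneg _)
    have e3 : 0 < (N : ℝ) ^ (22 / 15 : ℝ) := Real.rpow_pos_of_pos hN0 _
    calc (2 : ℝ) = 2 * (((N : ℝ) ^ (22 / 15 : ℝ))⁻¹ * (N : ℝ) ^ (22 / 15 : ℝ)) := by
          rw [inv_mul_cancel₀ e3.ne', mul_one]
      _ ≤ 2 * (((N : ℝ) ^ (22 / 15 : ℝ))⁻¹ * (√(N : ℝ) * (2 * P.card))) := by gcongr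
      _ = _ := by ring
  · push_cast
    rw [Real.rpow_two]
    linarith
  · exact numX hs hs1 hN1 hNs2 hK22 (by positivity) hCB hc

theorem typeB (h2 : S_Mb) (h9 : S_TTs) (h10 : S_NBi) {O : Subring Mat} {F : ℍ → ℝ} {D B : Set ℍ}
    {P : Finset ℕ} {N : ℕ} {A : ℕ → Finset G2} {s c CB a b a1 : ℝ} {Sa Sb' S₂ : Set G2}
    (hO : QOrder O) (hFc : Continuous F) (hF : ∀ z, 0 ≤ F z)
    (hFi : ∀ g ∈ normOne O, ∀ z, F (g • z) = F z)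
    (hD : IsFundamentalDomain (Gam O) D volume) (hm : ms F D = 1)
    (hB1 : MeasurableSet B) (hB2 : Bornology.IsBounded B)
    (hSa : ScInv Sa) (hSb : ScInv Sb') (hS2 : ScInv S₂)
    (hN : 1 ≤ N) (hs : 0 < s) (hs1 : s ≤ 1) (hNs : 1 ≤ N * s) (hNs2 : N * s ≤ 2)
    (hP : ∀ p ∈ P, Good O p ∧ p ≤ 3 * N ∧ Reps O p (A p) ∧ (A p).card = p + 1)
    (hP1 : ∀ p ∈ P, N < p) (hPc : P.card ≤ 3 * N)
    (hPn : (N : ℝ) ^ (29 / 30 : ℝ) ≤ 2 * P.card)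
    (hA : ∀ p ∈ P, ∀ z, F z ≤ 4 / (3 * (p : ℝ)) * ∑ x ∈ NB O p (A p), F (x • z))
    (hc : c = CB * s ^ 20) (hCB : 0 ≤ CB) (ha : 0 ≤ a) (hb : 0 ≤ b) (ha1 : 0 ≤ a1)
    (hS₂ : ∀ g : G2, 0 < (g : Mat).det → ∀ z ∈ B, g • z ∈ B → g ∈ S₂)
    (hS₁ : ∀ g : G2, 0 < (g : Mat).det → g ∉ Sa ∪ Sb' →
      ms F {z ∈ B | g • z ∈ B} ≤ ENNReal.ofReal c)
    (fa : ∀ Y : ℝ, 1 ≤ Y → Y ≤ (3 * N) ^ 2 →
      (C2 O Sa Y).Finite ∧ ((C2 O Sa Y).ncard : ℝ) ≤ a * Y ^ (5 / 3 : ℝ))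
    (fb : ∀ Y : ℝ, 1 ≤ Y → Y ≤ (3 * N) ^ 2 →
      (C2 O Sb' Y).Finite ∧ ((C2 O Sb' Y).ncard : ℝ) ≤ b * Y ^ (5 / 3 : ℝ))
    (f2 : ∀ Y : ℝ, 1 ≤ Y → (C2 O S₂ Y).Finite ∧
      ((C2 O S₂ Y).ncard : ℝ) ≤ a1 * Y ^ (1 + 1 : ℝ) * (1 + Y * 8) ^ 2) :
    ms F B ≤ ENNReal.ofReal
      ((16 * (246 * (a + b)) + 4 * √(256 * (900000 * a1) * CB)) * s ^ (3 / 5 : ℝ)) := by
  have hN1 : (1 : ℝ) ≤ N := by exact_mod_cast hN
  have hN0 : (0 : ℝ) < N := by linarith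
  have hPc' : (P.card : ℝ) ≤ 3 * N := by exact_mod_cast hPc
  have hm0 : (0 : ℝ) < P.card := by
    have := Real.rpow_pos_of_pos hN0 (29 / 30 : ℝ)
    linarith
  have hm0' : 0 < P.card := by exact_mod_cast hm0
  have hR1 : ((3 * N : ℕ) : ℝ) = 3 * N := by push_cast; ring
  have hY1 : (1 : ℝ) ≤ ((3 * N : ℕ) : ℝ) := by
    rw [hR1]
    linarith
  have hY2 : ((3 * N : ℕ) : ℝ) ≤ (3 * N) ^ 2 := by
    rw [hR1]
    nlinarith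
  have hX1 : (1 : ℝ) ≤ ((3 * N : ℕ) : ℝ) ^ 2 := by
    rw [hR1]
    nlinarith
  have hX2 : ((3 * N : ℕ) : ℝ) ^ 2 ≤ (3 * N) ^ 2 := by rw [hR1]
  have h11 : (1 : ℝ) ≤ (3 * N) ^ 2 := hX1.trans hX2
  -- the bound of the main terms
  have hR3 : (P.card : ℝ) * (3 * N + 1) ^ 2 ≤ 48 * (N : ℝ) ^ 3 := by
    calc (P.card : ℝ) * (3 * N + 1) ^ 2 ≤ (3 * N) * (4 * N) ^ 2 :=
          mul_le_mul hPc' (pow_le_pow_left₀ (by positivity) (by linarith) 2) (by positivity)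
            (by positivity)
      _ = 48 * (N : ℝ) ^ 3 := by ring
  have key1 : ∀ x : ℝ, 0 ≤ x → 2 * (x * ((3 * (N : ℝ)) ^ 2) ^ (5 / 3 : ℝ)) +
      (3 * N + 1) * (x * (3 * (N : ℝ)) ^ (5 / 3 : ℝ)) +
      P.card * (3 * N + 1) ^ 2 * (x * (1 : ℝ) ^ (5 / 3 : ℝ)) ≤
        246 * x * (N : ℝ) ^ (10 / 3 : ℝ) := by
    intro x hx
    have e0 : (3 : ℝ) ^ (5 / 3 : ℝ) ≤ 9 := by
      calc (3 : ℝ) ^ (5 / 3 : ℝ) ≤ (3 : ℝ) ^ (2 : ℝ) :=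
            Real.rpow_le_rpow_of_exponent_le (by norm_num) (by norm_num)
        _ = 9 := by norm_num
    have e1 : (3 * (N : ℝ)) ^ (5 / 3 : ℝ) ≤ 9 * (N : ℝ) ^ (5 / 3 : ℝ) := by
      rw [Real.mul_rpow (by norm_num) hN0.le]
      exact mul_le_mul_of_nonneg_right e0 (by positivity)
    have e2 : ((3 * (N : ℝ)) ^ 2) ^ (5 / 3 : ℝ) ≤ 81 * (N : ℝ) ^ (10 / 3 : ℝ) := by
      have e3 : ((3 * (N : ℝ)) ^ 2) ^ (5 / 3 : ℝ) = ((3 * (N : ℝ)) ^ (5 / 3 : ℝ)) ^ 2 := by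
        rw [← Real.rpow_natCast (3 * (N : ℝ)) 2, ← Real.rpow_mul (by positivity),
          ← Real.rpow_natCast ((3 * (N : ℝ)) ^ (5 / 3 : ℝ)) 2, ← Real.rpow_mul (by positivity)]
        norm_num
      have e4 : ((N : ℝ) ^ (5 / 3 : ℝ)) ^ 2 = (N : ℝ) ^ (10 / 3 : ℝ) := by
        rw [← Real.rpow_natCast ((N : ℝ) ^ (5 / 3 : ℝ)) 2, ← Real.rpow_mul (by positivity)]
        norm_num
      rw [e3]
      calc ((3 * (N : ℝ)) ^ (5 / 3 : ℝ)) ^ 2 ≤ (9 * (N : ℝ) ^ (5 / 3 : ℝ)) ^ 2 :=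
            pow_le_pow_left₀ (by positivity) e1 2
        _ = 81 * ((N : ℝ) ^ (5 / 3 : ℝ)) ^ 2 := by ring
        _ = _ := by rw [e4]
    have e5 : (N : ℝ) * (N : ℝ) ^ (5 / 3 : ℝ) ≤ (N : ℝ) ^ (10 / 3 : ℝ) := by
      have : (N : ℝ) * (N : ℝ) ^ (5 / 3 : ℝ) = (N : ℝ) ^ (8 / 3 : ℝ) := by
        nth_rewrite 1 [← Real.rpow_one (N : ℝ)]
        rw [← Real.rpow_add hN0]
        norm_num
      rw [this]
      exact Real.rpow_le_rpow_of_exponent_le hN1 (by norm_num)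
    have e6 : (N : ℝ) ^ 3 ≤ (N : ℝ) ^ (10 / 3 : ℝ) := by
      rw [← Real.rpow_natCast (N : ℝ) 3]
      exact Real.rpow_le_rpow_of_exponent_le hN1 (by norm_num)
    rw [Real.one_rpow, mul_one]
    have t1 : 2 * (x * ((3 * (N : ℝ)) ^ 2) ^ (5 / 3 : ℝ)) ≤
        2 * (x * (81 * (N : ℝ) ^ (10 / 3 : ℝ))) := by gcongr
    have t2 : (3 * N + 1) * (x * (3 * (N : ℝ)) ^ (5 / 3 : ℝ)) ≤
        36 * x * (N : ℝ) ^ (10 / 3 : ℝ) := by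
      calc (3 * N + 1) * (x * (3 * (N : ℝ)) ^ (5 / 3 : ℝ)) ≤
            (4 * (N : ℝ)) * (x * (9 * (N : ℝ) ^ (5 / 3 : ℝ))) := by
            refine mul_le_mul (by linarith) ?_ (by positivity) (by positivity)
            exact mul_le_mul_of_nonneg_left e1 hx
        _ = 36 * x * ((N : ℝ) * (N : ℝ) ^ (5 / 3 : ℝ)) := by ring
        _ ≤ 36 * x * (N : ℝ) ^ (10 / 3 : ℝ) := by gcongr
    have t3 : P.card * (3 * (N : ℝ) + 1) ^ 2 * x ≤ 48 * x * (N : ℝ) ^ (10 / 3 : ℝ) := by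
      calc P.card * (3 * (N : ℝ) + 1) ^ 2 * x ≤ (48 * (N : ℝ) ^ 3) * x :=
            mul_le_mul_of_nonneg_right hR3 hx
        _ = 48 * x * (N : ℝ) ^ 3 := by ring
        _ ≤ _ := by gcongr
    linarith
  obtain ⟨Ka, hKa, hKa'⟩ := triB h2 hO hSa hP (fa _ hX1 hX2).1 (fa _ hX1 hX2).2
    (fa _ hY1 hY2).1 (fa _ hY1 hY2).2 (fa 1 le_rfl h11).1 (fa 1 le_rfl h11).2
  obtain ⟨Kb, hKb, hKb'⟩ := triB h2 hO hSb hP (fb _ hX1 hX2).1 (fb _ hX1 hX2).2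
    (fb _ hY1 hY2).1 (fb _ hY1 hY2).2 (fb 1 le_rfl h11).1 (fb 1 le_rfl h11).2
  obtain ⟨K2, hK2, hK2'⟩ := triB h2 hO hS2 hP (f2 _ hX1).1 (f2 _ hX1).2
    (f2 _ hY1).1 (f2 _ hY1).2 (f2 1 le_rfl).1 (f2 1 le_rfl).2
  rw [hR1] at hKa' hKb' hK2'
  have hKa2 := hKa'.trans (key1 a ha)
  have hKb2 := hKb'.trans (key1 b hb)
  have hK22 : (K2 : ℝ) ≤ 900000 * a1 * (N : ℝ) ^ 8 := by
    have e0 : ∀ y : ℝ, y ^ (1 + 1 : ℝ) = y ^ 2 := by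
      intro y
      rw [← Real.rpow_natCast y 2]
      norm_num
    rw [e0, e0, e0] at hK2'
    have e1 : (1 + 3 * (N : ℝ) * 8) ^ 2 ≤ 625 * (N : ℝ) ^ 2 := by nlinarith
    have e2 : (1 + (3 * (N : ℝ)) ^ 2 * 8) ^ 2 ≤ 5329 * (N : ℝ) ^ 4 := by
      have : 1 + (3 * (N : ℝ)) ^ 2 * 8 ≤ 73 * (N : ℝ) ^ 2 := by nlinarith
      calc (1 + (3 * (N : ℝ)) ^ 2 * 8) ^ 2 ≤ (73 * (N : ℝ) ^ 2) ^ 2 :=
            pow_le_pow_left₀ (by positivity) this 2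
        _ = _ := by ring
    have e3 : (N : ℝ) ^ 5 ≤ (N : ℝ) ^ 8 := pow_le_pow_right₀ hN1 (by norm_num)
    have e4 : (N : ℝ) ^ 3 ≤ (N : ℝ) ^ 8 := pow_le_pow_right₀ hN1 (by norm_num)
    calc (K2 : ℝ) ≤ 2 * (a1 * ((3 * N) ^ 2) ^ 2 * (1 + (3 * N) ^ 2 * 8) ^ 2) +
          (3 * N + 1) * (a1 * (3 * N) ^ 2 * (1 + 3 * N * 8) ^ 2) +
          P.card * (3 * N + 1) ^ 2 * (a1 * 1 ^ 2 * (1 + 1 * 8) ^ 2) := hK2'
      _ ≤ 2 * (a1 * ((3 * N) ^ 2) ^ 2 * (5329 * (N : ℝ) ^ 4)) +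
          (4 * N) * (a1 * (3 * N) ^ 2 * (625 * (N : ℝ) ^ 2)) +
          (48 * (N : ℝ) ^ 3) * (a1 * 1 ^ 2 * (1 + 1 * 8) ^ 2) := by
          gcongr
          linarith
      _ = a1 * (863298 * (N : ℝ) ^ 8 + 22500 * (N : ℝ) ^ 5 + 3888 * (N : ℝ) ^ 3) := by ring
      _ ≤ a1 * (900000 * (N : ℝ) ^ 8) := by
          refine mul_le_mul_of_nonneg_left ?_ ha1
          linarith [pow_pos hN0 8]
      _ = 900000 * a1 * (N : ℝ) ^ 8 := by ring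
  have hdet : ∀ x ∈ P.biUnion (fun p => NB O p (A p)), 0 < (x : Mat).det := by
    intro x hx
    obtain ⟨p, hp, hx⟩ := Finset.mem_biUnion.1 hx
    rw [((h10 O p (A p) hO (hP p hp).1 (hP p hp).2.2.1).1 x hx).2]
    have : 0 < p := lt_of_le_of_lt (Nat.zero_le _) (hP1 p hp)
    positivity
  have hw0 : 0 ≤ 4 / (3 * (N : ℝ) * P.card) := by positivity
  have hc0 : 0 ≤ c := by rw [hc]; positivity
  have key := h9 O F D B (P.biUnion fun p => NB O p (A p)) (4 / (3 * (N : ℝ) * P.card)) (Sa ∪ Sb')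
    S₂ (Ka + Kb) K2 c hO hFc hF hFi hD hm hB1 hw0
    (fun z _ => avgB h10 hO hN hF hP1 (fun p hp => (hP p hp).1) (fun p hp => (hP p hp).2.2.1)
      hm0' hA z)
    hB2 hdet hc0 hS₂ hS₁ (triU hKa hKb) hK2
  refine key.trans (ENNReal.ofReal_le_ofReal ?_)
  refine num (u := 59 / 30) (v := 10 / 3) hN1 hNs (by positivity) hw0 ?_ (by norm_num) ?_ ?_
    (Real.sqrt_nonneg _) (by norm_num)
  · rw [Real.rpow_neg hN0.le, div_le_iff₀ (by positivity)]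
    have e1 : (N : ℝ) * (N : ℝ) ^ (29 / 30 : ℝ) = (N : ℝ) ^ (59 / 30 : ℝ) := by
      nth_rewrite 1 [← Real.rpow_one (N : ℝ)]
      rw [← Real.rpow_add hN0]
      norm_num
    have e2 : (N : ℝ) ^ (59 / 30 : ℝ) ≤ (N : ℝ) * (2 * P.card) := by
      rw [← e1]
      exact mul_le_mul_of_nonneg_left hPn hN0.le
    have e3 : 0 < (N : ℝ) ^ (59 / 30 : ℝ) := Real.rpow_pos_of_pos hN0 _
    calc (4 : ℝ) ≤ 6 * (((N : ℝ) ^ (59 / 30 : ℝ))⁻¹ * (N : ℝ) ^ (59 / 30 : ℝ)) := by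
          rw [inv_mul_cancel₀ e3.ne']
          norm_num
      _ ≤ 6 * (((N : ℝ) ^ (59 / 30 : ℝ))⁻¹ * ((N : ℝ) * (2 * P.card))) := by gcongr
      _ = _ := by ring
  · push_cast
    linarith
  · exact numX hs hs1 hN1 hNs2 hK22 (by positivity) hCB hc

/-! ### The neighbourhood -/

theorem dist_inv (h8 : S_Iso) (h : G2) (z w : ℍ) : dist (h⁻¹ • z) w = dist z (h • w) := by
  rw [← h8 h (h⁻¹ • z) w, smul_inv_smul]

theorem cont_smul (h8 : S_Iso) (h : G2) : Continuous fun z : ℍ => h • z :=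
  (Isometry.of_dist_eq fun z w => h8 h z w).continuous

theorem closed_B0 (r : ℝ) : IsClosed (B0 r) := by
  have h1 : IsClosed {z : ℍ | dist z I ≤ 4} :=
    isClosed_le (continuous_id.dist continuous_const) continuous_const
  have h2 : IsClosed {z : ℍ | |z.re| ≤ r * z.im} :=
    isClosed_le (UpperHalfPlane.continuous_re.abs)
      (continuous_const.mul UpperHalfPlane.continuous_im)
  exact h1.inter h2

theorem meas_B (h8 : S_Iso) (h : G2) (r : ℝ) : MeasurableSet {z : ℍ | h⁻¹ • z ∈ B0 r} :=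
  ((closed_B0 r).preimage (cont_smul h8 h⁻¹)).measurableSet

theorem sub_ball (h8 : S_Iso) (h : G2) (r : ℝ) :
    {z : ℍ | h⁻¹ • z ∈ B0 r} ⊆ Metric.closedBall (h • I) 4 := by
  intro z hz
  rw [Metric.mem_closedBall, ← dist_inv h8]
  exact hz.1

theorem det_cj (h g : G2) : ((h⁻¹ * g * h : G2) : Mat).det = (g : Mat).det := by
  have e : ((h⁻¹ : G2) : Mat).det * (h : Mat).det = 1 := by
    rw [← Matrix.det_mul, ← Units.val_mul, inv_mul_cancel, Units.val_one, Matrix.det_one]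
  rw [Units.val_mul, Units.val_mul, Matrix.det_mul, Matrix.det_mul]
  calc ((h⁻¹ : G2) : Mat).det * (g : Mat).det * (h : Mat).det
      = (g : Mat).det * (((h⁻¹ : G2) : Mat).det * (h : Mat).det) := by ring
    _ = (g : Mat).det := by rw [e, mul_one]

theorem ms_mono {F : ℍ → ℝ} {A B : Set ℍ} (h : A ⊆ B) : ms F A ≤ ms F B :=
  lintegral_mono_set h

theorem in_S2 (h8 : S_Iso) (h : G2) (r : ℝ) (g : G2) (hg : 0 < (g : Mat).det) (z : ℍ)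
    (hz : z ∈ {z : ℍ | h⁻¹ • z ∈ B0 r}) (hgz : g • z ∈ {z : ℍ | h⁻¹ • z ∈ B0 r}) :
    g ∈ Sb (h • I) 8 := by
  refine ⟨hg, ?_⟩
  have h1 := sub_ball h8 h r hz
  have h2 := sub_ball h8 h r hgz
  rw [Metric.mem_closedBall] at h1 h2
  calc dist (g • h • I) (h • I) ≤ dist (g • h • I) (g • z) + dist (g • z) (h • I) :=
        dist_triangle _ _ _
    _ = dist z (h • I) + dist (g • z) (h • I) := by rw [h8, dist_comm (h • I) z]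
    _ ≤ 8 := by linarith

theorem off_S1 (h8 : S_Iso) {CG CB r ρ : ℝ} (hr : 0 < r) (hr2 : r ≤ 2) (hρ : 0 < ρ) (hρ8 : ρ ≤ 8)
    (hGT : ∀ (r ρ : ℝ) (g : G2) (z₁ z₂ : ℍ), 0 < r → r ≤ 2 → 0 < ρ → 0 < (g : Mat).det →
      z₁ ∈ B0 r → z₂ ∈ B0 r → g • z₁ ∈ B0 r → g • z₂ ∈ B0 r → ρ ≤ dist z₁ z₂ →
      g ∈ Sp (CG * r / ρ) ∨ g ∈ Sm (CG * r / ρ)) {F : ℍ → ℝ}
    (hBall : ∀ (z : ℍ) (r : ℝ), 0 < r → r ≤ 8 →
      ms F (Metric.closedBall z r) ≤ ENNReal.ofReal (CB * r ^ (1 / 2 : ℝ)))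
    (h g : G2) (hg : 0 < (g : Mat).det)
    (hgS : g ∉ cs h (Sp (CG * r / ρ)) ∪ cs h (Sm (CG * r / ρ))) :
    ms F {z ∈ {z : ℍ | h⁻¹ • z ∈ B0 r} | g • z ∈ {z : ℍ | h⁻¹ • z ∈ B0 r}} ≤
      ENNReal.ofReal (CB * ρ ^ (1 / 2 : ℝ)) := by
  have hd : ∀ z₁ z₂ : ℍ, z₁ ∈ {z ∈ {z : ℍ | h⁻¹ • z ∈ B0 r} | g • z ∈ {z : ℍ | h⁻¹ • z ∈ B0 r}} →
      z₂ ∈ {z ∈ {z : ℍ | h⁻¹ • z ∈ B0 r} | g • z ∈ {z : ℍ | h⁻¹ • z ∈ B0 r}} →
      dist z₁ z₂ < ρ := by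
    rintro z₁ z₂ ⟨h1, h1'⟩ ⟨h2, h2'⟩
    by_contra hcon
    rw [not_lt] at hcon
    have e : ∀ z : ℍ, (h⁻¹ * g * h : G2) • (h⁻¹ • z) = h⁻¹ • (g • z) := by
      intro z
      rw [← mul_smul, ← mul_smul, mul_assoc, mul_inv_cancel, mul_one]
    rcases hGT r ρ (h⁻¹ * g * h) (h⁻¹ • z₁) (h⁻¹ • z₂) hr hr2 hρ (by rw [det_cj]; exact hg)
      h1 h2 (by rw [e]; exact h1') (by rw [e]; exact h2') (by rw [h8]; exact hcon) with h3 | h3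
    · exact hgS (Or.inl h3)
    · exact hgS (Or.inr h3)
  by_cases hne : ({z ∈ {z : ℍ | h⁻¹ • z ∈ B0 r} |
      g • z ∈ {z : ℍ | h⁻¹ • z ∈ B0 r}} : Set ℍ).Nonempty
  · obtain ⟨z₁, hz₁⟩ := hne
    refine (ms_mono fun z hz => ?_).trans (hBall z₁ ρ hρ hρ8)
    rw [Metric.mem_closedBall]
    exact (hd z z₁ hz hz₁).le
  · rw [Set.not_nonempty_iff_eq_empty] at hne
    rw [hne]
    simp [ms]

/-! ### The case of small `r` -/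

theorem small (h1 : S_Ma) (h2 : S_Mb) (h5 : S_Pr) (h6 : S_Cj) (h7 : S_Sc) (h8 : S_Iso)
    (h9 : S_TTs) (h10 : S_NBi) {p₀ : ℕ} {CB CG k1 k2 as' c₁ ap c₂ am c₃ : ℝ}
    (hCB : 0 < CB) (hCG : 0 < CG) (hk1 : 0 < k1) (hk2 : 0 < k2) (has : 0 < as') (hc₁ : 0 < c₁)
    (hap : 0 < ap) (hc₂ : 0 < c₂) (ham : 0 < am) (hc₃ : 0 < c₃)
    (hGT : ∀ (r ρ : ℝ) (g : G2) (z₁ z₂ : ℍ), 0 < r → r ≤ 2 → 0 < ρ → 0 < (g : Mat).det →
      z₁ ∈ B0 r → z₂ ∈ B0 r → g • z₁ ∈ B0 r → g • z₂ ∈ B0 r → ρ ≤ dist z₁ z₂ →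
      g ∈ Sp (CG * r / ρ) ∨ g ∈ Sm (CG * r / ρ))
    (hC1 : ∀ (O : Subring Mat) (ρ X : ℝ), QOrder O → 0 ≤ ρ → ρ ≤ 16 → 1 ≤ X →
      (C1 O (Sb I ρ) X).Finite ∧ ((C1 O (Sb I ρ) X).ncard : ℝ) ≤ k1 * X * (1 + √X * ρ) ^ 2)
    (hC2 : ∀ (O : Subring Mat) (ρ Y : ℝ), QOrder O → 0 ≤ ρ → ρ ≤ 16 → 1 ≤ Y →
      (C2 O (Sb I ρ) Y).Finite ∧
        ((C2 O (Sb I ρ) Y).ncard : ℝ) ≤ k2 * Y ^ (1 + 1 : ℝ) * (1 + Y * ρ) ^ 2)
    (hs1 : ∀ (O : Subring Mat) (κ X : ℝ), QOrder O → 0 ≤ κ → κ * √X ≤ c₁ →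
      1 ≤ X → (C1 O (Sp κ) X).Finite ∧ ((C1 O (Sp κ) X).ncard : ℝ) ≤ as' * X ∧
        (C1 O (Sm κ) X).Finite ∧ ((C1 O (Sm κ) X).ncard : ℝ) ≤ as' * X)
    (hsp : ∀ (O : Subring Mat) (κ Y : ℝ), QOrder O → 0 ≤ κ → κ * Y ≤ c₂ →
      1 ≤ Y → (C2 O (Sp κ) Y).Finite ∧ ((C2 O (Sp κ) Y).ncard : ℝ) ≤ ap * Y ^ (5 / 3 : ℝ))
    (hsm : ∀ (O : Subring Mat) (κ Y : ℝ), QOrder O → 0 ≤ κ → κ * Y ^ 4 ≤ c₃ →
      1 ≤ Y → (C2 O (Sm κ) Y).Finite ∧ ((C2 O (Sm κ) Y).ncard : ℝ) ≤ am * Y ^ (5 / 3 : ℝ)) :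
    ∃ s₀ : ℝ, 0 < s₀ ∧ s₀ ≤ 1 ∧ ∀ (O : Subring Mat) (F : ℍ → ℝ) (D : Set ℍ),
      QOrder O → (∀ p : ℕ, p.Prime → p₀ < p → Good O p) → AmpFn O p₀ F →
      IsFundamentalDomain (Gam O) D volume → ms F D = 1 →
      (∀ (z : ℍ) (r : ℝ), 0 < r → r ≤ 8 →
        ms F (Metric.closedBall z r) ≤ ENNReal.ofReal (CB * r ^ (1 / 2 : ℝ))) →
      ∀ (h : G2) (r : ℝ), 0 < r → r ≤ s₀ ^ 60 →
        ms F {z | h⁻¹ • z ∈ B0 r} ≤ ENNReal.ofReal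
          (((16 * (60 * as') + 4 * √(256 * (20000 * k1) * CB)) +
            (16 * (246 * (ap + am)) + 4 * √(256 * (900000 * k2) * CB))) *
              r ^ (1 / 100 : ℝ)) := by
  obtain ⟨N₀, hN₀⟩ := h5 (1 / 30) (by norm_num)
  have hcm : 0 < min c₁ (min c₂ c₃) := lt_min hc₁ (lt_min hc₂ hc₃)
  refine ⟨min 1 (min (min c₁ (min c₂ c₃) / (1679616 * CG)) (1 / ((N₀ : ℝ) + p₀ + 1))), ?_,
    min_le_left _ _, ?_⟩
  · refine lt_min one_pos (lt_min ?_ ?_) <;> positivity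
  intro O F D hO hGood hF hD hm hBall h r hr hrs
  set s₀ : ℝ := min 1 (min (min c₁ (min c₂ c₃) / (1679616 * CG)) (1 / ((N₀ : ℝ) + p₀ + 1)))
    with hs₀
  have hs₀0 : 0 < s₀ := by
    rw [hs₀]
    refine lt_min one_pos (lt_min ?_ ?_) <;> positivity
  have hs₀1 : s₀ ≤ 1 := min_le_left _ _
  have hs₀2 : s₀ ≤ min c₁ (min c₂ c₃) / (1679616 * CG) :=
    (min_le_right _ _).trans (min_le_left _ _)
  have hs₀3 : s₀ ≤ 1 / ((N₀ : ℝ) + p₀ + 1) := (min_le_right _ _).trans (min_le_right _ _)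
  -- the parameter `s`
  obtain ⟨s, hs, hsr⟩ : ∃ s : ℝ, 0 < s ∧ s ^ 60 = r := by
    refine ⟨r ^ (1 / 60 : ℝ), Real.rpow_pos_of_pos hr _, ?_⟩
    rw [← Real.rpow_natCast (r ^ (1 / 60 : ℝ)) 60, ← Real.rpow_mul hr.le]
    norm_num
  have hss : s ≤ s₀ := by
    rw [← hsr] at hrs
    exact (pow_le_pow_iff_left₀ hs.le hs₀0.le (by norm_num)).1 hrs
  have hs1' : s ≤ 1 := hss.trans hs₀1
  have hr1 : r ≤ 1 := by
    rw [← hsr]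
    exact pow_le_one₀ hs.le hs1'
  have hr100 : r ^ (1 / 100 : ℝ) = s ^ (3 / 5 : ℝ) := by
    rw [← hsr, ← Real.rpow_natCast s 60, ← Real.rpow_mul hs.le]
    norm_num
  -- the parameter `N`
  obtain ⟨N, hN1, hN2⟩ : ∃ N : ℕ, 1 / s ≤ N ∧ (N : ℝ) < 1 / s + 1 :=
    ⟨⌈1 / s⌉₊, Nat.le_ceil _, Nat.ceil_lt_add_one (by positivity)⟩
  have hNs : 1 ≤ N * s := by
    rwa [div_le_iff₀ hs] at hN1
  have hNs2 : N * s ≤ 2 := by
    have : (N : ℝ) * s < (1 / s + 1) * s := mul_lt_mul_of_pos_right hN2 hs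
    have e : (1 / s + 1) * s = 1 + s := by field_simp
    linarith
  have hNbig : (N₀ : ℝ) + p₀ + 1 ≤ N := by
    refine le_trans ?_ hN1
    rw [le_div_iff₀ hs]
    have : s ≤ 1 / ((N₀ : ℝ) + p₀ + 1) := hss.trans hs₀3
    rw [le_div_iff₀ (by positivity)] at this
    linarith [mul_comm s ((N₀ : ℝ) + p₀ + 1)]
  have hNN₀ : N₀ ≤ N := by
    have : (N₀ : ℝ) ≤ N := by
      have : (0 : ℝ) ≤ p₀ := Nat.cast_nonneg _
      linarith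
    exact_mod_cast this
  have hNp₀ : p₀ ≤ N := by
    have : (p₀ : ℝ) ≤ N := by
      have : (0 : ℝ) ≤ N₀ := Nat.cast_nonneg _
      linarith
    exact_mod_cast this
  have hNone : 1 ≤ N := by
    have : (1 : ℝ) ≤ N := by
      have h1 : (0 : ℝ) ≤ N₀ := Nat.cast_nonneg _
      have h2 : (0 : ℝ) ≤ p₀ := Nat.cast_nonneg _
      linarith
    exact_mod_cast this
  have hN0 : (0 : ℝ) < N := by exact_mod_cast hNone
  have hN1' : (1 : ℝ) ≤ N := by exact_mod_cast hNone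
  -- `ρ`, `κ`, `c`
  have hρ : 0 < s ^ 40 := by positivity
  have hρ8 : s ^ 40 ≤ 8 := (pow_le_one₀ hs.le hs1').trans (by norm_num)
  have hκ : CG * r / s ^ 40 = CG * s ^ 20 := by
    rw [← hsr]
    field_simp
  have hρc : (s ^ 40) ^ (1 / 2 : ℝ) = s ^ 20 := by
    rw [← Real.rpow_natCast s 40, ← Real.rpow_mul hs.le, ← Real.rpow_natCast s 20]
    norm_num
  have hS₁ : ∀ g : G2, 0 < (g : Mat).det →
      g ∉ cs h (Sp (CG * s ^ 20)) ∪ cs h (Sm (CG * s ^ 20)) →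
      ms F {z ∈ {z : ℍ | h⁻¹ • z ∈ B0 r} | g • z ∈ {z : ℍ | h⁻¹ • z ∈ B0 r}} ≤
        ENNReal.ofReal (CB * s ^ 20) := by
    intro g hg hgS
    have := off_S1 h8 hr (by linarith) hρ hρ8 hGT hBall h g hg (by rw [hκ]; exact hgS)
    rwa [hρc] at this
  have hκ0 : 0 ≤ CG * s ^ 20 := by positivity
  -- the smallness of `κ`
  have hsm' : 1679616 * CG * s ≤ min c₁ (min c₂ c₃) := by
    have : s ≤ min c₁ (min c₂ c₃) / (1679616 * CG) := hss.trans hs₀2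
    rw [le_div_iff₀ (by positivity)] at this
    linarith [mul_comm s (1679616 * CG)]
  have hκY : ∀ Y : ℝ, 0 ≤ Y → Y ≤ (3 * N) ^ 2 → CG * s ^ 20 * Y ^ 4 ≤ min c₁ (min c₂ c₃) := by
    intro Y hY0 hY
    refine le_trans ?_ hsm'
    have e1 : Y ^ 4 ≤ ((3 * (N : ℝ)) ^ 2) ^ 4 := pow_le_pow_left₀ hY0 hY 4
    have e2 : ((N : ℝ) * s) ^ 8 ≤ 2 ^ 8 := pow_le_pow_left₀ (by positivity) hNs2 8
    have e3 : s ^ 12 ≤ s := by
      calc s ^ 12 ≤ s ^ 1 := pow_le_pow_of_le_one hs.le hs1' (by norm_num)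
        _ = s := pow_one s
    calc CG * s ^ 20 * Y ^ 4 ≤ CG * s ^ 20 * ((3 * (N : ℝ)) ^ 2) ^ 4 := by gcongr
      _ = CG * 6561 * s ^ 12 * ((N : ℝ) * s) ^ 8 := by ring
      _ ≤ CG * 6561 * s * 2 ^ 8 := by gcongr
      _ = 1679616 * CG * s := by ring
  have hκY1 : ∀ Y : ℝ, 1 ≤ Y → Y ≤ (3 * N) ^ 2 → CG * s ^ 20 * Y ≤ min c₁ (min c₂ c₃) := by
    intro Y hY1 hY
    refine le_trans ?_ (hκY Y (by linarith) hY)
    refine mul_le_mul_of_nonneg_left ?_ hκ0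
    calc Y = Y ^ 1 := (pow_one Y).symm
      _ ≤ Y ^ 4 := pow_le_pow_right₀ hY1 (by norm_num)
  have hκX : ∀ X : ℝ, 1 ≤ X → X ≤ (3 * N) ^ 2 → CG * s ^ 20 * √X ≤ c₁ := by
    intro X hX1 hX
    refine le_trans ?_ ((hκY1 X hX1 hX).trans (min_le_left _ _))
    refine mul_le_mul_of_nonneg_left ?_ hκ0
    rw [Real.sqrt_le_left (by linarith)]
    nlinarith
  -- scalars and conjugation
  obtain ⟨hScb, hScp, hScm, hSccs⟩ := h7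
  obtain ⟨hOj, hj1, hj2, hj3⟩ := h6 O h hO
  have hSp := hSccs h _ (hScp (CG * s ^ 20))
  have hSm := hSccs h _ (hScm (CG * s ^ 20))
  have hS2 := hSccs h _ (hScb I 8)
  have hS₂ : ∀ g : G2, 0 < (g : Mat).det → ∀ z ∈ {z : ℍ | h⁻¹ • z ∈ B0 r},
      g • z ∈ {z : ℍ | h⁻¹ • z ∈ B0 r} → g ∈ cs h (Sb I 8) := by
    intro g hg z hz hgz
    rw [hj3]
    exact in_S2 h8 h r g hg z hz hgz
  -- the primes
  set P : Finset ℕ := (Finset.Ioc N (3 * N)).filter Nat.Prime with hPdef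
  have hPm : ∀ p ∈ P, N < p ∧ p ≤ 3 * N ∧ p.Prime := by
    intro p hp
    rw [hPdef, Finset.mem_filter, Finset.mem_Ioc] at hp
    exact ⟨hp.1.1, hp.1.2, hp.2⟩
  have hPcard : (N : ℝ) ^ (29 / 30 : ℝ) ≤ P.card := by
    have := hN₀ N hNN₀
    norm_num at this ⊢
    exact this
  have hPle : P.card ≤ 3 * N := by
    calc P.card ≤ (Finset.Ioc N (3 * N)).card := Finset.card_filter_le _ _
      _ ≤ 3 * N := by
        rw [Nat.card_Ioc]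
        omega
  have hch : ∀ p ∈ P, ∃ A : Finset G2, Reps O p A ∧ A.card = p + 1 ∧
      ((∀ z, F z ≤ 2 / √(p : ℝ) * ∑ x ∈ A, F (x • z)) ∨
        ∀ z, F z ≤ 4 / (3 * (p : ℝ)) * ∑ x ∈ NB O p A, F (x • z)) := by
    intro p hp
    have := hPm p hp
    exact hF.amp p (by omega) (hGood p this.2.2 (by omega))
  choose! A hAR hAc hAalt using hch
  have hPall : ∀ p ∈ P, Good O p ∧ p ≤ 3 * N ∧ Reps O p (A p) ∧ (A p).card = p + 1 := by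
    intro p hp
    have := hPm p hp
    exact ⟨hGood p this.2.2 (by omega), this.2.1, hAR p hp, hAc p hp⟩
  set Pa : Finset ℕ := P.filter fun p => ∀ z, F z ≤ 2 / √(p : ℝ) * ∑ x ∈ A p, F (x • z) with hPa
  set Pb : Finset ℕ := P.filter fun p =>
    ¬ ∀ z, F z ≤ 2 / √(p : ℝ) * ∑ x ∈ A p, F (x • z) with hPb
  have hPab : Pa.card + Pb.card = P.card := by
    rw [hPa, hPb]
    exact Finset.card_filter_add_card_filter_not _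
  have hPab' : (Pa.card : ℝ) + Pb.card = P.card := by exact_mod_cast hPab
  have hPaP : Pa ⊆ P := Finset.filter_subset _ _
  have hPbP : Pb ⊆ P := Finset.filter_subset _ _
  rw [hr100]
  set T1 : ℝ := 16 * (60 * as') + 4 * √(256 * (20000 * k1) * CB) with hT1
  set T2 : ℝ := 16 * (246 * (ap + am)) + 4 * √(256 * (900000 * k2) * CB) with hT2
  have hT1' : 0 ≤ T1 := by positivity
  have hT2' : 0 ≤ T2 := by positivity
  have hsp35 : 0 ≤ s ^ (3 / 5 : ℝ) := by positivity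
  have hbd : Bornology.IsBounded {z : ℍ | h⁻¹ • z ∈ B0 r} :=
    Metric.isBounded_closedBall.subset (sub_ball h8 h r)
  rcases le_total (P.card : ℝ) (2 * Pa.card) with hcase | hcase
  · have key := typeA (P := Pa) (A := A) (N := N) (s := s) (c := CB * s ^ 20) (CB := CB) (a := as')
      (a1 := k1) (Sa := cs h (Sp (CG * s ^ 20))) (Sb' := cs h (Sm (CG * s ^ 20)))
      (S₂ := cs h (Sb I 8)) h1 h9 hO hF.cont hF.nn hF.inv hD hm (meas_B h8 h r) hbd hSp hSm hS2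
      hNone hs hs1' hNs hNs2 (fun p hp => hPall p (hPaP hp)) (fun p hp => (hPm p (hPaP hp)).1)
      ((Finset.card_le_card hPaP).trans hPle) (hPcard.trans hcase)
      (fun p hp => (Finset.mem_filter.1 hp).2) rfl hCB.le has.le hk1.le hS₂ hS₁
      (fun X hX1 hX2 => trf (hj1 _ _)
        ⟨(hs1 _ _ X hOj hκ0 (hκX X hX1 hX2) hX1).1, (hs1 _ _ X hOj hκ0 (hκX X hX1 hX2) hX1).2.1⟩)
      (fun X hX1 hX2 => trf (hj1 _ _) (hs1 _ _ X hOj hκ0 (hκX X hX1 hX2) hX1).2.2)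
      (fun X hX1 => trf (hj1 _ _) (hC1 _ 8 X hOj (by norm_num) (by norm_num) hX1))
    refine key.trans (ENNReal.ofReal_le_ofReal ?_)
    rw [← hT1]
    exact mul_le_mul_of_nonneg_right (by linarith) hsp35
  · have hcase' : (P.card : ℝ) ≤ 2 * Pb.card := by linarith
    have key := typeB (P := Pb) (A := A) (N := N) (s := s) (c := CB * s ^ 20) (CB := CB) (a := ap)
      (b := am) (a1 := k2) (Sa := cs h (Sp (CG * s ^ 20))) (Sb' := cs h (Sm (CG * s ^ 20)))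
      (S₂ := cs h (Sb I 8)) h2 h9 h10 hO hF.cont hF.nn hF.inv hD hm (meas_B h8 h r) hbd hSp hSm
      hS2 hNone hs hs1' hNs hNs2 (fun p hp => hPall p (hPbP hp))
      (fun p hp => (hPm p (hPbP hp)).1)
      ((Finset.card_le_card hPbP).trans hPle) (hPcard.trans hcase')
      (fun p hp => (hAalt p (hPbP hp)).resolve_left (Finset.mem_filter.1 hp).2) rfl hCB.le hap.le
      ham.le hk2.le hS₂ hS₁
      (fun Y hY1 hY2 => trf (hj2 _ _) (hsp _ _ Y hOj hκ0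
        ((hκY1 Y hY1 hY2).trans ((min_le_right _ _).trans (min_le_left _ _))) hY1))
      (fun Y hY1 hY2 => trf (hj2 _ _) (hsm _ _ Y hOj hκ0
        ((hκY Y (by linarith) hY2).trans ((min_le_right _ _).trans (min_le_right _ _))) hY1))
      (fun Y hY1 => trf (hj2 _ _) (hC2 _ 8 Y hOj (by norm_num) (by norm_num) hY1))
    refine key.trans (ENNReal.ofReal_le_ofReal ?_)
    rw [← hT2]
    exact mul_le_mul_of_nonneg_right (by linarith) hsp35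

end XTube

theorem prf_Tube (h1 : S_Ma) (h2 : S_Mb) (h3 : S_C1b) (h4 : S_C2b) (h5 : S_Pr) (h6 : S_Cj)
    (h7 : S_Sc) (h8 : S_Iso) (h9 : S_TTs) (h10 : S_NBi) (h11 : S_S1) (h12 : S_Sp2) (h13 : S_Sm2)
    (h14 : S_GT) (h15 : S_Ball) : S_Tube := by
  intro p₀
  obtain ⟨CB, hCB, hBall⟩ := h15 p₀ (1 / 2) (by norm_num)
  obtain ⟨CG, hCG, hGT⟩ := h14
  obtain ⟨k1, hk1, hC1⟩ := h3
  obtain ⟨k2, hk2, hC2⟩ := h4 1 one_pos
  obtain ⟨as', c₁, has, hc₁, hs1⟩ := h11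
  obtain ⟨ap, c₂, hap, hc₂, hsp⟩ := h12
  obtain ⟨am, c₃, ham, hc₃, hsm⟩ := h13
  obtain ⟨s₀, hs₀, hs₀1, hsmall⟩ := XTube.small (p₀ := p₀) h1 h2 h5 h6 h7 h8 h9 h10 hCB hCG hk1 hk2
    has hc₁ hap hc₂ ham hc₃ hGT hC1 hC2 hs1 hsp hsm
  set T : ℝ := (16 * (60 * as') + 4 * √(256 * (20000 * k1) * CB)) +
    (16 * (246 * (ap + am)) + 4 * √(256 * (900000 * k2) * CB)) with hT
  have hT0 : 0 < T := by positivity
  have hs35 : 0 < s₀ ^ (3 / 5 : ℝ) := Real.rpow_pos_of_pos hs₀ _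
  refine ⟨2 * CB / s₀ ^ (3 / 5 : ℝ) + T, by positivity, ?_⟩
  intro O F D hO hGood hF hD hm h r hr hr2
  have hr100 : 0 < r ^ (1 / 100 : ℝ) := Real.rpow_pos_of_pos hr _
  have hB := hBall O F D hO hGood hF hD hm
  rcases le_or_gt r (s₀ ^ 60) with hcase | hcase
  · refine (hsmall O F D hO hGood hF hD hm hB h r hr hcase).trans (ENNReal.ofReal_le_ofReal ?_)
    refine mul_le_mul_of_nonneg_right ?_ hr100.le
    have : 0 ≤ 2 * CB / s₀ ^ (3 / 5 : ℝ) := by positivity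
    linarith
  · refine ((XTube.ms_mono (XTube.sub_ball h8 h r)).trans (hB (h • I) 4 (by norm_num)
      (by norm_num))).trans (ENNReal.ofReal_le_ofReal ?_)
    have e4 : (4 : ℝ) ^ (1 / 2 : ℝ) = 2 := by
      rw [← Real.sqrt_eq_rpow]
      rw [show (4 : ℝ) = 2 ^ 2 by norm_num]
      exact Real.sqrt_sq (by norm_num)
    have e5 : s₀ ^ (3 / 5 : ℝ) ≤ r ^ (1 / 100 : ℝ) := by
      have : s₀ ^ (3 / 5 : ℝ) = (s₀ ^ 60) ^ (1 / 100 : ℝ) := by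
        rw [← Real.rpow_natCast s₀ 60, ← Real.rpow_mul hs₀.le]
        norm_num
      rw [this]
      exact Real.rpow_le_rpow (by positivity) hcase.le (by norm_num)
    rw [e4]
    calc CB * 2 = 2 * CB / s₀ ^ (3 / 5 : ℝ) * s₀ ^ (3 / 5 : ℝ) := by
          field_simp
      _ ≤ 2 * CB / s₀ ^ (3 / 5 : ℝ) * r ^ (1 / 100 : ℝ) := by gcongr
      _ ≤ (2 * CB / s₀ ^ (3 / 5 : ℝ) + T) * r ^ (1 / 100 : ℝ) := by
          refine mul_le_mul_of_nonneg_right (by linarith) hr100.le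

end Pool.Agent.HoloQUE
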