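import Pool.Agent.Work.MP_d2a4bb_nt.NC.Basic

/-!
# Item TT: the duality inequality
-/

set_option autoImplicit false

open MeasureTheory UpperHalfPlane Matrix
open scoped MatrixGroups ModularForm Manifold ENNReal Classical

noncomputable section

namespace Pool.Agent.HoloQUE

namespace XTT

theorem two_ab (a b : ℝ≥0∞) : 2 * (a * b) ≤ a ^ 2 + b ^ 2 := by
  have key : ∀ a b : ℝ≥0∞, a ≤ b → 2 * (a * b) ≤ a ^ 2 + b ^ 2 := by
    intro a b hab
    obtain ⟨c, rfl⟩ := exists_add_of_le hab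
    calc 2 * (a * (a + c)) ≤ 2 * (a * (a + c)) + c ^ 2 := le_self_add
      _ = a ^ 2 + (a + c) ^ 2 := by ring
  rcases le_total a b with h | h
  · exact key a b h
  · have := key b a h
    rwa [mul_comm b a, add_comm (b ^ 2)] at this

section abs

variable {P α : Type*} [Group P] [MulAction P α] [MeasurableSpace α] {μ : Measure α}
  [MeasurableConstSMul P α] [SMulInvariantMeasure P α μ]

omit [Group P] [MulAction P α] [MeasurableConstSMul P α] [SMulInvariantMeasure P α μ] in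
theorem csi {ν : Measure α} {f g : α → ℝ≥0∞} (hf : Measurable f) (hg : Measurable g) :
    (∫⁻ z, f z * g z ∂ν) ^ 2 ≤ (∫⁻ z, f z ^ 2 ∂ν) * ∫⁻ z, g z ^ 2 ∂ν := by
  have h := ENNReal.lintegral_mul_le_Lp_mul_Lq ν Real.HolderConjugate.two_two
    hf.aemeasurable hg.aemeasurable
  simp only [Pi.mul_apply, ENNReal.rpow_two] at h
  calc (∫⁻ z, f z * g z ∂ν) ^ 2
      ≤ ((∫⁻ a, f a ^ 2 ∂ν) ^ (1 / 2 : ℝ) * (∫⁻ a, g a ^ 2 ∂ν) ^ (1 / 2 : ℝ)) ^ 2 := by gcongr
    _ = _ := by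
      rw [mul_pow, ← ENNReal.rpow_natCast, ← ENNReal.rpow_natCast, ← ENNReal.rpow_mul,
        ← ENNReal.rpow_mul]
      norm_num

theorem inv_int (g : P) (F : α → ℝ≥0∞) : ∫⁻ z, F (g • z) ∂μ = ∫⁻ z, F z ∂μ :=
  (measurePreserving_smul g μ).lintegral_comp_emb (measurableEmbedding_const_smul g) F

/-- `∫_{z ∈ B, g z ∈ B} f²`. -/
def KK (μ : Measure α) (B : Set α) (f : α → ℝ≥0∞) (g : P) : ℝ≥0∞ :=
  ∫⁻ z in {z | z ∈ B ∧ g • z ∈ B}, f z ^ 2 ∂μ

omit [SMulInvariantMeasure P α μ] in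
theorem meas_set {B : Set α} (hB : MeasurableSet B) (g : P) :
    MeasurableSet {z | z ∈ B ∧ g • z ∈ B} :=
  hB.inter ((measurable_const_smul g) hB)

theorem JK {B : Set α} (hB : MeasurableSet B) {f : α → ℝ≥0∞} (hf : Measurable f) (g : P) :
    2 * ∫⁻ z, B.indicator f (g • z) * B.indicator f z ∂μ ≤ KK μ B f g + KK μ B f g⁻¹ := by
  have e1 : KK μ B f g = ∫⁻ z, {z | z ∈ B ∧ g • z ∈ B}.indicator (fun z => f z ^ 2) z ∂μ := by
    rw [KK, lintegral_indicator (meas_set hB g)]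
  have e2 : KK μ B f g⁻¹ =
      ∫⁻ z, {z | z ∈ B ∧ g • z ∈ B}.indicator (fun z => f (g • z) ^ 2) z ∂μ := by
    rw [KK, ← lintegral_indicator (meas_set hB g⁻¹), ← inv_int g]
    refine lintegral_congr fun z => ?_
    simp only [Set.indicator_apply, Set.mem_ofPred_eq, inv_smul_smul]
    by_cases h1 : z ∈ B <;> by_cases h2 : g • z ∈ B <;> simp [h1, h2]
  have hm : Measurable fun z => {z | z ∈ B ∧ g • z ∈ B}.indicator (fun z => f z ^ 2) z :=
    (hf.pow_const 2).indicator (meas_set hB g)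
  have hi : Measurable (B.indicator f) := hf.indicator hB
  rw [e1, e2, ← lintegral_add_left hm, ← lintegral_const_mul]
  · refine lintegral_mono fun z => ?_
    simp only [Set.indicator_apply, Set.mem_ofPred_eq]
    by_cases h1 : z ∈ B <;> by_cases h2 : g • z ∈ B <;> simp [h1, h2]
    have := two_ab (f (g • z)) (f z)
    rwa [add_comm (f (g • z) ^ 2)] at this
  · exact (hi.comp (measurable_const_smul g)).mul hi

variable (Γ : Subgroup P) [Countable Γ] {D B : Set α} {ι : Type*} (E : Finset ι) (e : ι → P)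

/-- The sum of the translates. -/
def h1 (B : Set α) (f : α → ℝ≥0∞) (z : α) : ℝ≥0∞ :=
  ∑ x ∈ E, B.indicator f ((e x)⁻¹ • z)

/-- The sum over the group. -/
def HH (B : Set α) (f : α → ℝ≥0∞) (z : α) : ℝ≥0∞ := ∑' γ : Γ, h1 E e B f (γ • z)

omit [SMulInvariantMeasure P α μ] in
theorem meas_h1 (hB : MeasurableSet B) {f : α → ℝ≥0∞} (hf : Measurable f) :
    Measurable (h1 E e B f) := by
  unfold h1
  exact Finset.measurable_sum _ fun x _ =>
    (hf.indicator hB).comp (measurable_const_smul (e x)⁻¹)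

omit [SMulInvariantMeasure P α μ] in
theorem meas_HH (hB : MeasurableSet B) {f : α → ℝ≥0∞} (hf : Measurable f) :
    Measurable (HH Γ E e B f) := by
  unfold HH
  exact Measurable.tsum fun γ => (meas_h1 E e hB hf).comp (measurable_const_smul γ)

omit [MeasurableConstSMul P α] [SMulInvariantMeasure P α μ] [Countable Γ] [MeasurableSpace α] in
theorem HH_inv (f : α → ℝ≥0∞) (g : Γ) (z : α) : HH Γ E e B f (g • z) = HH Γ E e B f z := by
  unfold HH
  rw [← (Equiv.mulRight g).tsum_eq (fun γ : Γ => h1 E e B f (γ • z))]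
  refine tsum_congr fun γ => ?_
  simp only [Equiv.coe_mulRight, mul_smul]

theorem stepA (hB : MeasurableSet B) {f : α → ℝ≥0∞} (hf : Measurable f) {W : ℝ≥0∞}
    (hW : ∀ z ∈ B, f z ≤ W * ∑ x ∈ E, f (e x • z)) :
    ∫⁻ z in B, f z ^ 2 ∂μ ≤ W * ∫⁻ z, h1 E e B f z * f z ∂μ := by
  have hi : Measurable (B.indicator f) := hf.indicator hB
  calc ∫⁻ z in B, f z ^ 2 ∂μ = ∫⁻ z, B.indicator (fun z => f z ^ 2) z ∂μ :=
        (lintegral_indicator hB _).symm
    _ ≤ ∫⁻ z, W * ∑ x ∈ E, B.indicator f z * f (e x • z) ∂μ := by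
        refine lintegral_mono fun z => ?_
        by_cases hz : z ∈ B
        · simp only [Set.indicator_of_mem hz]
          rw [← Finset.mul_sum, mul_left_comm, sq]
          gcongr
          exact hW z hz
        · simp [Set.indicator_of_notMem hz]
    _ = W * ∑ x ∈ E, ∫⁻ z, B.indicator f z * f (e x • z) ∂μ := by
        rw [lintegral_const_mul, lintegral_finsetSum]
        · exact fun x _ => hi.mul (hf.comp (measurable_const_smul (e x)))
        · exact Finset.measurable_sum _ fun x _ => hi.mul (hf.comp (measurable_const_smul (e x)))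
    _ = W * ∑ x ∈ E, ∫⁻ z, B.indicator f ((e x)⁻¹ • z) * f z ∂μ := by
        congr 1
        refine Finset.sum_congr rfl fun x _ => ?_
        rw [← inv_int (e x) fun z => B.indicator f ((e x)⁻¹ • z) * f z]
        simp only [inv_smul_smul]
    _ = W * ∫⁻ z, h1 E e B f z * f z ∂μ := by
        rw [← lintegral_finsetSum]
        · simp only [h1, Finset.sum_mul]
        · exact fun x _ => (hi.comp (measurable_const_smul (e x)⁻¹)).mul hf

theorem stepB (hD : IsFundamentalDomain Γ D μ) (hB : MeasurableSet B) {f : α → ℝ≥0∞}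
    (hf : Measurable f) (hΓ : ∀ (g : Γ) (z : α), f (g • z) = f z) :
    ∫⁻ z, h1 E e B f z * f z ∂μ = ∫⁻ z in D, HH Γ E e B f z * f z ∂μ := by
  rw [hD.lintegral_eq_tsum'' fun z => h1 E e B f z * f z, ← lintegral_tsum]
  · refine lintegral_congr fun z => ?_
    simp only [HH, hΓ]
    rw [ENNReal.tsum_mul_right]
  · intro γ
    exact ((meas_h1 E e hB hf).mul hf).comp (measurable_const_smul γ) |>.aemeasurable

theorem stepC (hD : IsFundamentalDomain Γ D μ) (hB : MeasurableSet B) {f : α → ℝ≥0∞}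
    (hf : Measurable f) :
    ∫⁻ z in D, HH Γ E e B f z ^ 2 ∂μ = ∫⁻ z, HH Γ E e B f z * h1 E e B f z ∂μ := by
  rw [hD.lintegral_eq_tsum'' fun z => HH Γ E e B f z * h1 E e B f z, ← lintegral_tsum]
  · refine lintegral_congr fun z => ?_
    simp only [HH_inv]
    rw [ENNReal.tsum_mul_left, sq]
    rfl
  · intro γ
    exact ((meas_HH Γ E e hB hf).mul (meas_h1 E e hB hf)).comp
      (measurable_const_smul γ) |>.aemeasurable

theorem stepD (hB : MeasurableSet B) {f : α → ℝ≥0∞} (hf : Measurable f) :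
    ∫⁻ z, HH Γ E e B f z * h1 E e B f z ∂μ =
      ∑' γ : Γ, ∑ x ∈ E, ∑ y ∈ E,
        ∫⁻ z, B.indicator f (((e x)⁻¹ * γ * e y) • z) * B.indicator f z ∂μ := by
  have hi : Measurable (B.indicator f) := hf.indicator hB
  have hx : ∀ (γ : Γ) (x : ι), Measurable fun z : α => B.indicator f ((e x)⁻¹ • γ • z) := by
    intro γ x
    exact (hi.comp (measurable_const_smul (e x)⁻¹)).comp (measurable_const_smul γ)
  have hy : ∀ y : ι, Measurable fun z : α => B.indicator f ((e y)⁻¹ • z) := by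
    intro y
    exact hi.comp (measurable_const_smul (e y)⁻¹)
  have h0 : ∀ z, HH Γ E e B f z * h1 E e B f z =
      ∑' γ : Γ, ∑ x ∈ E, ∑ y ∈ E,
        B.indicator f ((e x)⁻¹ • γ • z) * B.indicator f ((e y)⁻¹ • z) := by
    intro z
    rw [HH, ← ENNReal.tsum_mul_right]
    refine tsum_congr fun γ => ?_
    rw [h1, h1, Finset.sum_mul_sum]
  simp only [h0]
  rw [lintegral_tsum]
  · refine tsum_congr fun γ => ?_
    rw [lintegral_finsetSum]
    · refine Finset.sum_congr rfl fun x _ => ?_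
      rw [lintegral_finsetSum]
      · refine Finset.sum_congr rfl fun y _ => ?_
        rw [← inv_int (e y)]
        refine lintegral_congr fun z => ?_
        rw [inv_smul_smul, mul_smul, mul_smul]
        rfl
      · exact fun y _ => (hx γ x).mul (hy y)
    · exact fun x _ => Finset.measurable_sum _ fun y _ => (hx γ x).mul (hy y)
  · intro γ
    exact (Finset.measurable_sum _ fun x _ => Finset.measurable_sum _ fun y _ =>
      (hx γ x).mul (hy y)).aemeasurable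

omit [Countable Γ] in
theorem stepE (hB : MeasurableSet B) {f : α → ℝ≥0∞} (hf : Measurable f) :
    ∑' γ : Γ, ∑ x ∈ E, ∑ y ∈ E,
        ∫⁻ z, B.indicator f (((e x)⁻¹ * γ * e y) • z) * B.indicator f z ∂μ ≤
      ∑' γ : Γ, ∑ x ∈ E, ∑ y ∈ E, KK μ B f ((e x)⁻¹ * γ * e y) := by
  have hs : ∑' γ : Γ, ∑ x ∈ E, ∑ y ∈ E, KK μ B f ((e x)⁻¹ * γ * e y)⁻¹ =
      ∑' γ : Γ, ∑ x ∈ E, ∑ y ∈ E, KK μ B f ((e x)⁻¹ * γ * e y) := by
    rw [← (Equiv.inv Γ).tsum_eq]
    refine tsum_congr fun γ => ?_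
    rw [Finset.sum_comm]
    refine Finset.sum_congr rfl fun x _ => Finset.sum_congr rfl fun y _ => ?_
    congr 1
    simp [mul_assoc]
  have h2 : 2 * (∑' γ : Γ, ∑ x ∈ E, ∑ y ∈ E,
        ∫⁻ z, B.indicator f (((e x)⁻¹ * γ * e y) • z) * B.indicator f z ∂μ) ≤
      2 * ∑' γ : Γ, ∑ x ∈ E, ∑ y ∈ E, KK μ B f ((e x)⁻¹ * γ * e y) := by
    rw [two_mul (∑' γ : Γ, ∑ x ∈ E, ∑ y ∈ E, KK μ B f ((e x)⁻¹ * γ * e y))]
    nth_rewrite 2 [← hs]
    rw [← ENNReal.tsum_add, ← ENNReal.tsum_mul_left]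
    refine ENNReal.tsum_le_tsum fun γ => ?_
    rw [← Finset.sum_add_distrib, Finset.mul_sum]
    refine Finset.sum_le_sum fun x _ => ?_
    rw [← Finset.sum_add_distrib, Finset.mul_sum]
    refine Finset.sum_le_sum fun y _ => ?_
    exact JK hB hf _
  exact (ENNReal.mul_le_mul_iff_right (by norm_num) (by norm_num)).1 h2

theorem abs_TT (hD : IsFundamentalDomain Γ D μ) (hB : MeasurableSet B) {f : α → ℝ≥0∞}
    (hf : Measurable f) (hΓ : ∀ (g : Γ) (z : α), f (g • z) = f z) {W : ℝ≥0∞}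
    (hW : ∀ z ∈ B, f z ≤ W * ∑ x ∈ E, f (e x • z)) :
    (∫⁻ z in B, f z ^ 2 ∂μ) ^ 2 ≤ W ^ 2 * (∫⁻ z in D, f z ^ 2 ∂μ) *
      ∑' γ : Γ, ∑ x ∈ E, ∑ y ∈ E, KK μ B f ((e x)⁻¹ * γ * e y) := by
  have hA := stepA (μ := μ) E e hB hf hW
  rw [stepB Γ E e hD hB hf hΓ] at hA
  have hC := csi (ν := μ.restrict D) (meas_HH Γ E e hB hf) hf
  rw [stepC Γ E e hD hB hf, stepD Γ E e hB hf] at hC
  calc (∫⁻ z in B, f z ^ 2 ∂μ) ^ 2 ≤ (W * ∫⁻ z in D, HH Γ E e B f z * f z ∂μ) ^ 2 := by gcongr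
    _ = W ^ 2 * (∫⁻ z in D, HH Γ E e B f z * f z ∂μ) ^ 2 := mul_pow _ _ _
    _ ≤ W ^ 2 * ((∑' γ : Γ, ∑ x ∈ E, ∑ y ∈ E,
        ∫⁻ z, B.indicator f (((e x)⁻¹ * γ * e y) • z) * B.indicator f z ∂μ) *
          ∫⁻ z in D, f z ^ 2 ∂μ) := by gcongr
    _ ≤ W ^ 2 * ((∑' γ : Γ, ∑ x ∈ E, ∑ y ∈ E, KK μ B f ((e x)⁻¹ * γ * e y)) *
          ∫⁻ z in D, f z ^ 2 ∂μ) :=
        mul_le_mul_right (mul_le_mul_left (stepE (μ := μ) Γ E e hB hf) _) _
    _ = _ := by ring

end abs

instance instMeasP : MeasurableConstSMul PGL(2, ℝ) ℍ where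
  measurable_const_smul p := by
    obtain ⟨g, rfl⟩ := ProjGenLinGroup.mk_surjective p
    exact measurable_const_smul g

instance instInvP : SMulInvariantMeasure PGL(2, ℝ) ℍ volume where
  measure_preimage_smul p s hs := by
    obtain ⟨g, rfl⟩ := ProjGenLinGroup.mk_surjective p
    exact SMulInvariantMeasure.measure_preimage_smul g hs

theorem cnt_norm {O : Subring Mat} (h : (O : Set Mat).Countable) : Countable (normOne O) := by
  have : Countable (O : Set Mat) := h.to_subtype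
  refine Function.Injective.countable (f := fun g : normOne O =>
    (⟨((g : G2) : Mat), g.2.1⟩ : (O : Set Mat))) ?_
  intro g g' hg
  apply Subtype.ext
  apply ext_G2
  exact congrArg Subtype.val hg

theorem cnt_Gam {O : Subring Mat} (h : (O : Set Mat).Countable) : Countable (Gam O) := by
  have := cnt_norm h
  have h1 : ((normOne O : Subgroup G2) : Set G2).Countable := Set.countable_coe_iff.1 ‹_›
  have h2 : ((Gam O : Subgroup PGL(2, ℝ)) : Set PGL(2, ℝ)).Countable := by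
    rw [Gam, Subgroup.coe_map]
    exact h1.image _
  exact h2.to_subtype

end XTT

open XTT in
theorem prf_TT (h1 : S_Cnt) : S_TT := by
  intro O F D B E w hO hFc hF0 hFi hD hB hw hW
  have : Countable (Gam O) := cnt_Gam (h1 O hO)
  set f : ℍ → ℝ≥0∞ := fun z => ENNReal.ofReal (F z) with hfdef
  have hf : Measurable f := ENNReal.measurable_ofReal.comp hFc.measurable
  have hms : ∀ s : Set ℍ, ms F s = ∫⁻ z in s, f z ^ 2 := by
    intro s
    unfold ms
    refine lintegral_congr fun z => ?_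
    rw [hfdef, ENNReal.ofReal_pow (hF0 z)]
  have hlift : ∀ γ : Gam O, ∃ g : normOne O, ProjGenLinGroup.mk (g : G2) = (γ : PGL(2, ℝ)) := by
    rintro ⟨γ, g, hg, rfl⟩
    exact ⟨⟨g, hg⟩, rfl⟩
  choose σ hσ using hlift
  have hΓ : ∀ (g : Gam O) (z : ℍ), f (g • z) = f z := by
    intro g z
    have e1 : g • z = ((σ g : G2)) • z := by
      rw [← pglMk_smul, hσ]
      rfl
    rw [hfdef, e1]
    simp only
    rw [hFi _ (σ g).2]
  have hW' : ∀ z ∈ B, f z ≤ ENNReal.ofReal w * ∑ x ∈ E, f (ProjGenLinGroup.mk x • z) := by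
    intro z hz
    have e2 : ∀ x : G2, f (ProjGenLinGroup.mk x • z) = ENNReal.ofReal (F (x • z)) := by
      intro x
      rw [pglMk_smul]
    simp only [e2]
    rw [← ENNReal.ofReal_sum_of_nonneg fun x _ => hF0 _, ← ENNReal.ofReal_mul hw]
    exact ENNReal.ofReal_le_ofReal (hW z hz)
  have key := abs_TT (μ := (volume : Measure ℍ)) (Gam O) E (fun x => ProjGenLinGroup.mk x) hD hB
    hf hΓ hW'
  rw [hms, hms D, ENNReal.ofReal_pow hw]
  refine key.trans ?_
  gcongr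
  have hKK : ∀ (γ : Gam O) (x y : G2), KK volume B f
      ((ProjGenLinGroup.mk x)⁻¹ * (γ : PGL(2, ℝ)) * ProjGenLinGroup.mk y) =
      ms F {z ∈ B | (x⁻¹ * (σ γ : G2) * y) • z ∈ B} := by
    intro γ x y
    rw [KK, hms, ← hσ, ← map_inv, ← map_mul, ← map_mul]
    simp only [pglMk_smul]
  simp only [hKK]
  calc ∑' γ : Gam O, ∑ x ∈ E, ∑ y ∈ E, ms F {z ∈ B | (x⁻¹ * (σ γ : G2) * y) • z ∈ B}
      = ∑' γ : Gam O, ∑' x : E, ∑' y : E,
          ms F {z ∈ B | ((x : G2)⁻¹ * (σ γ : G2) * (y : G2)) • z ∈ B} := by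
        refine tsum_congr fun γ => ?_
        rw [tsum_fintype, ← Finset.sum_coe_sort E]
        refine Finset.sum_congr rfl fun x _ => ?_
        rw [tsum_fintype, ← Finset.sum_coe_sort E]
    _ = ∑' t : Gam O × E × E,
          ms F {z ∈ B | ((t.2.1 : G2)⁻¹ * (σ t.1 : G2) * (t.2.2 : G2)) • z ∈ B} := by
        rw [ENNReal.tsum_prod']
        refine tsum_congr fun γ => ?_
        rw [ENNReal.tsum_prod']
    _ ≤ ∑' t : Tri O E Set.univ, ms F {z ∈ B | (t.1.1⁻¹ * t.1.2.2 * t.1.2.1) • z ∈ B} := by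
        refine ENNReal.tsum_comp_le_tsum_of_injective (f := fun t : Gam O × E × E =>
          (⟨((t.2.1 : G2), (t.2.2 : G2), (σ t.1 : G2)),
            t.2.1.2, t.2.2.2, (σ t.1).2, Set.mem_univ _⟩ : Tri O E Set.univ)) ?_
          (fun t : Tri O E Set.univ => ms F {z ∈ B | (t.1.1⁻¹ * t.1.2.2 * t.1.2.1) • z ∈ B})
        rintro ⟨γ, x, y⟩ ⟨γ', x', y'⟩ h
        have h' := congrArg Subtype.val h
        simp only [Prod.mk.injEq] at h'
        obtain ⟨hx, hy, hg⟩ := h'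
        have hγ : γ = γ' := by
          apply Subtype.ext
          rw [← hσ, ← hσ, hg]
        rw [hγ, Subtype.ext hx, Subtype.ext hy]

end Pool.Agent.HoloQUE
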