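import Pool.Agent.Work.MP_d2a4bb_nt.NC.Basic

/-!
# Item TTs: the split form of the duality inequality
-/

set_option autoImplicit false

open MeasureTheory UpperHalfPlane Matrix
open scoped MatrixGroups ModularForm Manifold ENNReal Classical

noncomputable section

namespace Pool.Agent.HoloQUE

namespace XTTs

/-- a continuous function has finite square integral on a bounded set -/
theorem ms_lt_top (F : ℍ → ℝ) (hF : Continuous F) (B : Set ℍ) (hB : Bornology.IsBounded B) :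
    ms F B < ⊤ := by
  have hc : IsCompact (closure B) := hB.isCompact_closure
  have h1 : ms F B ≤ ms F (closure B) := lintegral_mono_set subset_closure
  refine lt_of_le_of_lt h1 ?_
  have h2 : Continuous fun z => Real.toNNReal (F z ^ 2) :=
    continuous_real_toNNReal.comp (hF.pow 2)
  exact setLIntegral_lt_top_of_isCompact hc.measure_lt_top.ne hc h2

theorem ms_mono (F : ℍ → ℝ) {A B : Set ℍ} (h : A ⊆ B) : ms F A ≤ ms F B :=
  lintegral_mono_set h

/-- the sum over the triples -/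
theorem sum_le (O : Subring Mat) (E : Finset G2) (S₁ S₂ : Set G2) (f : G2 → ℝ≥0∞) (m c : ℝ≥0∞)
    (K₁ K₂ : ℕ) (hdet : ∀ x ∈ E, 0 < (x : Mat).det)
    (h1 : ∀ g : G2, 0 < (g : Mat).det → f g ≤ m)
    (h2 : ∀ g : G2, 0 < (g : Mat).det → g ∉ S₁ → f g ≤ c)
    (h3 : ∀ g : G2, 0 < (g : Mat).det → g ∉ S₂ → f g = 0)
    (hK1 : (Tri O E S₁).encard ≤ K₁) (hK2 : (Tri O E S₂).encard ≤ K₂) :
    ∑' t : Tri O E Set.univ, f (t.1.1⁻¹ * t.1.2.2 * t.1.2.1) ≤ K₁ * m + K₂ * c := by
  have e1 : ∑' t : Tri O E Set.univ, f (t.1.1⁻¹ * t.1.2.2 * t.1.2.1) =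
      ∑' t : G2 × G2 × G2, (Tri O E Set.univ).indicator
        (fun t => f (t.1⁻¹ * t.2.2 * t.2.1)) t :=
    tsum_subtype (Tri O E Set.univ) (fun t : G2 × G2 × G2 => f (t.1⁻¹ * t.2.2 * t.2.1))
  rw [e1]
  have e2 : ∀ t : G2 × G2 × G2, (Tri O E Set.univ).indicator
        (fun t => f (t.1⁻¹ * t.2.2 * t.2.1)) t ≤
      (Tri O E S₁).indicator (fun _ => m) t + (Tri O E S₂).indicator (fun _ => c) t := by
    intro t
    by_cases ht : t ∈ Tri O E Set.univ
    · rw [Set.indicator_of_mem ht]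
      obtain ⟨hx, hy, hγ, -⟩ := ht
      have hd : 0 < ((t.1⁻¹ * t.2.2 * t.2.1 : G2) : Mat).det := by
        rw [Units.val_mul, Units.val_mul, Matrix.det_mul, Matrix.det_mul, hγ.2.2, mul_one]
        refine mul_pos ?_ (hdet _ hy)
        have h4 : ((t.1⁻¹ : G2) : Mat).det * (t.1 : Mat).det = 1 := by
          rw [← Matrix.det_mul, ← Units.val_mul, inv_mul_cancel, Units.val_one, Matrix.det_one]
        have h5 := hdet _ hx
        by_contra hc
        rw [not_lt] at hc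
        nlinarith
      by_cases hs1 : t.1⁻¹ * t.2.2 * t.2.1 ∈ S₁
      · have h6 : t ∈ Tri O E S₁ := ⟨hx, hy, hγ, hs1⟩
        rw [Set.indicator_of_mem h6]
        exact le_add_right (h1 _ hd)
      · by_cases hs2 : t.1⁻¹ * t.2.2 * t.2.1 ∈ S₂
        · have h6 : t ∈ Tri O E S₂ := ⟨hx, hy, hγ, hs2⟩
          rw [Set.indicator_of_mem h6]
          exact le_add_left (h2 _ hd hs1)
        · rw [h3 _ hd hs2]
          exact zero_le
    · rw [Set.indicator_of_notMem ht]
      exact zero_le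
  refine (ENNReal.tsum_le_tsum e2).trans ?_
  rw [ENNReal.tsum_add, ← tsum_subtype (Tri O E S₁) (fun _ => m),
    ← tsum_subtype (Tri O E S₂) (fun _ => c), ENNReal.tsum_set_const, ENNReal.tsum_set_const]
  have g1 : ((Tri O E S₁).encard : ℝ≥0∞) ≤ K₁ := by
    exact_mod_cast hK1
  have g2 : ((Tri O E S₂).encard : ℝ≥0∞) ≤ K₂ := by
    exact_mod_cast hK2
  gcongr

theorem real_ineq (m w a b : ℝ) (hm : 0 ≤ m) (hw : 0 ≤ w) (ha : 0 ≤ a) (hb : 0 ≤ b)
    (h : m ^ 2 ≤ w ^ 2 * (a * m + b)) : m ≤ w ^ 2 * a + w * √b := by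
  by_contra hc
  rw [not_le] at hc
  have hs : 0 ≤ √b := Real.sqrt_nonneg b
  have hs2 : √b ^ 2 = b := Real.sq_sqrt hb
  have h1 : 0 ≤ w * √b := mul_nonneg hw hs
  have h2 : 0 ≤ w ^ 2 * a := by positivity
  have h3 : w * √b < m - w ^ 2 * a := by linarith
  have h4 : w * √b ≤ m := by linarith
  have h5 : (w * √b) * (w * √b) < m * (m - w ^ 2 * a) := by
    rcases h1.eq_or_lt with h6 | h6
    · have h7 : 0 < m := by linarith
      rw [← h6] at h3 ⊢
      have := mul_pos h7 h3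
      linarith
    · calc (w * √b) * (w * √b) < (w * √b) * (m - w ^ 2 * a) := by
            exact mul_lt_mul_of_pos_left h3 h6
        _ ≤ m * (m - w ^ 2 * a) := by
            exact mul_le_mul_of_nonneg_right h4 (by linarith)
  have h8 : (w * √b) * (w * √b) = w ^ 2 * b := by
    rw [← hs2]; ring_nf
    rw [Real.sqrt_sq (Real.sqrt_nonneg _)]
  nlinarith

end XTTs

theorem prf_TTs (h1 : S_TT) : S_TTs := by
  intro O F D B E w S₁ S₂ K₁ K₂ c hO hF hF0 hFi hD hD1 hB hw hFB hBb hdet hc hS2 hS1 hK1 hK2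
  have hT := h1 O F D B E w hO hF hF0 hFi hD hB hw hFB
  rw [hD1, mul_one] at hT
  have hfin := XTTs.ms_lt_top F hF B hBb
  have hsum := XTTs.sum_le O E S₁ S₂ (fun g => ms F {z ∈ B | g • z ∈ B}) (ms F B)
    (ENNReal.ofReal c) K₁ K₂ hdet
    (fun g _ => XTTs.ms_mono F (fun z hz => hz.1)) hS1
    (fun g hg hgs => by
      have : {z ∈ B | g • z ∈ B} = ∅ := by
        ext z
        simp only [Set.mem_empty_iff_false, iff_false]
        intro hz
        exact hgs (hS2 g hg z hz.1 hz.2)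
      simp only [this]
      simp [ms]) hK1 hK2
  have h2 : ms F B ^ 2 ≤ ENNReal.ofReal (w ^ 2) * (K₁ * ms F B + K₂ * ENNReal.ofReal c) :=
    hT.trans (mul_le_mul_right hsum _)
  set m : ℝ := (ms F B).toReal with hm
  have hm0 : 0 ≤ m := ENNReal.toReal_nonneg
  have hmE : ms F B = ENNReal.ofReal m := (ENNReal.ofReal_toReal hfin.ne).symm
  rw [hmE] at h2 ⊢
  have h3 : ENNReal.ofReal (m ^ 2) ≤ ENNReal.ofReal (w ^ 2 * (K₁ * m + K₂ * c)) := by
    rw [ENNReal.ofReal_pow hm0, ENNReal.ofReal_mul (by positivity),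
      ENNReal.ofReal_add (by positivity) (by positivity), ENNReal.ofReal_mul (by positivity),
      ENNReal.ofReal_mul (by positivity), ENNReal.ofReal_natCast, ENNReal.ofReal_natCast]
    exact h2
  have h4 : m ^ 2 ≤ w ^ 2 * (K₁ * m + K₂ * c) :=
    (ENNReal.ofReal_le_ofReal_iff (by positivity)).1 h3
  exact ENNReal.ofReal_le_ofReal (XTTs.real_ineq m w K₁ (K₂ * c) hm0 hw (by positivity)
    (by positivity) h4)

end Pool.Agent.HoloQUE
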