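import Pool.Agent.Work.MP_d2a4bb_nt.NC.Basic

/-!
# Item Sc: the sets are invariant under scalars
-/

set_option autoImplicit false

open MeasureTheory UpperHalfPlane Matrix
open scoped MatrixGroups ModularForm Manifold ENNReal Classical

noncomputable section

namespace Pool.Agent.HoloQUE

namespace XSc

theorem val_mul (a : ℝˣ) (g : G2) :
    ((GeneralLinearGroup.scalar (Fin 2) a * g : G2) : Mat) = (a : ℝ) • (g : Mat) := by
  rw [Units.val_mul, coe_scalar, smul_mul_assoc, one_mul]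

theorem det_mul (a : ℝˣ) (g : G2) :
    ((GeneralLinearGroup.scalar (Fin 2) a * g : G2) : Mat).det = (a : ℝ) ^ 2 * (g : Mat).det := by
  rw [val_mul, det_smul2]

theorem apply_mul (a : ℝˣ) (g : G2) (i j : Fin 2) :
    ((GeneralLinearGroup.scalar (Fin 2) a * g : G2) : Mat) i j = (a : ℝ) * (g : Mat) i j := by
  rw [val_mul, Matrix.smul_apply, smul_eq_mul]

theorem sqrt_det (a : ℝˣ) (g : G2) :
    √((GeneralLinearGroup.scalar (Fin 2) a * g : G2) : Mat).det =
      |(a : ℝ)| * √(g : Mat).det := by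
  rw [det_mul, Real.sqrt_mul (sq_nonneg _), Real.sqrt_sq_eq_abs]

theorem entry (a : ℝˣ) (g : G2) (κ : ℝ) (i j : Fin 2)
    (h : |(g : Mat) i j| ≤ κ * √(g : Mat).det) :
    |((GeneralLinearGroup.scalar (Fin 2) a * g : G2) : Mat) i j| ≤
      κ * √((GeneralLinearGroup.scalar (Fin 2) a * g : G2) : Mat).det := by
  rw [apply_mul, sqrt_det, abs_mul]
  calc |(a : ℝ)| * |(g : Mat) i j| ≤ |(a : ℝ)| * (κ * √(g : Mat).det) :=
        mul_le_mul_of_nonneg_left h (abs_nonneg _)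
    _ = κ * (|(a : ℝ)| * √(g : Mat).det) := by ring

theorem sb (z : ℍ) (ρ : ℝ) : ScInv (Sb z ρ) := by
  rintro a g ⟨h1, h2⟩
  refine ⟨?_, ?_⟩
  · rw [det_mul]
    have ha : (a : ℝ) ≠ 0 := a.ne_zero
    positivity
  · rw [mul_smul, glScalar_smul]
    exact h2

end XSc

theorem prf_Sc : S_Sc := by
  refine ⟨XSc.sb, ?_, ?_, ?_⟩
  · rintro κ a g ⟨h1, h2, h3⟩
    exact ⟨XSc.sb _ _ a g h1, XSc.entry a g κ _ _ h2, XSc.entry a g κ _ _ h3⟩
  · rintro κ a g ⟨h1, h2, h3⟩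
    exact ⟨XSc.sb _ _ a g h1, XSc.entry a g κ _ _ h2, XSc.entry a g κ _ _ h3⟩
  · intro h S hS a g hg
    have hg' : h⁻¹ * g * h ∈ S := hg
    show h⁻¹ * (GeneralLinearGroup.scalar (Fin 2) a * g) * h ∈ S
    have e : h⁻¹ * (GeneralLinearGroup.scalar (Fin 2) a * g) * h =
        GeneralLinearGroup.scalar (Fin 2) a * (h⁻¹ * g * h) := by
      rw [← mul_assoc, scalar_comm, mul_assoc, mul_assoc, mul_assoc]
    rw [e]
    exact hS a _ hg'

end Pool.Agent.HoloQUE
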