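import Pool.Agent.Work.MP_d2a4bb_nt.NC.Final
import Pool.Agent.Work.MP_d2a4bb_nt.QA.Stmts

set_option autoImplicit false

open MeasureTheory UpperHalfPlane Matrix HQ
open scoped MatrixGroups Manifold ENNReal

namespace Pool.Agent.HoloQUE

open Pool.Agent.Work.MP_d2a4bb_nt.QA in
theorem XBrA.qord (Q : QuatOrder) : QOrd Q.O := by
  refine ⟨⟨Q.basis, fun x => ?_⟩, Q.det_ne_zero⟩
  rw [Q.mem_iff, Submodule.mem_span_range_iff_exists_fun]
  constructor
  · rintro ⟨c, rfl⟩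
    refine ⟨c, Finset.sum_congr rfl fun i _ => ?_⟩
    rw [Int.cast_smul_eq_zsmul]
  · rintro ⟨c, rfl⟩
    refine ⟨c, Finset.sum_congr rfl fun i _ => ?_⟩
    rw [Int.cast_smul_eq_zsmul]

/-- Item BrA. -/
theorem prf_BrA (h1 : Pool.Agent.Work.MP_d2a4bb_nt.QA.S_INT) : S_BrA := by
  intro Q
  have hq := XBrA.qord Q
  refine ⟨fun x hx => (h1 Q.O hq x hx).1, fun x hx => (h1 Q.O hq x hx).2, Q.det_ne_zero, ?_⟩
  rw [eq_top_iff, ← Q.basis.span_eq]
  apply Submodule.span_mono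
  rintro _ ⟨i, rfl⟩
  show Q.basis i ∈ Q.O
  rw [Q.mem_iff]
  refine ⟨Pi.single i 1, ?_⟩
  rw [Finset.sum_eq_single i]
  · simp
  · intro j _ hj
    simp [Pi.single_eq_of_ne hj]
  · intro h
    exact absurd (Finset.mem_univ i) h

end Pool.Agent.HoloQUE
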