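import Pool.Agent.Work.MP_d2a4bb_nt.NC.Final

/-!
# Item BrB: good primes.  Author: helper82.
-/

set_option autoImplicit false

open MeasureTheory UpperHalfPlane Matrix HQ
open scoped MatrixGroups Manifold ENNReal

noncomputable section

namespace Pool.Agent.HoloQUE

namespace XBrB

/-- `SL₂(ℝ)` in `GL₂(ℝ)` -/
abbrev tg : SL(2, ℝ) →* G2 := Matrix.SpecialLinearGroup.toGL

theorem tg_coe (g : SL(2, ℝ)) : ((tg g : G2) : Mat) = (g : Mat) := rfl

theorem tg_mem (Q : QuatOrder) {γ : SL(2, ℝ)} (h : γ ∈ Q.Γ) : tg γ ∈ normOne Q.O := by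
  refine ⟨h.1, ?_, γ.2⟩
  rw [← map_inv]
  exact h.2

theorem of_mem (Q : QuatOrder) {u : G2} (h : u ∈ normOne Q.O) : ∃ γ ∈ Q.Γ, tg γ = u := by
  have e : tg ⟨(u : Mat), h.2.2⟩ = u := Units.ext rfl
  refine ⟨⟨(u : Mat), h.2.2⟩, ⟨h.1, ?_⟩, e⟩
  have h1 := h.2.1
  rw [← e, ← map_inv] at h1
  exact h1

theorem sq_ne {p : ℕ} (hp : p.Prime) : Real.sqrt p ≠ 0 :=
  (Real.sqrt_pos.2 (by exact_mod_cast hp.pos)).ne'

theorem det_sq (p : ℕ) (g : SL(2, ℝ)) : (Real.sqrt p • (g : Mat)).det = p := by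
  rw [det_smul2, Real.sq_sqrt (Nat.cast_nonneg p), g.2, mul_one]

/-- the element `√p g` -/
def lf {p : ℕ} (hp : p.Prime) (g : SL(2, ℝ)) : G2 :=
  Matrix.GeneralLinearGroup.mkOfDetNeZero (Real.sqrt p • (g : Mat)) (by
    rw [det_sq]
    exact_mod_cast hp.ne_zero)

theorem lf_coe {p : ℕ} (hp : p.Prime) (g : SL(2, ℝ)) :
    ((lf hp g : G2) : Mat) = Real.sqrt p • (g : Mat) := rfl

theorem lf_inj {p : ℕ} (hp : p.Prime) {g h : SL(2, ℝ)} (e : lf hp g = lf hp h) : g = h := by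
  apply Subtype.ext
  have h1 : Real.sqrt p • (g : Mat) = Real.sqrt p • (h : Mat) := by
    rw [← lf_coe hp, ← lf_coe hp, e]
  exact smul_right_injective Mat (sq_ne hp) h1

theorem lf_mul {p : ℕ} (hp : p.Prime) (γ g : SL(2, ℝ)) : lf hp (γ * g) = tg γ * lf hp g := by
  apply Units.ext
  rw [Units.val_mul, lf_coe, lf_coe, tg_coe, mul_smul_comm]
  rfl

/-- every element of determinant `p` is `√p g` -/
theorem lf_surj {p : ℕ} (hp : p.Prime) (y : G2) (hy : (y : Mat).det = p) :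
    ∃ g : SL(2, ℝ), lf hp g = y := by
  have h0 := sq_ne hp
  have hd : ((Real.sqrt p)⁻¹ • (y : Mat)).det = 1 := by
    rw [det_smul2, hy, inv_pow, Real.sq_sqrt (Nat.cast_nonneg p),
      inv_mul_cancel₀ (by exact_mod_cast hp.ne_zero)]
  refine ⟨⟨(Real.sqrt p)⁻¹ • (y : Mat), hd⟩, Units.ext ?_⟩
  rw [lf_coe]
  show Real.sqrt p • ((Real.sqrt p)⁻¹ • (y : Mat)) = y
  rw [smul_smul, mul_inv_cancel₀ h0, one_smul]

end XBrB

open XBrB in
/-- Item BrB: good primes. -/
theorem prf_BrB : S_BrB := by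
  intro Q p hp hG hI
  classical
  have hfin : Finite (Quotient (Q.heckeSetoid p)) := by
    apply Nat.finite_of_card_ne_zero
    have h : Nat.card (Quotient (Q.heckeSetoid p)) = p + 1 := hI
    rw [h]
    exact Nat.succ_ne_zero p
  have hft : Fintype (Quotient (Q.heckeSetoid p)) := Fintype.ofFinite _
  refine ⟨hp, ?_, ?_⟩
  · obtain ⟨φ, hφ, hφ0⟩ := hG
    refine ⟨φ, hφ, fun x => ?_⟩
    rw [hφ0]
    have hcast : ∀ y : Q.O, (((p : Q.O) * y : Q.O) : Mat) = (p : ℝ) • (y : Mat) := by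
      intro y
      have h1 : (((p : Q.O) * y : Q.O) : Mat) = ((p : Q.O) : Mat) * (y : Mat) := rfl
      rw [h1, Subring.coe_natCast, ← nsmul_eq_mul, Nat.cast_smul_eq_nsmul]
    constructor
    · rintro ⟨y, hy⟩
      exact ⟨y, y.2, by rw [hy]; exact hcast y⟩
    · rintro ⟨y, hy, e⟩
      refine ⟨⟨y, hy⟩, Subtype.ext ?_⟩
      rw [hcast]
      exact e
  · let L : Quotient (Q.heckeSetoid p) → G2 := fun c => lf hp ((Quotient.out c : Q.E p) : SL(2, ℝ))
    have hL : Function.Injective L := by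
      intro c c' h
      have h1 : (Quotient.out c : Q.E p) = Quotient.out c' := Subtype.ext (lf_inj hp h)
      rw [← Quotient.out_eq c, ← Quotient.out_eq c', h1]
    refine ⟨Finset.univ.image L, ⟨?_, ?_, ?_⟩, ?_⟩
    · intro x hx
      obtain ⟨c, -, rfl⟩ := Finset.mem_image.1 hx
      refine ⟨?_, ?_⟩
      · exact (Quotient.out c : Q.E p).2
      · exact det_sq p _
    · intro y hy
      obtain ⟨g, hg⟩ := lf_surj hp y hy.2
      have hgE : g ∈ Q.E p := by
        show Real.sqrt p • (g : Mat) ∈ Q.O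
        rw [← lf_coe hp, hg]
        exact hy.1
      let c : Quotient (Q.heckeSetoid p) := Quotient.mk (Q.heckeSetoid p) ⟨g, hgE⟩
      refine ⟨L c, Finset.mem_image_of_mem L (Finset.mem_univ c), ?_⟩
      have h1 : (Q.heckeSetoid p).r (Quotient.out c) ⟨g, hgE⟩ := Quotient.mk_out (s := Q.heckeSetoid p) _
      obtain ⟨γ, hγ, h2⟩ := h1
      have h3 : y * (L c)⁻¹ = tg γ := by
        rw [mul_inv_eq_iff_eq_mul, ← hg]
        show lf hp g = tg γ * lf hp ((Quotient.out c : Q.E p) : SL(2, ℝ))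
        rw [← lf_mul]
        exact congrArg (lf hp) h2
      rw [h3]
      exact tg_mem Q hγ
    · intro x hx y hy hxy
      obtain ⟨c, -, rfl⟩ := Finset.mem_image.1 hx
      obtain ⟨c', -, rfl⟩ := Finset.mem_image.1 hy
      obtain ⟨γ, hγ, h1⟩ := of_mem Q hxy
      have h2 : L c' = tg γ * L c := by
        rw [h1, inv_mul_cancel_right]
      have h3 : ((Quotient.out c' : Q.E p) : SL(2, ℝ)) = γ * ((Quotient.out c : Q.E p) : SL(2, ℝ)) := by
        apply lf_inj hp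
        rw [lf_mul]
        exact h2
      have h4 : c = c' := by
        rw [← Quotient.out_eq c, ← Quotient.out_eq c']
        exact Quotient.sound (s := Q.heckeSetoid p) ⟨γ, hγ, h3⟩
      rw [h4]
    · rw [Finset.card_image_of_injective _ hL, Finset.card_univ, ← Nat.card_eq_fintype_card]
      exact hI

end Pool.Agent.HoloQUE
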