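import Pool.Agent.Work.MP_d2a4bb_nt.NC.Final

/-!
# Item BrC: the bridge for Hecke forms
-/

set_option autoImplicit false

open MeasureTheory UpperHalfPlane Matrix HQ
open scoped MatrixGroups ModularForm Manifold ENNReal

noncomputable section

namespace Pool.Agent.HoloQUE

namespace XBrC

theorem jj_ne (g : SL(2, ℝ)) (z : ℍ) : jj g z ≠ 0 := by
  have h := denom_ne_zero (SpecialLinearGroup.mapGL ℝ g) z
  simpa [denom, jj] using h

theorem coe_sl (g : SL(2, ℝ)) (z : ℍ) :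
    ((g • z : ℍ) : ℂ) = (((g 0 0 : ℝ) : ℂ) * z + ((g 0 1 : ℝ) : ℂ)) / jj g z := by
  rw [coe_specialLinearGroup_apply]
  rfl

theorem jj_mul (g h : SL(2, ℝ)) (z : ℍ) : jj (g * h) z = jj g (h • z) * jj h z := by
  have hz := jj_ne h z
  have e : jj g (h • z) * jj h z = ((g 1 0 : ℝ) : ℂ) * (((h 0 0 : ℝ) : ℂ) * z + ((h 0 1 : ℝ) : ℂ)) +
      ((g 1 1 : ℝ) : ℂ) * jj h z := by
    show (((g 1 0 : ℝ) : ℂ) * ((h • z : ℍ) : ℂ) + ((g 1 1 : ℝ) : ℂ)) * jj h z = _
    rw [coe_sl]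
    field_simp
  rw [e]
  have h10 : (g * h) 1 0 = g 1 0 * h 0 0 + g 1 1 * h 1 0 := by
    simp [Matrix.mul_apply, Fin.sum_univ_two]
  have h11 : (g * h) 1 1 = g 1 0 * h 0 1 + g 1 1 * h 1 1 := by
    simp [Matrix.mul_apply, Fin.sum_univ_two]
  simp only [jj, h10, h11]
  push_cast
  ring

theorem slash_sc (k : ℕ) (f : ℍ → ℂ) (x : G2) (g : SL(2, ℝ)) (s : ℝ) (hs : 0 < s)
    (h : (x : Mat) = s • (g : Mat)) (z : ℍ) :
    (f ∣[(k : ℤ)] x) z = (s : ℂ) ^ ((k : ℤ) - 2) * (f (g • z) / jj g z ^ k) := by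
  have hdet : x.det.val = s ^ 2 := by
    rw [GeneralLinearGroup.val_det_apply, h, Matrix.det_smul]
    simp
  have hpos : 0 < x.det.val := by rw [hdet]; positivity
  have hent : ∀ i j, x i j = s * g i j := by
    intro i j
    have := congrFun (congrFun h i) j
    simpa using this
  have hsc : (s : ℂ) ≠ 0 := by exact_mod_cast hs.ne'
  have hden : denom x z = (s : ℂ) * jj g z := by
    simp only [denom, jj, hent]
    push_cast
    ring
  have hnum : num x z = (s : ℂ) * (((g 0 0 : ℝ) : ℂ) * z + ((g 0 1 : ℝ) : ℂ)) := by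
    simp only [num, hent]
    push_cast
    ring
  have hact : x • z = g • z := by
    rw [UpperHalfPlane.ext_iff, coe_smul_of_det_pos hpos, coe_sl, hden, hnum,
      mul_div_mul_left _ _ hsc]
  have hσ : σ x (f (x • z)) = f (x • z) := by
    have hpos' : 0 < (x : Mat).det := hpos
    simp [σ, hpos']
  rw [ModularForm.slash_apply, hσ, hact, hden, hdet, abs_of_pos (by positivity : (0 : ℝ) < s ^ 2)]
  have hj := jj_ne g z
  rw [mul_zpow, div_eq_mul_inv, _root_.zpow_neg, _root_.zpow_neg, _root_.zpow_natCast,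
    _root_.zpow_natCast, zpow_sub₀ hsc, _root_.zpow_natCast]
  push_cast
  rw [zpow_sub₀ (pow_ne_zero 2 hsc), _root_.zpow_natCast, _root_.zpow_one, ← pow_mul, mul_comm 2 k,
    pow_mul]
  have h2 : (s : ℂ) ^ (2 : ℤ) = (s : ℂ) ^ 2 := by norm_cast
  rw [h2]
  field_simp

/-- Elements of positive determinant as multiples of elements of `SL(2, ℝ)`. -/
theorem exists_sl (x : G2) (n : ℝ) (hn : 0 < n) (h : (x : Mat).det = n) :
    ∃ g : SL(2, ℝ), (x : Mat) = √n • (g : Mat) := by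
  have hs : 0 < √n := Real.sqrt_pos.2 hn
  refine ⟨⟨(√n)⁻¹ • (x : Mat), ?_⟩, ?_⟩
  · rw [Matrix.det_smul, h, Fintype.card_fin, inv_pow, Real.sq_sqrt hn.le, inv_mul_cancel₀ hn.ne']
  · show (x : Mat) = √n • ((√n)⁻¹ • (x : Mat))
    rw [smul_smul, mul_inv_cancel₀ hs.ne', one_smul]

/-- Elements of `Γ` and elements of `normOne`. -/
theorem mem_Γ {Q : QuatOrder} (hO : QOrder Q.O) {γ : SL(2, ℝ)} (h : (γ : Mat) ∈ Q.O) :
    γ ∈ Q.Γ := by
  refine ⟨h, ?_⟩
  have e : ((γ⁻¹ : SL(2, ℝ)) : Mat) = (γ : Mat).adjugate :=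
    Matrix.SpecialLinearGroup.coe_inv γ
  rw [e]
  exact hO.adj_mem h

end XBrC

open XBrC

theorem prf_BrC : S_BrC := by
  intro Q p₀ k f hO _ hf he
  refine ⟨hf.1, ?_, ?_⟩
  · intro x hx
    obtain ⟨hx1, hx2⟩ := hO.mem_normOne.1 hx
    let g : SL(2, ℝ) := ⟨(x : Mat), hx2⟩
    have hg : g ∈ Q.Γ := mem_Γ hO hx1
    ext z
    rw [slash_sc k f x g 1 one_pos (by rw [one_smul]) z, hf.2 g hg z]
    have hj := pow_ne_zero k (jj_ne g z)
    rw [Complex.ofReal_one, _root_.one_zpow, one_mul, mul_div_cancel_left₀ _ hj]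
  · intro p hp hp0
    obtain ⟨l, hl⟩ := he p hp.prime hp0
    have hp1 : (0 : ℝ) < p := by exact_mod_cast hp.prime.pos
    have hs : 0 < √(p : ℝ) := Real.sqrt_pos.2 hp1
    refine ⟨((√(p : ℝ) : ℝ) : ℂ) ^ ((k : ℤ) - 2) * l, fun A hA => ?_⟩
    ext z
    rw [Finset.sum_apply, Pi.smul_apply, smul_eq_mul, mul_assoc, ← hl z]
    have hex : ∀ x : G2, ∃ g : SL(2, ℝ), x ∈ A → (x : Mat) = √(p : ℝ) • (g : Mat) := by
      intro x
      by_cases hx : x ∈ A
      · obtain ⟨g, hg⟩ := exists_sl x p hp1 (hA.mem x hx).2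
        exact ⟨g, fun _ => hg⟩
      · exact ⟨1, fun h => absurd h hx⟩
    choose g hg using hex
    have hgE : ∀ x : A, g x ∈ Q.E p := by
      intro x
      show √(p : ℝ) • ((g x : SL(2, ℝ)) : Mat) ∈ Q.O
      rw [← hg x x.2]
      exact (hA.mem x x.2).1
    let φ : A → Quotient (Q.heckeSetoid p) := fun x => Quotient.mk _ ⟨g x, hgE x⟩
    let H : Quotient (Q.heckeSetoid p) → ℂ := fun c =>
      f (((Quotient.out c : Q.E p) : SL(2, ℝ)) • z) / jj ((Quotient.out c : Q.E p) : SL(2, ℝ)) z ^ k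
    have hH : ∀ x : A, H (φ x) = f (g x • z) / jj (g x) z ^ k := by
      intro x
      have h1 : (Q.heckeSetoid p).r (Quotient.out (φ x)) ⟨g x, hgE x⟩ :=
        Quotient.exact (Quotient.out_eq (φ x))
      obtain ⟨γ, hγ, h2⟩ := h1
      have h3 : g x = γ * ((Quotient.out (φ x) : Q.E p) : SL(2, ℝ)) := h2
      show f (((Quotient.out (φ x) : Q.E p) : SL(2, ℝ)) • z) /
        jj ((Quotient.out (φ x) : Q.E p) : SL(2, ℝ)) z ^ k = _
      rw [h3, mul_smul, hf.2 γ hγ, jj_mul, mul_pow,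
        mul_div_mul_left _ _ (pow_ne_zero k (jj_ne _ _))]
    have hinj : Function.Injective φ := by
      intro x y hxy
      have h1 : (Q.heckeSetoid p).r ⟨g x, hgE x⟩ ⟨g y, hgE y⟩ := Quotient.exact hxy
      obtain ⟨γ, hγ, h2⟩ := h1
      have h3 : g y = γ * g x := h2
      have h4 : ((y : G2) : Mat) = (γ : Mat) * ((x : G2) : Mat) := by
        have h6 : ((γ * g x : SL(2, ℝ)) : Mat) = (γ : Mat) * (g x : Mat) := rfl
        rw [hg y y.2, hg x x.2, h3, h6, Matrix.mul_smul]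
      have h5 := hO.normOne_of_eq hγ.1 h4 (by rw [(hA.mem y y.2).2, (hA.mem x x.2).2])
      exact Subtype.ext (hA.uniq x x.2 y y.2 h5).symm
    have hsurj : Function.Surjective φ := by
      intro c
      obtain ⟨⟨e, he'⟩, rfl⟩ := Quotient.exists_rep c
      have hdet : (√(p : ℝ) • (e : Mat)).det = p := by
        have h6 : (e : Mat).det = 1 := e.2
        rw [Matrix.det_smul, h6, mul_one, Fintype.card_fin, Real.sq_sqrt hp1.le]
      obtain ⟨y, hy⟩ := exists_G2 (x := √(p : ℝ) • (e : Mat)) (by rw [hdet]; exact hp1.ne')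
      have hyR : y ∈ Rn Q.O p := ⟨by rw [hy]; exact he', by rw [hy]; exact hdet⟩
      obtain ⟨x, hx, hyx⟩ := hA.rep y hyR
      refine ⟨⟨x, hx⟩, Quotient.sound ?_⟩
      obtain ⟨h1, h2⟩ := hO.mem_normOne.1 hyx
      let γ : SL(2, ℝ) := ⟨((y * x⁻¹ : G2) : Mat), h2⟩
      have hγ : γ ∈ Q.Γ := mem_Γ hO h1
      refine ⟨γ, hγ, ?_⟩
      show e = γ * g x
      apply Subtype.ext
      show (e : Mat) = ((y * x⁻¹ : G2) : Mat) * (g x : Mat)
      have h3 : √(p : ℝ) • (e : Mat) = √(p : ℝ) • (((y * x⁻¹ : G2) : Mat) * (g x : Mat)) := by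
        rw [← Matrix.mul_smul, ← hg x hx, ← hy, ← Units.val_mul, inv_mul_cancel_right]
      exact smul_right_injective Mat hs.ne' h3
    have hT : Q.T p k f z = ∑ x : A, f (g x • z) / jj (g x) z ^ k := by
      show ∑ᶠ c : Quotient (Q.heckeSetoid p), H c = _
      rw [← finsum_comp_equiv (Equiv.ofBijective φ ⟨hinj, hsurj⟩), finsum_eq_sum_of_fintype]
      exact Finset.sum_congr rfl fun x _ => hH x
    rw [hT, Finset.mul_sum]
    rw [← Finset.sum_coe_sort A fun x => (f ∣[(k : ℤ)] x) z]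
    refine Finset.sum_congr rfl fun x _ => ?_
    exact slash_sc k f x (g x) _ hs (hg x x.2) z

end Pool.Agent.HoloQUE
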