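import Pool.Agent.Work.MP_d2a4bb_nt.NC.Gen
import Pool.Agent.Work.MP_d2a4bb_nt.NC.I_BrC

/-!
# Item BrCP: the bridge for Hecke forms, for a set of primes
-/

set_option autoImplicit false

open MeasureTheory UpperHalfPlane Matrix HQ
open scoped MatrixGroups ModularForm Manifold ENNReal

noncomputable section

namespace Pool.Agent.HoloQUE

open XBrC

theorem prf_BrCP : S_BrCP := by
  intro Q P k f hO _ hf hP he
  refine ⟨?_, ?_⟩
  · intro x hx
    obtain ⟨hx1, hx2⟩ := hO.mem_normOne.1 hx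
    let g : SL(2, ℝ) := ⟨(x : Mat), hx2⟩
    have hg : g ∈ Q.Γ := mem_Γ hO hx1
    ext z
    rw [slash_sc k f x g 1 one_pos (by rw [one_smul]) z, hf.2 g hg z]
    have hj := pow_ne_zero k (jj_ne g z)
    rw [Complex.ofReal_one, _root_.one_zpow, one_mul, mul_div_cancel_left₀ _ hj]
  · intro p hp
    obtain ⟨l, hl⟩ := he p hp
    have hp1 : (0 : ℝ) < p := by exact_mod_cast (hP p hp).pos
    have hs : 0 < √(p : ℝ) := Real.sqrt_pos.2 hp1
    refine ⟨((√(p : ℝ) : ℝ) : ℂ) ^ ((k : ℤ) - 2) * l, fun A hA => ?_⟩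
    ext z
    rw [Finset.sum_apply, Pi.smul_apply, smul_eq_mul, mul_assoc, ← hl z]
    have hex : ∀ x : G2, ∃ g : SL(2, ℝ), x ∈ A → (x : Mat) = √(p : ℝ) • (g : Mat) := by
      intro x
      by_cases hx : x ∈ A
      · obtain ⟨g, hg⟩ := exists_sl x p hp1 (hA.mem x hx).2
        exact ⟨g, fun _ => hg⟩
      · exact ⟨1, fun h => absurd h hx⟩
    choose g hg using hex
    have hgE : ∀ x : A, g x ∈ Q.E p := by
      intro x
      show √(p : ℝ) • ((g x : SL(2, ℝ)) : Mat) ∈ Q.O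
      rw [← hg x x.2]
      exact (hA.mem x x.2).1
    let φ : A → Quotient (Q.heckeSetoid p) := fun x => Quotient.mk _ ⟨g x, hgE x⟩
    let H : Quotient (Q.heckeSetoid p) → ℂ := fun c =>
      f (((Quotient.out c : Q.E p) : SL(2, ℝ)) • z) / jj ((Quotient.out c : Q.E p) : SL(2, ℝ)) z ^ k
    have hH : ∀ x : A, H (φ x) = f (g x • z) / jj (g x) z ^ k := by
      intro x
      have h1 : (Q.heckeSetoid p).r (Quotient.out (φ x)) ⟨g x, hgE x⟩ :=
        Quotient.exact (Quotient.out_eq (φ x))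
      obtain ⟨γ, hγ, h2⟩ := h1
      have h3 : g x = γ * ((Quotient.out (φ x) : Q.E p) : SL(2, ℝ)) := h2
      show f (((Quotient.out (φ x) : Q.E p) : SL(2, ℝ)) • z) /
        jj ((Quotient.out (φ x) : Q.E p) : SL(2, ℝ)) z ^ k = _
      rw [h3, mul_smul, hf.2 γ hγ, jj_mul, mul_pow,
        mul_div_mul_left _ _ (pow_ne_zero k (jj_ne _ _))]
    have hinj : Function.Injective φ := by
      intro x y hxy
      have h1 : (Q.heckeSetoid p).r ⟨g x, hgE x⟩ ⟨g y, hgE y⟩ := Quotient.exact hxy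
      obtain ⟨γ, hγ, h2⟩ := h1
      have h3 : g y = γ * g x := h2
      have h4 : ((y : G2) : Mat) = (γ : Mat) * ((x : G2) : Mat) := by
        have h6 : ((γ * g x : SL(2, ℝ)) : Mat) = (γ : Mat) * (g x : Mat) := rfl
        rw [hg y y.2, hg x x.2, h3, h6, Matrix.mul_smul]
      have h5 := hO.normOne_of_eq hγ.1 h4 (by rw [(hA.mem y y.2).2, (hA.mem x x.2).2])
      exact Subtype.ext (hA.uniq x x.2 y y.2 h5).symm
    have hsurj : Function.Surjective φ := by
      intro c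
      obtain ⟨⟨e, he'⟩, rfl⟩ := Quotient.exists_rep c
      have hdet : (√(p : ℝ) • (e : Mat)).det = p := by
        have h6 : (e : Mat).det = 1 := e.2
        rw [Matrix.det_smul, h6, mul_one, Fintype.card_fin, Real.sq_sqrt hp1.le]
      obtain ⟨y, hy⟩ := exists_G2 (x := √(p : ℝ) • (e : Mat)) (by rw [hdet]; exact hp1.ne')
      have hyR : y ∈ Rn Q.O p := ⟨by rw [hy]; exact he', by rw [hy]; exact hdet⟩
      obtain ⟨x, hx, hyx⟩ := hA.rep y hyR
      refine ⟨⟨x, hx⟩, Quotient.sound ?_⟩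
      obtain ⟨h1, h2⟩ := hO.mem_normOne.1 hyx
      let γ : SL(2, ℝ) := ⟨((y * x⁻¹ : G2) : Mat), h2⟩
      have hγ : γ ∈ Q.Γ := mem_Γ hO h1
      refine ⟨γ, hγ, ?_⟩
      show e = γ * g x
      apply Subtype.ext
      show (e : Mat) = ((y * x⁻¹ : G2) : Mat) * (g x : Mat)
      have h3 : √(p : ℝ) • (e : Mat) = √(p : ℝ) • (((y * x⁻¹ : G2) : Mat) * (g x : Mat)) := by
        rw [← Matrix.mul_smul, ← hg x hx, ← hy, ← Units.val_mul, inv_mul_cancel_right]
      exact smul_right_injective Mat hs.ne' h3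
    have hT : Q.T p k f z = ∑ x : A, f (g x • z) / jj (g x) z ^ k := by
      show ∑ᶠ c : Quotient (Q.heckeSetoid p), H c = _
      rw [← finsum_comp_equiv (Equiv.ofBijective φ ⟨hinj, hsurj⟩), finsum_eq_sum_of_fintype]
      exact Finset.sum_congr rfl fun x _ => hH x
    rw [hT, Finset.mul_sum]
    rw [← Finset.sum_coe_sort A fun x => (f ∣[(k : ℤ)] x) z]
    refine Finset.sum_congr rfl fun x _ => ?_
    exact slash_sc k f x (g x) _ hs (hg x x.2) z

end Pool.Agent.HoloQUE
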