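import Pool.Agent.Work.MP_d2a4bb_nt.NC.Final

/-!
# Item BrD: fundamental domains.  Author: helper22.
-/

set_option autoImplicit false

open MeasureTheory UpperHalfPlane Matrix HQ
open scoped MatrixGroups Manifold ENNReal Pointwise

noncomputable section

namespace Pool.Agent.HoloQUE

namespace XBrD

theorem point_null (z : ℍ) : (volume : Measure ℍ) {z} = 0 := by
  rw [volume_eq_lintegral]
  apply setLIntegral_measure_zero
  rw [Set.image_singleton]
  exact measure_singleton _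

theorem null_of_subsingleton {s : Set ℍ} (hs : s.Subsingleton) : (volume : Measure ℍ) s = 0 := by
  rcases s.eq_empty_or_nonempty with h | ⟨z, hz⟩
  · rw [h, measure_empty]
  · have h1 : s ⊆ {z} := fun w hw => hs hw hz
    exact measure_mono_null h1 (point_null z)

/-- an element of `Γ` as an element of `normOne` -/
theorem lift_mem (Q : QuatOrder) {γ : SL(2, ℝ)} (h : γ ∈ Q.Γ) :
    Matrix.SpecialLinearGroup.toGL γ ∈ normOne Q.O := by
  refine ⟨h.1, ?_, γ.2⟩
  rw [← map_inv]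
  exact h.2

theorem lift_smul (γ : SL(2, ℝ)) (z : ℍ) : (Matrix.SpecialLinearGroup.toGL γ : G2) • z = γ • z := by
  rw [MulAction.compHom_smul_def]
  congr 1

theorem of_mem (Q : QuatOrder) {u : G2} (h : u ∈ normOne Q.O) :
    ∃ γ ∈ Q.Γ, (Matrix.SpecialLinearGroup.toGL γ : G2) = u := by
  have e : Matrix.SpecialLinearGroup.toGL (⟨(u : Mat), h.2.2⟩ : SL(2, ℝ)) = u := Units.ext rfl
  refine ⟨⟨(u : Mat), h.2.2⟩, ⟨h.1, ?_⟩, e⟩
  have h1 := h.2.1
  rw [← e, ← map_inv] at h1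
  exact h1

/-- every element of `Gam` is represented by an element of `Q.Γ` with the same action -/
theorem rep (Q : QuatOrder) (g : Gam Q.O) : ∃ γ ∈ Q.Γ,
    ProjGenLinGroup.mk (Matrix.SpecialLinearGroup.toGL γ : G2) = (g : PGL(2, ℝ)) ∧
    ∀ z : ℍ, g • z = γ • z := by
  obtain ⟨g, hg⟩ := g
  obtain ⟨u, hu, rfl⟩ := hg
  obtain ⟨γ, hγ, e⟩ := of_mem Q hu
  refine ⟨γ, hγ, by rw [e], fun z => ?_⟩
  rw [← lift_smul, e]
  show ProjGenLinGroup.mk u • z = u • z
  exact pglMk_smul u z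

end XBrD

open XBrD in
/-- Item BrD: fundamental domains. -/
theorem prf_BrD : S_BrD := by
  intro Q F hF
  refine ⟨hF.1.nullMeasurableSet, Filter.Eventually.of_forall fun z => ?_, ?_⟩
  · obtain ⟨w, ⟨hw, γ, hγ, e⟩, -⟩ := hF.2 z
    refine ⟨⟨ProjGenLinGroup.mk (Matrix.SpecialLinearGroup.toGL γ : G2), _, lift_mem Q hγ, rfl⟩, ?_⟩
    show ProjGenLinGroup.mk (Matrix.SpecialLinearGroup.toGL γ : G2) • z ∈ F
    rw [pglMk_smul, lift_smul, e]
    exact hw
  · intro g₁ g₂ hne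
    show volume (g₁ • F ∩ g₂ • F) = 0
    apply null_of_subsingleton
    obtain ⟨γ, hγ, hmk, hact⟩ := rep Q (g₁⁻¹ * g₂)
    set u : G2 := Matrix.SpecialLinearGroup.toGL γ with hu
    have hdet : 0 < (u : Mat).det := by
      have : (u : Mat).det = 1 := γ.2
      rw [this]
      exact one_pos
    have hcen : u ∉ Subgroup.center G2 := by
      intro h
      have h1 := ProjGenLinGroup.mk_eq_one.mpr h
      rw [hmk] at h1
      have h2 : g₁⁻¹ * g₂ = 1 := Subtype.ext h1
      exact hne (inv_mul_eq_one.mp h2)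
    have key : ∀ z ∈ g₁ • F ∩ g₂ • F, ∃ a : ℍ, u • a = a ∧ z = g₁ • a := by
      rintro z ⟨hz1, hz2⟩
      obtain ⟨a, ha, e1⟩ := hz1
      obtain ⟨b, hb, e2⟩ := hz2
      have e1' : g₁ • a = z := e1
      have e2' : g₂ • b = z := e2
      have h3 : (g₁⁻¹ * g₂) • b = a := by
        rw [mul_smul, e2', ← e1', inv_smul_smul]
      have h4 : γ • b = a := by rw [← hact, h3]
      have h5 : b = a := by
        obtain ⟨w, -, hw⟩ := hF.2 b
        rw [hw b ⟨hb, 1, Q.Γ.one_mem, one_smul _ _⟩]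
        exact (hw a ⟨ha, γ, hγ, h4⟩).symm
      refine ⟨a, ?_, e1'.symm⟩
      rw [hu, lift_smul]
      rw [h5] at h4
      exact h4
    intro z hz z' hz'
    obtain ⟨a, ha, rfl⟩ := key z hz
    obtain ⟨a', ha', rfl⟩ := key z' hz'
    have hell := isElliptic_of_exists_smul_eq_self hdet hcen ⟨a, ha⟩
    rw [(gl_smul_eq_self_iff_eq_fixedPt hdet hell).mp ha,
      (gl_smul_eq_self_iff_eq_fixedPt hdet hell).mp ha']

end Pool.Agent.HoloQUE
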