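import Pool.Agent.Work.MP_d2a4bb_nt.NC.Final

/-!
# Item BrE: the index from representatives
-/

set_option autoImplicit false

open MeasureTheory UpperHalfPlane Matrix HQ
open scoped MatrixGroups Manifold ENNReal

noncomputable section

namespace Pool.Agent.HoloQUE

namespace XBrE

theorem sq_pos {p : ℕ} (hp : p.Prime) : (0 : ℝ) < √(p : ℝ) :=
  Real.sqrt_pos.2 (by exact_mod_cast hp.pos)

/-- The element of `SL₂(ℝ)` of a matrix of determinant `p`. -/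
def sl {p : ℕ} (hp : p.Prime) (x : Mat) (hx : x.det = p) : SL(2, ℝ) :=
  ⟨(√(p : ℝ))⁻¹ • x, by
    have h1 := sq_pos hp
    have h2 : √(p : ℝ) ^ 2 = p := Real.sq_sqrt (Nat.cast_nonneg p)
    rw [det_smul2, hx, inv_pow, h2]
    exact inv_mul_cancel₀ (by exact_mod_cast hp.ne_zero)⟩

theorem coe_sl {p : ℕ} (hp : p.Prime) (x : Mat) (hx : x.det = p) :
    ((sl hp x hx : SL(2, ℝ)) : Mat) = (√(p : ℝ))⁻¹ • x := rfl

theorem smul_sl {p : ℕ} (hp : p.Prime) (x : Mat) (hx : x.det = p) :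
    √(p : ℝ) • ((sl hp x hx : SL(2, ℝ)) : Mat) = x := by
  rw [coe_sl, smul_smul, mul_inv_cancel₀ (sq_pos hp).ne', one_smul]

theorem sl_ext {g h : SL(2, ℝ)} (e : (g : Mat) = (h : Mat)) : g = h := Subtype.ext e

end XBrE

open XBrE

/-- Item BrE. -/
theorem prf_BrE : S_BrE := by
  intro Q p A hO hp hA
  have hdet : ∀ x : A, (((x : G2) : Mat)).det = p := fun x => (hA.mem x x.2).2
  have hmem : ∀ x : A, (((x : G2) : Mat)) ∈ Q.O := fun x => (hA.mem x x.2).1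
  have hE : ∀ x : A, sl hp ((x : G2) : Mat) (hdet x) ∈ Q.E p := fun x => by
    show √(p : ℝ) • ((sl hp ((x : G2) : Mat) (hdet x) : SL(2, ℝ)) : Mat) ∈ Q.O
    rw [smul_sl]
    exact hmem x
  let φ : A → Quotient (Q.heckeSetoid p) := fun x =>
    Quotient.mk (Q.heckeSetoid p) ⟨sl hp ((x : G2) : Mat) (hdet x), hE x⟩
  have hinj : Function.Injective φ := by
    intro x y hxy
    have h1 : (Q.heckeSetoid p).r ⟨sl hp ((x : G2) : Mat) (hdet x), hE x⟩
        ⟨sl hp ((y : G2) : Mat) (hdet y), hE y⟩ := Quotient.exact hxy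
    obtain ⟨γ, hγ, h2⟩ := h1
    have h3 : ((sl hp ((y : G2) : Mat) (hdet y) : SL(2, ℝ)) : Mat) =
        (γ : Mat) * ((sl hp ((x : G2) : Mat) (hdet x) : SL(2, ℝ)) : Mat) := by
      have := congrArg (fun g : SL(2, ℝ) => (g : Mat)) h2
      simpa using this
    have h4 : ((y : G2) : Mat) = (γ : Mat) * ((x : G2) : Mat) := by
      rw [← smul_sl hp ((y : G2) : Mat) (hdet y), h3, ← mul_smul_comm, smul_sl]
    have h5 := hO.normOne_of_eq (x := (x : G2)) (y := (y : G2)) hγ.1 h4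
      (by rw [hdet x, hdet y])
    exact Subtype.ext (hA.uniq x x.2 y y.2 h5).symm
  have hsurj : Function.Surjective φ := by
    intro c
    obtain ⟨g, rfl⟩ := Quotient.exists_rep c
    have hgO : √(p : ℝ) • ((g : SL(2, ℝ)) : Mat) ∈ Q.O := g.2
    have hgd : (√(p : ℝ) • ((g : SL(2, ℝ)) : Mat)).det = p := by
      rw [det_smul2, Real.sq_sqrt (Nat.cast_nonneg p), (g : SL(2, ℝ)).det_coe, mul_one]
    obtain ⟨y, hy⟩ := exists_G2 (x := √(p : ℝ) • ((g : SL(2, ℝ)) : Mat)) (by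
      rw [hgd]
      exact_mod_cast hp.ne_zero)
    have hyR : y ∈ Rn Q.O p := by
      rw [mem_Rn, hy]
      exact ⟨hgO, hgd⟩
    obtain ⟨x, hxA, hxy⟩ := hA.rep y hyR
    refine ⟨⟨x, hxA⟩, Quotient.sound ?_⟩
    obtain ⟨h1, h2, h3⟩ := hxy
    let γ : SL(2, ℝ) := ⟨((y * x⁻¹ : G2) : Mat), h3⟩
    have hγ : γ ∈ Q.Γ := by
      refine ⟨h1, ?_⟩
      have h4 : ((γ⁻¹ : SL(2, ℝ)) : Mat) = (((y * x⁻¹)⁻¹ : G2) : Mat) := by
        rw [coe_inv, h3, inv_one, one_smul]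
        exact Matrix.SpecialLinearGroup.coe_inv γ
      rw [h4]
      exact h2
    refine ⟨γ, hγ, ?_⟩
    apply sl_ext
    have hx : ((x : G2) : Mat).det = p := (hA.mem x hxA).2
    have h5 : √(p : ℝ) • ((g : SL(2, ℝ)) : Mat) = ((y * x⁻¹ : G2) : Mat) * (x : Mat) := by
      rw [← hy, ← Units.val_mul, inv_mul_cancel_right]
    have h6 : ((g : SL(2, ℝ)) : Mat) = (√(p : ℝ))⁻¹ • (((y * x⁻¹ : G2) : Mat) * (x : Mat)) := by
      rw [← h5, smul_smul, inv_mul_cancel₀ (sq_pos hp).ne', one_smul]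
    rw [h6]
    show (√(p : ℝ))⁻¹ • (((y * x⁻¹ : G2) : Mat) * (x : Mat)) =
      ((y * x⁻¹ : G2) : Mat) * ((√(p : ℝ))⁻¹ • (x : Mat))
    rw [mul_smul_comm]
  have h1 : Nat.card (Quotient (Q.heckeSetoid p)) = Nat.card A :=
    (Nat.card_congr (Equiv.ofBijective φ ⟨hinj, hsurj⟩)).symm
  rw [QuatOrder.index, h1, Nat.card_eq_fintype_card, Fintype.card_coe]

end Pool.Agent.HoloQUE
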