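import Pool.Agent.Work.MP_d2a4bb_nt.NC.Basic

/-!
# Item Cj: conjugation
-/

set_option autoImplicit false

open MeasureTheory UpperHalfPlane Matrix
open scoped MatrixGroups ModularForm Manifold ENNReal Classical

noncomputable section

namespace Pool.Agent.HoloQUE

namespace XCj

theorem inv_mul_coe (h : G2) : ((h⁻¹ : G2) : Mat) * (h : Mat) = 1 := by
  rw [← Units.val_mul, inv_mul_cancel, Units.val_one]

theorem mul_inv_coe (h : G2) : (h : Mat) * ((h⁻¹ : G2) : Mat) = 1 := by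
  rw [← Units.val_mul, mul_inv_cancel, Units.val_one]

/-- Conjugation as a linear equivalence. -/
def cL (h : G2) : Mat ≃ₗ[ℝ] Mat where
  toFun x := (h : Mat) * x * ((h⁻¹ : G2) : Mat)
  map_add' x y := by rw [mul_add, add_mul]
  map_smul' a x := by
    rw [mul_smul_comm, smul_mul_assoc]
    rfl
  invFun x := ((h⁻¹ : G2) : Mat) * x * (h : Mat)
  left_inv x := by
    calc ((h⁻¹ : G2) : Mat) * ((h : Mat) * x * ((h⁻¹ : G2) : Mat)) * (h : Mat)
        = (((h⁻¹ : G2) : Mat) * (h : Mat)) * x * (((h⁻¹ : G2) : Mat) * (h : Mat)) := by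
          simp only [mul_assoc]
      _ = x := by rw [inv_mul_coe, one_mul, mul_one]
  right_inv x := by
    calc (h : Mat) * (((h⁻¹ : G2) : Mat) * x * (h : Mat)) * ((h⁻¹ : G2) : Mat)
        = ((h : Mat) * ((h⁻¹ : G2) : Mat)) * x * ((h : Mat) * ((h⁻¹ : G2) : Mat)) := by
          simp only [mul_assoc]
      _ = x := by rw [mul_inv_coe, one_mul, mul_one]

theorem cL_apply (h : G2) (x : Mat) : cL h x = (h : Mat) * x * ((h⁻¹ : G2) : Mat) := rfl

theorem mem_cj (h : G2) (O : Subring Mat) (x : Mat) : x ∈ cj h O ↔ cL h x ∈ O := Iff.rfl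

theorem trace_cL (h : G2) (x : Mat) : (cL h x).trace = x.trace := by
  rw [cL_apply, Matrix.trace_mul_comm, ← mul_assoc, inv_mul_coe, one_mul]

theorem det_cL (h : G2) (x : Mat) : (cL h x).det = x.det := by
  rw [cL_apply, Matrix.det_mul, Matrix.det_mul]
  have h1 : (h : Mat).det * ((h⁻¹ : G2) : Mat).det = 1 := by
    rw [← Matrix.det_mul, mul_inv_coe, Matrix.det_one]
  linear_combination x.det * h1

theorem qorder (O : Subring Mat) (h : G2) (hO : QOrder O) : QOrder (cj h O) where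
  tr x hx := by
    obtain ⟨n, hn⟩ := hO.tr _ ((mem_cj h O x).1 hx)
    exact ⟨n, by rw [← hn, trace_cL]⟩
  dt x hx := by
    obtain ⟨n, hn⟩ := hO.dt _ ((mem_cj h O x).1 hx)
    exact ⟨n, by rw [← hn, det_cL]⟩
  ne x hx hx0 := by
    have h1 := hO.ne _ ((mem_cj h O x).1 hx) (by
      intro h0
      exact hx0 ((cL h).map_eq_zero_iff.1 h0))
    rwa [det_cL] at h1
  span := by
    have h1 : (cL h : Mat →ₗ[ℝ] Mat) '' (cj h O : Set Mat) = (O : Set Mat) := by
      ext y
      constructor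
      · rintro ⟨x, hx, rfl⟩
        exact hx
      · intro hy
        refine ⟨(cL h).symm y, ?_, (cL h).apply_symm_apply y⟩
        show cL h ((cL h).symm y) ∈ O
        rw [(cL h).apply_symm_apply]
        exact hy
    have h2 : (Submodule.span ℝ (cj h O : Set Mat)).map (cL h : Mat →ₗ[ℝ] Mat) = ⊤ := by
      rw [← Submodule.span_image, h1, hO.span]
    rw [eq_top_iff]
    intro x _
    have h3 : cL h x ∈ (Submodule.span ℝ (cj h O : Set Mat)).map (cL h : Mat →ₗ[ℝ] Mat) := by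
      rw [h2]
      exact Submodule.mem_top
    obtain ⟨y, hy, hyx⟩ := h3
    have h4 : y = x := (cL h).injective hyx
    rw [← h4]
    exact hy

/-- The conjugate of `g`. -/
def cg (h g : G2) : G2 := h⁻¹ * g * h

theorem cg_inj (h : G2) : Function.Injective (cg h) := by
  intro a b hab
  unfold cg at hab
  exact mul_left_cancel (mul_right_cancel hab)

theorem cg_surj (h g : G2) : cg h (h * g * h⁻¹) = g := by
  unfold cg
  group

theorem cL_cg (h g : G2) : cL h (cg h g : G2) = (g : Mat) := by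
  rw [cL_apply, ← Units.val_mul, ← Units.val_mul]
  congr 1
  unfold cg
  group

theorem det_cg (h g : G2) : ((cg h g : G2) : Mat).det = (g : Mat).det := by
  rw [← det_cL h, cL_cg]

theorem mem_cs (h : G2) (S : Set G2) (g : G2) : g ∈ cs h S ↔ cg h g ∈ S := Iff.rfl

theorem encard_eq (h : G2) {A B : Set G2} (hAB : ∀ g, g ∈ A ↔ cg h g ∈ B) :
    A.encard = B.encard := by
  have h1 : B = cg h '' A := by
    ext g
    constructor
    · intro hg
      refine ⟨h * g * h⁻¹, ?_, cg_surj h g⟩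
      rw [hAB, cg_surj]
      exact hg
    · rintro ⟨g', hg', rfl⟩
      exact (hAB g').1 hg'
  rw [h1, (cg_inj h).encard_image]

end XCj

open XCj

/-- Item Cj. -/
theorem prf_Cj (h1 : S_Iso) : S_Cj := by
  intro O h hO
  refine ⟨qorder O h hO, fun S X => ?_, fun S Y => ?_, fun ρ => ?_⟩
  · refine encard_eq h fun g => ?_
    show (g ∈ cs h S ∧ (g : Mat) ∈ O ∧ 0 < (g : Mat).det ∧ (g : Mat).det ≤ X) ↔
      (cg h g ∈ S ∧ ((cg h g : G2) : Mat) ∈ cj h O ∧ 0 < ((cg h g : G2) : Mat).det ∧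
        ((cg h g : G2) : Mat).det ≤ X)
    rw [mem_cs, mem_cj, cL_cg, det_cg]
  · refine encard_eq h fun g => ?_
    show (g ∈ cs h S ∧ (g : Mat) ∈ O ∧
        ∃ m : ℕ, 1 ≤ m ∧ (m : ℝ) ≤ Y ∧ (g : Mat).det = (m : ℝ) ^ 2) ↔
      (cg h g ∈ S ∧ ((cg h g : G2) : Mat) ∈ cj h O ∧
        ∃ m : ℕ, 1 ≤ m ∧ (m : ℝ) ≤ Y ∧ ((cg h g : G2) : Mat).det = (m : ℝ) ^ 2)
    rw [mem_cs, mem_cj, cL_cg, det_cg]
  · ext g
    rw [mem_cs]
    show (0 < ((cg h g : G2) : Mat).det ∧ dist (cg h g • I) I ≤ ρ) ↔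
      (0 < (g : Mat).det ∧ dist (g • h • I) (h • I) ≤ ρ)
    rw [det_cg]
    have h2 : dist (cg h g • I) I = dist (g • h • I) (h • I) := by
      rw [← h1 h (cg h g • I) I, ← mul_smul, ← mul_smul]
      congr 2
      unfold cg
      group
    rw [h2]

end Pool.Agent.HoloQUE
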