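import Pool.Agent.Work.MP_d2a4bb_nt.NC.Basic

/-!
# Item Cnt (helper61): an order is countable
-/

set_option autoImplicit false

open MeasureTheory UpperHalfPlane Matrix
open scoped MatrixGroups ModularForm Manifold ENNReal Classical

noncomputable section

namespace Pool.Agent.HoloQUE

namespace XCnt

theorem fin {O : Subring Mat} (hO : QOrder O) : ∃ T : Finset Mat, (T : Set Mat) ⊆ O ∧
    Submodule.span ℝ (T : Set Mat) = ⊤ := by
  have h1 : (Submodule.span ℝ (O : Set Mat)).FG := by
    rw [hO.span]
    exact Module.Finite.fg_top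
  obtain ⟨T, hT, h2⟩ := Submodule.fg_span_iff_fg_span_finset_subset (O : Set Mat) |>.1 h1
  exact ⟨T, hT, by rw [← h2, hO.span]⟩

theorem inj {T : Finset Mat} (hT : Submodule.span ℝ (T : Set Mat) = ⊤) {x y : Mat}
    (h : ∀ t ∈ T, (x * t).trace = (y * t).trace) : x = y := by
  have h1 : ∀ z : Mat, ((x - y) * z).trace = 0 := by
    intro z
    have hz : z ∈ Submodule.span ℝ (T : Set Mat) := by
      rw [hT]
      exact Submodule.mem_top
    induction hz using Submodule.span_induction with
    | mem t ht =>
      rw [sub_mul, Matrix.trace_sub, h t ht, sub_self]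
    | zero => rw [mul_zero, Matrix.trace_zero]
    | add a b _ _ ha hb => rw [mul_add, Matrix.trace_add, ha, hb, add_zero]
    | smul c a _ ha => rw [mul_smul_comm, Matrix.trace_smul, ha, smul_zero]
  have h2 : ∀ i j, (x - y) i j = 0 := by
    intro i j
    have h3 := h1 (Matrix.single j i 1)
    have h4 : ((x - y) * Matrix.single j i (1 : ℝ)).trace = (x - y) i j := by
      fin_cases i <;> fin_cases j <;>
        simp [Matrix.trace_fin_two, Matrix.mul_apply, Matrix.single_apply]
    rw [h4] at h3
    exact h3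
  have h5 : x - y = 0 := by
    ext i j
    exact h2 i j
  exact sub_eq_zero.1 h5

end XCnt

theorem prf_Cnt : S_Cnt := by
  intro O hO
  obtain ⟨T, hTO, hT⟩ := XCnt.fin hO
  have h1 : (Set.range fun (n : T → ℤ) (t : T) => ((n t : ℤ) : ℝ)).Countable :=
    Set.countable_range _
  refine Set.MapsTo.countable_of_injOn (f := fun (x : Mat) (t : T) => (x * (t : Mat)).trace)
    ?_ ?_ h1
  · intro x hx
    have h2 : ∀ t : T, ∃ n : ℤ, (x * (t : Mat)).trace = n := fun t =>
      hO.tr _ (O.mul_mem hx (hTO t.2))
    choose n hn using h2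
    exact ⟨n, funext fun t => (hn t).symm⟩
  · intro x _ y _ hxy
    exact XCnt.inj hT fun t ht => congrFun hxy ⟨t, ht⟩

end Pool.Agent.HoloQUE
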