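import Pool.Agent.Work.MP_d2a4bb_nt.NC.Final

/-!
# The general form: a plentiful set of primes
-/

set_option autoImplicit false

open MeasureTheory UpperHalfPlane Matrix HQ
open scoped MatrixGroups ModularForm Manifold ENNReal Classical

noncomputable section

namespace Pool.Agent.HoloQUE

/-- `P` is a plentiful set of primes: for all `ε > 0` and all `N ≥ N₀ ε` there are at least
`N ^ (1 - ε)` elements of `P` between `N` and `3 N`. -/
def Plenty (P : Set ℕ) (N₀ : ℝ → ℕ) : Prop :=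
  ∀ ε : ℝ, 0 < ε → ∀ N : ℕ, N₀ ε ≤ N →
    (N : ℝ) ^ (1 - ε) ≤ (((Finset.Ioc N (3 * N)).filter (· ∈ P)).card : ℝ)

/-- The amplified functions for a set of primes. -/
structure AmpP (O : Subring Mat) (P : Set ℕ) (F : ℍ → ℝ) : Prop where
  cont : Continuous F
  nn : ∀ z, 0 ≤ F z
  inv : ∀ g ∈ normOne O, ∀ z, F (g • z) = F z
  amp : ∀ p ∈ P, ∃ A : Finset G2, Reps O p A ∧ A.card = p + 1 ∧
    ((∀ z, F z ≤ 2 / √(p : ℝ) * ∑ x ∈ A, F (x • z)) ∨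
      ∀ z, F z ≤ 4 / (3 * (p : ℝ)) * ∑ x ∈ NB O p A, F (x • z))

/-- Item AmpP. Proof: as Amp. -/
def S_AmpP : Prop :=
  ∀ (O : Subring Mat) (P : Set ℕ) (k : ℤ) (f : ℍ → ℂ), QOrder O → (∀ p ∈ P, Good O p) → MDiff f →
    (∀ g ∈ normOne O, f ∣[k] g = f) →
    (∀ p ∈ P, ∃ c : ℂ, ∀ A, Reps O p A → ∑ x ∈ A, f ∣[k] x = c • f) →
    AmpP O P fun z => ‖f z‖ * z.im ^ ((k : ℝ) / 2)

/-- Item BallP. Proof: as Ball, with the elements of `P` in `(N, 3 N]` in place of the primes and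
`Plenty` in place of Pr. -/
def S_BallP : Prop :=
  ∀ (N₀ : ℝ → ℕ) (δ : ℝ), δ < 2 / 3 → ∃ C : ℝ, 0 < C ∧
    ∀ (O : Subring Mat) (P : Set ℕ) (F : ℍ → ℝ) (D : Set ℍ),
    QOrder O → (∀ p ∈ P, Good O p) → Plenty P N₀ → AmpP O P F →
    IsFundamentalDomain (Gam O) D volume → ms F D = 1 →
    ∀ (z : ℍ) (r : ℝ), 0 < r → r ≤ 8 → ms F (Metric.closedBall z r) ≤ ENNReal.ofReal (C * r ^ δ)

/-- Item TubeP. Proof: as Tube. -/
def S_TubeP : Prop :=
  ∀ N₀ : ℝ → ℕ, ∃ C : ℝ, 0 < C ∧ ∀ (O : Subring Mat) (P : Set ℕ) (F : ℍ → ℝ) (D : Set ℍ),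
    QOrder O → (∀ p ∈ P, Good O p) → Plenty P N₀ → AmpP O P F →
    IsFundamentalDomain (Gam O) D volume → ms F D = 1 →
    ∀ (h : G2) (r : ℝ), 0 < r → r ≤ 2 →
      ms F {z | h⁻¹ • z ∈ B0 r} ≤ ENNReal.ofReal (C * r ^ (1 / 100 : ℝ))

/-- Item BrCP: Hecke forms for a set of primes. Proof: as BrC. -/
def S_BrCP : Prop :=
  ∀ (Q : QuatOrder) (P : Set ℕ) (k : ℕ) (f : ℍ → ℂ), QOrder Q.O → Even k → Q.IsForm k f →
    (∀ p ∈ P, p.Prime) → (∀ p ∈ P, Q.IsEigen p k f) →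
    (∀ g ∈ normOne Q.O, f ∣[(k : ℤ)] g = f) ∧
    ∀ p ∈ P, ∃ c : ℂ, ∀ A, Reps Q.O p A → ∑ x ∈ A, f ∣[(k : ℤ)] x = c • f

/-! ### The final statements -/

/-- `P` is a plentiful set of good primes of the order: for `p ∈ P` the ring `O / p O` is isomorphic
to `M₂(𝔽_p)` and there are exactly `p + 1` classes `Γ x`, `x ∈ O`, `nrd x = p`. (For Eichler orders, in
particular for maximal orders, all primes which do not divide the discriminant of `O` have these two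
properties, by Eichler's theorem; for every order the set of primes with these properties is
plentiful, by strong approximation.) -/
def GoodSet (Q : QuatOrder) (P : Set ℕ) (N₀ : ℝ → ℕ) : Prop :=
  Plenty P N₀ ∧ ∀ p ∈ P, p.Prime ∧ Q.Good p ∧ Q.index p = p + 1

/-- A holomorphic Hecke form of even weight `k` on `X = Γ \ ℍ` (eigenfunction of `T_p`, `p ∈ P`),
normalised such that `μ_f(X) = 1`. -/
structure HeckeP (Q : QuatOrder) (P : Set ℕ) (k : ℕ) (f : ℍ → ℂ) : Prop where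
  even : Even k
  form : Q.IsForm k f
  eigen : ∀ p ∈ P, Q.IsEigen p k f
  norm : ∃ F : Set ℍ, Q.IsFund F ∧ mu k f F = 1

/-- THEOREM A. Small balls: `μ_f(B(z, r)) ≤ C r ^ δ` for all `δ < 2 / 3`, uniformly in the order, in
the weight, in `f` and in `z`; the same for all weak-* limits, which give mass zero to all sets of
Hausdorff dimension less than `2 / 3`, in particular to all points. -/
def FinalA : Prop :=
  ∀ (N₀ : ℝ → ℕ) (δ : ℝ), δ < 2 / 3 → ∃ C : ℝ, 0 < C ∧ ∀ (Q : QuatOrder) (P : Set ℕ),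
    GoodSet Q P N₀ →
    (∀ (k : ℕ) (f : ℍ → ℂ), HeckeP Q P k f → ∀ (z : ℍ) (r : ℝ), 0 < r → r ≤ 1 →
      mu k f (Metric.ball z r) ≤ ENNReal.ofReal (C * r ^ δ)) ∧
    ∀ (k : ℕ → ℕ) (f : ℕ → ℍ → ℂ) (ν : Measure ℍ), (∀ j, HeckeP Q P (k j) (f j)) →
      WeakLim k f ν → (∀ (z : ℍ) (r : ℝ), 0 < r → r ≤ 1 →
        ν (Metric.ball z r) ≤ ENNReal.ofReal (C * r ^ δ)) ∧
        ∀ E : Set ℍ, dimH E < 2 / 3 → ν E = 0

/-- THEOREM B. Neighbourhoods of geodesics: the mass of the `r`-neighbourhood of a piece of length at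
most `2` of a geodesic is at most `C r ^ (1 / 100)`, uniformly in the order, in the weight, in `f` and
in the geodesic, and all weak-* limits give mass zero to all geodesics. -/
def FinalB : Prop :=
  ∀ N₀ : ℝ → ℕ, ∃ C : ℝ, 0 < C ∧ ∀ (Q : QuatOrder) (P : Set ℕ), GoodSet Q P N₀ →
    (∀ (k : ℕ) (f : ℍ → ℂ), HeckeP Q P k f → ∀ (a b c : ℝ) (z₀ : ℍ) (r : ℝ),
      0 < b ^ 2 - 4 * a * c → 0 < r → r ≤ 1 →
      mu k f {z | dist z z₀ < 1 ∧ ∃ w ∈ geod a b c, dist z w < r} ≤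
        ENNReal.ofReal (C * r ^ (1 / 100 : ℝ))) ∧
    ∀ (k : ℕ → ℕ) (f : ℕ → ℍ → ℂ) (ν : Measure ℍ), (∀ j, HeckeP Q P (k j) (f j)) →
      WeakLim k f ν → ∀ a b c : ℝ, 0 < b ^ 2 - 4 * a * c → ν (geod a b c) = 0

/-- The measures of a bounded sequence: item Dim. Proof: choose `δ` with `dimH E < δ < 2 / 3`; a set
`s` of diameter `t ≤ 1 / 2` is contained in a ball of radius `2 t` if `t > 0`, and is at most a point
if `t = 0`; so `C⁻¹ 2^(-δ) ν ≤ μH[δ]` (`Measure.le_hausdorffMeasure`), and `μH[δ] E = 0`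
(`hausdorffMeasure_of_dimH_lt`). -/
def S_Dim : Prop :=
  ∀ ν : Measure ℍ, (∀ δ : ℝ, δ < 2 / 3 → ∃ C : ℝ, ∀ (z : ℍ) (r : ℝ), 0 < r → r ≤ 1 →
    ν (Metric.ball z r) ≤ ENNReal.ofReal (C * r ^ δ)) → ∀ E : Set ℍ, dimH E < 2 / 3 → ν E = 0

end Pool.Agent.HoloQUE
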