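import Mathlib
import Pool.Agent.Work.MP_d2a4bb_nt.NC.Gen

/-!
# Sets of small Hausdorff dimension have mass zero (item Dim)
-/

set_option autoImplicit false

open MeasureTheory UpperHalfPlane Matrix HQ
open scoped MatrixGroups ModularForm Manifold ENNReal NNReal Classical Topology

noncomputable section

namespace Pool.Agent.HoloQUE

namespace XDim

/-- a set of small diameter has mass at most a constant times the power of its diameter -/
theorem le_diam {ν : Measure ℍ} {C δ : ℝ} (hδ : 0 < δ) (hC : 0 ≤ C)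
    (h : ∀ (z : ℍ) (r : ℝ), 0 < r → r ≤ 1 → ν (Metric.ball z r) ≤ ENNReal.ofReal (C * r ^ δ))
    (s : Set ℍ) (hs : Metric.ediam s ≤ 1 / 2) :
    ν s ≤ ENNReal.ofReal C * Metric.ediam s ^ δ := by
  rcases s.eq_empty_or_nonempty with rfl | ⟨x, hx⟩
  · simp
  have hfin : Metric.ediam s ≠ ⊤ := ne_top_of_le_ne_top (by norm_num) hs
  set t : ℝ := (Metric.ediam s).toReal with ht
  have ht0 : 0 ≤ t := ENNReal.toReal_nonneg
  have ht1 : t < 1 := by
    have h1 : t ≤ ((1 / 2 : ℝ≥0∞)).toReal := ENNReal.toReal_mono (by norm_num) hs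
    have h2 : ((1 / 2 : ℝ≥0∞)).toReal = 1 / 2 := by simp
    rw [h2] at h1
    linarith
  have hle : ∀ r : ℝ, t < r → r ≤ 1 → ν s ≤ ENNReal.ofReal (C * r ^ δ) := by
    intro r hr hr1
    refine le_trans (measure_mono ?_) (h x r (lt_of_le_of_lt ht0 hr) hr1)
    intro y hy
    rw [Metric.mem_ball]
    refine lt_of_le_of_lt ?_ hr
    rw [dist_edist]
    exact ENNReal.toReal_mono hfin (Metric.edist_le_ediam_of_mem hy hx)
  have hcont : Filter.Tendsto (fun r : ℝ => ENNReal.ofReal (C * r ^ δ)) (𝓝[>] t)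
      (𝓝 (ENNReal.ofReal (C * t ^ δ))) := by
    have h1 : Continuous fun r : ℝ => ENNReal.ofReal (C * r ^ δ) :=
      ENNReal.continuous_ofReal.comp
        (continuous_const.mul (Real.continuous_rpow_const hδ.le))
    exact (h1.tendsto t).mono_left nhdsWithin_le_nhds
  have hfinal : ν s ≤ ENNReal.ofReal (C * t ^ δ) := by
    refine ge_of_tendsto hcont ?_
    have h1 : ∀ᶠ r in 𝓝[>] t, r ∈ Set.Ioo t 1 := Ioo_mem_nhdsGT ht1
    filter_upwards [h1] with r hr
    exact hle r hr.1 hr.2.le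
  refine le_trans hfinal (le_of_eq ?_)
  rw [ENNReal.ofReal_mul hC, ← ENNReal.ofReal_rpow_of_nonneg ht0 hδ.le, ht,
    ENNReal.ofReal_toReal hfin]

end XDim

open XDim

theorem prf_Dim : S_Dim := by
  intro ν hν E hE
  obtain ⟨δ, hδ1, hδ2⟩ := ENNReal.lt_iff_exists_nnreal_btwn.1 hE
  have hδ0 : (0 : ℝ) < δ := by
    have h1 : (0 : ℝ≥0∞) < δ := lt_of_le_of_lt (by simp) hδ1
    exact_mod_cast h1
  have hδ3 : (δ : ℝ) < 2 / 3 := by
    have h1 := ENNReal.toReal_strict_mono (by simp [ENNReal.div_eq_top]) hδ2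
    simpa using h1
  obtain ⟨C, hC⟩ := hν δ hδ3
  set C' : ℝ := max C 1 with hC'
  have hC'0 : 0 < C' := lt_of_lt_of_le one_pos (le_max_right _ _)
  have hC2 : ∀ (z : ℍ) (r : ℝ), 0 < r → r ≤ 1 →
      ν (Metric.ball z r) ≤ ENNReal.ofReal (C' * r ^ (δ : ℝ)) := by
    intro z r hr hr1
    refine le_trans (hC z r hr hr1) (ENNReal.ofReal_le_ofReal ?_)
    exact mul_le_mul_of_nonneg_right (le_max_left _ _) (Real.rpow_nonneg hr.le _)
  have hpos : ENNReal.ofReal C' ≠ 0 := by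
    rw [Ne, ENNReal.ofReal_eq_zero, not_le]
    exact hC'0
  have hle : (ENNReal.ofReal C')⁻¹ • ν ≤ μH[(δ : ℝ)] := by
    refine Measure.le_hausdorffMeasure (δ : ℝ) _ (1 / 2) (by simp) ?_
    intro s hs
    have h1 := le_diam hδ0 hC'0.le hC2 s hs
    rw [Measure.smul_apply, smul_eq_mul]
    calc (ENNReal.ofReal C')⁻¹ * ν s
        ≤ (ENNReal.ofReal C')⁻¹ * (ENNReal.ofReal C' * Metric.ediam s ^ (δ : ℝ)) := by gcongr
      _ = Metric.ediam s ^ (δ : ℝ) := by
          rw [← mul_assoc, ENNReal.inv_mul_cancel hpos ENNReal.ofReal_ne_top, one_mul]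
  have h0 : ((ENNReal.ofReal C')⁻¹ • ν) E ≤ 0 := by
    rw [← hausdorffMeasure_of_dimH_lt hδ1]
    exact hle E
  rw [Measure.smul_apply, smul_eq_mul, nonpos_iff_eq_zero, mul_eq_zero] at h0
  rcases h0 with h0 | h0
  · exact absurd h0 (ENNReal.inv_ne_zero.2 ENNReal.ofReal_ne_top)
  · exact h0

end Pool.Agent.HoloQUE
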