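import Pool.Agent.Work.MP_d2a4bb_nt.NC.Basic
import Pool.Agent.Work.MP_e0aece_nt.DivisorBound

set_option autoImplicit false

namespace Pool.Agent.HoloQUE

/-- Item Dvb. -/
theorem prf_Dvb : S_Dvb := by
  intro ε hε
  obtain ⟨C, hC, h⟩ := Pool.Agent.Work.MP_e0aece_nt.exists_divisor_bound ε hε
  exact ⟨C, hC, fun n hn => h n hn⟩

end Pool.Agent.HoloQUE
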