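import Pool.Agent.Work.MP_d2a4bb_nt.QE.Defs
import Pool.Agent.Work.MP_d2a4bb_nt.NC.Basic

/-!
# Non-concentration of holomorphic Hecke forms: the final statements and the bridge

The orders, the groups `Γ`, the Hecke operators and the fundamental domains are those of
`QE/Defs.lean` (namespace `HQ`).
-/

set_option autoImplicit false

open MeasureTheory UpperHalfPlane Matrix HQ
open scoped MatrixGroups Manifold ENNReal

noncomputable section

namespace Pool.Agent.HoloQUE

/-- All primes `p > p₀` are good: `O / p O` is isomorphic to `M₂(𝔽_p)` and there are exactly `p + 1`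
classes `Γ x`, `x ∈ O`, `nrd x = p`. (For Eichler orders, in particular for maximal orders, this holds
for all primes which do not divide the discriminant of `O`, by Eichler's theorem.) -/
def GoodAbove (Q : QuatOrder) (p₀ : ℕ) : Prop :=
  ∀ p : ℕ, p.Prime → p₀ < p → Q.Good p ∧ Q.index p = p + 1

/-- The measure `μ_f = y ^ k |f(z)| ^ 2 dμ(z)` on the upper half-plane (`dμ = dx dy / y ^ 2` is
the `volume` of Mathlib). -/
def mu (k : ℕ) (f : ℍ → ℂ) : Measure ℍ :=
  volume.withDensity fun z => ENNReal.ofReal (‖f z‖ ^ 2 * z.im ^ k)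

/-- A holomorphic Hecke form of even weight `k` on `X = Γ \ ℍ` (eigenfunction of `T_p` for all primes
`p > p₀`), normalised such that `μ_f(X) = 1`. -/
structure HeckeN (Q : QuatOrder) (p₀ k : ℕ) (f : ℍ → ℂ) : Prop where
  even : Even k
  form : Q.IsForm k f
  eigen : ∀ p : ℕ, p.Prime → p₀ < p → Q.IsEigen p k f
  norm : ∃ F : Set ℍ, Q.IsFund F ∧ mu k f F = 1

/-- `ν` is a weak-* limit of the measures `μ_(f_j)` (tested against continuous functions with
compact support on the upper half-plane). -/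
def WeakLim (k : ℕ → ℕ) (f : ℕ → ℍ → ℂ) (ν : Measure ℍ) : Prop :=
  IsFiniteMeasureOnCompacts ν ∧ ∀ φ : ℍ → ℝ, Continuous φ → HasCompactSupport φ →
    Filter.Tendsto (fun j => ∫ z, φ z ∂(mu (k j) (f j))) Filter.atTop (nhds (∫ z, φ z ∂ν))

/-- THEOREM A. Small balls: `μ_f(B(z, r)) ≤ C r ^ η` for all `η < 2 / 3`, uniformly in the order, in
the weight, in `f` and in `z`, and the same for all weak-* limits, which have no atoms. -/
def MainA : Prop :=
  ∀ (p₀ : ℕ) (η : ℝ), η < 2 / 3 → ∃ C : ℝ, 0 < C ∧ ∀ Q : QuatOrder, GoodAbove Q p₀ →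
    (∀ (k : ℕ) (f : ℍ → ℂ), HeckeN Q p₀ k f → ∀ (z : ℍ) (r : ℝ), 0 < r → r ≤ 1 →
      mu k f (Metric.ball z r) ≤ ENNReal.ofReal (C * r ^ η)) ∧
    ∀ (k : ℕ → ℕ) (f : ℕ → ℍ → ℂ) (ν : Measure ℍ), (∀ j, HeckeN Q p₀ (k j) (f j)) →
      WeakLim k f ν → (∀ (z : ℍ) (r : ℝ), 0 < r → r ≤ 1 →
        ν (Metric.ball z r) ≤ ENNReal.ofReal (C * r ^ η)) ∧ ∀ z : ℍ, ν {z} = 0

/-- THEOREM B. Neighbourhoods of geodesics: the mass of the `r`-neighbourhood of a piece of length at
most `2` of a geodesic is at most `C r ^ (1 / 100)`, uniformly in the order, in the weight, in `f` and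
in the geodesic, and all weak-* limits give mass zero to all geodesics. -/
def MainB : Prop :=
  ∀ p₀ : ℕ, ∃ C : ℝ, 0 < C ∧ ∀ Q : QuatOrder, GoodAbove Q p₀ →
    (∀ (k : ℕ) (f : ℍ → ℂ), HeckeN Q p₀ k f → ∀ (a b c : ℝ) (z₀ : ℍ) (r : ℝ),
      0 < b ^ 2 - 4 * a * c → 0 < r → r ≤ 1 →
      mu k f {z | dist z z₀ < 1 ∧ ∃ w ∈ geod a b c, dist z w < r} ≤
        ENNReal.ofReal (C * r ^ (1 / 100 : ℝ))) ∧
    ∀ (k : ℕ → ℕ) (f : ℕ → ℍ → ℂ) (ν : Measure ℍ), (∀ j, HeckeN Q p₀ (k j) (f j)) →
      WeakLim k f ν → ∀ a b c : ℝ, 0 < b ^ 2 - 4 * a * c → ν (geod a b c) = 0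

/-! ### The bridge -/

/-- Item BrA: a `QuatOrder` gives a `QOrder`. Proof. Traces and determinants are integers: item INT of
QA (hypothesis). `det_ne_zero`. The basis is contained in `O`. -/
def S_BrA : Prop := ∀ Q : QuatOrder, QOrder Q.O

/-- Item BrB: good primes. Proof. `Q.Good p` is the first part (`(p : O) * y` is `p • y`). The type of
classes has `p + 1 > 0` elements, so it is finite; for each class choose an element `g ∈ Q.E p`; the
element `√p g` of `GL₂(ℝ)` is in `O` and has determinant `p`. If `y ∈ Rn O p` then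
`y / √p ∈ Q.E p` (as an element of `SL(2, ℝ)`) is `γ g` for a representative `g`, so `y = γ (√p g)`.
`γ ∈ Q.Γ` iff its image in `GL₂(ℝ)` is in `normOne Q.O`. -/
def S_BrB : Prop := ∀ (Q : QuatOrder) (p : ℕ), p.Prime → Q.Good p → Q.index p = p + 1 → Good Q.O p

/-- Item BrC: Hecke forms. Proof. For `g ∈ SL(2, ℝ)` and `x = √p g ∈ GL₂(ℝ)`:
`(f ∣[k] x) z = p ^ (k / 2 - 1) * (f (g z) / (jj g z) ^ k)` (`k` is even). So `IsForm` gives the
invariance under `normOne Q.O`. `f ∣[k] x` depends only on the class of `x` modulo `normOne`, so for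
all `A` with `Reps Q.O p A` the sum `∑_{x ∈ A} f ∣[k] x` is `p ^ (k / 2 - 1)` times the finite sum
(`finsum`) over the classes which defines `Q.T p k f` (bijection of `A` with the classes; in
particular the type of classes is finite). -/
def S_BrC : Prop :=
  ∀ (Q : QuatOrder) (p₀ k : ℕ) (f : ℍ → ℂ), QOrder Q.O → Even k → Q.IsForm k f →
    (∀ p : ℕ, p.Prime → p₀ < p → Q.IsEigen p k f) → HeckeForm Q.O p₀ (k : ℤ) f

/-- Item BrD: fundamental domains. Proof. `F` is measurable and meets every orbit. If `g ∈ Gam Q.O`,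
`g ≠ 1` and `z ∈ F ∩ g F` then `z` and `g⁻¹ z` are in `F` and equivalent, so equal: `z` is a fixed
point of `g`. `g` is the class of a nonscalar matrix of determinant `1`, which has at most one fixed
point in the upper half-plane (`c z² + (d - a) z - b = 0`). `Gam Q.O` acts through `normOne`; every
element is the image of an element of `Q.Γ` with the same action. -/
def S_BrD : Prop :=
  ∀ (Q : QuatOrder) (F : Set ℍ), Q.IsFund F → IsFundamentalDomain (Gam Q.O) F volume

/-- Item ExQO: the order of discriminant `6` as a `QuatOrder`. Proof. The basis is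
`1, i, j, (1 + i + j + i j) / 2`. -/
def S_ExQO : Prop := ∃ Q : QuatOrder, ∀ x, x ∈ Q.O ↔ IsR6 x

/-- Item BrE: the index from representatives. Proof. Converse of BrB: the classes correspond to the
elements of `A`. -/
def S_BrE : Prop := ∀ (Q : QuatOrder) (p : ℕ) (A : Finset G2), QOrder Q.O → p.Prime →
  Reps Q.O p A → Q.index p = A.card

end Pool.Agent.HoloQUE
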