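import Mathlib
import Pool.Agent.Work.MP_d2a4bb_nt.NC.Final

/-!
# Non-concentration near geodesics (item MainB)
-/

set_option autoImplicit false

open MeasureTheory UpperHalfPlane Matrix HQ
open scoped MatrixGroups Manifold ENNReal Topology

noncomputable section

namespace Pool.Agent.HoloQUE

namespace XMainB

theorem sq_eq (f : ℍ → ℂ) (k : ℕ) (z : ℍ) :
    (‖f z‖ * z.im ^ (((k : ℤ) : ℝ) / 2)) ^ 2 = ‖f z‖ ^ 2 * z.im ^ k := by
  have h : (z.im ^ (((k : ℤ) : ℝ) / 2)) ^ 2 = z.im ^ k := by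
    rw [← Real.rpow_natCast, ← Real.rpow_mul z.im_pos.le]
    have e : (((k : ℤ) : ℝ) / 2) * ((2 : ℕ) : ℝ) = (k : ℝ) := by
      push_cast
      ring
    rw [e, Real.rpow_natCast]
  rw [mul_pow, h]

theorem mu_eq_ms (f : ℍ → ℂ) (k : ℕ) (B : Set ℍ) :
    mu k f B = ms (fun z => ‖f z‖ * z.im ^ (((k : ℤ) : ℝ) / 2)) B := by
  unfold mu ms
  rw [withDensity_apply']
  simp_rw [sq_eq]

theorem fin_mu {f : ℍ → ℂ} {k : ℕ}
    (hc : Continuous fun z : ℍ => ‖f z‖ * z.im ^ (((k : ℤ) : ℝ) / 2)) :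
    IsFiniteMeasureOnCompacts (mu k f) := by
  have h1 : Continuous fun z : ℍ => ‖f z‖ ^ 2 * z.im ^ k := by
    have h2 : Continuous fun z : ℍ => (‖f z‖ * z.im ^ (((k : ℤ) : ℝ) / 2)) ^ 2 := hc.pow 2
    simp_rw [sq_eq] at h2
    exact h2
  have h3 : IsLocallyFiniteMeasure (mu k f) := IsLocallyFiniteMeasure.withDensity_ofReal h1
  infer_instance

theorem ms_mono (F : ℍ → ℝ) {A B : Set ℍ} (h : A ⊆ B) : ms F A ≤ ms F B :=
  lintegral_mono_set h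

/-- the neighbourhood -/
def U (a b c r : ℝ) (z₀ : ℍ) : Set ℍ := {z | dist z z₀ < 1 ∧ ∃ w ∈ geod a b c, dist z w < r}

theorem open_U (a b c r : ℝ) (z₀ : ℍ) : IsOpen (U a b c r z₀) := by
  have h : U a b c r z₀ = Metric.ball z₀ 1 ∩ ⋃ w ∈ geod a b c, Metric.ball w r := by
    ext z
    simp only [U, Set.mem_ofPred_eq, Set.mem_inter_iff, Metric.mem_ball, Set.mem_iUnion,
      exists_prop]
  rw [h]
  exact Metric.isOpen_ball.inter (isOpen_biUnion fun w _ => Metric.isOpen_ball)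

theorem bdd_U (a b c r : ℝ) (z₀ : ℍ) : Bornology.IsBounded (U a b c r z₀) :=
  (Metric.isBounded_ball (x := z₀) (r := 1)).subset fun _ hz => Metric.mem_ball.2 hz.1

end XMainB

open XMainB

theorem prf_MainB (h1 : S_Tube) (h2 : S_Amp) (h3 : S_Lim) (h4 : S_BrA) (h5 : S_BrB)
    (h6 : S_BrC) (h7 : S_BrD) (h8 : S_Incl) : MainB := by
  intro p₀
  obtain ⟨C, hC, hT⟩ := h1 p₀
  refine ⟨C * 2 ^ (1 / 100 : ℝ), by positivity, fun Q hQ => ?_⟩
  have hO : QOrder Q.O := h4 Q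
  have hG : ∀ p : ℕ, p.Prime → p₀ < p → Good Q.O p := fun p hp hpp =>
    h5 Q p hp (hQ p hp hpp).1 (hQ p hp hpp).2
  have hamp : ∀ (k : ℕ) (f : ℍ → ℂ), HeckeN Q p₀ k f →
      AmpFn Q.O p₀ fun z => ‖f z‖ * z.im ^ (((k : ℤ) : ℝ) / 2) := fun k f hf =>
    h2 Q.O p₀ (k : ℤ) f hO (h6 Q p₀ k f hO hf.even hf.form hf.eigen)
  have key : ∀ (k : ℕ) (f : ℍ → ℂ), HeckeN Q p₀ k f → ∀ (a b c : ℝ) (z₀ : ℍ) (r : ℝ),
      0 < b ^ 2 - 4 * a * c → 0 < r → r ≤ 1 →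
      mu k f (U a b c r z₀) ≤ ENNReal.ofReal (C * 2 ^ (1 / 100 : ℝ) * r ^ (1 / 100 : ℝ)) := by
    intro k f hf a b c z₀ r habc hr hr1
    obtain ⟨D, hD, hD1⟩ := hf.norm
    obtain ⟨h, hh⟩ := h8 a b c r z₀ habc hr hr1
    have e : C * 2 ^ (1 / 100 : ℝ) * r ^ (1 / 100 : ℝ) = C * (2 * r) ^ (1 / 100 : ℝ) := by
      rw [Real.mul_rpow (by norm_num) hr.le, mul_assoc]
    rw [e, mu_eq_ms]
    refine le_trans (ms_mono _ (B := {z | h⁻¹ • z ∈ B0 (2 * r)}) ?_)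
      (hT Q.O _ D hO hG (hamp k f hf) (h7 Q D hD) ?_ h (2 * r) (by linarith) (by linarith))
    · intro z hz
      exact hh ⟨hz.1.le, hz.2⟩
    · rw [← mu_eq_ms]
      exact hD1
  refine ⟨key, ?_⟩
  intro k f ν hf hν a b c habc
  have hlim : ∀ (z₀ : ℍ) (r : ℝ), 0 < r → r ≤ 1 →
      ν (U a b c r z₀) ≤ ENNReal.ofReal (C * 2 ^ (1 / 100 : ℝ) * r ^ (1 / 100 : ℝ)) := by
    intro z₀ r hr hr1
    exact h3 (fun j => mu (k j) (f j)) ν (fun j => fin_mu (hamp (k j) (f j) (hf j)).cont)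
      hν.1 hν.2 _ _ (open_U a b c r z₀) (bdd_U a b c r z₀) (by positivity)
      (fun j => key (k j) (f j) (hf j) a b c z₀ r habc hr hr1)
  apply measure_null_of_locally_null
  intro z₀ hz₀
  refine ⟨geod a b c ∩ Metric.ball z₀ 1,
    inter_mem_nhdsWithin _ (Metric.ball_mem_nhds z₀ one_pos), ?_⟩
  have hle : ∀ n : ℕ, ν (geod a b c ∩ Metric.ball z₀ 1) ≤
      ENNReal.ofReal (C * 2 ^ (1 / 100 : ℝ) * (1 / ((n : ℝ) + 1)) ^ (1 / 100 : ℝ)) := by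
    intro n
    have hn : (0 : ℝ) < 1 / ((n : ℝ) + 1) := by positivity
    have hn1 : 1 / ((n : ℝ) + 1) ≤ 1 := by
      rw [div_le_one (by positivity)]
      linarith [(Nat.cast_nonneg n : (0 : ℝ) ≤ n)]
    refine le_trans (measure_mono ?_) (hlim z₀ _ hn hn1)
    rintro z ⟨hz, hz1⟩
    exact ⟨hz1, z, hz, by rw [dist_self]; exact hn⟩
  have ht : Filter.Tendsto (fun n : ℕ =>
      ENNReal.ofReal (C * 2 ^ (1 / 100 : ℝ) * (1 / ((n : ℝ) + 1)) ^ (1 / 100 : ℝ)))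
      Filter.atTop (𝓝 0) := by
    have h9 : Filter.Tendsto (fun n : ℕ => 1 / ((n : ℝ) + 1)) Filter.atTop (𝓝 0) :=
      tendsto_one_div_add_atTop_nhds_zero_nat
    have h10 : Filter.Tendsto (fun n : ℕ => (1 / ((n : ℝ) + 1)) ^ (1 / 100 : ℝ))
        Filter.atTop (𝓝 0) := by
      have h11 := h9.rpow_const (p := (1 / 100 : ℝ)) (Or.inr (by norm_num))
      rwa [Real.zero_rpow (by norm_num)] at h11
    have h12 := h10.const_mul (C * 2 ^ (1 / 100 : ℝ))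
    rw [mul_zero] at h12
    have h13 := (ENNReal.continuous_ofReal.tendsto 0).comp h12
    rw [ENNReal.ofReal_zero] at h13
    exact h13
  exact nonpos_iff_eq_zero.1 (ge_of_tendsto' ht hle)

end Pool.Agent.HoloQUE
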