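import Mathlib
import Pool.Agent.Work.MP_d2a4bb_nt.NC.Gen
import Pool.Agent.Work.MP_d2a4bb_nt.NC.I_MainB

/-!
# Non-concentration near geodesics, general form (item FinB)
-/

set_option autoImplicit false

open MeasureTheory UpperHalfPlane Matrix HQ
open scoped MatrixGroups ModularForm Manifold ENNReal Classical Topology

noncomputable section

namespace Pool.Agent.HoloQUE

open XMainB

theorem prf_FinB (h1 : S_TubeP) (h2 : S_AmpP) (h3 : S_Lim) (h4 : S_BrA) (h5 : S_BrB)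
    (h6 : S_BrCP) (h7 : S_BrD) (h8 : S_Incl) : FinalB := by
  intro N₀
  obtain ⟨C, hC, hT⟩ := h1 N₀
  refine ⟨C * 2 ^ (1 / 100 : ℝ), by positivity, fun Q P hQ => ?_⟩
  have hO : QOrder Q.O := h4 Q
  have hG : ∀ p ∈ P, Good Q.O p := fun p hp =>
    h5 Q p (hQ.2 p hp).1 (hQ.2 p hp).2.1 (hQ.2 p hp).2.2
  have hamp : ∀ (k : ℕ) (f : ℍ → ℂ), HeckeP Q P k f →
      AmpP Q.O P fun z => ‖f z‖ * z.im ^ (((k : ℤ) : ℝ) / 2) := by
    intro k f hf
    obtain ⟨hi, he⟩ := h6 Q P k f hO hf.even hf.form (fun p hp => (hQ.2 p hp).1) hf.eigen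
    exact h2 Q.O P (k : ℤ) f hO hG hf.form.1 hi he
  have key : ∀ (k : ℕ) (f : ℍ → ℂ), HeckeP Q P k f → ∀ (a b c : ℝ) (z₀ : ℍ) (r : ℝ),
      0 < b ^ 2 - 4 * a * c → 0 < r → r ≤ 1 →
      mu k f (U a b c r z₀) ≤ ENNReal.ofReal (C * 2 ^ (1 / 100 : ℝ) * r ^ (1 / 100 : ℝ)) := by
    intro k f hf a b c z₀ r habc hr hr1
    obtain ⟨D, hD, hD1⟩ := hf.norm
    obtain ⟨h, hh⟩ := h8 a b c r z₀ habc hr hr1
    have e : C * 2 ^ (1 / 100 : ℝ) * r ^ (1 / 100 : ℝ) = C * (2 * r) ^ (1 / 100 : ℝ) := by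
      rw [Real.mul_rpow (by norm_num) hr.le, mul_assoc]
    rw [e, mu_eq_ms]
    refine le_trans (ms_mono _ (B := {z | h⁻¹ • z ∈ B0 (2 * r)}) ?_)
      (hT Q.O P _ D hO hG hQ.1 (hamp k f hf) (h7 Q D hD) ?_ h (2 * r) (by linarith)
        (by linarith))
    · intro z hz
      exact hh ⟨hz.1.le, hz.2⟩
    · rw [← mu_eq_ms]
      exact hD1
  refine ⟨key, ?_⟩
  intro k f ν hf hν a b c habc
  have hlim : ∀ (z₀ : ℍ) (r : ℝ), 0 < r → r ≤ 1 →
      ν (U a b c r z₀) ≤ ENNReal.ofReal (C * 2 ^ (1 / 100 : ℝ) * r ^ (1 / 100 : ℝ)) := by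
    intro z₀ r hr hr1
    exact h3 (fun j => mu (k j) (f j)) ν (fun j => fin_mu (hamp (k j) (f j) (hf j)).cont)
      hν.1 hν.2 _ _ (open_U a b c r z₀) (bdd_U a b c r z₀) (by positivity)
      (fun j => key (k j) (f j) (hf j) a b c z₀ r habc hr hr1)
  apply measure_null_of_locally_null
  intro z₀ hz₀
  refine ⟨geod a b c ∩ Metric.ball z₀ 1,
    inter_mem_nhdsWithin _ (Metric.ball_mem_nhds z₀ one_pos), ?_⟩
  have hle : ∀ n : ℕ, ν (geod a b c ∩ Metric.ball z₀ 1) ≤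
      ENNReal.ofReal (C * 2 ^ (1 / 100 : ℝ) * (1 / ((n : ℝ) + 1)) ^ (1 / 100 : ℝ)) := by
    intro n
    have hn : (0 : ℝ) < 1 / ((n : ℝ) + 1) := by positivity
    have hn1 : 1 / ((n : ℝ) + 1) ≤ 1 := by
      rw [div_le_one (by positivity)]
      linarith [(Nat.cast_nonneg n : (0 : ℝ) ≤ n)]
    refine le_trans (measure_mono ?_) (hlim z₀ _ hn hn1)
    rintro z ⟨hz, hz1⟩
    exact ⟨hz1, z, hz, by rw [dist_self]; exact hn⟩
  have ht : Filter.Tendsto (fun n : ℕ =>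
      ENNReal.ofReal (C * 2 ^ (1 / 100 : ℝ) * (1 / ((n : ℝ) + 1)) ^ (1 / 100 : ℝ)))
      Filter.atTop (𝓝 0) := by
    have h9 : Filter.Tendsto (fun n : ℕ => 1 / ((n : ℝ) + 1)) Filter.atTop (𝓝 0) :=
      tendsto_one_div_add_atTop_nhds_zero_nat
    have h10 : Filter.Tendsto (fun n : ℕ => (1 / ((n : ℝ) + 1)) ^ (1 / 100 : ℝ))
        Filter.atTop (𝓝 0) := by
      have h11 := h9.rpow_const (p := (1 / 100 : ℝ)) (Or.inr (by norm_num))
      rwa [Real.zero_rpow (by norm_num)] at h11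
    have h12 := h10.const_mul (C * 2 ^ (1 / 100 : ℝ))
    rw [mul_zero] at h12
    have h13 := (ENNReal.continuous_ofReal.tendsto 0).comp h12
    rw [ENNReal.ofReal_zero] at h13
    exact h13
  exact nonpos_iff_eq_zero.1 (ge_of_tendsto' ht hle)

end Pool.Agent.HoloQUE
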