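import Pool.Agent.Work.MP_d2a4bb_nt.NC.Basic

/-!
# Item GT
-/

set_option autoImplicit false

open MeasureTheory UpperHalfPlane Matrix
open scoped MatrixGroups ModularForm Manifold ENNReal Classical

noncomputable section

namespace Pool.Agent.HoloQUE

namespace XGT

theorem cosh_ge (x : ℝ) (hx : 0 ≤ x) : x ^ 2 / 2 ≤ Real.cosh x - 1 := by
  have h1 : x / 2 ≤ Real.sinh (x / 2) := Real.self_le_sinh_iff.2 (by positivity)
  have h2 : Real.cosh x = Real.cosh (x / 2) ^ 2 + Real.sinh (x / 2) ^ 2 := by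
    rw [← Real.cosh_two_mul]
    congr 1
    ring
  have h3 := Real.cosh_sq (x / 2)
  have h4 : (x / 2) ^ 2 ≤ Real.sinh (x / 2) ^ 2 := by
    apply pow_le_pow_left₀ (by positivity) h1
  nlinarith

theorem dist_sq (z w : ℍ) :
    dist (z : ℂ) (w : ℂ) ^ 2 = (z.re - w.re) ^ 2 + (z.im - w.im) ^ 2 := by
  rw [dist_eq_norm, Complex.sq_norm, Complex.normSq_apply]
  simp
  ring

theorem coshd (z w : ℍ) : 2 * z.im * w.im * (Real.cosh (dist z w) - 1) =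
    (z.re - w.re) ^ 2 + (z.im - w.im) ^ 2 := by
  have hz := z.im_pos
  have hw := w.im_pos
  rw [UpperHalfPlane.cosh_dist, dist_sq]
  field_simp
  ring

theorem near (z : ℍ) (h : dist z I ≤ 4) :
    z.re ^ 2 + z.im ^ 2 + 1 ≤ 2 * Real.cosh 4 * z.im := by
  have h1 := coshd z I
  have h2 : Real.cosh (dist z I) ≤ Real.cosh 4 := by
    rw [Real.cosh_le_cosh, abs_of_nonneg dist_nonneg]
    rw [abs_of_nonneg (by norm_num : (0 : ℝ) ≤ 4)]
    exact h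
  have hz := z.im_pos
  rw [I_re, I_im] at h1
  nlinarith [mul_le_mul_of_nonneg_left h2 hz.le]

theorem re_smul (g : G2) (z : ℍ) (hg : 0 < (g : Mat).det) (r : ℝ)
    (h : |(g • z).re| ≤ r * (g • z).im) :
    |(g : Mat) 0 0 * (g : Mat) 1 0 * (z.re ^ 2 + z.im ^ 2) +
      ((g : Mat) 0 0 * (g : Mat) 1 1 + (g : Mat) 0 1 * (g : Mat) 1 0) * z.re +
      (g : Mat) 0 1 * (g : Mat) 1 1| ≤ r * ((g : Mat).det * z.im) := by
  have hd : (0 : ℝ) < ((GeneralLinearGroup.det g : ℝˣ) : ℝ) := by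
    simpa using hg
  have h1 := UpperHalfPlane.coe_smul_of_det_pos hd z
  have h2 := UpperHalfPlane.im_smul_eq_div_normSq g z
  have hne : denom g (z : ℂ) ≠ 0 := UpperHalfPlane.denom_ne_zero g z
  have hN : 0 < Complex.normSq (denom g (z : ℂ)) := Complex.normSq_pos.2 hne
  have h3 : (g • z).re * Complex.normSq (denom g (z : ℂ)) =
      (g : Mat) 0 0 * (g : Mat) 1 0 * (z.re ^ 2 + z.im ^ 2) +
      ((g : Mat) 0 0 * (g : Mat) 1 1 + (g : Mat) 0 1 * (g : Mat) 1 0) * z.re +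
      (g : Mat) 0 1 * (g : Mat) 1 1 := by
    have h4 : (g • z).re = ((g • z : ℍ) : ℂ).re := rfl
    rw [h4, h1, Complex.div_re, add_mul, div_mul_cancel₀ _ hN.ne', div_mul_cancel₀ _ hN.ne']
    simp [num, denom]
    ring
  have h5 : (g • z).im * Complex.normSq (denom g (z : ℂ)) = (g : Mat).det * z.im := by
    rw [h2, div_mul_cancel₀ _ hN.ne', abs_of_pos hd]
    simp
  rw [← h3, abs_mul, abs_of_pos hN, ← h5, ← mul_assoc]
  exact mul_le_mul_of_nonneg_right h hN.le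

/-- The real core: normalised entries. -/
theorem core (a b c d E M r ρ : ℝ) (x₁ y₁ x₂ y₂ : ℝ) (hE : 2 ≤ E) (hM : 2 ≤ M) (hr : 0 < r)
    (hr2 : r ≤ 2) (hρ : 0 < ρ) (hρ8 : ρ ≤ 8) (hdet : a * d - b * c = 1)
    (hsum : a ^ 2 + b ^ 2 + c ^ 2 + d ^ 2 ≤ E) (hy₁ : 0 < y₁) (hy₂ : 0 < y₂)
    (n₁ : x₁ ^ 2 + y₁ ^ 2 + 1 ≤ M * y₁) (n₂ : x₂ ^ 2 + y₂ ^ 2 + 1 ≤ M * y₂)
    (m₁ : |x₁| ≤ r * y₁) (m₂ : |x₂| ≤ r * y₂)
    (k₁ : |a * c * (x₁ ^ 2 + y₁ ^ 2) + (a * d + b * c) * x₁ + b * d| ≤ r * y₁)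
    (k₂ : |a * c * (x₂ ^ 2 + y₂ ^ 2) + (a * d + b * c) * x₂ + b * d| ≤ r * y₂)
    (hd : ρ ^ 2 * (y₁ * y₂) ≤ (x₁ - x₂) ^ 2 + (y₁ - y₂) ^ 2)
    (hbig : 4 * M ^ 4 * r ≤ ρ) :
    (|b| ≤ 2 * E * ((8 + 4 * M ^ 4) * (M * (1 + E))) * r / ρ ∧
      |c| ≤ 2 * E * ((8 + 4 * M ^ 4) * (M * (1 + E))) * r / ρ) ∨
    (|a| ≤ 2 * E * ((8 + 4 * M ^ 4) * (M * (1 + E))) * r / ρ ∧
      |d| ≤ 2 * E * ((8 + 4 * M ^ 4) * (M * (1 + E))) * r / ρ) := by
  have hM0 : 0 < M := by linarith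
  have hE0 : 0 < E := by linarith
  have hy₁M : y₁ ≤ M := by
    have : y₁ * y₁ ≤ M * y₁ := by nlinarith [sq_nonneg x₁]
    exact le_of_mul_le_mul_right this hy₁
  have hy₂M : y₂ ≤ M := by
    have : y₂ * y₂ ≤ M * y₂ := by nlinarith [sq_nonneg x₂]
    exact le_of_mul_le_mul_right this hy₂
  have hM₁ : 1 ≤ M * y₁ := by nlinarith [sq_nonneg x₁, sq_nonneg y₁]
  have hM₂ : 1 ≤ M * y₂ := by nlinarith [sq_nonneg x₂, sq_nonneg y₂]
  have hs : |a * d + b * c| ≤ E := by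
    rw [abs_le]
    constructor
    · nlinarith [sq_nonneg (a + d), sq_nonneg (b + c)]
    · nlinarith [sq_nonneg (a - d), sq_nonneg (b - c)]
  -- the two inequalities
  have q₁ : |a * c * (x₁ ^ 2 + y₁ ^ 2) + b * d| ≤ M * (1 + E) * r := by
    have e : a * c * (x₁ ^ 2 + y₁ ^ 2) + b * d =
      (a * c * (x₁ ^ 2 + y₁ ^ 2) + (a * d + b * c) * x₁ + b * d) - (a * d + b * c) * x₁ := by ring
    rw [e]
    refine (abs_sub _ _).trans ?_
    rw [abs_mul]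
    have h1 : |a * d + b * c| * |x₁| ≤ E * (r * y₁) :=
      mul_le_mul hs m₁ (abs_nonneg _) hE0.le
    have h2 : r * y₁ ≤ r * M := mul_le_mul_of_nonneg_left hy₁M hr.le
    nlinarith [mul_le_mul_of_nonneg_left h2 hE0.le]
  have q₂ : |a * c * (x₂ ^ 2 + y₂ ^ 2) + b * d| ≤ M * (1 + E) * r := by
    have e : a * c * (x₂ ^ 2 + y₂ ^ 2) + b * d =
      (a * c * (x₂ ^ 2 + y₂ ^ 2) + (a * d + b * c) * x₂ + b * d) - (a * d + b * c) * x₂ := by ring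
    rw [e]
    refine (abs_sub _ _).trans ?_
    rw [abs_mul]
    have h1 : |a * d + b * c| * |x₂| ≤ E * (r * y₂) :=
      mul_le_mul hs m₂ (abs_nonneg _) hE0.le
    have h2 : r * y₂ ≤ r * M := mul_le_mul_of_nonneg_left hy₂M hr.le
    nlinarith [mul_le_mul_of_nonneg_left h2 hE0.le]
  -- separation of the moduli
  have hM4 : (16 : ℝ) ≤ M ^ 4 := by
    have : (2 : ℝ) ^ 4 ≤ M ^ 4 := pow_le_pow_left₀ (by norm_num) hM 4
    linarith
  have u₁ : |x₁| ≤ r * M := m₁.trans (mul_le_mul_of_nonneg_left hy₁M hr.le)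
  have u₂ : |x₂| ≤ r * M := m₂.trans (mul_le_mul_of_nonneg_left hy₂M hr.le)
  have v₁ : x₁ ^ 2 ≤ (r * M) ^ 2 := sq_le_sq' (by linarith [(abs_le.1 u₁).1]) (abs_le.1 u₁).2
  have v₂ : x₂ ^ 2 ≤ (r * M) ^ 2 := sq_le_sq' (by linarith [(abs_le.1 u₂).1]) (abs_le.1 u₂).2
  have w : (x₁ - x₂) ^ 2 ≤ 4 * (r * M) ^ 2 := by nlinarith [sq_nonneg (x₁ + x₂)]
  have hyy : 1 ≤ M ^ 2 * (y₁ * y₂) := by
    have : 1 * 1 ≤ (M * y₁) * (M * y₂) := mul_le_mul hM₁ hM₂ (by norm_num) (by positivity)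
    have e : (M * y₁) * (M * y₂) = M ^ 2 * (y₁ * y₂) := by ring
    linarith
  have hrM : (4 * M ^ 4 * r) ^ 2 ≤ ρ ^ 2 := pow_le_pow_left₀ (by positivity) hbig 2
  have hrM2 : M ^ 2 * (4 * (r * M) ^ 2) ≤ ρ ^ 2 / 4 := by
    have e : (4 * M ^ 4 * r) ^ 2 = 16 * (M ^ 4 * M ^ 4) * r ^ 2 := by ring
    have h3 : M ^ 4 * 1 ≤ M ^ 4 * M ^ 4 :=
      mul_le_mul_of_nonneg_left (by linarith) (by positivity)
    have h4 : M ^ 4 * r ^ 2 ≤ M ^ 4 * M ^ 4 * r ^ 2 := by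
      have := mul_le_mul_of_nonneg_right h3 (sq_nonneg r)
      linarith
    have e2 : M ^ 2 * (4 * (r * M) ^ 2) = 4 * (M ^ 4 * r ^ 2) := by ring
    rw [e2]
    rw [e] at hrM
    linarith
  have hdy : (3 / 4 * ρ) ^ 2 ≤ (M * (y₁ - y₂)) ^ 2 := by
    have h3 : ρ ^ 2 ≤ ρ ^ 2 * (M ^ 2 * (y₁ * y₂)) := by
      have := mul_le_mul_of_nonneg_left hyy (sq_nonneg ρ)
      linarith
    have h4 : M ^ 2 * (ρ ^ 2 * (y₁ * y₂)) ≤ M ^ 2 * ((x₁ - x₂) ^ 2 + (y₁ - y₂) ^ 2) :=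
      mul_le_mul_of_nonneg_left hd (sq_nonneg M)
    have h5 : M ^ 2 * (x₁ - x₂) ^ 2 ≤ M ^ 2 * (4 * (r * M) ^ 2) :=
      mul_le_mul_of_nonneg_left w (sq_nonneg M)
    have e1 : (M * (y₁ - y₂)) ^ 2 = M ^ 2 * ((x₁ - x₂) ^ 2 + (y₁ - y₂) ^ 2) -
      M ^ 2 * (x₁ - x₂) ^ 2 := by ring
    have e2 : ρ ^ 2 * (M ^ 2 * (y₁ * y₂)) = M ^ 2 * (ρ ^ 2 * (y₁ * y₂)) := by ring
    have e3 : (3 / 4 * ρ) ^ 2 = 9 / 16 * ρ ^ 2 := by ring
    rw [e1, e3]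
    rw [e2] at h3
    linarith [sq_nonneg ρ]
  have hdy' : 3 / 4 * ρ ≤ |M * (y₁ - y₂)| := by
    have := Real.sqrt_le_sqrt hdy
    rwa [Real.sqrt_sq (by positivity), Real.sqrt_sq_eq_abs] at this
  have hsumy : 2 ≤ M * (y₁ + y₂) := by linarith
  have hsq : 3 / 2 * ρ ≤ |M ^ 2 * (y₁ ^ 2 - y₂ ^ 2)| := by
    have e : M ^ 2 * (y₁ ^ 2 - y₂ ^ 2) = (M * (y₁ - y₂)) * (M * (y₁ + y₂)) := by ring
    rw [e, abs_mul, abs_of_pos (by linarith : (0 : ℝ) < M * (y₁ + y₂))]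
    have := mul_le_mul hdy' hsumy (by norm_num) (abs_nonneg _)
    linarith
  have hx2 : |M ^ 2 * (x₁ ^ 2 - x₂ ^ 2)| ≤ ρ / 2 := by
    have h3 : M ^ 2 * (r * M) ^ 2 ≤ ρ / 2 := by
      have e : M ^ 2 * (r * M) ^ 2 = (M ^ 4 * r) * r := by ring
      rw [e]
      have h4 : M ^ 4 * r * r ≤ M ^ 4 * r * 2 := mul_le_mul_of_nonneg_left hr2 (by positivity)
      linarith
    have h5 := mul_le_mul_of_nonneg_left v₁ (sq_nonneg M)
    have h6 := mul_le_mul_of_nonneg_left v₂ (sq_nonneg M)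
    rw [abs_le]
    constructor
    · have := mul_nonneg (sq_nonneg M) (sq_nonneg x₁)
      linarith
    · have := mul_nonneg (sq_nonneg M) (sq_nonneg x₂)
      linarith
  have hPQ : ρ ≤ M ^ 2 * |(x₁ ^ 2 + y₁ ^ 2) - (x₂ ^ 2 + y₂ ^ 2)| := by
    have e : M ^ 2 * (y₁ ^ 2 - y₂ ^ 2) = M ^ 2 * ((x₁ ^ 2 + y₁ ^ 2) - (x₂ ^ 2 + y₂ ^ 2)) -
      M ^ 2 * (x₁ ^ 2 - x₂ ^ 2) := by ring
    rw [e] at hsq
    have h3 := abs_sub (M ^ 2 * ((x₁ ^ 2 + y₁ ^ 2) - (x₂ ^ 2 + y₂ ^ 2)))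
      (M ^ 2 * (x₁ ^ 2 - x₂ ^ 2))
    rw [abs_mul (M ^ 2) ((x₁ ^ 2 + y₁ ^ 2) - (x₂ ^ 2 + y₂ ^ 2)),
      abs_of_nonneg (sq_nonneg M)] at h3
    linarith
  have hac : |a * c| * ρ ≤ 2 * M ^ 3 * (1 + E) * r := by
    have h3 : |a * c| * |(x₁ ^ 2 + y₁ ^ 2) - (x₂ ^ 2 + y₂ ^ 2)| ≤ 2 * (M * (1 + E) * r) := by
      rw [← abs_mul]
      have e : a * c * ((x₁ ^ 2 + y₁ ^ 2) - (x₂ ^ 2 + y₂ ^ 2)) =
        (a * c * (x₁ ^ 2 + y₁ ^ 2) + b * d) - (a * c * (x₂ ^ 2 + y₂ ^ 2) + b * d) := by ring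
      rw [e]
      refine (abs_sub _ _).trans ?_
      linarith
    have h4 := mul_le_mul_of_nonneg_left hPQ (abs_nonneg (a * c))
    have h5 := mul_le_mul_of_nonneg_left h3 (sq_nonneg M)
    have e1 : |a * c| * (M ^ 2 * |(x₁ ^ 2 + y₁ ^ 2) - (x₂ ^ 2 + y₂ ^ 2)|) =
      M ^ 2 * (|a * c| * |(x₁ ^ 2 + y₁ ^ 2) - (x₂ ^ 2 + y₂ ^ 2)|) := by ring
    have e2 : M ^ 2 * (2 * (M * (1 + E) * r)) = 2 * M ^ 3 * (1 + E) * r := by ring
    linarith
  have hP : x₁ ^ 2 + y₁ ^ 2 ≤ M ^ 2 := by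
    have := mul_le_mul_of_nonneg_left hy₁M hM0.le
    linarith [sq M]
  have hbd : |b * d| * ρ ≤ M * (1 + E) * (8 + 2 * M ^ 4) * r := by
    have h3 : |b * d| ≤ M * (1 + E) * r + |a * c| * M ^ 2 := by
      have e : b * d = (a * c * (x₁ ^ 2 + y₁ ^ 2) + b * d) - a * c * (x₁ ^ 2 + y₁ ^ 2) := by ring
      rw [e]
      refine (abs_sub _ _).trans ?_
      rw [abs_mul (a * c), abs_of_nonneg (by positivity : (0 : ℝ) ≤ x₁ ^ 2 + y₁ ^ 2)]
      have := mul_le_mul_of_nonneg_left hP (abs_nonneg (a * c))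
      linarith
    have h4 := mul_le_mul_of_nonneg_right h3 hρ.le
    have h5 : M * (1 + E) * r * ρ ≤ M * (1 + E) * r * 8 :=
      mul_le_mul_of_nonneg_left hρ8 (by positivity)
    have h6 := mul_le_mul_of_nonneg_left hac (sq_nonneg M)
    have e1 : M ^ 2 * (2 * M ^ 3 * (1 + E) * r) = M * (1 + E) * (2 * M ^ 4) * r := by ring
    linarith
  set K : ℝ := (8 + 4 * M ^ 4) * (M * (1 + E)) with hK
  have hac' : |a * c| * ρ ≤ K * r := by
    refine hac.trans (mul_le_mul_of_nonneg_right ?_ hr.le)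
    rw [hK]
    have h3 : M ^ 2 ≤ M ^ 4 := pow_le_pow_right₀ (by linarith) (by norm_num)
    have h4 : 2 * M ^ 2 ≤ 8 + 4 * M ^ 4 := by linarith
    have h5 := mul_le_mul_of_nonneg_right h4 (by positivity : (0 : ℝ) ≤ M * (1 + E))
    have e1 : 2 * M ^ 2 * (M * (1 + E)) = 2 * M ^ 3 * (1 + E) := by ring
    linarith
  have hbd' : |b * d| * ρ ≤ K * r := by
    refine hbd.trans (mul_le_mul_of_nonneg_right ?_ hr.le)
    rw [hK]
    have h4 : 8 + 2 * M ^ 4 ≤ 8 + 4 * M ^ 4 := by linarith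
    have h5 := mul_le_mul_of_nonneg_right h4 (by positivity : (0 : ℝ) ≤ M * (1 + E))
    have e1 : (8 + 2 * M ^ 4) * (M * (1 + E)) = M * (1 + E) * (8 + 2 * M ^ 4) := by ring
    linarith
  have hEn : ∀ t : ℝ, t ^ 2 ≤ E → |t| ≤ E := by
    intro t ht
    apply abs_le_of_sq_le_sq _ hE0.le
    have : E * 1 ≤ E * E := mul_le_mul_of_nonneg_left (by linarith) hE0.le
    linarith [sq E]
  have ha : |a| ≤ E := hEn a (by linarith [sq_nonneg b, sq_nonneg c, sq_nonneg d])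
  have hb : |b| ≤ E := hEn b (by linarith [sq_nonneg a, sq_nonneg c, sq_nonneg d])
  have hc : |c| ≤ E := hEn c (by linarith [sq_nonneg b, sq_nonneg a, sq_nonneg d])
  have hd' : |d| ≤ E := hEn d (by linarith [sq_nonneg b, sq_nonneg c, sq_nonneg a])
  have fin : ∀ s t : ℝ, |s * t| * ρ ≤ K * r → 1 ≤ 2 * E * |s| → |t| ≤ 2 * E * K * r / ρ := by
    intro s t h3 h4
    rw [le_div_iff₀ hρ]
    rw [abs_mul] at h3
    have h5 : |t| * ρ * 1 ≤ |t| * ρ * (2 * E * |s|) :=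
      mul_le_mul_of_nonneg_left h4 (by positivity)
    have h6 := mul_le_mul_of_nonneg_left h3 (by positivity : (0 : ℝ) ≤ 2 * E)
    linarith
  have hbig2 : ∀ s t : ℝ, 1 / 2 ≤ |s * t| → |t| ≤ E → 1 ≤ 2 * E * |s| := by
    intro s t h3 h4
    rw [abs_mul] at h3
    have := mul_le_mul_of_nonneg_left h4 (abs_nonneg s)
    linarith
  rcases le_or_gt (1 / 2) |a * d| with hcase | hcase
  · left
    constructor
    · exact fin d b (by rw [mul_comm d b]; exact hbd')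
        (hbig2 d a (by rw [mul_comm d a]; exact hcase) ha)
    · exact fin a c hac' (hbig2 a d hcase hd')
  · right
    have hbc : 1 / 2 ≤ |b * c| := by
      have e : b * c = a * d - 1 := by linarith
      rw [e]
      have h3 := (abs_lt.1 hcase).2
      rw [abs_of_nonpos (by linarith)]
      linarith
    constructor
    · exact fin c a (by rw [mul_comm c a]; exact hac')
        (hbig2 c b (by rw [mul_comm c b]; exact hbc) hb)
    · exact fin b d hbd' (hbig2 b c hbc hc)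

end XGT

open XGT in
theorem prf_GT (h1 : S_Iso) (h2 : S_Geo) : S_GT := by
  set E : ℝ := 2 * Real.cosh 8 with hE
  set M : ℝ := 2 * Real.cosh 4 with hM
  have hE2 : 2 ≤ E := by linarith [Real.one_le_cosh 8]
  have hM2 : 2 ≤ M := by linarith [Real.one_le_cosh 4]
  have hE0 : 0 < E := by linarith
  have hM0 : 0 < M := by linarith
  set K : ℝ := 2 * E * ((8 + 4 * M ^ 4) * (M * (1 + E))) with hK
  have hK0 : 0 < K := by positivity
  refine ⟨K + 4 * M ^ 4 * E, by positivity, ?_⟩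
  intro r ρ g z₁ z₂ hr hr2 hρ hg hz₁ hz₂ hw₁ hw₂ hdist
  -- `g` moves `i` by at most `8`
  have h8 : dist (g • I) I ≤ 8 := by
    have h3 : dist (g • I) (g • z₁) = dist I z₁ := h1 g I z₁
    have h4 := dist_triangle (g • I) (g • z₁) I
    have h5 := hz₁.1
    have h6 := hw₁.1
    rw [dist_comm I z₁] at h3
    linarith
  have hSb : g ∈ Sb I 8 := ⟨hg, h8⟩
  set s : ℝ := √(g : Mat).det with hs
  have hs0 : 0 < s := Real.sqrt_pos.2 hg
  have hs2 : s ^ 2 = (g : Mat).det := Real.sq_sqrt hg.le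
  obtain ⟨a, ha⟩ : ∃ a, a = (g : Mat) 0 0 / s := ⟨_, rfl⟩
  obtain ⟨b, hb⟩ : ∃ b, b = (g : Mat) 0 1 / s := ⟨_, rfl⟩
  obtain ⟨c, hc⟩ : ∃ c, c = (g : Mat) 1 0 / s := ⟨_, rfl⟩
  obtain ⟨d, hd⟩ : ∃ d, d = (g : Mat) 1 1 / s := ⟨_, rfl⟩
  have ea : (g : Mat) 0 0 = a * s := by rw [ha, div_mul_cancel₀ _ hs0.ne']
  have eb : (g : Mat) 0 1 = b * s := by rw [hb, div_mul_cancel₀ _ hs0.ne']
  have ec : (g : Mat) 1 0 = c * s := by rw [hc, div_mul_cancel₀ _ hs0.ne']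
  have ed : (g : Mat) 1 1 = d * s := by rw [hd, div_mul_cancel₀ _ hs0.ne']
  have hdet : a * d - b * c = 1 := by
    have h3 : (g : Mat).det = (g : Mat) 0 0 * (g : Mat) 1 1 - (g : Mat) 0 1 * (g : Mat) 1 0 :=
      Matrix.det_fin_two _
    rw [← hs2, ea, eb, ec, ed] at h3
    have h4 : s ^ 2 * (a * d - b * c) = s ^ 2 * 1 := by linarith
    exact mul_left_cancel₀ (by positivity) h4
  have hsum : a ^ 2 + b ^ 2 + c ^ 2 + d ^ 2 ≤ E := by
    obtain ⟨g1, g2⟩ := h2 g hg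
    rw [ea, eb, ec, ed, ← hs2] at g1 g2
    have hch : Real.cosh (dist (g • I) I) ≤ Real.cosh 8 := by
      rw [Real.cosh_le_cosh, abs_of_nonneg dist_nonneg,
        abs_of_nonneg (by norm_num : (0 : ℝ) ≤ 8)]
      exact h8
    have h3 : s ^ 2 * (a ^ 2 + b ^ 2 + c ^ 2 + d ^ 2) ≤ s ^ 2 * E := by
      have := mul_le_mul_of_nonneg_left hch (sq_nonneg s)
      rw [hE]
      linarith
    exact le_of_mul_le_mul_left h3 (by positivity)
  have mem_p : ∀ κ : ℝ, |b| ≤ κ → |c| ≤ κ → g ∈ Sp κ := by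
    intro κ h3 h4
    refine ⟨hSb, ?_, ?_⟩
    · rw [eb, abs_mul, abs_of_pos hs0]
      exact mul_le_mul_of_nonneg_right h3 hs0.le
    · rw [ec, abs_mul, abs_of_pos hs0]
      exact mul_le_mul_of_nonneg_right h4 hs0.le
  have mem_m : ∀ κ : ℝ, |a| ≤ κ → |d| ≤ κ → g ∈ Sm κ := by
    intro κ h3 h4
    refine ⟨hSb, ?_, ?_⟩
    · rw [ea, abs_mul, abs_of_pos hs0]
      exact mul_le_mul_of_nonneg_right h3 hs0.le
    · rw [ed, abs_mul, abs_of_pos hs0]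
      exact mul_le_mul_of_nonneg_right h4 hs0.le
  have hrρ : 0 < r / ρ := by positivity
  rcases le_or_gt (4 * M ^ 4 * r) ρ with hbig | hsmall
  · have hρ8 : ρ ≤ 8 := by
      have h3 := dist_triangle z₁ I z₂
      rw [dist_comm I z₂] at h3
      linarith [hz₁.1, hz₂.1]
    have k : ∀ z : ℍ, |(g • z).re| ≤ r * (g • z).im →
        |a * c * (z.re ^ 2 + z.im ^ 2) + (a * d + b * c) * z.re + b * d| ≤ r * z.im := by
      intro z hz
      have h3 := re_smul g z hg r hz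
      rw [ea, eb, ec, ed, ← hs2] at h3
      have e1 : a * s * (c * s) * (z.re ^ 2 + z.im ^ 2) +
          (a * s * (d * s) + b * s * (c * s)) * z.re + b * s * (d * s) =
          s ^ 2 * (a * c * (z.re ^ 2 + z.im ^ 2) + (a * d + b * c) * z.re + b * d) := by ring
      have e2 : r * (s ^ 2 * z.im) = s ^ 2 * (r * z.im) := by ring
      rw [e1, e2, abs_mul, abs_of_nonneg (sq_nonneg s)] at h3
      exact le_of_mul_le_mul_left h3 (by positivity)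
    have hdd : ρ ^ 2 * (z₁.im * z₂.im) ≤ (z₁.re - z₂.re) ^ 2 + (z₁.im - z₂.im) ^ 2 := by
      rw [← coshd]
      have h3 := cosh_ge (dist z₁ z₂) dist_nonneg
      have h4 : ρ ^ 2 ≤ dist z₁ z₂ ^ 2 := pow_le_pow_left₀ hρ.le hdist 2
      have h5 : 0 < z₁.im * z₂.im := mul_pos z₁.im_pos z₂.im_pos
      have h6 := mul_le_mul_of_nonneg_left (h4.trans (by linarith :
        dist z₁ z₂ ^ 2 ≤ 2 * (Real.cosh (dist z₁ z₂) - 1))) h5.le
      linarith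
    have hmono : K * r / ρ ≤ (K + 4 * M ^ 4 * E) * r / ρ := by
      apply div_le_div_of_nonneg_right _ hρ.le
      apply mul_le_mul_of_nonneg_right _ hr.le
      have : 0 ≤ 4 * M ^ 4 * E := by positivity
      linarith
    rcases core a b c d E M r ρ z₁.re z₁.im z₂.re z₂.im hE2 hM2 hr hr2 hρ hρ8 hdet hsum
      z₁.im_pos z₂.im_pos (near z₁ hz₁.1) (near z₂ hz₂.1) hz₁.2 hz₂.2 (k z₁ hw₁.2)
      (k z₂ hw₂.2) hdd hbig with ⟨h3, h4⟩ | ⟨h3, h4⟩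
    · exact Or.inl (mem_p _ (h3.trans hmono) (h4.trans hmono))
    · exact Or.inr (mem_m _ (h3.trans hmono) (h4.trans hmono))
  · left
    have hEκ : E ≤ (K + 4 * M ^ 4 * E) * r / ρ := by
      rw [le_div_iff₀ hρ]
      have h3 := mul_le_mul_of_nonneg_left hsmall.le hE0.le
      have h4 : 0 < K * r := mul_pos hK0 hr
      linarith
    have hEn : ∀ t : ℝ, t ^ 2 ≤ E → |t| ≤ E := by
      intro t ht
      apply abs_le_of_sq_le_sq _ hE0.le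
      have : E * 1 ≤ E * E := mul_le_mul_of_nonneg_left (by linarith) hE0.le
      linarith [sq E]
    refine mem_p _ ((hEn b ?_).trans hEκ) ((hEn c ?_).trans hEκ)
    · linarith [sq_nonneg a, sq_nonneg c, sq_nonneg d]
    · linarith [sq_nonneg a, sq_nonneg b, sq_nonneg d]

end Pool.Agent.HoloQUE
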