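import Mathlib
import Pool.Agent.Work.MP_d2a4bb_nt.NC.Basic

/-!
# Item Geo: the displacement of `i`
-/

set_option autoImplicit false

open MeasureTheory UpperHalfPlane Matrix
open scoped MatrixGroups ModularForm Manifold ENNReal Classical

noncomputable section

namespace Pool.Agent.HoloQUE

namespace XGeo

/-- the displacement of `i` -/
theorem cosh_eq (g : G2) (hg : 0 < (g : Mat).det) :
    2 * (g : Mat).det * Real.cosh (dist (g • I) I) =
      (g : Mat) 0 0 ^ 2 + (g : Mat) 0 1 ^ 2 + (g : Mat) 1 0 ^ 2 + (g : Mat) 1 1 ^ 2 := by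
  have hg' : 0 < g.det.val := hg
  have hdet : (g : Mat).det = (g : Mat) 0 0 * (g : Mat) 1 1 - (g : Mat) 0 1 * (g : Mat) 1 0 :=
    Matrix.det_fin_two _
  have hN : 0 < (g : Mat) 1 0 ^ 2 + (g : Mat) 1 1 ^ 2 := by
    by_contra h
    have h1 : (g : Mat) 1 0 ^ 2 + (g : Mat) 1 1 ^ 2 ≤ 0 := not_lt.1 h
    have h2 : (g : Mat) 1 0 = 0 := by nlinarith [sq_nonneg ((g : Mat) 1 0), sq_nonneg ((g : Mat) 1 1)]
    have h3 : (g : Mat) 1 1 = 0 := by nlinarith [sq_nonneg ((g : Mat) 1 0), sq_nonneg ((g : Mat) 1 1)]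
    rw [hdet, h2, h3] at hg
    simp at hg
  have hden : Complex.normSq (denom g I) = (g : Mat) 1 0 ^ 2 + (g : Mat) 1 1 ^ 2 := by
    simp [denom, Complex.normSq_apply]
    ring
  have him : (g • I).im = (g : Mat).det / ((g : Mat) 1 0 ^ 2 + (g : Mat) 1 1 ^ 2) := by
    rw [UpperHalfPlane.im_smul_eq_div_normSq, hden, abs_of_pos hg']
    simp
  have hre : (g • I).re = ((g : Mat) 0 0 * (g : Mat) 1 0 + (g : Mat) 0 1 * (g : Mat) 1 1) /
      ((g : Mat) 1 0 ^ 2 + (g : Mat) 1 1 ^ 2) := by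
    have h1 : (g • I).re = ((g • I : ℍ) : ℂ).re := rfl
    rw [h1, UpperHalfPlane.coe_smul_of_det_pos hg', Complex.div_re, hden]
    simp [num, denom]
    field_simp
    ring
  have hI1 : (I : ℍ).im = 1 := UpperHalfPlane.I_im
  have hI2 : (I : ℍ).re = 0 := UpperHalfPlane.I_re
  rw [UpperHalfPlane.cosh_dist', hI1, hI2, him, hre]
  have hd : (g : Mat).det ≠ 0 := hg.ne'
  field_simp
  rw [hdet]
  ring

end XGeo

theorem prf_Geo : S_Geo := by
  intro g hg
  have h := XGeo.cosh_eq g hg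
  have hdet : (g : Mat).det = (g : Mat) 0 0 * (g : Mat) 1 1 - (g : Mat) 0 1 * (g : Mat) 1 0 :=
    Matrix.det_fin_two _
  constructor
  · linear_combination (-1) * h + 2 * hdet
  · linear_combination (-1) * h - 2 * hdet

end Pool.Agent.HoloQUE
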