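import Pool.Agent.Work.MP_d2a4bb_nt.NC.Basic

/-!
# Neighbourhoods of pieces of geodesics (item Incl)
-/

set_option autoImplicit false

open MeasureTheory UpperHalfPlane Matrix
open scoped MatrixGroups ModularForm Manifold ENNReal Classical

noncomputable section

namespace Pool.Agent.HoloQUE

namespace XIncl

theorem exp_le (u : ℝ) (h0 : 0 ≤ u) (h1 : u ≤ 1) : Real.exp u ≤ 1 + 2 * u := by
  have h := convexOn_exp.2 (Set.mem_univ (0 : ℝ)) (Set.mem_univ (1 : ℝ)) (sub_nonneg.2 h1) h0
    (by ring)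
  simp only [smul_eq_mul, mul_zero, mul_one, zero_add, Real.exp_zero] at h
  have h3 : Real.exp 1 < 3 := Real.exp_one_lt_three
  nlinarith

theorem re_le (r : ℝ) (hr0 : 0 < r) (hr : r ≤ 1) (z w : ℍ) (hw : w.re = 0)
    (h : dist z w < r) : |z.re| ≤ 2 * r * z.im := by
  have hc := UpperHalfPlane.cosh_dist z w
  have hzi := z.im_pos
  have hwi := w.im_pos
  have h1 : Real.cosh (dist z w) ≤ Real.cosh r := by
    rw [Real.cosh_le_cosh, abs_of_nonneg dist_nonneg, abs_of_pos hr0]
    exact h.le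
  have h2 : Real.cosh r ≤ Real.exp (r ^ 2 / 2) := Real.cosh_le_exp_half_sq r
  have h0 : 0 < Real.cosh (dist z w) := Real.cosh_pos _
  have h3 : Real.cosh (dist z w) ^ 2 ≤ 1 + 2 * r ^ 2 := by
    have h4 : Real.cosh (dist z w) ^ 2 ≤ Real.exp (r ^ 2 / 2) ^ 2 := by
      have := h1.trans h2
      gcongr
    have h5 : Real.exp (r ^ 2 / 2) ^ 2 = Real.exp (r ^ 2) := by
      rw [← Real.exp_nat_mul]
      congr 1
      push_cast
      ring
    rw [h5] at h4
    exact h4.trans (exp_le _ (by positivity) (by nlinarith))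
  have hd : dist (z : ℂ) (w : ℂ) ^ 2 = z.re ^ 2 + (z.im - w.im) ^ 2 := by
    rw [Complex.dist_eq, Complex.sq_norm, Complex.normSq_apply, Complex.sub_re, Complex.sub_im]
    change (z.re - w.re) * (z.re - w.re) + (z.im - w.im) * (z.im - w.im) = _
    rw [hw]
    ring
  rw [hd] at hc
  set C := Real.cosh (dist z w) with hC
  set x := z.re
  set y := z.im
  set v := w.im
  have h6 : 2 * y * v * C = x ^ 2 + y ^ 2 + v ^ 2 := by
    rw [hc]
    field_simp
    ring
  have h7 : x ^ 2 + y ^ 2 ≤ y ^ 2 * C ^ 2 := by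
    have h8 : 4 * v ^ 2 * (x ^ 2 + y ^ 2) ≤ 4 * v ^ 2 * (y ^ 2 * C ^ 2) := by
      have e : 4 * v ^ 2 * (y ^ 2 * C ^ 2) = (2 * y * v * C) ^ 2 := by ring
      rw [e, h6]
      nlinarith [sq_nonneg (x ^ 2 + y ^ 2 - v ^ 2)]
    exact le_of_mul_le_mul_left h8 (by positivity)
  have h9 : x ^ 2 ≤ (2 * r * y) ^ 2 := by
    have : y ^ 2 * C ^ 2 ≤ y ^ 2 * (1 + 2 * r ^ 2) := by gcongr
    nlinarith [sq_nonneg (r * y)]
  exact abs_le_of_sq_le_sq h9 (by positivity)

theorem smul_eq (g : G2) (hg : 0 < (g : Mat).det) (z : ℍ) :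
    ((g • z : ℍ) : ℂ) * ((g : Mat) 1 0 * (z : ℂ) + (g : Mat) 1 1) =
      (g : Mat) 0 0 * (z : ℂ) + (g : Mat) 0 1 := by
  have h := UpperHalfPlane.coe_smul_of_det_pos (g := g) hg z
  rw [h]
  have hd := UpperHalfPlane.denom_ne_zero g z
  have e : ((g : Mat) 1 0 * (z : ℂ) + (g : Mat) 1 1) = denom g z := rfl
  rw [e, div_mul_cancel₀ _ hd]
  rfl

theorem axis (a b c : ℝ) (hD : 0 < b ^ 2 - 4 * a * c) :
    ∃ g : G2, 0 < (g : Mat).det ∧ ∀ z : ℍ, g • z ∈ geod a b c ↔ z.re = 0 := by
  by_cases ha : a = 0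
  · subst ha
    have hb : b ≠ 0 := by
      rintro rfl
      simp at hD
    obtain ⟨g, hg⟩ := exists_G2 (x := !![1, -(c / b); 0, 1]) (by simp [Matrix.det_fin_two])
    have hdet : 0 < (g : Mat).det := by rw [hg]; simp [Matrix.det_fin_two]
    refine ⟨g, hdet, fun z => ?_⟩
    have h := smul_eq g hdet z
    rw [hg] at h
    have h1 := congrArg Complex.re h
    simp only [Matrix.of_apply, Matrix.cons_val', Matrix.cons_val_zero, Matrix.cons_val_one,
      Matrix.cons_val_fin_one] at h1
    simp only [Complex.ofReal_zero, zero_mul, zero_add, Complex.ofReal_one, mul_one, one_mul,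
      Complex.add_re, Complex.ofReal_re] at h1
    have h2 : (g • z).re = z.re + -(c / b) := h1
    unfold geod
    rw [Set.mem_ofPred_eq, h2, zero_mul, zero_add]
    have h3 : b * (z.re + -(c / b)) + c = b * z.re := by
      field_simp
      ring
    rw [h3]
    constructor
    · intro h0
      exact (mul_eq_zero.1 h0).resolve_left hb
    · intro h0
      rw [h0, mul_zero]
  · -- two roots
    obtain ⟨e, he2, hea⟩ : ∃ e : ℝ, e ^ 2 = b ^ 2 - 4 * a * c ∧ 0 < e / a := by
      rcases lt_or_gt_of_ne ha with h | h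
      · refine ⟨-√(b ^ 2 - 4 * a * c), ?_, ?_⟩
        · rw [neg_sq, Real.sq_sqrt hD.le]
        · exact div_pos_of_neg_of_neg (neg_neg_of_pos (Real.sqrt_pos.2 hD)) h
      · refine ⟨√(b ^ 2 - 4 * a * c), Real.sq_sqrt hD.le, ?_⟩
        exact div_pos (Real.sqrt_pos.2 hD) h
    set s₁ : ℝ := (-b + e) / (2 * a) with hs₁
    set s₂ : ℝ := (-b - e) / (2 * a) with hs₂
    have hdiff : s₁ - s₂ = e / a := by
      rw [hs₁, hs₂]
      field_simp
      ring
    have hr₁ : a * s₁ ^ 2 + b * s₁ + c = 0 := by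
      rw [hs₁]
      field_simp
      linear_combination he2
    have hr₂ : a * s₂ ^ 2 + b * s₂ + c = 0 := by
      rw [hs₂]
      field_simp
      linear_combination he2
    have hmix : 2 * a * s₁ * s₂ + b * (s₁ + s₂) + 2 * c = -(e ^ 2 / a) := by
      rw [he2, hs₁, hs₂]
      field_simp
      linear_combination (-1 : ℝ) * he2
    obtain ⟨g, hg⟩ := exists_G2 (x := !![s₁, s₂; 1, 1]) (by
      simp only [Matrix.det_fin_two, Matrix.of_apply, Matrix.cons_val', Matrix.cons_val_zero,
        Matrix.cons_val_one, Matrix.cons_val_fin_one, mul_one]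
      rw [hdiff]
      exact hea.ne')
    have hdet : 0 < (g : Mat).det := by
      rw [hg]
      simp only [Matrix.det_fin_two, Matrix.of_apply, Matrix.cons_val', Matrix.cons_val_zero,
        Matrix.cons_val_one, Matrix.cons_val_fin_one, mul_one]
      rw [hdiff]
      exact hea
    refine ⟨g, hdet, fun z => ?_⟩
    have h := smul_eq g hdet z
    rw [hg] at h
    simp only [Matrix.of_apply, Matrix.cons_val', Matrix.cons_val_zero, Matrix.cons_val_one,
      Matrix.cons_val_fin_one] at h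
    have h1 := congrArg Complex.re h
    have h2 := congrArg Complex.im h
    simp only [Complex.ofReal_one, one_mul, Complex.add_re, Complex.add_im, Complex.mul_re,
      Complex.mul_im, Complex.ofReal_re, Complex.ofReal_im, zero_mul, sub_zero, add_zero,
      Complex.one_re, Complex.one_im] at h1 h2
    set U := (g • z).re with hU
    set V := (g • z).im with hV
    set x := z.re with hx
    set y := z.im with hy
    have h1' : U * (x + 1) - V * y = s₁ * x + s₂ := h1
    have h2' : U * y + V * (x + 1) = s₁ * y := h2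
    have hy0 : 0 < y := z.im_pos
    have hN : 0 < (x + 1) ^ 2 + y ^ 2 := by positivity
    have hUN : U * ((x + 1) ^ 2 + y ^ 2) = (s₁ * x + s₂) * (x + 1) + s₁ * y * y := by
      linear_combination (x + 1) * h1' + y * h2'
    have hUV : (U ^ 2 + V ^ 2) * ((x + 1) ^ 2 + y ^ 2) = (s₁ * x + s₂) ^ 2 + (s₁ * y) ^ 2 := by
      rw [← h1', ← h2']
      ring
    have hmain : (a * (U ^ 2 + V ^ 2) + b * U + c) * ((x + 1) ^ 2 + y ^ 2) = -(e ^ 2 / a) * x := by
      rw [← hmix]
      linear_combination a * hUV + b * hUN + (x ^ 2 + y ^ 2) * hr₁ + hr₂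
    have he0 : e ^ 2 / a ≠ 0 := by
      rw [he2]
      exact div_ne_zero hD.ne' ha
    change a * (U ^ 2 + V ^ 2) + b * U + c = 0 ↔ x = 0
    constructor
    · intro h0
      rw [h0, zero_mul] at hmain
      exact (mul_eq_zero.1 hmain.symm).resolve_left (neg_ne_zero.2 he0)
    · intro h0
      rw [h0, mul_zero] at hmain
      exact (mul_eq_zero.1 hmain).resolve_right (by
        have := hN.ne'
        rwa [h0] at this)

end XIncl

open XIncl in
theorem prf_Incl (h1 : S_Iso) : S_Incl := by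
  intro a b c r z₀ hD hr0 hr
  by_cases hne : ∃ z : ℍ, dist z z₀ ≤ 1 ∧ ∃ w ∈ geod a b c, dist z w < r
  · obtain ⟨z₁, hz₁, w₀, hw₀, hzw⟩ := hne
    obtain ⟨g, hgd, hg⟩ := axis a b c hD
    set q : ℍ := g⁻¹ • w₀ with hq
    have hq0 : q.re = 0 := by
      rw [← hg, hq, smul_inv_smul]
      exact hw₀
    set t : ℝ := q.im with ht
    have ht0 : 0 < t := q.im_pos
    obtain ⟨δ, hδ⟩ := exists_G2 (x := !![t, 0; 0, 1]) (by
      simp only [Matrix.det_fin_two, Matrix.of_apply, Matrix.cons_val', Matrix.cons_val_zero,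
        Matrix.cons_val_one, Matrix.cons_val_fin_one, mul_one, mul_zero, sub_zero]
      exact ht0.ne')
    have hδd : 0 < (δ : Mat).det := by
      rw [hδ]
      simp only [Matrix.det_fin_two, Matrix.of_apply, Matrix.cons_val', Matrix.cons_val_zero,
        Matrix.cons_val_one, Matrix.cons_val_fin_one, mul_one, mul_zero, sub_zero]
      exact ht0
    have hδs : ∀ z : ℍ, ((δ • z : ℍ) : ℂ) = t * (z : ℂ) := by
      intro z
      have h := smul_eq δ hδd z
      rw [hδ] at h
      simpa using h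
    have hδI : δ • I = q := by
      apply UpperHalfPlane.ext
      rw [hδs]
      apply Complex.ext
      · have e : ((q : ℍ) : ℂ).re = 0 := hq0
        rw [e]
        simp
      · have e : ((q : ℍ) : ℂ).im = t := rfl
        rw [e]
        simp
    refine ⟨g * δ, ?_⟩
    rintro z ⟨hz, w, hw, hzw'⟩
    have hI : (g * δ) • I = w₀ := by
      rw [mul_smul, hδI, hq, smul_inv_smul]
    refine ⟨?_, ?_⟩
    · have e : dist ((g * δ)⁻¹ • z) I = dist z w₀ := by
        rw [← h1 (g * δ) ((g * δ)⁻¹ • z) I, smul_inv_smul, hI]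
      rw [e]
      have t1 : dist z w₀ ≤ dist z z₀ + dist z₀ z₁ + dist z₁ w₀ := dist_triangle4 _ _ _ _
      rw [dist_comm z₀ z₁] at t1
      linarith
    · have hre : ((g * δ)⁻¹ • w).re = 0 := by
        have e : w = g • (δ • ((g * δ)⁻¹ • w)) := by
          rw [← mul_smul, ← mul_smul]
          simp
        have e2 : (δ • ((g * δ)⁻¹ • w)).re = 0 := by
          rw [← hg, ← e]
          exact hw
        have e3 : (δ • ((g * δ)⁻¹ • w)).re = t * ((g * δ)⁻¹ • w).re := by
          have h := congrArg Complex.re (hδs ((g * δ)⁻¹ • w))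
          rw [Complex.re_ofReal_mul] at h
          exact h
        rw [e3] at e2
        exact (mul_eq_zero.1 e2).resolve_left ht0.ne'
      have hd : dist ((g * δ)⁻¹ • z) ((g * δ)⁻¹ • w) < r := by
        rw [h1]
        exact hzw'
      have := re_le r hr0 hr _ _ hre hd
      exact this
  · refine ⟨1, ?_⟩
    rintro z hz
    exact absurd ⟨z, hz⟩ hne

end Pool.Agent.HoloQUE
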