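import Pool.Agent.Work.MP_d2a4bb_nt.NC.Basic

/-!
# Item Iso: isometries
-/

set_option autoImplicit false

open MeasureTheory UpperHalfPlane Matrix
open scoped MatrixGroups ModularForm Manifold ENNReal Classical

noncomputable section

namespace Pool.Agent.HoloQUE

namespace XIso

theorem key (g : G2) (z w : ℍ) :
    num g z / denom g z - num g w / denom g w =
      ((g.det.val : ℝ) : ℂ) * ((z : ℂ) - w) / (denom g z * denom g w) := by
  rw [div_sub_div _ _ (denom_ne_zero g z) (denom_ne_zero g w)]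
  congr 1
  simp only [num, denom, GeneralLinearGroup.val_det_apply, Matrix.det_fin_two]
  push_cast
  ring

end XIso

theorem prf_Iso : S_Iso := by
  intro g z w
  refine Real.cosh_strictMonoOn.injOn (Set.mem_Ici.2 dist_nonneg) (Set.mem_Ici.2 dist_nonneg) ?_
  have hz : ‖denom g z‖ ≠ 0 := norm_ne_zero_iff.2 (denom_ne_zero g z)
  have hw : ‖denom g w‖ ≠ 0 := norm_ne_zero_iff.2 (denom_ne_zero g w)
  have hd : |g.det.val| ≠ 0 := abs_ne_zero.2 g.det.ne_zero
  have hzi : z.im ≠ 0 := z.im_ne_zero
  have hwi : w.im ≠ 0 := w.im_ne_zero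
  rw [cosh_dist, cosh_dist, im_smul_eq_div_normSq, im_smul_eq_div_normSq, Complex.dist_eq,
    Complex.dist_eq, coe_smul, coe_smul, ← map_sub, norm_σ, XIso.key, norm_div, norm_mul, norm_mul,
    Complex.normSq_eq_norm_sq, Complex.normSq_eq_norm_sq, Complex.norm_real, Real.norm_eq_abs]
  field_simp

end Pool.Agent.HoloQUE
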