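import Pool.Agent.Work.MP_d2a4bb_nt.NC.Basic

/-!
# Item L1: uniqueness of the right divisor of norm p
-/

set_option autoImplicit false

open MeasureTheory UpperHalfPlane Matrix
open scoped MatrixGroups ModularForm Manifold ENNReal Classical

noncomputable section

namespace Pool.Agent.HoloQUE

namespace XL1

theorem rank1 {K : Type} [Field K] (B : Matrix (Fin 2) (Fin 2) K) (hd : B.det = 0) :
    ∃ v w : Fin 2 → K, B = Matrix.vecMulVec v w := by
  rw [Matrix.det_fin_two] at hd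
  by_cases h00 : B 0 0 = 0
  · rw [h00, zero_mul, zero_sub, neg_eq_zero] at hd
    rcases mul_eq_zero.1 hd with h | h
    · refine ⟨![0, 1], ![B 1 0, B 1 1], ?_⟩
      ext i j
      fin_cases i <;> fin_cases j <;> simp [Matrix.vecMulVec_apply, h00, h]
    · refine ⟨![B 0 1, B 1 1], ![0, 1], ?_⟩
      ext i j
      fin_cases i <;> fin_cases j <;> simp [Matrix.vecMulVec_apply, h00, h]
  · refine ⟨![B 0 0, B 1 0], ![1, B 0 1 / B 0 0], ?_⟩
    ext i j
    fin_cases i <;> fin_cases j <;> simp [Matrix.vecMulVec_apply]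
    · field_simp
    · field_simp
      linear_combination hd

theorem fact {K : Type} [Field K] (A B C : Matrix (Fin 2) (Fin 2) K) (hd : B.det = 0)
    (h : A * B * C = 0) : A * B = 0 ∨ B * C = 0 := by
  obtain ⟨v, w, rfl⟩ := rank1 B hd
  rw [Matrix.mul_vecMulVec, Matrix.vecMulVec_mul] at h
  rw [Matrix.mul_vecMulVec, Matrix.vecMulVec_mul]
  by_contra hc
  rw [not_or] at hc
  obtain ⟨h1, h2⟩ := hc
  have hv : A *ᵥ v ≠ 0 := by
    intro h3
    apply h1
    rw [h3]
    ext i j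
    simp [Matrix.vecMulVec_apply]
  have hw : w ᵥ* C ≠ 0 := by
    intro h3
    apply h2
    rw [h3]
    ext i j
    simp [Matrix.vecMulVec_apply]
  obtain ⟨i, hi⟩ := Function.ne_iff.1 hv
  obtain ⟨j, hj⟩ := Function.ne_iff.1 hw
  have h3 := congrFun (congrFun h i) j
  rw [Matrix.vecMulVec_apply] at h3
  exact mul_ne_zero hi hj h3

end XL1

theorem prf_L1 : S_L1 := by
  intro O p x y b u v hO hp hx hy hb hu hv hnd hbu hbv
  obtain ⟨ρ, -, hρ⟩ := hp.red
  have hpp : Fact p.Prime := ⟨hp.prime⟩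
  obtain ⟨hx1, hx2⟩ := hx
  obtain ⟨hy1, hy2⟩ := hy
  have hp0 : (p : ℝ) ≠ 0 := by exact_mod_cast hp.prime.ne_zero
  let X : O := ⟨(x : Mat), hx1⟩
  let Y : O := ⟨(y : Mat), hy1⟩
  let X' : O := ⟨(x : Mat).adjugate, hO.adj_mem hx1⟩
  let Y' : O := ⟨(y : Mat).adjugate, hO.adj_mem hy1⟩
  let U : O := ⟨u, hu⟩
  let V : O := ⟨v, hv⟩
  have hXX : ρ (X * X') = 0 := by
    rw [hρ]
    refine ⟨1, O.one_mem, ?_⟩
    change (x : Mat) * (x : Mat).adjugate = _
    rw [mul_adj, hx2]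
  have hYY : ρ Y * ρ Y' = 0 := by
    rw [← map_mul, hρ]
    refine ⟨1, O.one_mem, ?_⟩
    change (y : Mat) * (y : Mat).adjugate = _
    rw [mul_adj, hy2]
  have hUX : U * X = V * Y := Subtype.ext (hbu.symm.trans hbv)
  have hVY : ρ V * ρ Y ≠ 0 := by
    intro h
    rw [← map_mul, hρ] at h
    apply hnd
    rw [hbv]
    exact h
  have hY' : ρ Y' ≠ 0 := by
    intro h
    obtain ⟨z, hz, hyz⟩ := (hρ Y').mp h
    have hyz' : (y : Mat).adjugate = (p : ℝ) • z := hyz
    obtain ⟨n, hn⟩ := hO.dt z hz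
    have e1 : (p : ℝ) = (p : ℝ) ^ 2 * n := by
      rw [← hn, ← det_smul2, ← hyz', det_adj, hy2]
    have e2 : (1 : ℝ) = p * n := by
      have : (p : ℝ) * 1 = p * (p * n) := by rw [mul_one]; linear_combination e1
      exact mul_left_cancel₀ hp0 this
    have e3 : (1 : ℤ) = p * n := by exact_mod_cast e2
    have e4 : (p : ℤ) ∣ 1 := ⟨n, e3⟩
    have e5 : p ∣ 1 := by exact_mod_cast e4
    exact hp.prime.one_lt.ne' (Nat.dvd_one.1 e5)
  have hdet : (ρ Y).det = 0 := by
    by_contra hne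
    apply hY'
    have hu : IsUnit (ρ Y) := (Matrix.isUnit_iff_isUnit_det _).mpr (isUnit_iff_ne_zero.mpr hne)
    exact hu.mul_left_cancel (by rw [hYY, mul_zero])
  have h3 : ρ V * ρ Y * ρ X' = 0 := by
    rw [← map_mul, ← hUX, ← map_mul, mul_assoc, map_mul, hXX, mul_zero]
  rcases XL1.fact _ _ _ hdet h3 with h | h
  · exact absurd h hVY
  · rw [← map_mul, hρ] at h
    obtain ⟨g, hg, hyg⟩ := h
    have hyg' : (y : Mat) * (x : Mat).adjugate = (p : ℝ) • g := hyg
    refine hO.normOne_of_eq hg ?_ (by rw [hx2, hy2])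
    have e1 : (y : Mat) * ((x : Mat).adjugate * (x : Mat)) = (p : ℝ) • (g * (x : Mat)) := by
      rw [← mul_assoc, hyg', smul_mul_assoc]
    rw [adj_mul_self, hx2, mul_smul_comm, mul_one] at e1
    exact smul_right_injective _ hp0 e1

end Pool.Agent.HoloQUE
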