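import Pool.Agent.Work.MP_d2a4bb_nt.NC.Basic

/-!
# Item L2
-/

set_option autoImplicit false

open MeasureTheory UpperHalfPlane Matrix
open scoped MatrixGroups ModularForm Manifold ENNReal Classical

noncomputable section

namespace Pool.Agent.HoloQUE

namespace XL2

theorem fact {K : Type} [Field K] (A B C : Matrix (Fin 2) (Fin 2) K) (hd : B.det = 0)
    (h : A * B * C = 0) : A * B = 0 ∨ B * C = 0 := by
  rw [Matrix.det_fin_two] at hd
  by_contra hc
  rw [not_or] at hc
  obtain ⟨h1, h2⟩ := hc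
  obtain ⟨i, j, hij⟩ : ∃ i j, (A * B) i j ≠ 0 := by
    by_contra hn
    push Not at hn
    exact h1 (Matrix.ext hn)
  obtain ⟨k, l, hkl⟩ : ∃ k l, (B * C) k l ≠ 0 := by
    by_contra hn
    push Not at hn
    exact h2 (Matrix.ext hn)
  have hz : (A * B * C) i l = 0 := by rw [h]; rfl
  have hmul : (A * B) i j * (B * C) k l = 0 := by
    have e : (A * B) i j * (B * C) k l = B k j * (A * B * C) i l := by
      simp only [Matrix.mul_apply, Fin.sum_univ_two]
      fin_cases j <;> fin_cases k <;> simp only [Fin.zero_eta, Fin.mk_one, Fin.isValue]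
      · linear_combination (A i 1 * C 1 l) * (-hd)
      · linear_combination (A i 0 * C 1 l) * hd
      · linear_combination (A i 1 * C 0 l) * hd
      · linear_combination (A i 0 * C 0 l) * (-hd)
    rw [e, hz, mul_zero]
  rcases mul_eq_zero.mp hmul with h3 | h3
  · exact hij h3
  · exact hkl h3

end XL2

theorem prf_L2 : S_L2 := by
  intro O p x y b hO hp hx hy hb hxy hD
  obtain ⟨ρ, -, hρ⟩ := hp.red
  have hpp : Fact p.Prime := ⟨hp.prime⟩
  obtain ⟨hx1, hx2⟩ := hx
  obtain ⟨hy1, hy2⟩ := hy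
  let X : O := ⟨(x : Mat), hx1⟩
  let Y : O := ⟨(y : Mat), hy1⟩
  let X' : O := ⟨(x : Mat).adjugate, hO.adj_mem hx1⟩
  let Y' : O := ⟨(y : Mat).adjugate, hO.adj_mem hy1⟩
  let b' : O := ⟨b, hb⟩
  have hY : ρ Y ≠ 0 := by
    intro h
    obtain ⟨z, hz, hyz⟩ := (hρ Y).mp h
    have hyz' : (y : Mat) = (p : ℝ) • z := hyz
    apply hxy
    refine ⟨(x : Mat) * z, O.mul_mem hx1 hz, ?_⟩
    rw [Units.val_mul, hyz', mul_smul_comm]
  have hYY : ρ Y' * ρ Y = 0 := by
    rw [← map_mul, hρ]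
    refine ⟨1, O.one_mem, ?_⟩
    change (y : Mat).adjugate * (y : Mat) = _
    rw [adj_mul_self, hy2]
  have hdet : (ρ Y').det = 0 := by
    by_contra hne
    apply hY
    have hu : IsUnit (ρ Y') := (Matrix.isUnit_iff_isUnit_det _).mpr (isUnit_iff_ne_zero.mpr hne)
    exact hu.mul_left_cancel (by rw [hYY, mul_zero])
  have h3 : ρ b' * ρ Y' * ρ X' = 0 := by
    rw [← map_mul, ← map_mul, hρ]
    exact hD
  rcases XL2.fact _ _ _ hdet h3 with h | h
  · rw [← map_mul, hρ] at h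
    exact h
  · exfalso
    rw [← map_mul, hρ] at h
    obtain ⟨z, hz, hyz⟩ := h
    have hyz' : (y : Mat).adjugate * (x : Mat).adjugate = (p : ℝ) • z := hyz
    apply hxy
    refine ⟨z.adjugate, hO.adj_mem hz, ?_⟩
    rw [Units.val_mul, ← adj_smul, ← hyz', ← adj_mul, adj_adj]

end Pool.Agent.HoloQUE
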