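import Pool.Agent.Work.MP_d2a4bb_nt.NC.Basic

/-!
# MP_d2a4bb_nt, block NC, item Lim: mass of open sets under weak limits

Inner regularity of the limit measure: for compact `K ⊆ U` take a continuous function with values
in `[0, 1]`, equal to `1` on `K` and to `0` off `U`, with compact support.
-/

set_option autoImplicit false

open MeasureTheory UpperHalfPlane Matrix Set
open scoped MatrixGroups ModularForm Manifold ENNReal

namespace Pool.Agent.HoloQUE

namespace XLim

/-- integrals of functions between `0` and the indicator of `U` -/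
theorem int_le (μ : Measure ℍ) [IsFiniteMeasureOnCompacts μ] (U : Set ℍ) (M : ℝ) (hU : IsOpen U)
    (hM : 0 ≤ M) (h : μ U ≤ ENNReal.ofReal M) (f : C(ℍ, ℝ)) (h0 : EqOn f 0 Uᶜ)
    (h1 : ∀ x, f x ∈ Icc (0 : ℝ) 1) : ∫ z, f z ∂μ ≤ M := by
  have e : (fun z => f z) = U.indicator (fun z => f z) := by
    funext z
    by_cases hz : z ∈ U
    · rw [indicator_of_mem hz]
    · rw [indicator_of_notMem hz]
      exact h0 hz
  rw [e, integral_indicator hU.measurableSet]
  have hfin : μ U ≠ ⊤ := ne_top_of_le_ne_top ENNReal.ofReal_ne_top h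
  have h2 : ∫ z in U, f z ∂μ ≤ ∫ z in U, (1 : ℝ) ∂μ := by
    refine integral_mono_of_nonneg (Filter.Eventually.of_forall fun z => (h1 z).1) ?_
      (Filter.Eventually.of_forall fun z => (h1 z).2)
    exact integrableOn_const hfin
  refine h2.trans ?_
  rw [setIntegral_const, smul_eq_mul, mul_one, measureReal_def]
  exact ENNReal.toReal_le_of_le_ofReal hM h

end XLim

theorem prf_Lim : S_Lim := by
  intro μ ν hμ hν hlim U M hU _ hM hle
  haveI := hν
  rw [hU.measure_eq_iSup_isCompact ν]
  refine iSup₂_le fun K hKU => iSup_le fun hK => ?_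
  obtain ⟨f, hf1, hf0, hfc, hf⟩ := exists_continuous_one_zero_of_isCompact hK hU.isClosed_compl
    (disjoint_compl_right_iff_subset.2 hKU)
  have h1 : ∫ z, f z ∂ν ≤ M := by
    refine le_of_tendsto (hlim f f.continuous hfc) (Filter.Eventually.of_forall fun j => ?_)
    haveI := hμ j
    exact XLim.int_le (μ j) U M hU hM (hle j) f hf0 hf
  have hint : Integrable (fun z => f z) ν := f.continuous.integrable_of_hasCompactSupport hfc
  have h2 : ν K ≤ ∫⁻ z, ENNReal.ofReal (f z) ∂ν := by
    rw [← lintegral_indicator_one hK.measurableSet]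
    refine lintegral_mono fun z => ?_
    by_cases hz : z ∈ K
    · rw [indicator_of_mem hz, hf1 hz]
      simp
    · rw [indicator_of_notMem hz]
      exact zero_le
  refine h2.trans ?_
  rw [← ofReal_integral_eq_lintegral_ofReal hint (Filter.Eventually.of_forall fun z => (hf z).1)]
  exact ENNReal.ofReal_le_ofReal h1

end Pool.Agent.HoloQUE
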