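import Pool.Agent.Work.MP_d2a4bb_nt.NC.Basic

/-!
# Item Ma
-/

set_option autoImplicit false

open MeasureTheory UpperHalfPlane Matrix
open scoped MatrixGroups ModularForm Manifold ENNReal Classical

noncomputable section

namespace Pool.Agent.HoloQUE

namespace XMa

/-- the triples of a union of sets of representatives -/
theorem tri_union (O : Subring Mat) (P : Finset ℕ) (A : ℕ → Finset G2) (S : Set G2) :
    Tri O (P.biUnion A) S ⊆ ⋃ t ∈ P ×ˢ P, Tri2 O (A t.1) (A t.2) S := by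
  rintro ⟨x, y, γ⟩ ⟨h1, h2, h3, h4⟩
  simp only [Finset.mem_biUnion] at h1 h2
  obtain ⟨p, hp, hx⟩ := h1
  obtain ⟨q, hq, hy⟩ := h2
  simp only [Set.mem_iUnion]
  exact ⟨(p, q), Finset.mem_product.2 ⟨hp, hq⟩, hx, hy, h3, h4⟩

/-- a product of two primes determines the primes -/
theorem pair_eq {p q p' q' : ℕ} (hp : p.Prime) (hq : q.Prime) (hp' : p'.Prime)
    (h : p' * q' = p * q) : (p' = p ∧ q' = q) ∨ (p' = q ∧ q' = p) := by
  have hd : p' ∣ p * q := ⟨q', h.symm⟩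
  rcases (Nat.Prime.dvd_mul hp').1 hd with h1 | h1
  · left
    have e : p' = p := (Nat.prime_dvd_prime_iff_eq hp' hp).1 h1
    refine ⟨e, ?_⟩
    rw [e] at h
    exact Nat.eq_of_mul_eq_mul_left hp.pos h
  · right
    have e : p' = q := (Nat.prime_dvd_prime_iff_eq hp' hq).1 h1
    refine ⟨e, ?_⟩
    rw [e, mul_comm p q] at h
    exact Nat.eq_of_mul_eq_mul_left hq.pos h

/-- every element is counted at most twice -/
theorem fibre_le (P : Finset ℕ) (hP : ∀ p ∈ P, p.Prime) (d : ℝ) :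
    ((P ×ˢ P).filter fun t => d = ((t.1 * t.2 : ℕ) : ℝ)).card ≤ 2 := by
  rcases Finset.eq_empty_or_nonempty
    ((P ×ˢ P).filter fun t => d = ((t.1 * t.2 : ℕ) : ℝ)) with h | ⟨⟨p, q⟩, h⟩
  · rw [h]
    simp
  · rw [Finset.mem_filter, Finset.mem_product] at h
    obtain ⟨⟨hp, hq⟩, hd⟩ := h
    have hsub : ((P ×ˢ P).filter fun t => d = ((t.1 * t.2 : ℕ) : ℝ)) ⊆
        ({(p, q), (q, p)} : Finset (ℕ × ℕ)) := by
      rintro ⟨p', q'⟩ h'
      rw [Finset.mem_filter, Finset.mem_product] at h'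
      obtain ⟨⟨hp', hq'⟩, hd'⟩ := h'
      have e : p' * q' = p * q := by
        have : ((p' * q' : ℕ) : ℝ) = ((p * q : ℕ) : ℝ) := by rw [← hd', ← hd]
        exact_mod_cast this
      rcases pair_eq (hP p hp) (hP q hq) (hP p' hp') e with ⟨h1, h2⟩ | ⟨h1, h2⟩
      · simp [h1, h2]
      · simp [h1, h2]
    exact le_trans (Finset.card_le_card hsub) Finset.card_le_two

/-- the sum over pairs of primes -/
theorem sum_le (O : Subring Mat) (P : Finset ℕ) (R : ℕ) (S : Set G2)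
    (hP : ∀ p ∈ P, p.Prime ∧ p ≤ R) :
    ∑ t ∈ P ×ˢ P, (C0 O S (t.1 * t.2)).encard ≤ 2 * (C1 O S ((R : ℝ) ^ 2)).encard := by
  have hsub : ∀ t ∈ P ×ˢ P, C0 O S (t.1 * t.2) ⊆ C1 O S ((R : ℝ) ^ 2) := by
    rintro ⟨p, q⟩ h g ⟨hg1, hg2, hg3⟩
    rw [Finset.mem_product] at h
    obtain ⟨hp, hq⟩ := h
    simp only at hp hq hg3
    have h1 : 0 < p * q := Nat.mul_pos (hP p hp).1.pos (hP q hq).1.pos
    refine ⟨hg1, hg2, ?_, ?_⟩
    · rw [hg3]
      exact_mod_cast h1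
    · rw [hg3]
      have h2 : p * q ≤ R ^ 2 := by
        rw [sq]
        exact Nat.mul_le_mul (hP p hp).2 (hP q hq).2
      exact_mod_cast h2
  by_cases hfin : (C1 O S ((R : ℝ) ^ 2)).Finite
  · have h1 : ∀ t ∈ P ×ˢ P, (C0 O S (t.1 * t.2)).encard =
        (((hfin.toFinset.filter fun g : G2 => (g : Mat).det = ((t.1 * t.2 : ℕ) : ℝ)).card : ℕ) : ℕ∞) := by
      intro t ht
      rw [← Set.encard_coe_eq_coe_finsetCard]
      congr 1
      ext g
      simp only [Finset.coe_filter, Set.Finite.mem_toFinset, Set.mem_ofPred_eq]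
      constructor
      · intro hg
        exact ⟨hsub t ht hg, hg.2.2⟩
      · rintro ⟨hg1, hg2⟩
        exact ⟨hg1.1, hg1.2.1, hg2⟩
    rw [Finset.sum_congr rfl h1, ← Nat.cast_sum]
    have h2 : ∑ t ∈ P ×ˢ P,
        (hfin.toFinset.filter fun g : G2 => (g : Mat).det = ((t.1 * t.2 : ℕ) : ℝ)).card
        ≤ 2 * hfin.toFinset.card := by
      have e : ∑ t ∈ P ×ˢ P,
          (hfin.toFinset.filter fun g : G2 => (g : Mat).det = ((t.1 * t.2 : ℕ) : ℝ)).card
          = ∑ g ∈ hfin.toFinset,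
            ((P ×ˢ P).filter fun t => (g : Mat).det = ((t.1 * t.2 : ℕ) : ℝ)).card := by
        simp only [Finset.card_filter]
        exact Finset.sum_comm
      rw [e]
      calc ∑ g ∈ hfin.toFinset,
            ((P ×ˢ P).filter fun t => (g : Mat).det = ((t.1 * t.2 : ℕ) : ℝ)).card
          ≤ ∑ _g ∈ hfin.toFinset, 2 :=
            Finset.sum_le_sum fun g _ => fibre_le P (fun p hp => (hP p hp).1) _
        _ = 2 * hfin.toFinset.card := by
            rw [Finset.sum_const, smul_eq_mul, mul_comm]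
    have h3 : (C1 O S ((R : ℝ) ^ 2)).encard = ((hfin.toFinset.card : ℕ) : ℕ∞) :=
      hfin.encard_eq_coe_toFinset_card
    rw [h3]
    calc ((∑ t ∈ P ×ˢ P,
        (hfin.toFinset.filter fun g : G2 => (g : Mat).det = ((t.1 * t.2 : ℕ) : ℝ)).card : ℕ) : ℕ∞)
        ≤ ((2 * hfin.toFinset.card : ℕ) : ℕ∞) := by exact_mod_cast h2
      _ = 2 * ((hfin.toFinset.card : ℕ) : ℕ∞) := by push_cast; rfl
  · have h1 : (C1 O S ((R : ℝ) ^ 2)).encard = ⊤ := Set.encard_eq_top_iff.2 hfin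
    rw [h1, ENat.mul_top (by norm_num)]
    exact le_top

end XMa

/-- Item Ma. -/
theorem prf_Ma (h1 : S_Ma1) (h2 : S_Mx) : S_Ma := by
  intro O P R A S hO hS hA
  have hP : ∀ p ∈ P, p.Prime ∧ p ≤ R := fun p hp => ⟨(hA p hp).1.prime, (hA p hp).2.1⟩
  have hI : ∀ p ∈ P, Ineq O (A p) := fun p hp => (hA p hp).2.2.1.uniq
  have hb : ∀ t ∈ P ×ˢ P, (Tri2 O (A t.1) (A t.2) S).encard ≤
      (C0 O S (t.1 * t.2)).encard +
        (if t.1 = t.2 then ((R + 1 : ℕ) : ℕ∞) * (C1 O S 1).encard else 0) := by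
    rintro ⟨p, q⟩ ht
    rw [Finset.mem_product] at ht
    obtain ⟨hp, hq⟩ := ht
    simp only at hp hq ⊢
    by_cases hpq : p = q
    · subst hpq
      rw [if_pos rfl]
      have h3 := h1 O p (A p) S hO (hA p hp).1 hS (hA p hp).2.2.1 (hA p hp).2.2.2
      have h4 : (C0 O S 1).encard ≤ (C1 O S 1).encard := by
        apply Set.encard_le_encard
        rintro g ⟨hg1, hg2, hg3⟩
        refine ⟨hg1, hg2, ?_, ?_⟩ <;> rw [hg3] <;> norm_num
      have h5 : ((p + 1 : ℕ) : ℕ∞) ≤ ((R + 1 : ℕ) : ℕ∞) := by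
        exact_mod_cast Nat.succ_le_succ (hP p hp).2
      calc (Tri2 O (A p) (A p) S).encard = (Tri O (A p) S).encard := rfl
        _ ≤ (C0 O S (p ^ 2)).encard + ((p + 1 : ℕ) : ℕ∞) * (C0 O S 1).encard := h3
        _ ≤ (C0 O S (p * p)).encard + ((R + 1 : ℕ) : ℕ∞) * (C1 O S 1).encard := by
            rw [sq]
            gcongr
    · rw [if_neg hpq, add_zero]
      exact h2 O p q (A p) (A q) S hO hS (hP p hp).1.pos (hP q hq).1.pos
        ((Nat.coprime_primes (hP p hp).1 (hP q hq).1).2 hpq)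
        (hA p hp).2.2.1.mem (hA q hq).2.2.1.mem (hI p hp) (hI q hq)
  calc (Tri O (P.biUnion A) S).encard
      ≤ (⋃ t ∈ P ×ˢ P, Tri2 O (A t.1) (A t.2) S).encard :=
        Set.encard_le_encard (XMa.tri_union O P A S)
    _ ≤ ∑ t ∈ P ×ˢ P, (Tri2 O (A t.1) (A t.2) S).encard :=
        Finset.set_encard_biUnion_le _ _
    _ ≤ ∑ t ∈ P ×ˢ P, ((C0 O S (t.1 * t.2)).encard +
        (if t.1 = t.2 then ((R + 1 : ℕ) : ℕ∞) * (C1 O S 1).encard else 0)) :=
        Finset.sum_le_sum hb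
    _ = ∑ t ∈ P ×ˢ P, (C0 O S (t.1 * t.2)).encard +
        ∑ t ∈ P ×ˢ P,
          (if t.1 = t.2 then ((R + 1 : ℕ) : ℕ∞) * (C1 O S 1).encard else 0) :=
        Finset.sum_add_distrib
    _ ≤ 2 * (C1 O S ((R : ℝ) ^ 2)).encard +
        (P.card * (R + 1) : ℕ) * (C1 O S 1).encard := by
        apply add_le_add
        · exact XMa.sum_le O P R S hP
        · apply le_of_eq
          rw [Finset.sum_product]
          have e : ∀ x ∈ P, ∑ y ∈ P, (if ((x, y) : ℕ × ℕ).1 = ((x, y) : ℕ × ℕ).2 then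
              ((R + 1 : ℕ) : ℕ∞) * (C1 O S 1).encard else 0)
              = ((R + 1 : ℕ) : ℕ∞) * (C1 O S 1).encard := by
            intro x hx
            simp only
            rw [Finset.sum_ite_eq P x, if_pos hx]
          rw [Finset.sum_congr rfl e, Finset.sum_const, nsmul_eq_mul, ← mul_assoc]
          push_cast
          rfl

end Pool.Agent.HoloQUE
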