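import Pool.Agent.Work.MP_d2a4bb_nt.NC.Basic

/-!
# Block NC, item Mb (helper57): triples for the primes of a set, second type
-/

set_option autoImplicit false

open MeasureTheory UpperHalfPlane Matrix
open scoped MatrixGroups ModularForm Manifold ENNReal Classical

noncomputable section

namespace Pool.Agent.HoloQUE

namespace XMb

theorem encard_le_sum {α ι : Type*} (s : Finset ι) (f : ι → Set α) (X : Set α)
    (h : ∀ x ∈ X, ∃ i ∈ s, x ∈ f i) : X.encard ≤ ∑ i ∈ s, (f i).encard := by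
  induction s using Finset.induction_on generalizing X with
  | empty =>
    have : X = ∅ := by
      ext x
      constructor
      · intro hx
        obtain ⟨i, hi, -⟩ := h x hx
        simp at hi
      · intro hx
        exact hx.elim
    simp [this]
  | insert i s hi ih =>
    rw [Finset.sum_insert hi]
    have h1 := ih (X \ f i) (by
      rintro x ⟨hx, hx'⟩
      obtain ⟨j, hj, hxj⟩ := h x hx
      rcases Finset.mem_insert.1 hj with rfl | hj
      · exact absurd hxj hx'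
      · exact ⟨j, hj, hxj⟩)
    have h2 : X ⊆ f i ∪ (X \ f i) := by
      intro x hx
      by_cases hxi : x ∈ f i
      · exact Or.inl hxi
      · exact Or.inr ⟨hx, hxi⟩
    exact (Set.encard_le_encard h2).trans ((Set.encard_union_le _ _).trans
      (add_le_add le_rfl h1))

theorem sum_le_encard {α ι : Type*} (s : Finset ι) (f : ι → Set α) (T : Set α)
    (hT : ∀ i ∈ s, f i ⊆ T) (hd : ∀ i ∈ s, ∀ j ∈ s, i ≠ j → Disjoint (f i) (f j)) :
    ∑ i ∈ s, (f i).encard ≤ T.encard := by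
  induction s using Finset.induction_on generalizing T with
  | empty => simp
  | insert i s hi ih =>
    rw [Finset.sum_insert hi]
    have h1 := ih (T \ f i) (by
      intro j hj x hx
      refine ⟨hT j (Finset.mem_insert_of_mem hj) hx, fun hxi => ?_⟩
      have hij : i ≠ j := fun e => hi (e ▸ hj)
      exact Set.disjoint_left.1 (hd i (Finset.mem_insert_self _ _) j
        (Finset.mem_insert_of_mem hj) hij) hxi hx) (by
      intro a ha b hb hab
      exact hd a (Finset.mem_insert_of_mem ha) b (Finset.mem_insert_of_mem hb) hab)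
    have h2 := Set.encard_sdiff_add_encard_of_subset (hT i (Finset.mem_insert_self _ _))
    rw [← h2, add_comm]
    exact add_le_add h1 le_rfl

theorem prod_inj {p q p' q' : ℕ} (hp : p.Prime) (_hq : q.Prime) (hp' : p'.Prime) (hq' : q'.Prime)
    (h : p * q = p' * q') : (p = p' ∧ q = q') ∨ (p = q' ∧ q = p') := by
  have h1 : p ∣ p' * q' := ⟨q, h.symm⟩
  rcases (Nat.Prime.dvd_mul hp).1 h1 with h2 | h2
  · have h3 := (Nat.prime_dvd_prime_iff_eq hp hp').1 h2
    subst h3
    exact Or.inl ⟨rfl, Nat.eq_of_mul_eq_mul_left hp.pos h⟩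
  · have h3 := (Nat.prime_dvd_prime_iff_eq hp hq').1 h2
    subst h3
    refine Or.inr ⟨rfl, ?_⟩
    rw [Nat.mul_comm p' p] at h
    exact Nat.eq_of_mul_eq_mul_left hp.pos h

variable {O : Subring Mat}

theorem C0_sub_C2 (S : Set G2) (n m : ℕ) (Y : ℝ) (hn : n = m ^ 2) (hm : 1 ≤ m) (hY : (m : ℝ) ≤ Y) :
    C0 O S n ⊆ C2 O S Y := by
  rintro g ⟨h1, h2, h3⟩
  refine ⟨h1, h2, m, hm, hY, ?_⟩
  rw [h3, hn]
  push_cast
  ring

theorem C0_disj (S : Set G2) (n m : ℕ) (h : n ≠ m) : Disjoint (C0 O S n) (C0 O S m) := by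
  rw [Set.disjoint_left]
  rintro g ⟨-, -, h3⟩ ⟨-, -, h4⟩
  rw [h3] at h4
  exact h (by exact_mod_cast h4)

end XMb

open XMb in
theorem prf_Mb (h1 : S_Mb1) (h2 : S_Mx) (h3 : S_NBi) : S_Mb := by
  intro O P R A S hO hS hP
  set N : ℕ → Finset G2 := fun p => NB O p (A p) with hN
  have hprime : ∀ p ∈ P, p.Prime := fun p hp => (hP p hp).1.prime
  have hle : ∀ p ∈ P, p ≤ R := fun p hp => (hP p hp).2.1
  -- the union bound
  have hU : (Tri O (P.biUnion N) S).encard ≤
      ∑ t ∈ P ×ˢ P, (Tri2 O (N t.1) (N t.2) S).encard := by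
    apply encard_le_sum
    rintro ⟨x, y, γ⟩ ⟨hx, hy, hγ, hs⟩
    obtain ⟨p, hp, hxp⟩ := Finset.mem_biUnion.1 hx
    obtain ⟨q, hq, hyq⟩ := Finset.mem_biUnion.1 hy
    exact ⟨(p, q), Finset.mem_product.2 ⟨hp, hq⟩, hxp, hyq, hγ, hs⟩
  -- each term
  have hT : ∀ t ∈ P ×ˢ P, (Tri2 O (N t.1) (N t.2) S).encard ≤
      (C0 O S ((t.1 * t.2) ^ 2)).encard +
        if t.1 = t.2 then ((R + 1 : ℕ) : ℕ∞) * (C0 O S (t.1 ^ 2)).encard +
          (((R + 1) ^ 2 : ℕ) : ℕ∞) * (C2 O S 1).encard else 0 := by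
    rintro ⟨p, q⟩ ht
    obtain ⟨hp, hq⟩ := Finset.mem_product.1 ht
    simp only at hp hq ⊢
    obtain ⟨hgp, hpR, hAp, hcp⟩ := hP p hp
    obtain ⟨hgq, hqR, hAq, hcq⟩ := hP q hq
    by_cases hpq : p = q
    · subst hpq
      rw [if_pos rfl]
      have h4 := h1 O p (A p) S hO hgp hS hAp hcp
      have e1 : (p * p) ^ 2 = p ^ 4 := by ring
      rw [e1]
      have h5 : ((p + 1 : ℕ) : ℕ∞) ≤ ((R + 1 : ℕ) : ℕ∞) := by
        exact_mod_cast Nat.succ_le_succ hpR
      have h6 : (((p + 1) ^ 2 : ℕ) : ℕ∞) ≤ (((R + 1) ^ 2 : ℕ) : ℕ∞) := by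
        exact_mod_cast Nat.pow_le_pow_left (Nat.succ_le_succ hpR) 2
      have h7 : (C0 O S 1).encard ≤ (C2 O S 1).encard :=
        Set.encard_le_encard (C0_sub_C2 S 1 1 1 (by norm_num) le_rfl (by norm_num))
      refine h4.trans ?_
      rw [add_assoc]
      exact add_le_add le_rfl (add_le_add (mul_le_mul' h5 le_rfl) (mul_le_mul' h6 h7))
    · rw [if_neg hpq, add_zero]
      have hp1 := hprime p hp
      have hq1 := hprime q hq
      have hcop : (p ^ 2).Coprime (q ^ 2) :=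
        Nat.Coprime.pow 2 2 ((Nat.coprime_primes hp1 hq1).2 hpq)
      obtain ⟨hm1, hi1, -, -⟩ := h3 O p (A p) hO hgp hAp
      obtain ⟨hm2, hi2, -, -⟩ := h3 O q (A q) hO hgq hAq
      have h4 := h2 O (p ^ 2) (q ^ 2) (N p) (N q) S hO hS (pow_pos hp1.pos 2) (pow_pos hq1.pos 2)
        hcop hm1 hm2 hi1 hi2
      rw [mul_pow]
      exact h4
  -- first sum
  have hS1 : ∑ t ∈ P ×ˢ P, (C0 O S ((t.1 * t.2) ^ 2)).encard ≤
      2 * (C2 O S ((R : ℝ) ^ 2)).encard := by
    have hsub : ∀ t ∈ P ×ˢ P, C0 O S ((t.1 * t.2) ^ 2) ⊆ C2 O S ((R : ℝ) ^ 2) := by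
      rintro ⟨p, q⟩ ht
      obtain ⟨hp, hq⟩ := Finset.mem_product.1 ht
      simp only at hp hq ⊢
      refine C0_sub_C2 S _ (p * q) _ rfl (Nat.mul_pos (hprime p hp).pos (hprime q hq).pos) ?_
      have : p * q ≤ R ^ 2 := by
        rw [sq]
        exact Nat.mul_le_mul (hle p hp) (hle q hq)
      exact_mod_cast this
    rw [← Finset.sum_filter_add_sum_filter_not (P ×ˢ P) (fun t => t.1 ≤ t.2)]
    rw [two_mul]
    refine add_le_add ?_ ?_
    · apply sum_le_encard
      · intro t ht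
        exact hsub t (Finset.mem_filter.1 ht).1
      · rintro ⟨p, q⟩ ht ⟨p', q'⟩ ht' hne
        obtain ⟨ht1, ht2⟩ := Finset.mem_filter.1 ht
        obtain ⟨ht1', ht2'⟩ := Finset.mem_filter.1 ht'
        obtain ⟨hp, hq⟩ := Finset.mem_product.1 ht1
        obtain ⟨hp', hq'⟩ := Finset.mem_product.1 ht1'
        simp only at hp hq hp' hq' ht2 ht2' ⊢
        apply C0_disj
        intro e
        have e2 : p * q = p' * q' := Nat.pow_left_injective (n := 2) (by norm_num) e
        rcases prod_inj (hprime p hp) (hprime q hq) (hprime p' hp') (hprime q' hq') e2 with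
          ⟨h4, h5⟩ | ⟨h4, h5⟩
        · exact hne (by rw [h4, h5])
        · have h6 : p = p' := by omega
          have h7 : q = q' := by omega
          exact hne (by rw [h6, h7])
    · apply sum_le_encard
      · intro t ht
        exact hsub t (Finset.mem_filter.1 ht).1
      · rintro ⟨p, q⟩ ht ⟨p', q'⟩ ht' hne
        obtain ⟨ht1, ht2⟩ := Finset.mem_filter.1 ht
        obtain ⟨ht1', ht2'⟩ := Finset.mem_filter.1 ht'
        obtain ⟨hp, hq⟩ := Finset.mem_product.1 ht1
        obtain ⟨hp', hq'⟩ := Finset.mem_product.1 ht1'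
        simp only at hp hq hp' hq' ht2 ht2' ⊢
        apply C0_disj
        intro e
        have e2 : p * q = p' * q' := Nat.pow_left_injective (n := 2) (by norm_num) e
        rcases prod_inj (hprime p hp) (hprime q hq) (hprime p' hp') (hprime q' hq') e2 with
          ⟨h4, h5⟩ | ⟨h4, h5⟩
        · exact hne (by rw [h4, h5])
        · exfalso
          omega
  -- second sum
  have hS2 : ∑ t ∈ P ×ˢ P, (if t.1 = t.2 then ((R + 1 : ℕ) : ℕ∞) * (C0 O S (t.1 ^ 2)).encard +
          (((R + 1) ^ 2 : ℕ) : ℕ∞) * (C2 O S 1).encard else 0) ≤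
      (R + 1 : ℕ) * (C2 O S R).encard + (P.card * (R + 1) ^ 2 : ℕ) * (C2 O S 1).encard := by
    rw [Finset.sum_product]
    have e1 : ∀ p ∈ P, ∑ q ∈ P, (if p = q then ((R + 1 : ℕ) : ℕ∞) * (C0 O S (p ^ 2)).encard +
          (((R + 1) ^ 2 : ℕ) : ℕ∞) * (C2 O S 1).encard else 0) =
        ((R + 1 : ℕ) : ℕ∞) * (C0 O S (p ^ 2)).encard +
          (((R + 1) ^ 2 : ℕ) : ℕ∞) * (C2 O S 1).encard := by
      intro p hp
      rw [Finset.sum_ite_eq, if_pos hp]
    rw [Finset.sum_congr rfl e1, Finset.sum_add_distrib, ← Finset.mul_sum, Finset.sum_const,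
      nsmul_eq_mul]
    refine add_le_add (mul_le_mul' le_rfl ?_) ?_
    · apply sum_le_encard
      · intro p hp
        refine C0_sub_C2 S _ p _ rfl (hprime p hp).pos ?_
        exact_mod_cast hle p hp
      · intro p hp q hq hne
        apply C0_disj
        intro e
        exact hne (Nat.pow_left_injective (n := 2) (by norm_num) e)
    · rw [← mul_assoc]
      apply le_of_eq
      push_cast
      ring
  calc (Tri O (P.biUnion fun p => NB O p (A p)) S).encard
      ≤ ∑ t ∈ P ×ˢ P, (Tri2 O (N t.1) (N t.2) S).encard := hU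
    _ ≤ ∑ t ∈ P ×ˢ P, ((C0 O S ((t.1 * t.2) ^ 2)).encard +
        if t.1 = t.2 then ((R + 1 : ℕ) : ℕ∞) * (C0 O S (t.1 ^ 2)).encard +
          (((R + 1) ^ 2 : ℕ) : ℕ∞) * (C2 O S 1).encard else 0) := Finset.sum_le_sum hT
    _ ≤ 2 * (C2 O S ((R : ℝ) ^ 2)).encard + ((R + 1 : ℕ) * (C2 O S R).encard +
        (P.card * (R + 1) ^ 2 : ℕ) * (C2 O S 1).encard) := by
      rw [Finset.sum_add_distrib]
      exact add_le_add hS1 hS2
    _ = _ := by rw [add_assoc]

end Pool.Agent.HoloQUE
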