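import Pool.Agent.Work.MP_d2a4bb_nt.NC.Basic

/-!
# Item Mb1: triples for one prime, second type.  Author: helper73
-/

set_option autoImplicit false

open MeasureTheory UpperHalfPlane Matrix
open scoped MatrixGroups ModularForm Manifold ENNReal Classical

noncomputable section

namespace Pool.Agent.HoloQUE

namespace XMb1

/-- the element `x⁻¹ γ y` -/
def w (t : G2 × G2 × G2) : G2 := t.1⁻¹ * t.2.2 * t.2.1

theorem w_eq (t : G2 × G2 × G2) : t.1 * w t = t.2.2 * t.2.1 := by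
  unfold w
  group

theorem det_w {O : Subring Mat} {n : ℕ} (hn : 0 < n) {t : G2 × G2 × G2} (hx : t.1 ∈ Rn O n)
    (hy : t.2.1 ∈ Rn O n) (hg : t.2.2 ∈ normOne O) : (w t : Mat).det = 1 := by
  have h := congrArg (fun g : G2 => (g : Mat).det) (w_eq t)
  simp only [Units.val_mul, Matrix.det_mul] at h
  rw [hx.2, hy.2, hg.2.2, one_mul] at h
  have hn' : (n : ℝ) ≠ 0 := by exact_mod_cast hn.ne'
  exact mul_left_cancel₀ hn' (by rw [h, mul_one])

theorem adj_w {O : Subring Mat} {n : ℕ} {t : G2 × G2 × G2} (hx : t.1 ∈ Rn O n) :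
    (t.1 : Mat).adjugate * (t.2.2 : Mat) * (t.2.1 : Mat) = (n : ℝ) • (w t : Mat) := by
  have h := congrArg (fun g : G2 => (t.1 : Mat).adjugate * (g : Mat)) (w_eq t)
  simp only [Units.val_mul] at h
  rw [mul_assoc, ← h, ← mul_assoc, adj_mul_self, hx.2, smul_mul_assoc, one_mul]

theorem fin {O : Subring Mat} {E : Finset G2} {S : Set G2} (hI : Ineq O E)
    {t t' : G2 × G2 × G2} (ht : t ∈ Tri O E S) (ht' : t' ∈ Tri O E S) (hy : t.2.1 = t'.2.1)
    (hw : w t = w t') : t = t' := by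
  obtain ⟨x, y, g⟩ := t
  obtain ⟨x', y', g'⟩ := t'
  simp only at hy
  subst hy
  have h1 : x⁻¹ * g = x'⁻¹ * g' := mul_right_cancel hw
  have h2 : x' * x⁻¹ = g' * g⁻¹ := by
    have e : x' * (x⁻¹ * g) * g⁻¹ = x' * (x'⁻¹ * g') * g⁻¹ := by rw [h1]
    calc x' * x⁻¹ = x' * (x⁻¹ * g) * g⁻¹ := by group
      _ = x' * (x'⁻¹ * g') * g⁻¹ := e
      _ = g' * g⁻¹ := by group
  have h3 : x' * x⁻¹ ∈ normOne O := by
    rw [h2]
    exact mul_mem ht'.2.2.1 (inv_mem ht.2.2.1)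
  have h4 : x' = x := hI x ht.1 x' ht'.1 h3
  subst h4
  have h5 : g = g' := mul_left_cancel h1
  rw [h5]

/-- cancel the scalar -/
theorem smul_cancel {a : ℝ} (ha : a ≠ 0) {x y : Mat} (h : a • x = a • y) : x = y :=
  smul_right_injective Mat ha h

theorem sc_mem {S : Set G2} (hS : ScInv S) (a : ℝˣ) {g : G2} (hg : g ∈ S) :
    GeneralLinearGroup.scalar (Fin 2) a * g ∈ S := hS a g hg

theorem sc_coe (a : ℝˣ) (g : G2) :
    ((GeneralLinearGroup.scalar (Fin 2) a * g : G2) : Mat) = (a : ℝ) • (g : Mat) := by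
  rw [Units.val_mul, coe_scalar, smul_mul_assoc, one_mul]

end XMb1

open XMb1

theorem prf_Mb1 (h1 : S_L1) (h2 : S_L2) (h3 : S_NBi) : S_Mb1 := by
  intro O p A S hO hp hS hA hc
  obtain ⟨hN, hI, -, hNc⟩ := h3 O p A hO hp hA
  have hp0 : (p : ℝ) ≠ 0 := by exact_mod_cast hp.prime.ne_zero
  have hpp : 0 < p ^ 2 := pow_pos hp.prime.pos 2
  have hdec : ∀ y : G2, ∃ q : G2 × G2, y ∈ NB O p A →
      q.1 ∈ A ∧ q.2 ∈ A ∧ ¬ Dv O p ((q.1 * q.2 : G2) : Mat) ∧ q.1 * q.2 = y := by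
    intro y
    by_cases hy : y ∈ NB O p A
    · unfold NB at hy
      rw [Finset.mem_image] at hy
      obtain ⟨q, hq, hqy⟩ := hy
      rw [Finset.mem_filter, Finset.mem_product] at hq
      exact ⟨q, fun _ => ⟨hq.1.1, hq.1.2, hq.2, hqy⟩⟩
    · exact ⟨(1, 1), fun h => absurd h hy⟩
  choose dec hd using hdec
  set T := Tri O (NB O p A) S with hT
  -- facts on all triples
  have fdet : ∀ t ∈ T, (w t : Mat).det = 1 := fun t ht =>
    det_w hpp (hN _ ht.1) (hN _ ht.2.1) ht.2.2.1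
  have fadj : ∀ t ∈ T, (t.1 : Mat).adjugate * (t.2.2 : Mat) * (t.2.1 : Mat) =
      ((p : ℝ) ^ 2) • (w t : Mat) := by
    intro t ht
    have h := adj_w (hN _ ht.1)
    rw [h]
    push_cast
    rfl
  have fO : ∀ t ∈ T, (t.1 : Mat).adjugate * (t.2.2 : Mat) ∈ O := fun t ht =>
    O.mul_mem (hO.adj_mem (hN _ ht.1).1) ht.2.2.1.1
  have fmem : ∀ t ∈ T, ((p : ℝ) ^ 2) • (w t : Mat) ∈ O := by
    intro t ht
    rw [← fadj t ht]
    exact O.mul_mem (fO t ht) (hN _ ht.2.1).1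
  have fS : ∀ t ∈ T, w t ∈ S := fun t ht => ht.2.2.2
  set u1 : ℝˣ := Units.mk0 (p : ℝ) hp0 with hu1
  set u2 : ℝˣ := Units.mk0 ((p : ℝ) ^ 2) (pow_ne_zero 2 hp0) with hu2
  have cu1 : (u1 : ℝ) = p := rfl
  have cu2 : (u2 : ℝ) = (p : ℝ) ^ 2 := rfl
  set T1 : Set (G2 × G2 × G2) := {t | t ∈ T ∧ ¬ Dv O p (((p : ℝ) ^ 2) • (w t : Mat))} with hT1
  set T2 : Set (G2 × G2 × G2) := {t | t ∈ T ∧ (p : ℝ) • (w t : Mat) ∈ O ∧
    ¬ Dv O p ((p : ℝ) • (w t : Mat))} with hT2
  set T3 : Set (G2 × G2 × G2) := {t | t ∈ T ∧ (w t : Mat) ∈ O} with hT3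
  have hsub : T ⊆ T1 ∪ T2 ∪ T3 := by
    intro t ht
    by_cases a1 : Dv O p (((p : ℝ) ^ 2) • (w t : Mat))
    · obtain ⟨z, hz, hz'⟩ := a1
      have e1 : (p : ℝ) • (w t : Mat) = z := by
        apply smul_cancel hp0
        rw [← hz', smul_smul, pow_two]
      by_cases a2 : Dv O p ((p : ℝ) • (w t : Mat))
      · obtain ⟨z', hz1, hz1'⟩ := a2
        have e2 : (w t : Mat) = z' := smul_cancel hp0 hz1'
        right
        exact ⟨ht, by rw [e2]; exact hz1⟩
      · left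
        right
        exact ⟨ht, by rw [e1]; exact hz, a2⟩
    · left
      left
      exact ⟨ht, a1⟩
  -- class 1
  have c1 : T1.encard ≤ (C0 O S (p ^ 4)).encard := by
    apply Set.encard_le_encard_of_injOn (f := fun t => GeneralLinearGroup.scalar (Fin 2) u2 * w t)
    · rintro t ⟨ht, -⟩
      refine ⟨sc_mem hS u2 (fS t ht), ?_, ?_⟩
      · rw [sc_coe, cu2]
        exact fmem t ht
      · rw [sc_coe, cu2, det_smul2, fdet t ht]
        push_cast
        ring
    · rintro t ⟨ht, hnd⟩ t' ⟨ht', hnd'⟩ he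
      have hw : w t = w t' := mul_left_cancel he
      obtain ⟨q1, q2, q3, q4⟩ := hd t.2.1 ht.2.1
      obtain ⟨r1, r2, r3, r4⟩ := hd t'.2.1 ht'.2.1
      set y1 := (dec t.2.1).1
      set y2 := (dec t.2.1).2
      set z1 := (dec t'.2.1).1
      set z2 := (dec t'.2.1).2
      have e1 : ((p : ℝ) ^ 2) • (w t : Mat) =
          ((t.1 : Mat).adjugate * (t.2.2 : Mat) * (y1 : Mat)) * (y2 : Mat) := by
        rw [← fadj t ht, ← q4, Units.val_mul, ← mul_assoc]
      have e2 : ((p : ℝ) ^ 2) • (w t : Mat) =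
          ((t'.1 : Mat).adjugate * (t'.2.2 : Mat) * (z1 : Mat)) * (z2 : Mat) := by
        rw [hw, ← fadj t' ht', ← r4, Units.val_mul, ← mul_assoc]
      have o1 : (t.1 : Mat).adjugate * (t.2.2 : Mat) * (y1 : Mat) ∈ O :=
        O.mul_mem (fO t ht) (hA.mem _ q1).1
      have o2 : (t'.1 : Mat).adjugate * (t'.2.2 : Mat) * (z1 : Mat) ∈ O :=
        O.mul_mem (fO t' ht') (hA.mem _ r1).1
      have k1 := h1 O p y2 z2 _ _ _ hO hp (hA.mem _ q2) (hA.mem _ r2) (fmem t ht) o1 o2 hnd e1 e2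
      have k2 : z2 = y2 := hA.uniq _ q2 _ r2 k1
      have e3 : (t.1 : Mat).adjugate * (t.2.2 : Mat) * (y1 : Mat) =
          (t'.1 : Mat).adjugate * (t'.2.2 : Mat) * (z1 : Mat) := by
        have e4 := e1.symm.trans e2
        rw [k2] at e4
        have e5 := congrArg (fun m : Mat => m * ((y2⁻¹ : G2) : Mat)) e4
        simp only [mul_assoc] at e5
        rw [← Units.val_mul, mul_inv_cancel, Units.val_one, mul_one, mul_one] at e5
        simpa only [mul_assoc] using e5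
      have hnu : ¬ Dv O p ((t.1 : Mat).adjugate * (t.2.2 : Mat) * (y1 : Mat)) := by
        rintro ⟨m, hm, hm'⟩
        apply hnd
        refine ⟨m * (y2 : Mat), O.mul_mem hm (hA.mem _ q2).1, ?_⟩
        rw [e1, hm', smul_mul_assoc]
      have k3 := h1 O p y1 z1 _ _ _ hO hp (hA.mem _ q1) (hA.mem _ r1) o1 (fO t ht) (fO t' ht')
        hnu rfl e3
      have k4 : z1 = y1 := hA.uniq _ q1 _ r1 k3
      apply fin hI ht ht' _ hw
      rw [← q4, ← r4, k2, k4]
  -- class 2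
  have c2 : T2.encard ≤ (p + 1 : ℕ) * (C0 O S (p ^ 2)).encard := by
    have c2' : T2.encard ≤ ((A : Set G2) ×ˢ (C0 O S (p ^ 2))).encard := by
      apply Set.encard_le_encard_of_injOn
        (f := fun t => ((dec t.2.1).1, GeneralLinearGroup.scalar (Fin 2) u1 * w t))
      · rintro t ⟨ht, hm, -⟩
        obtain ⟨q1, q2, q3, q4⟩ := hd t.2.1 ht.2.1
        refine ⟨q1, sc_mem hS u1 (fS t ht), ?_, ?_⟩
        · rw [sc_coe, cu1]
          exact hm
        · rw [sc_coe, cu1, det_smul2, fdet t ht]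
          push_cast
          ring
      · rintro t ⟨ht, hm, hnd⟩ t' ⟨ht', hm', hnd'⟩ he
        have he1 : (dec t.2.1).1 = (dec t'.2.1).1 := (Prod.mk.inj he).1
        have hw : w t = w t' := mul_left_cancel (Prod.mk.inj he).2
        have key : ∀ s ∈ T, (p : ℝ) • (w s : Mat) ∈ O →
            ∃ m ∈ O, (p : ℝ) • (w s : Mat) = m * ((dec s.2.1).2 : Mat) := by
          intro s hs hsm
          obtain ⟨q1, q2, q3, q4⟩ := hd s.2.1 hs.2.1
          have e1 : ((p : ℝ) • (w s : Mat)) * (((dec s.2.1).2 : G2) : Mat).adjugate *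
              (((dec s.2.1).1 : G2) : Mat).adjugate =
              (p : ℝ) • ((s.1 : Mat).adjugate * (s.2.2 : Mat)) := by
            apply smul_cancel hp0
            rw [mul_assoc, ← adj_mul, ← Units.val_mul, q4, smul_mul_assoc, smul_smul, smul_smul,
              ← pow_two, ← smul_mul_assoc, ← fadj s hs, mul_assoc, mul_adj, (hN _ hs.2.1).2,
              mul_smul_comm, mul_one]
            push_cast
            rfl
          have k := h2 O p (dec s.2.1).1 (dec s.2.1).2 _ hO hp (hA.mem _ q1) (hA.mem _ q2) hsm q3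
            ⟨_, fO s hs, e1⟩
          obtain ⟨m, hm, hm'⟩ := k
          refine ⟨m, hm, ?_⟩
          apply smul_cancel hp0
          have e2 := congrArg (fun a : Mat => a * (((dec s.2.1).2 : G2) : Mat)) hm'
          rw [mul_assoc, adj_mul_self, (hA.mem _ q2).2, mul_smul_comm, mul_one,
            smul_mul_assoc] at e2
          exact e2
        obtain ⟨q1, q2, q3, q4⟩ := hd t.2.1 ht.2.1
        obtain ⟨r1, r2, r3, r4⟩ := hd t'.2.1 ht'.2.1
        obtain ⟨m, hmO, hme⟩ := key t ht hm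
        obtain ⟨m', hmO', hme'⟩ := key t' ht' hm'
        rw [← hw] at hme'
        have k1 := h1 O p _ _ _ _ _ hO hp (hA.mem _ q2) (hA.mem _ r2) hm hmO hmO' hnd hme hme'
        have k2 := hA.uniq _ q2 _ r2 k1
        apply fin hI ht ht' _ hw
        rw [← q4, ← r4, k2, he1]
    rw [Set.encard_prod, Set.encard_coe_eq_coe_finsetCard, hc] at c2'
    exact c2'
  -- class 3
  have c3 : T3.encard ≤ ((p + 1) ^ 2 : ℕ) * (C0 O S 1).encard := by
    have c3' : T3.encard ≤ ((NB O p A : Set G2) ×ˢ (C0 O S 1)).encard := by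
      apply Set.encard_le_encard_of_injOn (f := fun t => (t.2.1, w t))
      · rintro t ⟨ht, hm⟩
        refine ⟨ht.2.1, fS t ht, hm, ?_⟩
        rw [fdet t ht, Nat.cast_one]
      · rintro t ⟨ht, hm⟩ t' ⟨ht', hm'⟩ he
        exact fin hI ht ht' (Prod.mk.inj he).1 (Prod.mk.inj he).2
    rw [Set.encard_prod, Set.encard_coe_eq_coe_finsetCard] at c3'
    refine c3'.trans ?_
    rw [hc] at hNc
    have : ((NB O p A).card : ℕ∞) ≤ (((p + 1) ^ 2 : ℕ) : ℕ∞) := by exact_mod_cast hNc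
    gcongr
  calc T.encard ≤ (T1 ∪ T2 ∪ T3).encard := Set.encard_le_encard hsub
    _ ≤ (T1 ∪ T2).encard + T3.encard := Set.encard_union_le _ _
    _ ≤ T1.encard + T2.encard + T3.encard := by
        gcongr
        exact Set.encard_union_le _ _
    _ ≤ _ := by gcongr

end Pool.Agent.HoloQUE
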