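import Pool.Agent.Work.MP_d2a4bb_nt.NC.Basic

/-!
# Item Mx: triples for coprime norms
-/

set_option autoImplicit false

open MeasureTheory UpperHalfPlane Matrix
open scoped MatrixGroups ModularForm Manifold ENNReal Classical

noncomputable section

namespace Pool.Agent.HoloQUE

namespace XMx

variable {O : Subring Mat}

/-- the inverse of an element of norm `n`, times `n` -/
theorem smul_inv {n : ℕ} (hn : 0 < n) {x : G2} (hx : x ∈ Rn O n) :
    ((x⁻¹ : G2) : Mat) = (n : ℝ)⁻¹ • (x : Mat).adjugate := by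
  rw [coe_inv, hx.2]

/-- the second component is determined -/
theorem snd_unique (hO : QOrder O) {n n' : ℕ} (hn : 0 < n) (hc : n.Coprime n')
    {x x' y y' g g' : G2} (hx : x ∈ Rn O n) (hx' : x' ∈ Rn O n) (hy : y ∈ Rn O n')
    (hy' : y' ∈ Rn O n') (hg : g ∈ normOne O) (hg' : g' ∈ normOne O)
    (h : x⁻¹ * g * y = x'⁻¹ * g' * y') : y' * y⁻¹ ∈ normOne O := by
  have hn0 : (n : ℝ) ≠ 0 := by positivity
  have h1 : y' = g'⁻¹ * x' * x⁻¹ * g * y := by
    have : g'⁻¹ * x' * (x⁻¹ * g * y) = y' := by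
      rw [h]
      group
    rw [← this]
    group
  obtain ⟨a, c, hac⟩ : ∃ a c : ℤ, a * n + c * n' = 1 := by
    have h2 := Nat.isCoprime_iff_coprime.mpr hc
    obtain ⟨a, c, h3⟩ := h2
    exact ⟨a, c, h3⟩
  have hac' : (a : ℝ) * n + (c : ℝ) * n' = 1 := by exact_mod_cast hac
  have e1 : (n : ℝ) • (y' : Mat) =
      (((g'⁻¹ : G2) : Mat) * (x' : Mat) * (x : Mat).adjugate * (g : Mat)) * (y : Mat) := by
    have h2 : (y' : Mat) = ((g'⁻¹ : G2) : Mat) * (x' : Mat) * ((x⁻¹ : G2) : Mat) * (g : Mat) *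
        (y : Mat) := by
      conv_lhs => rw [h1]
      simp only [Units.val_mul]
    rw [h2, smul_inv hn hx]
    simp only [mul_smul_comm, smul_mul_assoc]
    rw [smul_smul, mul_inv_cancel₀ hn0, one_smul]
  have e2 : (n' : ℝ) • (y' : Mat) = ((y' : Mat) * (y : Mat).adjugate) * (y : Mat) := by
    rw [mul_assoc, adj_mul_self, hy.2, mul_smul_comm, mul_one]
  have e3 : (y' : Mat) = ((a : ℝ) • (((g'⁻¹ : G2) : Mat) * (x' : Mat) * (x : Mat).adjugate *
      (g : Mat)) + (c : ℝ) • ((y' : Mat) * (y : Mat).adjugate)) * (y : Mat) := by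
    rw [add_mul, smul_mul_assoc, smul_mul_assoc, ← e1, ← e2, smul_smul, smul_smul, ← add_smul,
      hac', one_smul]
  refine hO.normOne_of_eq ?_ e3 ?_
  · refine O.add_mem (int_smul_mem a ?_) (int_smul_mem c ?_)
    · exact O.mul_mem (O.mul_mem (O.mul_mem hg'.2.1 hx'.1) (hO.adj_mem hx.1)) hg.1
    · exact O.mul_mem hy'.1 (hO.adj_mem hy.1)
  · rw [hy.2, hy'.2]

end XMx

open XMx in
/-- item `S_Mx` -/
theorem prf_Mx : S_Mx := by
  intro O n n' E E' S hO hS hn hn' hc hE hE' hI hI'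
  have hn0 : (n : ℝ) ≠ 0 := by positivity
  let u : ℝˣ := Units.mk0 (n : ℝ) hn0
  let f : G2 × G2 × G2 → G2 := fun t =>
    GeneralLinearGroup.scalar (Fin 2) u * (t.1⁻¹ * t.2.2 * t.2.1)
  refine Set.encard_le_encard_of_injOn (f := f) ?_ ?_
  · rintro ⟨x, y, g⟩ ⟨hx, hy, hg, hs⟩
    simp only at hx hy hg hs
    have hxR := hE x hx
    have hyR := hE' y hy
    have hf : ((f (x, y, g) : G2) : Mat) = (x : Mat).adjugate * (g : Mat) * (y : Mat) := by
      show ((GeneralLinearGroup.scalar (Fin 2) u * (x⁻¹ * g * y) : G2) : Mat) = _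
      rw [Units.val_mul, coe_scalar, Units.val_mul, Units.val_mul, smul_inv hn hxR]
      simp only [smul_mul_assoc, one_mul]
      rw [smul_smul]
      show ((n : ℝ) * (n : ℝ)⁻¹) • _ = _
      rw [mul_inv_cancel₀ hn0, one_smul]
    refine ⟨hS u _ hs, ?_, ?_⟩
    · rw [hf]
      exact O.mul_mem (O.mul_mem (hO.adj_mem hxR.1) hg.1) hyR.1
    · rw [hf, Matrix.det_mul, Matrix.det_mul, det_adj, hxR.2, hyR.2, hg.2.2]
      push_cast
      ring
  · rintro ⟨x, y, g⟩ ⟨hx, hy, hg, hs⟩ ⟨x', y', g'⟩ ⟨hx', hy', hg', hs'⟩ h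
    simp only at hx hy hg hs hx' hy' hg' hs'
    have h1 : x⁻¹ * g * y = x'⁻¹ * g' * y' := mul_left_cancel h
    have h2 := snd_unique hO hn hc (hE x hx) (hE x' hx') (hE' y hy) (hE' y' hy') hg hg' h1
    have h3 : y' = y := hI' y hy y' hy' h2
    subst h3
    have h4 : x⁻¹ * g = x'⁻¹ * g' := mul_right_cancel h1
    have h5 : x' * x⁻¹ = g' * g⁻¹ := by
      have : x' * (x⁻¹ * g) * g⁻¹ = x' * (x'⁻¹ * g') * g⁻¹ := by rw [h4]
      simpa [mul_assoc] using this
    have h6 : x' = x := hI x hx x' hx' (by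
      rw [h5]
      exact (normOne O).mul_mem hg' ((normOne O).inv_mem hg))
    subst h6
    have h7 : g = g' := mul_left_cancel h4
    subst h7
    rfl

end Pool.Agent.HoloQUE
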