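import Pool.Agent.Work.MP_d2a4bb_nt.NC.Basic

/-!
# Item NBi (helper9): the primitive products
-/

set_option autoImplicit false

open MeasureTheory UpperHalfPlane Matrix
open scoped MatrixGroups ModularForm Manifold ENNReal Classical

noncomputable section

namespace Pool.Agent.HoloQUE

namespace XNBi

/-- the key step: a primitive product determines its factors -/
theorem key (h1 : S_L1) {O : Subring Mat} {p : ℕ} {A : Finset G2} (hO : QOrder O)
    (hp : Good O p) (hA : Reps O p A) {x y x' y' : G2} (hx : x ∈ A) (hy : y ∈ A) (hx' : x' ∈ A)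
    (hy' : y' ∈ A) (hn : ¬ Dv O p ((x' * y' : G2) : Mat))
    (hg : (x' * y') * (x * y)⁻¹ ∈ normOne O) : x' = x ∧ y' = y := by
  have mx := hA.mem x hx
  have my := hA.mem y hy
  have mx' := hA.mem x' hx'
  have my' := hA.mem y' hy'
  set g : G2 := (x' * y') * (x * y)⁻¹ with hgdef
  have e1 : (x' * y' : G2) = (g * x) * y := by
    rw [hgdef]
    group
  have hu : ((g * x : G2) : Mat) ∈ O := by
    rw [Units.val_mul]
    exact O.mul_mem hg.1 mx.1
  have hb : ((x' * y' : G2) : Mat) ∈ O := by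
    rw [Units.val_mul]
    exact O.mul_mem mx'.1 my'.1
  have h2 : y' * y⁻¹ ∈ normOne O := by
    refine h1 O p y y' ((x' * y' : G2) : Mat) ((g * x : G2) : Mat) (x' : Mat) hO hp my my' hb hu
      mx'.1 hn ?_ ?_
    · rw [e1, Units.val_mul]
    · rw [Units.val_mul]
  have h3 : y' = y := hA.uniq y hy y' hy' h2
  subst h3
  have h4 : x' * x⁻¹ ∈ normOne O := by
    have h5 : (x' * y') * (x * y')⁻¹ = x' * x⁻¹ := by group
    rw [← h5]
    exact hg
  exact ⟨hA.uniq x hx x' hx' h4, rfl⟩

theorem one_norm (O : Subring Mat) : (1 : G2) ∈ normOne O := (normOne O).one_mem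

end XNBi

open XNBi in
theorem prf_NBi (h1 : S_L1) : S_NBi := by
  intro O p A hO hp hA
  refine ⟨?_, ?_, ?_, ?_⟩
  · intro z hz
    rw [NB, Finset.mem_image] at hz
    obtain ⟨t, ht, rfl⟩ := hz
    rw [Finset.mem_filter, Finset.mem_product] at ht
    have m1 := hA.mem _ ht.1.1
    have m2 := hA.mem _ ht.1.2
    refine ⟨?_, ?_⟩
    · rw [Units.val_mul]
      exact O.mul_mem m1.1 m2.1
    · rw [Units.val_mul, Matrix.det_mul, m1.2, m2.2]
      push_cast
      ring
  · intro a ha b hb hab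
    rw [NB, Finset.mem_image] at ha hb
    obtain ⟨t, ht, rfl⟩ := ha
    obtain ⟨s, hs, rfl⟩ := hb
    rw [Finset.mem_filter, Finset.mem_product] at ht hs
    obtain ⟨e1, e2⟩ := key h1 hO hp hA ht.1.1 ht.1.2 hs.1.1 hs.1.2 hs.2 hab
    rw [e1, e2]
  · intro F
    rw [NB, Finset.sum_image]
    intro t ht s hs hts
    rw [Finset.mem_coe, Finset.mem_filter, Finset.mem_product] at ht hs
    have hts' : t.1 * t.2 = s.1 * s.2 := hts
    have hg : (s.1 * s.2) * (t.1 * t.2)⁻¹ ∈ normOne O := by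
      rw [hts', mul_inv_cancel]
      exact one_norm O
    obtain ⟨e1, e2⟩ := key h1 hO hp hA ht.1.1 ht.1.2 hs.1.1 hs.1.2 hs.2 hg
    exact Prod.ext e1.symm e2.symm
  · rw [NB]
    refine Finset.card_image_le.trans ((Finset.card_filter_le _ _).trans ?_)
    rw [Finset.card_product, sq]

end Pool.Agent.HoloQUE
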