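import Pool.Agent.Work.MP_d2a4bb_nt.NC.Basic

/-!
# Item S1: counting almost diagonal and almost antidiagonal elements
-/

set_option autoImplicit false

open MeasureTheory UpperHalfPlane Matrix
open scoped MatrixGroups ModularForm Manifold ENNReal Classical

noncomputable section

namespace Pool.Agent.HoloQUE

namespace XS1

/-- two elements of `O` whose difference has determinant less than one in modulus are equal -/
theorem eq_of {O : Subring Mat} (hO : QOrder O) {x y : Mat} (hx : x ∈ O) (hy : y ∈ O)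
    (h : |(x - y).det| < 1) : x = y := by
  have hm : x - y ∈ O := O.sub_mem hx hy
  obtain ⟨n, hn⟩ := hO.dt _ hm
  have h0 : n = 0 := by
    rw [hn] at h
    have h1 : |n| < 1 := by exact_mod_cast h
    exact Int.abs_lt_one_iff.1 h1
  by_contra hne
  exact hO.ne _ hm (sub_ne_zero.2 hne) (by rw [hn, h0, Int.cast_zero])

theorem card_Icc_le {M : ℝ} (hM : 0 ≤ M) :
    ((Finset.Icc ⌊-(4 * M)⌋ ⌊4 * M⌋).card : ℝ) ≤ 8 * M + 3 := by
  rw [Int.card_Icc]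
  have h1 : ((⌊4 * M⌋ + 1 - ⌊-(4 * M)⌋ : ℤ) : ℝ) ≤ 8 * M + 3 := by
    push_cast
    have h2 := Int.floor_le (4 * M)
    have h3 := Int.lt_floor_add_one (-(4 * M))
    linarith
  have h4 : (0 : ℤ) ≤ ⌊4 * M⌋ + 1 - ⌊-(4 * M)⌋ := by
    have h5 : ⌊-(4 * M)⌋ ≤ ⌊4 * M⌋ := Int.floor_le_floor (by linarith)
    omega
  have h6 : (((⌊4 * M⌋ + 1 - ⌊-(4 * M)⌋).toNat : ℤ) : ℝ) ≤ 8 * M + 3 := by
    rw [Int.toNat_of_nonneg h4]
    exact h1
  exact_mod_cast h6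

/-- counting by cells in two coordinates -/
theorem count (S : Set G2) (u v : G2 → ℝ) (M : ℝ) (hM : 0 ≤ M) (hu : ∀ g ∈ S, |u g| ≤ M)
    (hv : ∀ g ∈ S, |v g| ≤ M)
    (hinj : ∀ g ∈ S, ∀ g' ∈ S, |u g - u g'| < 1 / 4 → |v g - v g'| < 1 / 4 → g = g') :
    S.Finite ∧ (S.ncard : ℝ) ≤ (8 * M + 3) ^ 2 := by
  set J := Finset.Icc ⌊-(4 * M)⌋ ⌊4 * M⌋ with hJ
  have hmem : ∀ t : ℝ, |t| ≤ M → ⌊4 * t⌋ ∈ J := by
    intro t ht
    rw [hJ, Finset.mem_Icc]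
    have h1 := abs_le.1 ht
    exact ⟨Int.floor_le_floor (by linarith [h1.1]), Int.floor_le_floor (by linarith [h1.2])⟩
  have hmaps : Set.MapsTo (fun g => (⌊4 * u g⌋, ⌊4 * v g⌋)) S ((J ×ˢ J : Finset (ℤ × ℤ)) : Set _) := by
    intro g hg
    rw [Finset.mem_coe, Finset.mem_product]
    exact ⟨hmem _ (hu g hg), hmem _ (hv g hg)⟩
  have hio : Set.InjOn (fun g => (⌊4 * u g⌋, ⌊4 * v g⌋)) S := by
    intro g hg g' hg' h
    rw [Prod.mk.injEq] at h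
    have h1 := Int.abs_sub_lt_one_of_floor_eq_floor h.1
    have h2 := Int.abs_sub_lt_one_of_floor_eq_floor h.2
    rw [← mul_sub, abs_mul, abs_of_pos (by norm_num : (0 : ℝ) < 4)] at h1 h2
    exact hinj g hg g' hg' (by linarith) (by linarith)
  have hfin : S.Finite := Set.Finite.of_injOn hmaps hio (Finset.finite_toSet _)
  refine ⟨hfin, ?_⟩
  have h3 : S.ncard ≤ ((J ×ˢ J : Finset (ℤ × ℤ)) : Set (ℤ × ℤ)).ncard :=
    Set.ncard_le_ncard_of_injOn _ hmaps hio (Finset.finite_toSet _)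
  rw [Set.ncard_coe_finset, Finset.card_product] at h3
  have h4 := card_Icc_le hM
  rw [← hJ] at h4
  calc (S.ncard : ℝ) ≤ ((J.card * J.card : ℕ) : ℝ) := by exact_mod_cast h3
    _ = (J.card : ℝ) * J.card := by push_cast; ring
    _ ≤ (8 * M + 3) * (8 * M + 3) := mul_le_mul h4 h4 (Nat.cast_nonneg _) (by linarith)
    _ = (8 * M + 3) ^ 2 := by ring

/-- the bound for the entries -/
theorem entry (h1 : S_Geo) {g : G2} {X : ℝ} (hg : g ∈ Sb I 8) (hX : (g : Mat).det ≤ X)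
    (i j : Fin 2) : |(g : Mat) i j| ≤ √(2 * Real.cosh 8) * √X := by
  obtain ⟨hd, hdist⟩ := hg
  obtain ⟨e1, e2⟩ := h1 g hd
  have hc : Real.cosh (dist (g • I) I) ≤ Real.cosh 8 := by
    rw [Real.cosh_le_cosh, abs_of_nonneg dist_nonneg, abs_of_pos (by norm_num : (0 : ℝ) < 8)]
    exact hdist
  have hc0 : (0 : ℝ) < Real.cosh 8 := Real.cosh_pos 8
  have hX0 : 0 ≤ X := hd.le.trans hX
  have hs : (g : Mat) 0 0 ^ 2 + (g : Mat) 0 1 ^ 2 + (g : Mat) 1 0 ^ 2 + (g : Mat) 1 1 ^ 2 ≤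
      2 * Real.cosh 8 * X := by
    have h2 : (g : Mat).det * Real.cosh (dist (g • I) I) ≤ X * Real.cosh 8 :=
      mul_le_mul hX hc (Real.cosh_pos _).le hX0
    nlinarith [h2, e1, e2]
  rw [← Real.sqrt_mul (by positivity)]
  apply Real.abs_le_sqrt
  have h3 : (g : Mat) i j ^ 2 ≤
      (g : Mat) 0 0 ^ 2 + (g : Mat) 0 1 ^ 2 + (g : Mat) 1 0 ^ 2 + (g : Mat) 1 1 ^ 2 := by
    have := sq_nonneg ((g : Mat) 0 0)
    have := sq_nonneg ((g : Mat) 0 1)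
    have := sq_nonneg ((g : Mat) 1 0)
    have := sq_nonneg ((g : Mat) 1 1)
    fin_cases i <;> fin_cases j <;> simp only [Fin.zero_eta, Fin.mk_one, Fin.isValue] <;> linarith
  exact h3.trans hs

theorem small {κ X d t : ℝ} (hκ : 0 ≤ κ) (hc : κ * √X ≤ 1 / 8) (hd : d ≤ X)
    (ht : |t| ≤ κ * √d) : |t| ≤ 1 / 8 :=
  ht.trans ((mul_le_mul_of_nonneg_left (Real.sqrt_le_sqrt hd) hκ).trans hc)

theorem diff {a b : ℝ} (ha : |a| ≤ 1 / 8) (hb : |b| ≤ 1 / 8) : |a - b| ≤ 1 / 4 := by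
  rw [abs_le] at *
  constructor <;> linarith [ha.1, ha.2, hb.1, hb.2]

theorem det_small {a b c d : ℝ} (ha : |a| ≤ 1 / 4) (hb : |b| ≤ 1 / 4) (hc : |c| ≤ 1 / 4)
    (hd : |d| ≤ 1 / 4) : |a * d - b * c| < 1 := by
  have h1 : |a * d| ≤ 1 / 4 * (1 / 4) := by
    rw [abs_mul]
    exact mul_le_mul ha hd (abs_nonneg _) (by norm_num)
  have h2 : |b * c| ≤ 1 / 4 * (1 / 4) := by
    rw [abs_mul]
    exact mul_le_mul hb hc (abs_nonneg _) (by norm_num)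
  have h3 := abs_sub (a * d) (b * c)
  linarith

theorem eq_of_entries {O : Subring Mat} (hO : QOrder O) {g g' : G2} (hg : (g : Mat) ∈ O)
    (hg' : (g' : Mat) ∈ O) (h00 : |(g : Mat) 0 0 - (g' : Mat) 0 0| ≤ 1 / 4)
    (h01 : |(g : Mat) 0 1 - (g' : Mat) 0 1| ≤ 1 / 4)
    (h10 : |(g : Mat) 1 0 - (g' : Mat) 1 0| ≤ 1 / 4)
    (h11 : |(g : Mat) 1 1 - (g' : Mat) 1 1| ≤ 1 / 4) : g = g' := by
  apply ext_G2
  apply eq_of hO hg hg'
  rw [Matrix.det_fin_two]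
  simp only [Matrix.sub_apply]
  exact det_small h00 h01 h10 h11

end XS1

open XS1

/-- Item S1. -/
theorem prf_S1 (h1 : S_Geo) : S_S1 := by
  have hK : 0 ≤ √(2 * Real.cosh 8) := Real.sqrt_nonneg _
  refine ⟨(8 * √(2 * Real.cosh 8) + 3) ^ 2, 1 / 8, by positivity, by norm_num, ?_⟩
  intro O κ X hO hκ hc hX
  have hX1 : 1 ≤ √X := by
    rw [Real.one_le_sqrt]
    exact hX
  have hXX : √X ^ 2 = X := Real.sq_sqrt (by linarith)
  have hM : 0 ≤ √(2 * Real.cosh 8) * √X := by positivity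
  have hfin : (8 * (√(2 * Real.cosh 8) * √X) + 3) ^ 2 ≤ (8 * √(2 * Real.cosh 8) + 3) ^ 2 * X := by
    have h2 : 8 * (√(2 * Real.cosh 8) * √X) + 3 ≤ (8 * √(2 * Real.cosh 8) + 3) * √X := by
      nlinarith
    calc (8 * (√(2 * Real.cosh 8) * √X) + 3) ^ 2
        ≤ ((8 * √(2 * Real.cosh 8) + 3) * √X) ^ 2 := by
          apply pow_le_pow_left₀ (by positivity) h2
      _ = (8 * √(2 * Real.cosh 8) + 3) ^ 2 * X := by rw [mul_pow, hXX]
  have hp := count (C1 O (Sp κ) X) (fun g => (g : Mat) 0 0) (fun g => (g : Mat) 1 1) _ hM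
    (fun g hg => entry h1 hg.1.1 hg.2.2.2 0 0) (fun g hg => entry h1 hg.1.1 hg.2.2.2 1 1)
    (fun g hg g' hg' hu hv => eq_of_entries hO hg.2.1 hg'.2.1 hu.le
      (diff (small hκ hc hg.2.2.2 hg.1.2.1) (small hκ hc hg'.2.2.2 hg'.1.2.1))
      (diff (small hκ hc hg.2.2.2 hg.1.2.2) (small hκ hc hg'.2.2.2 hg'.1.2.2)) hv.le)
  have hm := count (C1 O (Sm κ) X) (fun g => (g : Mat) 0 1) (fun g => (g : Mat) 1 0) _ hM
    (fun g hg => entry h1 hg.1.1 hg.2.2.2 0 1) (fun g hg => entry h1 hg.1.1 hg.2.2.2 1 0)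
    (fun g hg g' hg' hu hv => eq_of_entries hO hg.2.1 hg'.2.1
      (diff (small hκ hc hg.2.2.2 hg.1.2.1) (small hκ hc hg'.2.2.2 hg'.1.2.1)) hu.le hv.le
      (diff (small hκ hc hg.2.2.2 hg.1.2.2) (small hκ hc hg'.2.2.2 hg'.1.2.2)))
  exact ⟨hp.1, hp.2.trans hfin, hm.1, hm.2.trans hfin⟩

end Pool.Agent.HoloQUE
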