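import Pool.Agent.Work.MP_d2a4bb_nt.NC.Basic

/-!
# Item Sm2: almost antidiagonal elements whose norm is a square
-/

set_option autoImplicit false

open MeasureTheory UpperHalfPlane Matrix
open scoped MatrixGroups ModularForm Manifold ENNReal Classical

noncomputable section

namespace Pool.Agent.HoloQUE

namespace XSm2

theorem mul_le2 {x y X Y : ℝ} (hx : |x| ≤ X) (hy : |y| ≤ Y) : |x * y| ≤ X * Y := by
  rw [abs_mul]
  exact mul_le_mul hx hy (abs_nonneg _) ((abs_nonneg _).trans hx)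

/-- The area of a triangle of points on the hyperbola. -/
theorem P_bound {m K A l a1 b1 c1 a2 b2 c2 a3 b3 c3 : ℝ} (hm : 1 ≤ m) (hK : 1 ≤ K)
    (hA0 : 0 ≤ A) (hA : A * K ^ 3 ≤ 1 / 100)
    (e1 : b1 * c1 = -m ^ 2 - a1 ^ 2) (e2 : b2 * c2 = -m ^ 2 - a2 ^ 2)
    (e3 : b3 * c3 = -m ^ 2 - a3 ^ 2)
    (ha1 : |a1| ≤ A) (ha2 : |a2| ≤ A) (ha3 : |a3| ≤ A)
    (hb1 : |b1| ≤ K * m) (hb2 : |b2| ≤ K * m) (hb3 : |b3| ≤ K * m)
    (lb1 : m ≤ K * |b1|) (lb2 : m ≤ K * |b2|) (lb3 : m ≤ K * |b3|)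
    (h12 : |b1 - b2| ≤ l) (h13 : |b1 - b3| ≤ l) (h23 : |b2 - b3| ≤ l)
    (hl : K ^ 3 * l ^ 3 ≤ m / 8) :
    |(b1 - b2) * (c1 - c3) - (b1 - b3) * (c1 - c2)| ≤ 13 / 100 := by
  have hl0 : 0 ≤ l := (abs_nonneg _).trans h12
  have hm0 : 0 < m := by linarith
  have hK0 : 0 < K := by linarith
  set P := (b1 - b2) * (c1 - c3) - (b1 - b3) * (c1 - c2) with hP
  have id : P * (b1 * b2 * b3) = m ^ 2 * ((b1 - b2) * (b1 - b3) * (b2 - b3)) +
      (a1 ^ 2 * (b2 * b3 * (b2 - b3)) + a2 ^ 2 * (b1 * b3 * (b3 - b1)) +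
        a3 ^ 2 * (b1 * b2 * (b1 - b2))) := by
    rw [hP]
    linear_combination (b2 * b3 * (b3 - b2)) * e1 + (b1 * b3 * (b1 - b3)) * e2 +
      (b1 * b2 * (b2 - b1)) * e3
  have hsub : ∀ u v : ℝ, |u| ≤ K * m → |v| ≤ K * m → |u - v| ≤ 2 * (K * m) := by
    intro u v hu hv
    have := abs_sub u v
    linarith
  have hsq : ∀ a : ℝ, |a| ≤ A → |a ^ 2| ≤ A ^ 2 := by
    intro a ha
    rw [sq, sq]
    exact mul_le2 ha ha
  have t0 : |m ^ 2 * ((b1 - b2) * (b1 - b3) * (b2 - b3))| ≤ m ^ 2 * (l * l * l) :=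
    mul_le2 (le_of_eq (abs_of_nonneg (sq_nonneg m))) (mul_le2 (mul_le2 h12 h13) h23)
  have t1 : |a1 ^ 2 * (b2 * b3 * (b2 - b3))| ≤ A ^ 2 * (K * m * (K * m) * (2 * (K * m))) :=
    mul_le2 (hsq _ ha1) (mul_le2 (mul_le2 hb2 hb3) (hsub _ _ hb2 hb3))
  have t2 : |a2 ^ 2 * (b1 * b3 * (b3 - b1))| ≤ A ^ 2 * (K * m * (K * m) * (2 * (K * m))) :=
    mul_le2 (hsq _ ha2) (mul_le2 (mul_le2 hb1 hb3) (hsub _ _ hb3 hb1))
  have t3 : |a3 ^ 2 * (b1 * b2 * (b1 - b2))| ≤ A ^ 2 * (K * m * (K * m) * (2 * (K * m))) :=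
    mul_le2 (hsq _ ha3) (mul_le2 (mul_le2 hb1 hb2) (hsub _ _ hb1 hb2))
  have hb : |P * (b1 * b2 * b3)| ≤ m ^ 2 * l ^ 3 + 6 * A ^ 2 * K ^ 3 * m ^ 3 := by
    rw [id]
    refine (abs_add_le _ _).trans ?_
    have := abs_add_le (a1 ^ 2 * (b2 * b3 * (b2 - b3)) + a2 ^ 2 * (b1 * b3 * (b3 - b1)))
      (a3 ^ 2 * (b1 * b2 * (b1 - b2)))
    have h2 := abs_add_le (a1 ^ 2 * (b2 * b3 * (b2 - b3))) (a2 ^ 2 * (b1 * b3 * (b3 - b1)))
    nlinarith [t0, t1, t2, t3]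
  have h3 : m ^ 3 ≤ K ^ 3 * |b1 * b2 * b3| := by
    have q1 : m * m ≤ (K * |b1|) * (K * |b2|) := mul_le_mul lb1 lb2 hm0.le (by positivity)
    have q2 : m * m * m ≤ (K * |b1|) * (K * |b2|) * (K * |b3|) :=
      mul_le_mul q1 lb3 hm0.le (by positivity)
    rw [abs_mul, abs_mul]
    calc m ^ 3 = m * m * m := by ring
      _ ≤ _ := q2
      _ = _ := by ring
  have h4 : |P| * m ^ 3 ≤ 13 / 100 * m ^ 3 := by
    have q1 : |P| * m ^ 3 ≤ |P| * (K ^ 3 * |b1 * b2 * b3|) :=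
      mul_le_mul_of_nonneg_left h3 (abs_nonneg _)
    have q2 : |P| * (K ^ 3 * |b1 * b2 * b3|) = K ^ 3 * |P * (b1 * b2 * b3)| := by
      rw [abs_mul P]; ring
    have q3 : K ^ 3 * |P * (b1 * b2 * b3)| ≤
        K ^ 3 * (m ^ 2 * l ^ 3 + 6 * A ^ 2 * K ^ 3 * m ^ 3) :=
      mul_le_mul_of_nonneg_left hb (by positivity)
    have q4 : K ^ 3 * (m ^ 2 * l ^ 3) ≤ m ^ 3 / 8 := by
      calc K ^ 3 * (m ^ 2 * l ^ 3) = m ^ 2 * (K ^ 3 * l ^ 3) := by ring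
        _ ≤ m ^ 2 * (m / 8) := mul_le_mul_of_nonneg_left hl (sq_nonneg m)
        _ = _ := by ring
    have q5 : (A * K ^ 3) ^ 2 ≤ (1 / 100) ^ 2 := pow_le_pow_left₀ (by positivity) hA 2
    have q6 : K ^ 3 * (6 * A ^ 2 * K ^ 3 * m ^ 3) ≤ 6 / 10000 * m ^ 3 := by
      calc K ^ 3 * (6 * A ^ 2 * K ^ 3 * m ^ 3) = 6 * (A * K ^ 3) ^ 2 * m ^ 3 := by ring
        _ ≤ 6 * (1 / 100) ^ 2 * m ^ 3 := by gcongr
        _ = _ := by ring
    have hm3 : 0 < m ^ 3 := by positivity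
    rw [mul_add] at q3
    linarith
  exact le_of_mul_le_mul_right h4 (by positivity)

theorem G_bound {m K A l a1 b1 c1 a2 b2 c2 a3 b3 c3 : ℝ} (hm : 1 ≤ m) (hK : 1 ≤ K)
    (hA0 : 0 ≤ A) (hA : A * m * K ^ 3 ≤ 1 / 100)
    (e1 : b1 * c1 = -m ^ 2 - a1 ^ 2) (e2 : b2 * c2 = -m ^ 2 - a2 ^ 2)
    (e3 : b3 * c3 = -m ^ 2 - a3 ^ 2)
    (ha1 : |a1| ≤ A) (ha2 : |a2| ≤ A) (ha3 : |a3| ≤ A)
    (hb1 : |b1| ≤ K * m) (hb2 : |b2| ≤ K * m) (hb3 : |b3| ≤ K * m)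
    (hc1 : |c1| ≤ K * m) (hc2 : |c2| ≤ K * m) (hc3 : |c3| ≤ K * m)
    (lb1 : m ≤ K * |b1|) (lb2 : m ≤ K * |b2|) (lb3 : m ≤ K * |b3|)
    (h12 : |b1 - b2| ≤ l) (h13 : |b1 - b3| ≤ l) (h23 : |b2 - b3| ≤ l)
    (hl : K ^ 3 * l ^ 3 ≤ m / 8) :
    |4 * (-(a1 - a2) ^ 2 - (b1 - b2) * (c1 - c2)) * (-(a1 - a3) ^ 2 - (b1 - b3) * (c1 - c3)) -
      (-2 * (a1 - a2) * (a1 - a3) - (b1 - b2) * (c1 - c3) - (b1 - b3) * (c1 - c2)) ^ 2| < 1 := by
  have hm0 : 0 < m := by linarith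
  have hK0 : 0 < K := by linarith
  have hK2 : 1 ≤ K ^ 2 := one_le_pow₀ hK
  have hA' : A * K ^ 3 ≤ 1 / 100 := by
    refine le_trans ?_ hA
    have : A * 1 ≤ A * m := mul_le_mul_of_nonneg_left hm hA0
    have h2 : A * 1 * K ^ 3 ≤ A * m * K ^ 3 := mul_le_mul_of_nonneg_right this (by positivity)
    linarith
  have hAKm : A * (K * m) ≤ 1 / 100 := by
    refine le_trans ?_ hA
    calc A * (K * m) = A * m * K * 1 := by ring
      _ ≤ A * m * K * K ^ 2 := mul_le_mul_of_nonneg_left hK2 (by positivity)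
      _ = _ := by ring
  have hP := P_bound hm hK hA0 hA' e1 e2 e3 ha1 ha2 ha3 hb1 hb2 hb3 lb1 lb2 lb3 h12 h13 h23 hl
  set P := (b1 - b2) * (c1 - c3) - (b1 - b3) * (c1 - c2) with hPd
  have hsub : ∀ u v U : ℝ, |u| ≤ U → |v| ≤ U → |u - v| ≤ 2 * U := by
    intro u v U hu hv
    have := abs_sub u v
    linarith
  have hax := hsub a1 a2 A ha1 ha2
  have hay := hsub a1 a3 A ha1 ha3
  have hbx := hsub b1 b2 (K * m) hb1 hb2
  have hby := hsub b1 b3 (K * m) hb1 hb3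
  have hcx := hsub c1 c2 (K * m) hc1 hc2
  have hcy := hsub c1 c3 (K * m) hc1 hc3
  have hs : ∀ u v : ℝ, |u| ≤ 2 * A → |v| ≤ 2 * (K * m) → |u * v| ≤ 1 / 25 := by
    intro u v hu hv
    have := mul_le2 hu hv
    have e : 2 * A * (2 * (K * m)) = 4 * (A * (K * m)) := by ring
    rw [e] at this
    linarith
  have s1 := hs _ _ hax hby
  have s2 := hs _ _ hax hcy
  have s3 := hs _ _ hay hbx
  have s4 := hs _ _ hay hcx
  have hPP := mul_le2 hP hP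
  have p12 := mul_le2 s1 s2
  have p34 := mul_le2 s3 s4
  have p23 := mul_le2 s2 s3
  have p14 := mul_le2 s1 s4
  have id : 4 * (-(a1 - a2) ^ 2 - (b1 - b2) * (c1 - c2)) *
      (-(a1 - a3) ^ 2 - (b1 - b3) * (c1 - c3)) -
      (-2 * (a1 - a2) * (a1 - a3) - (b1 - b2) * (c1 - c3) - (b1 - b3) * (c1 - c2)) ^ 2 =
      4 * (((a1 - a2) * (b1 - b3)) * ((a1 - a2) * (c1 - c3))) +
      4 * (((a1 - a3) * (b1 - b2)) * ((a1 - a3) * (c1 - c2))) -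
      4 * (((a1 - a2) * (c1 - c3)) * ((a1 - a3) * (b1 - b2))) -
      4 * (((a1 - a2) * (b1 - b3)) * ((a1 - a3) * (c1 - c2))) - P * P := by
    rw [hPd]; ring
  rw [id, abs_lt]
  rw [abs_le] at p12 p34 p23 p14 hPP
  constructor <;> linarith [p12.1, p12.2, p34.1, p34.2, p23.1, p23.2, p14.1, p14.2, hPP.1, hPP.2]

/-- The constant of the block. -/
def KK : ℝ := 2 * Real.cosh 8

theorem one_le_KK : 1 ≤ KK := by
  unfold KK
  have := Real.one_le_cosh 8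
  linarith

structure Fct (m : ℝ) (A : ℝ) (g : Mat) : Prop where
  d : g 1 1 = -g 0 0
  e : g 0 1 * g 1 0 = -m ^ 2 - g 0 0 ^ 2
  a : |g 0 0| ≤ A
  b : |g 0 1| ≤ KK * m
  c : |g 1 0| ≤ KK * m
  l : m ≤ KK * |g 0 1|

theorem facts (h1 : S_Geo) {O : Subring Mat} (hO : QOrder O) {κ m : ℝ} {g : G2}
    (hg : g ∈ Sm κ) (hgO : (g : Mat) ∈ O) (hd : (g : Mat).det = m ^ 2) (hm : 1 ≤ m)
    (hk : κ * m ≤ 1 / 100) : Fct m (κ * m) (g : Mat) := by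
  have hm0 : 0 < m := by linarith
  have hdet : 0 < (g : Mat).det := by rw [hd]; positivity
  obtain ⟨⟨-, hdist⟩, ha, hdd⟩ := hg
  rw [hd, Real.sqrt_sq hm0.le] at ha hdd
  obtain ⟨g1, g2⟩ := h1 g hdet
  obtain ⟨n, hn⟩ := hO.tr _ hgO
  rw [Matrix.trace_fin_two] at hn
  have hn0 : n = 0 := by
    have h3 : |(n : ℝ)| < 1 := by
      rw [← hn]
      have := abs_add_le ((g : Mat) 0 0) ((g : Mat) 1 1)
      linarith
    have h4 : |n| < 1 := by exact_mod_cast h3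
    exact Int.abs_lt_one_iff.1 h4
  rw [hn0] at hn
  have hd11 : (g : Mat) 1 1 = -(g : Mat) 0 0 := by
    have : (g : Mat) 0 0 + (g : Mat) 1 1 = 0 := by rw [hn]; simp
    linarith
  have hde := hd
  rw [Matrix.det_fin_two, hd11] at hde
  have he : (g : Mat) 0 1 * (g : Mat) 1 0 = -m ^ 2 - (g : Mat) 0 0 ^ 2 := by linarith
  have hcosh : Real.cosh (dist (g • I) I) ≤ Real.cosh 8 := by
    rw [Real.cosh_le_cosh, abs_of_nonneg dist_nonneg, abs_of_nonneg (by norm_num)]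
    exact hdist
  have hc1 := Real.one_le_cosh 8
  have hsum : (g : Mat) 0 1 ^ 2 + (g : Mat) 1 0 ^ 2 ≤ (KK * m) ^ 2 := by
    rw [hd] at g1 g2
    have q1 : (g : Mat) 0 1 ^ 2 + (g : Mat) 1 0 ^ 2 ≤ 2 * m ^ 2 * Real.cosh (dist (g • I) I) := by
      nlinarith [sq_nonneg ((g : Mat) 0 0), sq_nonneg ((g : Mat) 1 1)]
    have q2 : 2 * m ^ 2 * Real.cosh (dist (g • I) I) ≤ 2 * m ^ 2 * Real.cosh 8 :=
      mul_le_mul_of_nonneg_left hcosh (by positivity)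
    have q3 : 2 * m ^ 2 * Real.cosh 8 ≤ (KK * m) ^ 2 := by
      unfold KK
      have : Real.cosh 8 * 1 ≤ Real.cosh 8 * Real.cosh 8 :=
        mul_le_mul_of_nonneg_left hc1 (by linarith)
      nlinarith [sq_nonneg m, mul_nonneg (sq_nonneg m) (by linarith : 0 ≤ Real.cosh 8)]
    linarith
  have hKm : 0 ≤ KK * m := mul_nonneg (by linarith [one_le_KK]) hm0.le
  have hb : |(g : Mat) 0 1| ≤ KK * m := by
    apply abs_le_of_sq_le_sq _ hKm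
    nlinarith [sq_nonneg ((g : Mat) 1 0)]
  have hc : |(g : Mat) 1 0| ≤ KK * m := by
    apply abs_le_of_sq_le_sq _ hKm
    nlinarith [sq_nonneg ((g : Mat) 0 1)]
  refine ⟨hd11, he, ha, hb, hc, ?_⟩
  have h5 : m ^ 2 ≤ |(g : Mat) 0 1| * |(g : Mat) 1 0| := by
    rw [← abs_mul, he, ← abs_neg]
    have : -(-m ^ 2 - (g : Mat) 0 0 ^ 2) = m ^ 2 + (g : Mat) 0 0 ^ 2 := by ring
    rw [this, abs_of_nonneg (by positivity)]
    nlinarith [sq_nonneg ((g : Mat) 0 0)]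
  have h6 : |(g : Mat) 0 1| * |(g : Mat) 1 0| ≤ |(g : Mat) 0 1| * (KK * m) :=
    mul_le_mul_of_nonneg_left hc (abs_nonneg _)
  have h7 : m * m ≤ (KK * |(g : Mat) 0 1|) * m := by
    calc m * m = m ^ 2 := by ring
      _ ≤ _ := h5.trans h6
      _ = _ := by ring
  exact le_of_mul_le_mul_right h7 hm0

/-- No three elements with `b` in a short interval. -/
theorem three {O : Subring Mat} (hO : QOrder O) {m A l : ℝ} {x1 x2 x3 : Mat}
    (h1O : x1 ∈ O) (h2O : x2 ∈ O) (h3O : x3 ∈ O)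
    (hm : 1 ≤ m) (hA0 : 0 ≤ A) (hA : A * m * KK ^ 3 ≤ 1 / 100)
    (f1 : Fct m A x1) (f2 : Fct m A x2) (f3 : Fct m A x3)
    (n12 : x1 ≠ x2) (n13 : x1 ≠ x3) (n23 : x2 ≠ x3)
    (h12 : |x1 0 1 - x2 0 1| ≤ l) (h13 : |x1 0 1 - x3 0 1| ≤ l) (h23 : |x2 0 1 - x3 0 1| ≤ l)
    (hl : KK ^ 3 * l ^ 3 ≤ m / 8) : False := by
  have hG := G_bound hm one_le_KK hA0 hA f1.e f2.e f3.e f1.a f2.a f3.a f1.b f2.b f3.b
    f1.c f2.c f3.c f1.l f2.l f3.l h12 h13 h23 hl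
  have hxO : x1 - x2 ∈ O := O.sub_mem h1O h2O
  have hyO : x1 - x3 ∈ O := O.sub_mem h1O h3O
  have hx0 : x1 - x2 ≠ 0 := sub_ne_zero.2 n12
  have hy0 : x1 - x3 ≠ 0 := sub_ne_zero.2 n13
  obtain ⟨p, hp⟩ := hO.dt _ hxO
  obtain ⟨q, hq⟩ := hO.dt _ hyO
  obtain ⟨s, hs⟩ := hO.dt _ (O.add_mem hxO hyO)
  have hp0 : (p : ℝ) ≠ 0 := by rw [← hp]; exact hO.ne _ hxO hx0
  have hq0 : (q : ℝ) ≠ 0 := by rw [← hq]; exact hO.ne _ hyO hy0
  have d1 := f1.d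
  have d2 := f2.d
  have d3 := f3.d
  have dx : (p : ℝ) = -(x1 0 0 - x2 0 0) ^ 2 - (x1 0 1 - x2 0 1) * (x1 1 0 - x2 1 0) := by
    rw [← hp, Matrix.det_fin_two]
    simp only [Matrix.sub_apply]
    rw [d1, d2]; ring
  have dy : (q : ℝ) = -(x1 0 0 - x3 0 0) ^ 2 - (x1 0 1 - x3 0 1) * (x1 1 0 - x3 1 0) := by
    rw [← hq, Matrix.det_fin_two]
    simp only [Matrix.sub_apply]
    rw [d1, d3]; ring
  have ds : (s : ℝ) - p - q = -2 * (x1 0 0 - x2 0 0) * (x1 0 0 - x3 0 0) -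
      (x1 0 1 - x2 0 1) * (x1 1 0 - x3 1 0) - (x1 0 1 - x3 0 1) * (x1 1 0 - x2 1 0) := by
    rw [dx, dy, ← hs, Matrix.det_fin_two]
    simp only [Matrix.sub_apply, Matrix.add_apply]
    rw [d1, d2, d3]; ring
  rw [← dx, ← dy, ← ds] at hG
  have hGi : |4 * p * q - (s - p - q) ^ 2| < 1 := by exact_mod_cast hG
  have hG0 : 4 * p * q - (s - p - q) ^ 2 = 0 := Int.abs_lt_one_iff.1 hGi
  have hGr : 4 * (p : ℝ) * q - ((s : ℝ) - p - q) ^ 2 = 0 := by exact_mod_cast hG0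
  set r : ℤ := s - p - q with hr
  have hrr : (r : ℝ) = (s : ℝ) - p - q := by rw [hr]; push_cast; ring
  rw [← hrr] at hGr ds
  -- the combination 2 p y - r x vanishes
  have hz : ((2 * p : ℤ) : ℝ) • (x1 - x3) - (r : ℝ) • (x1 - x2) = 0 := by
    by_contra hne
    have hzO : ((2 * p : ℤ) : ℝ) • (x1 - x3) - (r : ℝ) • (x1 - x2) ∈ O :=
      O.sub_mem (int_smul_mem _ hyO) (int_smul_mem _ hxO)
    apply hO.ne _ hzO hne
    have e : (((2 * p : ℤ) : ℝ) • (x1 - x3) - (r : ℝ) • (x1 - x2)).det =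
        (p : ℝ) * (4 * (p : ℝ) * q - (r : ℝ) ^ 2) := by
      rw [Matrix.det_fin_two]
      simp only [Matrix.sub_apply, Matrix.smul_apply, smul_eq_mul]
      rw [d1, d2, d3]
      push_cast
      have dx' := dx
      have dy' := dy
      have ds' := ds
      generalize x1 0 0 = u1 at *
      generalize x1 0 1 = v1 at *
      generalize x1 1 0 = w1 at *
      generalize x2 0 0 = u2 at *
      generalize x2 0 1 = v2 at *
      generalize x2 1 0 = w2 at *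
      generalize x3 0 0 = u3 at *
      generalize x3 0 1 = v3 at *
      generalize x3 1 0 = w3 at *
      linear_combination (-(r : ℝ) ^ 2) * dx' - 4 * (p : ℝ) ^ 2 * dy' + 2 * (p : ℝ) * r * ds'
    rw [e, hGr, mul_zero]
  have hij : ∀ i j, 2 * (p : ℝ) * (x1 i j - x3 i j) = r * (x1 i j - x2 i j) := by
    intro i j
    have := congrFun (congrFun hz i) j
    simp only [Matrix.sub_apply, Matrix.smul_apply, smul_eq_mul, Matrix.zero_apply] at this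
    push_cast at this
    linarith
  have g00 := hij 0 0
  have g01 := hij 0 1
  have g10 := hij 1 0
  have e1 := f1.e
  have e2 := f2.e
  have e3 := f3.e
  -- polar form of x1 with x and y
  have hpx : (p : ℝ) = -2 * x1 0 0 * (x1 0 0 - x2 0 0) - x1 0 1 * (x1 1 0 - x2 1 0) -
      x1 1 0 * (x1 0 1 - x2 0 1) := by
    rw [dx]; linear_combination e1 - e2
  have hqy : (q : ℝ) = -2 * x1 0 0 * (x1 0 0 - x3 0 0) - x1 0 1 * (x1 1 0 - x3 1 0) -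
      x1 1 0 * (x1 0 1 - x3 0 1) := by
    rw [dy]; linear_combination e1 - e3
  have h2pq : 2 * (p : ℝ) * q = r * p := by
    rw [hqy]
    conv_rhs => rw [hpx]
    linear_combination (-2 * x1 0 0) * g00 - x1 0 1 * g10 - x1 1 0 * g01
  have h2q : 2 * (q : ℝ) = r := by
    apply mul_left_cancel₀ hp0
    linarith
  have hpq : (p : ℝ) = q := by
    apply mul_left_cancel₀ hq0
    rw [← h2q] at hGr
    nlinarith
  apply n23
  have hfin : ∀ i j, x3 i j = x2 i j := by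
    intro i j
    have := hij i j
    rw [← h2q, ← hpq] at this
    have h2p : (2 * (p : ℝ)) ≠ 0 := mul_ne_zero two_ne_zero hp0
    have := mul_left_cancel₀ h2p this
    linarith
  ext i j
  exact (hfin i j).symm

/-- Finiteness and a bound for the cardinality from bounds for the finite subsets. -/
theorem fin_of_bound {α : Type*} {s : Set α} {B : ℝ}
    (h : ∀ t : Finset α, (t : Set α) ⊆ s → (t.card : ℝ) ≤ B) :
    s.Finite ∧ (s.ncard : ℝ) ≤ B := by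
  have hf : s.Finite := by
    by_contra hi
    obtain ⟨t, ht, hc⟩ := Set.Infinite.exists_subset_card_eq hi (⌊B⌋₊ + 1)
    have := h t ht
    rw [hc] at this
    have h2 := Nat.lt_floor_add_one B
    push_cast at this
    linarith
  refine ⟨hf, ?_⟩
  have := h hf.toFinset (by simp)
  rwa [← Set.ncard_eq_toFinset_card _ hf] at this

/-- The length of the short intervals. -/
def len (m : ℝ) : ℝ := m ^ (1 / 3 : ℝ) / (2 * KK)

theorem len_pos {m : ℝ} (hm : 1 ≤ m) : 0 < len m := by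
  have h1 := one_le_KK
  unfold len
  have : 0 < m ^ (1 / 3 : ℝ) := Real.rpow_pos_of_pos (by linarith) _
  positivity

theorem len_cube {m : ℝ} (hm : 1 ≤ m) : KK ^ 3 * len m ^ 3 ≤ m / 8 := by
  have h1 := one_le_KK
  have hK : KK ≠ 0 := by linarith
  have h2 : (m ^ (1 / 3 : ℝ)) ^ 3 = m := by
    rw [← Real.rpow_natCast, ← Real.rpow_mul (by linarith)]
    norm_num
  apply le_of_eq
  unfold len
  rw [div_pow, h2]
  field_simp
  norm_num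

theorem div_len {m Y b : ℝ} (hm : 1 ≤ m) (hY : m ≤ Y) (hb : |b| ≤ KK * m) :
    |b / len m| ≤ 2 * KK ^ 2 * Y ^ (2 / 3 : ℝ) := by
  have h1 := one_le_KK
  have hl := len_pos hm
  have hm0 : 0 < m := by linarith
  rw [abs_div, abs_of_pos hl, div_le_iff₀ hl]
  refine hb.trans ?_
  have h3 : m ^ (2 / 3 : ℝ) * m ^ (1 / 3 : ℝ) = m := by
    rw [← Real.rpow_add hm0]
    norm_num
  have h4 : m ^ (2 / 3 : ℝ) ≤ Y ^ (2 / 3 : ℝ) :=
    Real.rpow_le_rpow hm0.le hY (by norm_num)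
  have h5 : 0 < m ^ (1 / 3 : ℝ) := Real.rpow_pos_of_pos hm0 _
  have hK : KK ≠ 0 := by linarith
  calc KK * m = KK * (m ^ (2 / 3 : ℝ) * m ^ (1 / 3 : ℝ)) := by rw [h3]
    _ ≤ KK * (Y ^ (2 / 3 : ℝ) * m ^ (1 / 3 : ℝ)) := by
        apply mul_le_mul_of_nonneg_left _ (by linarith)
        exact mul_le_mul_of_nonneg_right h4 h5.le
    _ = 2 * KK ^ 2 * Y ^ (2 / 3 : ℝ) * len m := by
        unfold len
        field_simp

theorem count (h1 : S_Geo) {O : Subring Mat} (hO : QOrder O) {κ Y : ℝ} (hκ : 0 ≤ κ)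
    (hc : κ * Y ^ 4 ≤ 1 / (100 * KK ^ 3)) (hY : 1 ≤ Y) (S : Finset G2)
    (hS : (S : Set G2) ⊆ C2 O (Sm κ) Y) :
    (S.card : ℝ) ≤ 2 * (4 * KK ^ 2 + 5) * Y ^ (5 / 3 : ℝ) := by
  have hK := one_le_KK
  have hK3 : 1 ≤ KK ^ 3 := one_le_pow₀ hK
  have hch : ∀ g : G2, ∃ m : ℕ, g ∈ C2 O (Sm κ) Y →
      1 ≤ m ∧ (m : ℝ) ≤ Y ∧ (g : Mat).det = (m : ℝ) ^ 2 := by
    intro g
    by_cases hg : g ∈ C2 O (Sm κ) Y
    · obtain ⟨m, hm⟩ := hg.2.2
      exact ⟨m, fun _ => hm⟩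
    · exact ⟨0, fun h => absurd h hg⟩
  choose m hm using hch
  have hk2 : κ * Y ^ 4 * KK ^ 3 ≤ 1 / 100 := by
    calc κ * Y ^ 4 * KK ^ 3 ≤ 1 / (100 * KK ^ 3) * KK ^ 3 :=
          mul_le_mul_of_nonneg_right hc (by linarith)
      _ = 1 / 100 := by field_simp
  have hk1 : κ * Y ^ 4 ≤ 1 / 100 := by
    refine le_trans ?_ hk2
    have : 0 ≤ κ * Y ^ 4 := by positivity
    nlinarith
  have hkm : ∀ t : ℝ, 1 ≤ t → t ≤ Y → κ * t ≤ 1 / 100 ∧ κ * t * t * KK ^ 3 ≤ 1 / 100 := by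
    intro t ht htY
    have q1 : t ≤ Y ^ 4 := htY.trans (le_self_pow₀ hY (by norm_num))
    have q2 : t * t ≤ Y ^ 4 := by
      have : t * t ≤ Y * Y := mul_le_mul htY htY (by linarith) (by linarith)
      have h2 : Y * Y ≤ Y ^ 4 := by
        rw [← sq]
        exact pow_le_pow_right₀ hY (by norm_num)
      linarith
    constructor
    · exact (mul_le_mul_of_nonneg_left q1 hκ).trans hk1
    · calc κ * t * t * KK ^ 3 = κ * (t * t) * KK ^ 3 := by ring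
        _ ≤ κ * Y ^ 4 * KK ^ 3 := by gcongr
        _ ≤ _ := hk2
  have hF : ∀ g ∈ S, Fct (m g) (κ * m g) (g : Mat) ∧ (g : Mat) ∈ O ∧ (1 : ℝ) ≤ m g ∧
      (m g : ℝ) ≤ Y ∧ 1 ≤ m g := by
    intro g hg
    have hgC := hS hg
    obtain ⟨n1, n2, n3⟩ := hm g hgC
    have n1' : (1 : ℝ) ≤ m g := by exact_mod_cast n1
    exact ⟨facts h1 hO hgC.1 hgC.2.1 n3 n1' (hkm _ n1' n2).1, hgC.2.1, n1', n2, n1⟩
  set f : G2 → ℕ × ℤ := fun g => (m g, ⌊(g : Mat) 0 1 / len (m g)⌋) with hf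
  have hfib : ∀ a ∈ S.image f, (S.filter fun x => f x = a).card ≤ 2 := by
    rintro ⟨n, j⟩ -
    by_contra hcon
    rw [not_le, Finset.two_lt_card] at hcon
    obtain ⟨x1, k1, x2, k2, x3, k3, n12, n13, n23⟩ := hcon
    rw [Finset.mem_filter] at k1 k2 k3
    obtain ⟨s1, t1⟩ := k1
    obtain ⟨s2, t2⟩ := k2
    obtain ⟨s3, t3⟩ := k3
    obtain ⟨f1, o1, u1, v1, -⟩ := hF _ s1
    obtain ⟨f2, o2, u2, v2, -⟩ := hF _ s2
    obtain ⟨f3, o3, u3, v3, -⟩ := hF _ s3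
    simp only [hf, Prod.mk.injEq] at t1 t2 t3
    obtain ⟨m1, r1⟩ := t1
    obtain ⟨m2, r2⟩ := t2
    obtain ⟨m3, r3⟩ := t3
    rw [m1] at f1 u1 v1 r1
    rw [m2] at f2 u2 v2 r2
    rw [m3] at f3 u3 v3 r3
    have hl := len_pos u1
    have key : ∀ a b : ℝ, ⌊a / len n⌋ = j → ⌊b / len n⌋ = j → |a - b| ≤ len n := by
      intro a b ha hb
      have := Int.abs_sub_lt_one_of_floor_eq_floor (ha.trans hb.symm)
      rw [← sub_div, abs_div, abs_of_pos hl, div_lt_iff₀ hl, one_mul] at this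
      exact this.le
    exact three hO o1 o2 o3 u1 (mul_nonneg hκ (by linarith)) (hkm _ u1 v1).2 f1 f2 f3
      (fun h => n12 (ext_G2 h)) (fun h => n13 (ext_G2 h)) (fun h => n23 (ext_G2 h))
      (key _ _ r1 r2) (key _ _ r1 r3) (key _ _ r2 r3) (len_cube u1)
  have hcard := Finset.card_le_mul_card_image S 2 hfib
  set Z : ℝ := 2 * KK ^ 2 * Y ^ (2 / 3 : ℝ) with hZ
  have hZ0 : 0 ≤ Z := by positivity
  set J : ℤ := ⌈Z⌉ with hJ
  have hJ0 : 0 ≤ J := Int.ceil_nonneg hZ0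
  have himg : S.image f ⊆ Finset.Icc 1 ⌊Y⌋₊ ×ˢ Finset.Icc (-J) J := by
    intro a ha
    obtain ⟨g, hg, rfl⟩ := Finset.mem_image.1 ha
    obtain ⟨f1, -, u1, v1, w1⟩ := hF _ hg
    rw [Finset.mem_product, Finset.mem_Icc, Finset.mem_Icc]
    refine ⟨⟨w1, Nat.le_floor v1⟩, ?_⟩
    have hd := abs_le.1 (div_len u1 v1 f1.b)
    have hJZ : Z ≤ J := Int.le_ceil Z
    constructor
    · apply Int.le_floor.2
      push_cast
      linarith [hd.1]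
    · have h3 : ((⌊(g : Mat) 0 1 / len (m g)⌋ : ℤ) : ℝ) ≤ J :=
        (Int.floor_le _).trans (hd.2.trans hJZ)
      exact_mod_cast h3
  have hc2 : (S.image f).card ≤ ⌊Y⌋₊ * (2 * J + 1).toNat := by
    refine (Finset.card_le_card himg).trans ?_
    rw [Finset.card_product, Nat.card_Icc, Int.card_Icc]
    apply le_of_eq
    congr 2
    ring
  have hc3 : (S.card : ℝ) ≤ 2 * (Y * (2 * (Z + 1) + 1)) := by
    have q1 : (S.card : ℝ) ≤ ((2 * (⌊Y⌋₊ * (2 * J + 1).toNat) : ℕ) : ℝ) := by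
      exact_mod_cast hcard.trans (Nat.mul_le_mul_left 2 hc2)
    refine q1.trans ?_
    have q2 : (((2 * J + 1).toNat : ℕ) : ℝ) = 2 * J + 1 := by
      have : (((2 * J + 1).toNat : ℤ)) = 2 * J + 1 := Int.toNat_of_nonneg (by linarith)
      exact_mod_cast this
    have q3 : (J : ℝ) ≤ Z + 1 := (Int.ceil_lt_add_one Z).le
    have q4 : (⌊Y⌋₊ : ℝ) ≤ Y := Nat.floor_le (by linarith)
    have q5 : (0 : ℝ) ≤ J := by exact_mod_cast hJ0
    push_cast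
    rw [q2]
    gcongr
  refine hc3.trans ?_
  have hY0 : 0 < Y := by linarith
  have hYY : 1 ≤ Y ^ (2 / 3 : ℝ) := Real.one_le_rpow hY (by norm_num)
  have hY5 : Y ^ (5 / 3 : ℝ) = Y * Y ^ (2 / 3 : ℝ) := by
    have : (5 / 3 : ℝ) = 1 + 2 / 3 := by norm_num
    rw [this, Real.rpow_add hY0, Real.rpow_one]
  rw [hY5]
  have h9 : 2 * (Z + 1) + 1 ≤ (4 * KK ^ 2 + 5) * Y ^ (2 / 3 : ℝ) := by
    rw [hZ]
    nlinarith
  calc 2 * (Y * (2 * (Z + 1) + 1)) ≤ 2 * (Y * ((4 * KK ^ 2 + 5) * Y ^ (2 / 3 : ℝ))) := by gcongr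
    _ = _ := by ring

end XSm2

theorem prf_Sm2 (h1 : S_Geo) : S_Sm2 := by
  have hK := XSm2.one_le_KK
  refine ⟨2 * (4 * XSm2.KK ^ 2 + 5), 1 / (100 * XSm2.KK ^ 3), by positivity, by positivity, ?_⟩
  intro O κ Y hO hκ hc hY
  exact XSm2.fin_of_bound fun S hS => XSm2.count h1 hO hκ hc hY S hS

end Pool.Agent.HoloQUE
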