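import Pool.Agent.Work.MP_d2a4bb_nt.NC.Basic

/-!
# Item Sp2: almost diagonal elements whose norm is a square
-/

set_option autoImplicit false

open MeasureTheory UpperHalfPlane Matrix
open scoped MatrixGroups ModularForm Manifold ENNReal Classical

noncomputable section

namespace Pool.Agent.HoloQUE

namespace XSp2

/-- the constant `2 (cosh 8 + 1)` -/
def K2 : ℝ := 2 * (Real.cosh 8 + 1)

theorem K2_pos : 4 ≤ K2 := by
  unfold K2
  have := Real.one_le_cosh 8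
  linarith

/-- the data of an element of the set -/
structure Dat (O : Subring Mat) (Y : ℝ) (g : G2) (m : ℕ) (t : ℤ) : Prop where
  mem : (g : Mat) ∈ O
  m1 : 1 ≤ m
  mY : (m : ℝ) ≤ Y
  det : (g : Mat) 0 0 * (g : Mat) 1 1 - (g : Mat) 0 1 * (g : Mat) 1 0 = (m : ℝ) ^ 2
  tr : (g : Mat) 0 0 + (g : Mat) 1 1 = t
  b : |(g : Mat) 0 1| ≤ 1 / 8
  c : |(g : Mat) 1 0| ≤ 1 / 8
  ad : ((g : Mat) 0 0 - (g : Mat) 1 1) ^ 2 ≤ K2 * Y ^ 2

theorem dat (h1 : S_Geo) {O : Subring Mat} {κ Y : ℝ} (hO : QOrder O) (hκ : 0 ≤ κ)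
    (hκY : κ * Y ≤ 1 / 8) {g : G2} (hg : g ∈ C2 O (Sp κ) Y) :
    ∃ (m : ℕ) (t : ℤ), Dat O Y g m t := by
  obtain ⟨⟨⟨hdet, hdist⟩, hb, hc⟩, hgO, m, hm1, hmY, hm⟩ := hg
  obtain ⟨t, ht⟩ := hO.tr _ hgO
  have hm0 : (0 : ℝ) ≤ m := Nat.cast_nonneg m
  have hsq : √(g : Mat).det = m := by rw [hm, Real.sqrt_sq hm0]
  rw [hsq] at hb hc
  have hκm : κ * m ≤ 1 / 8 := (mul_le_mul_of_nonneg_left hmY hκ).trans hκY
  have hcosh : Real.cosh (dist (g • I) I) ≤ Real.cosh 8 := by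
    rw [Real.cosh_le_cosh, abs_of_nonneg dist_nonneg, abs_of_nonneg (by norm_num : (0 : ℝ) ≤ 8)]
    exact hdist
  have h2 := (h1 g hdet).1
  refine ⟨m, t, hgO, hm1, hmY, ?_, ?_, hb.trans hκm, hc.trans hκm, ?_⟩
  · rw [← hm, Matrix.det_fin_two]
  · rw [← ht, Matrix.trace_fin_two]
  · rw [hm] at h2
    have h3 : 2 * (m : ℝ) ^ 2 * (Real.cosh (dist (g • I) I) - 1) ≤ K2 * (m : ℝ) ^ 2 := by
      unfold K2
      nlinarith [sq_nonneg (m : ℝ)]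
    have h4 : K2 * (m : ℝ) ^ 2 ≤ K2 * Y ^ 2 := by
      apply mul_le_mul_of_nonneg_left _ (by linarith [K2_pos])
      exact pow_le_pow_left₀ hm0 hmY 2
    nlinarith [sq_nonneg ((g : Mat) 0 1 + (g : Mat) 1 0)]

theorem floor_close {x y : ℝ} (h : ⌊2 * x⌋ = ⌊2 * y⌋) : |x - y| < 1 / 2 := by
  have h1 := Int.abs_sub_lt_one_of_floor_eq_floor h
  rw [← mul_sub, abs_mul, abs_of_pos (by norm_num : (0 : ℝ) < 2)] at h1
  linarith

/-- the traceless part is determined by a floor -/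
theorem x0_eq {O : Subring Mat} {Y : ℝ} (hO : QOrder O) {g g' : G2} {m m' : ℕ} {t t' : ℤ}
    (hg : Dat O Y g m t) (hg' : Dat O Y g' m' t')
    (h : ⌊2 * ((g : Mat) 0 0 - (g : Mat) 1 1)⌋ = ⌊2 * ((g' : Mat) 0 0 - (g' : Mat) 1 1)⌋) :
    (g : Mat) 0 0 - (g : Mat) 1 1 = (g' : Mat) 0 0 - (g' : Mat) 1 1 ∧
      (g : Mat) 0 1 = (g' : Mat) 0 1 ∧ (g : Mat) 1 0 = (g' : Mat) 1 0 := by
  have he := floor_close h
  set Z : Mat := ((2 : ℤ) : ℝ) • (g : Mat) - (t : ℝ) • (1 : Mat) -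
    (((2 : ℤ) : ℝ) • (g' : Mat) - (t' : ℝ) • (1 : Mat)) with hZ
  have hZO : Z ∈ O := O.sub_mem (O.sub_mem (int_smul_mem 2 hg.mem) (intc_mem O t))
    (O.sub_mem (int_smul_mem 2 hg'.mem) (intc_mem O t'))
  have z00 : Z 0 0 = ((g : Mat) 0 0 - (g : Mat) 1 1) - ((g' : Mat) 0 0 - (g' : Mat) 1 1) := by
    rw [hZ, ← hg.tr, ← hg'.tr]
    simp
    ring
  have z11 : Z 1 1 = -(((g : Mat) 0 0 - (g : Mat) 1 1) - ((g' : Mat) 0 0 - (g' : Mat) 1 1)) := by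
    rw [hZ, ← hg.tr, ← hg'.tr]
    simp
    ring
  have z01 : Z 0 1 = 2 * ((g : Mat) 0 1 - (g' : Mat) 0 1) := by
    rw [hZ]
    simp
    ring
  have z10 : Z 1 0 = 2 * ((g : Mat) 1 0 - (g' : Mat) 1 0) := by
    rw [hZ]
    simp
    ring
  obtain ⟨n, hn⟩ := hO.dt Z hZO
  have hdet : Z.det = -(((g : Mat) 0 0 - (g : Mat) 1 1) - ((g' : Mat) 0 0 - (g' : Mat) 1 1)) ^ 2 -
      4 * (((g : Mat) 0 1 - (g' : Mat) 0 1) * ((g : Mat) 1 0 - (g' : Mat) 1 0)) := by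
    rw [Matrix.det_fin_two, z00, z11, z01, z10]
    ring
  have hb : |(g : Mat) 0 1 - (g' : Mat) 0 1| ≤ 1 / 4 := by
    calc |(g : Mat) 0 1 - (g' : Mat) 0 1| ≤ |(g : Mat) 0 1| + |(g' : Mat) 0 1| := abs_sub _ _
      _ ≤ 1 / 4 := by linarith [hg.b, hg'.b]
  have hc : |(g : Mat) 1 0 - (g' : Mat) 1 0| ≤ 1 / 4 := by
    calc |(g : Mat) 1 0 - (g' : Mat) 1 0| ≤ |(g : Mat) 1 0| + |(g' : Mat) 1 0| := abs_sub _ _
      _ ≤ 1 / 4 := by linarith [hg.c, hg'.c]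
  have hbc : |((g : Mat) 0 1 - (g' : Mat) 0 1) * ((g : Mat) 1 0 - (g' : Mat) 1 0)| ≤ 1 / 16 := by
    rw [abs_mul]
    calc _ ≤ (1 / 4 : ℝ) * (1 / 4) := mul_le_mul hb hc (abs_nonneg _) (by norm_num)
      _ = 1 / 16 := by norm_num
  have he2 : (((g : Mat) 0 0 - (g : Mat) 1 1) - ((g' : Mat) 0 0 - (g' : Mat) 1 1)) ^ 2 ≤ 1 / 4 := by
    rw [← sq_abs]
    nlinarith [abs_nonneg (((g : Mat) 0 0 - (g : Mat) 1 1) - ((g' : Mat) 0 0 - (g' : Mat) 1 1))]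
  have hn1 : |(n : ℝ)| < 1 := by
    rw [← hn, hdet, abs_lt]
    have := abs_le.1 hbc
    constructor <;> nlinarith [sq_nonneg
      (((g : Mat) 0 0 - (g : Mat) 1 1) - ((g' : Mat) 0 0 - (g' : Mat) 1 1))]
  have hn0 : n = 0 := by
    have h5 : |n| < 1 := by exact_mod_cast hn1
    exact Int.abs_lt_one_iff.1 h5
  have hZ0 : Z = 0 := by
    by_contra hne
    apply hO.ne Z hZO hne
    rw [hn, hn0, Int.cast_zero]
  rw [hZ0] at z00 z01 z10
  simp only [Matrix.zero_apply] at z00 z01 z10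
  refine ⟨?_, ?_, ?_⟩ <;> linarith

/-- equal elements -/
theorem ext4 {g g' : G2} (h1 : (g : Mat) 0 0 - (g : Mat) 1 1 = (g' : Mat) 0 0 - (g' : Mat) 1 1)
    (h2 : (g : Mat) 0 1 = (g' : Mat) 0 1) (h3 : (g : Mat) 1 0 = (g' : Mat) 1 0)
    (h4 : (g : Mat) 0 0 + (g : Mat) 1 1 = (g' : Mat) 0 0 + (g' : Mat) 1 1) : g = g' := by
  apply ext_G2
  ext i j
  fin_cases i <;> fin_cases j <;> simp <;> linarith

/-- all elements: finiteness -/
theorem fin (h1 : S_Geo) {O : Subring Mat} {κ Y : ℝ} (hO : QOrder O) (hκ : 0 ≤ κ)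
    (hκY : κ * Y ≤ 1 / 8) (hY : 1 ≤ Y) : (C2 O (Sp κ) Y).Finite := by
  have hK := K2_pos
  have hbd : ∀ g ∈ C2 O (Sp κ) Y, |(g : Mat) 0 0 - (g : Mat) 1 1| ≤ K2 * Y ∧
      |(g : Mat) 0 0 + (g : Mat) 1 1| ≤ 2 * K2 * Y := by
    intro g hg
    obtain ⟨m, t, hd⟩ := dat h1 hO hκ hκY hg
    have ha : |(g : Mat) 0 0 - (g : Mat) 1 1| ≤ K2 * Y := by
      apply abs_le_of_sq_le_sq _ (by positivity)
      have := hd.ad
      nlinarith [sq_nonneg Y]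
    refine ⟨ha, ?_⟩
    apply abs_le_of_sq_le_sq _ (by positivity)
    have e : ((g : Mat) 0 0 + (g : Mat) 1 1) ^ 2 = ((g : Mat) 0 0 - (g : Mat) 1 1) ^ 2 +
        4 * (m : ℝ) ^ 2 + 4 * ((g : Mat) 0 1 * (g : Mat) 1 0) := by
      rw [← hd.det]
      ring
    have hbc : |(g : Mat) 0 1 * (g : Mat) 1 0| ≤ 1 := by
      rw [abs_mul]
      calc _ ≤ (1 / 8 : ℝ) * (1 / 8) := mul_le_mul hd.b hd.c (abs_nonneg _) (by norm_num)
        _ ≤ 1 := by norm_num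
    have hm : (m : ℝ) ^ 2 ≤ Y ^ 2 := pow_le_pow_left₀ (Nat.cast_nonneg m) hd.mY 2
    have h5 := hd.ad
    have h6 := (abs_le.1 hbc).2
    rw [e]
    nlinarith [sq_nonneg Y, mul_pos (show (0 : ℝ) < Y ^ 2 by positivity) (show (0 : ℝ) < K2 by linarith)]
  have hfin : (Set.Icc (⌊-(2 * (K2 * Y))⌋) (⌊2 * (K2 * Y)⌋) ×ˢ
      Set.Icc (⌊-(2 * K2 * Y)⌋) (⌊2 * K2 * Y⌋) : Set (ℤ × ℤ)).Finite :=
    (Set.finite_Icc _ _).prod (Set.finite_Icc _ _)
  apply Set.Finite.of_finite_image (f := fun g : G2 =>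
    ((⌊2 * ((g : Mat) 0 0 - (g : Mat) 1 1)⌋, ⌊(g : Mat) 0 0 + (g : Mat) 1 1⌋) : ℤ × ℤ))
  · apply hfin.subset
    rintro _ ⟨g, hg, rfl⟩
    obtain ⟨ha, hb⟩ := hbd g hg
    rw [abs_le] at ha hb
    refine ⟨⟨?_, ?_⟩, ⟨?_, ?_⟩⟩ <;> apply Int.floor_le_floor <;> linarith
  · intro g hg g' hg' h
    obtain ⟨m, t, hd⟩ := dat h1 hO hκ hκY hg
    obtain ⟨m', t', hd'⟩ := dat h1 hO hκ hκY hg'
    simp only [Prod.mk.injEq] at h
    obtain ⟨e1, e2, e3⟩ := x0_eq hO hd hd' h.1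
    refine ext4 e1 e2 e3 ?_
    have h7 := h.2
    rw [hd.tr, hd'.tr, Int.floor_intCast, Int.floor_intCast] at h7
    rw [hd.tr, hd'.tr, h7]

/-- an integer is determined by its absolute value and its sign -/
def code (s : ℤ) : ℕ × Bool := (s.natAbs, decide (0 ≤ s))

theorem code_inj {s s' : ℤ} (h : code s = code s') : s = s' := by
  simp only [code, Prod.mk.injEq, decide_eq_decide] at h
  omega

/-- the elements with a given traceless part `≠ 0` -/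
theorem fib (h1 : S_Geo) {O : Subring Mat} {κ Y B : ℝ} (hO : QOrder O) (hκ : 0 ≤ κ)
    (hκY : κ * Y ≤ 1 / 8) (hY : 1 ≤ Y)
    (hB : ∀ n : ℕ, 0 < n → (n : ℝ) ≤ (K2 + 1) * Y ^ 2 → (n.divisors.card : ℝ) ≤ B)
    (T : Finset G2) (hT : ∀ g ∈ T, g ∈ C2 O (Sp κ) Y) (j : ℤ)
    (hj : ∀ g ∈ T, ⌊2 * ((g : Mat) 0 0 - (g : Mat) 1 1)⌋ = j)
    (hs : ∀ g ∈ T, ¬ ((g : Mat) 0 0 - (g : Mat) 1 1 = 0 ∧ (g : Mat) 0 1 = 0 ∧ (g : Mat) 1 0 = 0)) :
    (T.card : ℝ) ≤ 2 * B ∨ T.card = 0 := by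
  rcases T.eq_empty_or_nonempty with rfl | ⟨g₀, hg₀⟩
  · right
    simp
  left
  obtain ⟨m₀, t₀, hd₀⟩ := dat h1 hO hκ hκY (hT g₀ hg₀)
  -- the discriminant
  set D : ℤ := 4 * (m₀ : ℤ) ^ 2 - t₀ ^ 2 with hD
  have hDr : (D : ℝ) = -((g₀ : Mat) 0 0 - (g₀ : Mat) 1 1) ^ 2 -
      4 * ((g₀ : Mat) 0 1 * (g₀ : Mat) 1 0) := by
    rw [hD]
    push_cast
    rw [← hd₀.det, ← hd₀.tr]
    ring
  have hfac : ∀ g ∈ T, ∀ (m : ℕ) (t : ℤ), Dat O Y g m t → (2 * (m : ℤ) - t) * (2 * m + t) = D := by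
    intro g hg m t hd
    obtain ⟨e1, e2, e3⟩ := x0_eq hO hd hd₀ ((hj g hg).trans (hj g₀ hg₀).symm)
    have h8 : ((((2 * (m : ℤ) - t) * (2 * m + t) : ℤ)) : ℝ) = (D : ℝ) := by
      rw [hDr, ← e1, ← e2, ← e3]
      push_cast
      have h9 : (2 * (m : ℝ) - t) * (2 * m + t) = 4 * (m : ℝ) ^ 2 - (t : ℝ) ^ 2 := by ring
      rw [h9, ← hd.det, ← hd.tr]
      ring
    exact_mod_cast h8
  have hD0 : D ≠ 0 := by
    intro h0
    set Z : Mat := ((2 : ℤ) : ℝ) • (g₀ : Mat) - (t₀ : ℝ) • (1 : Mat) with hZ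
    have hZO : Z ∈ O := O.sub_mem (int_smul_mem 2 hd₀.mem) (intc_mem O t₀)
    have z00 : Z 0 0 = (g₀ : Mat) 0 0 - (g₀ : Mat) 1 1 := by
      rw [hZ, ← hd₀.tr]
      simp
      ring
    have z11 : Z 1 1 = -((g₀ : Mat) 0 0 - (g₀ : Mat) 1 1) := by
      rw [hZ, ← hd₀.tr]
      simp
      ring
    have z01 : Z 0 1 = 2 * (g₀ : Mat) 0 1 := by
      rw [hZ]
      simp
    have z10 : Z 1 0 = 2 * (g₀ : Mat) 1 0 := by
      rw [hZ]
      simp
    have hdet : Z.det = 0 := by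
      rw [Matrix.det_fin_two, z00, z11, z01, z10]
      have h10 : (D : ℝ) = 0 := by rw [h0, Int.cast_zero]
      rw [hDr] at h10
      linarith
    have hZ0 : Z = 0 := by
      by_contra hne
      exact hO.ne Z hZO hne hdet
    rw [hZ0] at z00 z01 z10
    simp only [Matrix.zero_apply] at z00 z01 z10
    exact hs g₀ hg₀ ⟨z00.symm, by linarith, by linarith⟩
  have hDn : (D.natAbs : ℝ) ≤ (K2 + 1) * Y ^ 2 := by
    have h11 : (D.natAbs : ℝ) = |(D : ℝ)| := by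
      rw [← Int.cast_abs, Int.abs_eq_natAbs, Int.cast_natCast]
    rw [h11, hDr]
    have hbc : |(g₀ : Mat) 0 1 * (g₀ : Mat) 1 0| ≤ 1 / 64 := by
      rw [abs_mul]
      calc _ ≤ (1 / 8 : ℝ) * (1 / 8) := mul_le_mul hd₀.b hd₀.c (abs_nonneg _) (by norm_num)
        _ ≤ 1 / 64 := by norm_num
    have h12 := hd₀.ad
    have h13 := abs_le.1 hbc
    have h14 : 1 ≤ Y ^ 2 := by nlinarith
    rw [abs_le]
    constructor <;> nlinarith [sq_nonneg ((g₀ : Mat) 0 0 - (g₀ : Mat) 1 1)]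
  have hcard : T.card ≤ (D.natAbs.divisors ×ˢ (Finset.univ : Finset Bool)).card := by
    apply Finset.card_le_card_of_injOn
      (fun g : G2 => code (⌊2 * √(g : Mat).det - ((g : Mat) 0 0 + (g : Mat) 1 1)⌋))
    · intro g hg
      obtain ⟨m, t, hd⟩ := dat h1 hO hκ hκY (hT g hg)
      have hsq : √(g : Mat).det = m := by
        rw [Matrix.det_fin_two, hd.det, Real.sqrt_sq (Nat.cast_nonneg m)]
      have hfl : ⌊2 * √(g : Mat).det - ((g : Mat) 0 0 + (g : Mat) 1 1)⌋ = 2 * (m : ℤ) - t := by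
        rw [hsq, hd.tr, show (2 * (m : ℝ) - (t : ℝ)) = ((2 * (m : ℤ) - t : ℤ) : ℝ) by push_cast; ring,
          Int.floor_intCast]
      simp only [Finset.coe_product, Finset.coe_univ, Set.mem_prod, Set.mem_univ, and_true,
        Finset.mem_coe, Nat.mem_divisors, code]
      rw [hfl]
      refine ⟨?_, by simpa using hD0⟩
      rw [Int.natAbs_dvd_natAbs, ← hfac g hg m t hd]
      exact Dvd.intro _ rfl
    · intro g hg g' hg' h
      have h15 := code_inj h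
      obtain ⟨m, t, hd⟩ := dat h1 hO hκ hκY (hT g hg)
      obtain ⟨m', t', hd'⟩ := dat h1 hO hκ hκY (hT g' hg')
      have hsq : √(g : Mat).det = m := by
        rw [Matrix.det_fin_two, hd.det, Real.sqrt_sq (Nat.cast_nonneg m)]
      have hsq' : √(g' : Mat).det = m' := by
        rw [Matrix.det_fin_two, hd'.det, Real.sqrt_sq (Nat.cast_nonneg m')]
      rw [hsq, hsq', hd.tr, hd'.tr,
        show (2 * (m : ℝ) - (t : ℝ)) = ((2 * (m : ℤ) - t : ℤ) : ℝ) by push_cast; ring,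
        show (2 * (m' : ℝ) - (t' : ℝ)) = ((2 * (m' : ℤ) - t' : ℤ) : ℝ) by push_cast; ring,
        Int.floor_intCast, Int.floor_intCast] at h15
      have f1 := hfac g hg m t hd
      have f2 := hfac g' hg' m' t' hd'
      have hne : 2 * (m : ℤ) - t ≠ 0 := by
        intro h0
        rw [h0, zero_mul] at f1
        exact hD0 f1.symm
      have f3 : 2 * (m : ℤ) + t = 2 * m' + t' := by
        rw [← h15] at f2
        exact mul_left_cancel₀ hne (f1.trans f2.symm)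
      have htt : t = t' := by omega
      obtain ⟨e1, e2, e3⟩ := x0_eq hO hd hd' ((hj g hg).trans (hj g' hg').symm)
      refine ext4 e1 e2 e3 ?_
      rw [hd.tr, hd'.tr, htt]
  rw [Finset.card_product, Finset.card_univ, Fintype.card_bool] at hcard
  have h16 := hB D.natAbs (Int.natAbs_pos.2 hD0) hDn
  have h17 : (T.card : ℝ) ≤ D.natAbs.divisors.card * 2 := by exact_mod_cast hcard
  linarith

end XSp2

theorem prf_Sp2 (h1 : S_Geo) (h2 : S_Dvb) : S_Sp2 := by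
  obtain ⟨C₁, hC₁, hdvb⟩ := h2 (1 / 3) (by norm_num)
  have hK := XSp2.K2_pos
  -- the bound for the number of divisors
  set A : ℝ := (XSp2.K2 + 1) ^ (1 / 3 : ℝ) with hA
  have hA0 : 0 < A := by positivity
  refine ⟨(4 * XSp2.K2 + 3) * (2 * (C₁ * A)) + 3, 1 / 8, by positivity, by norm_num, ?_⟩
  intro O κ Y hO hκ hκY hY
  have hfin := XSp2.fin h1 hO hκ hκY hY
  refine ⟨hfin, ?_⟩
  rw [Set.ncard_eq_toFinset_card _ hfin]
  set S := hfin.toFinset with hS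
  have hmS : ∀ g ∈ S, g ∈ C2 O (Sp κ) Y := fun g hg => hfin.mem_toFinset.1 hg
  set B : ℝ := C₁ * A * Y ^ (2 / 3 : ℝ) with hB
  have hY0 : 0 < Y := by linarith
  have hB0 : 0 < B := by positivity
  have hBn : ∀ n : ℕ, 0 < n → (n : ℝ) ≤ (XSp2.K2 + 1) * Y ^ 2 → (n.divisors.card : ℝ) ≤ B := by
    intro n hn hnY
    refine (hdvb n hn).trans ?_
    rw [hB, mul_assoc]
    apply mul_le_mul_of_nonneg_left _ hC₁.le
    calc (n : ℝ) ^ (1 / 3 : ℝ) ≤ ((XSp2.K2 + 1) * Y ^ 2) ^ (1 / 3 : ℝ) :=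
          Real.rpow_le_rpow (Nat.cast_nonneg n) hnY (by norm_num)
      _ = A * Y ^ (2 / 3 : ℝ) := by
          rw [Real.mul_rpow (by linarith) (by positivity), hA, ← Real.rpow_natCast Y 2,
            ← Real.rpow_mul hY0.le]
          norm_num
  -- scalar and nonscalar elements
  set P : G2 → Prop := fun g =>
    (g : Mat) 0 0 - (g : Mat) 1 1 = 0 ∧ (g : Mat) 0 1 = 0 ∧ (g : Mat) 1 0 = 0 with hP
  have hsplit : (S.filter P).card + (S.filter fun g => ¬ P g).card = S.card :=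
    Finset.card_filter_add_card_filter_not P
  have hsc : ((S.filter P).card : ℝ) ≤ 3 * Y := by
    have h3 : (S.filter P).card ≤ (Finset.Icc (-⌊Y⌋) ⌊Y⌋).card := by
      apply Finset.card_le_card_of_injOn (fun g : G2 => ⌊(g : Mat) 0 0⌋)
      · intro g hg
        obtain ⟨hgS, e1, e2, e3⟩ := Finset.mem_filter.1 hg
        obtain ⟨m, t, hd⟩ := XSp2.dat h1 hO hκ hκY (hmS g hgS)
        have h4 : ((g : Mat) 0 0) ^ 2 = (m : ℝ) ^ 2 := by
          rw [← hd.det, e2, zero_mul, sub_zero, ← sub_eq_zero.1 e1, sq]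
        have hmY : (m : ℤ) ≤ ⌊Y⌋ := by
          rw [Int.le_floor]
          exact_mod_cast hd.mY
        rcases sq_eq_sq_iff_eq_or_eq_neg.1 h4 with h5 | h5
        · simp only [h5, Finset.coe_Icc, Set.mem_Icc, Int.floor_natCast]
          constructor
          · have : (0 : ℤ) ≤ m := Int.natCast_nonneg m
            omega
          · exact hmY
        · have h6 : ⌊-(m : ℝ)⌋ = -(m : ℤ) := by
            rw [show -(m : ℝ) = ((-(m : ℤ) : ℤ) : ℝ) by push_cast; ring, Int.floor_intCast]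
          simp only [h5, Finset.coe_Icc, Set.mem_Icc, h6]
          have : (0 : ℤ) ≤ m := Int.natCast_nonneg m
          constructor <;> omega
      · intro g hg g' hg' h
        obtain ⟨hgS, e1, e2, e3⟩ := Finset.mem_filter.1 hg
        obtain ⟨hgS', e1', e2', e3'⟩ := Finset.mem_filter.1 hg'
        obtain ⟨m, t, hd⟩ := XSp2.dat h1 hO hκ hκY (hmS g hgS)
        obtain ⟨m', t', hd'⟩ := XSp2.dat h1 hO hκ hκY (hmS g' hgS')
        have key : ∀ (g : G2) (m : ℕ), (g : Mat) 0 0 - (g : Mat) 1 1 = 0 → (g : Mat) 0 1 = 0 →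
            (g : Mat) 0 0 * (g : Mat) 1 1 - (g : Mat) 0 1 * (g : Mat) 1 0 = (m : ℝ) ^ 2 →
            ((⌊(g : Mat) 0 0⌋ : ℤ) : ℝ) = (g : Mat) 0 0 := by
          intro g m e1 e2 hd
          have h4 : ((g : Mat) 0 0) ^ 2 = (m : ℝ) ^ 2 := by
            rw [← hd, e2, zero_mul, sub_zero, ← sub_eq_zero.1 e1, sq]
          rcases sq_eq_sq_iff_eq_or_eq_neg.1 h4 with h5 | h5
          · rw [h5]
            simp
          · rw [h5, show -(m : ℝ) = ((-(m : ℤ) : ℤ) : ℝ) by push_cast; ring, Int.floor_intCast]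
        have h7 := key g m e1 e2 hd.det
        have h8 := key g' m' e1' e2' hd'.det
        have h9 : (g : Mat) 0 0 = (g' : Mat) 0 0 := by
          rw [← h7, ← h8]
          exact congrArg (fun z : ℤ => (z : ℝ)) h
        refine XSp2.ext4 (by rw [e1, e1']) (by rw [e2, e2']) (by rw [e3, e3']) ?_
        rw [← sub_eq_zero.1 e1, ← sub_eq_zero.1 e1', h9]
    rw [Int.card_Icc] at h3
    have h4 : (0 : ℤ) ≤ ⌊Y⌋ := Int.floor_nonneg.2 hY0.le
    have h5 : ((S.filter P).card : ℤ) ≤ 2 * ⌊Y⌋ + 1 := by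
      have : ((⌊Y⌋ + 1 - -⌊Y⌋).toNat : ℤ) = 2 * ⌊Y⌋ + 1 := by
        rw [Int.toNat_of_nonneg (by omega)]
        ring
      rw [← this]
      exact_mod_cast h3
    have h6 : ((S.filter P).card : ℝ) ≤ 2 * (⌊Y⌋ : ℝ) + 1 := by exact_mod_cast h5
    have h7 := Int.floor_le Y
    linarith
  have hns : ((S.filter fun g => ¬ P g).card : ℝ) ≤ 2 * B * ((4 * XSp2.K2 + 3) * Y) := by
    set S' := S.filter fun g => ¬ P g with hS'
    have hmS' : ∀ g ∈ S', g ∈ C2 O (Sp κ) Y := fun g hg => hmS g (Finset.mem_filter.1 hg).1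
    have h3 : S'.card ≤ ⌊2 * B⌋₊ * (S'.image fun g : G2 =>
        ⌊2 * ((g : Mat) 0 0 - (g : Mat) 1 1)⌋).card := by
      apply Finset.card_le_mul_card_image
      intro j hj
      have h4 := XSp2.fib h1 hO hκ hκY hY hBn
        (S'.filter fun g : G2 => ⌊2 * ((g : Mat) 0 0 - (g : Mat) 1 1)⌋ = j)
        (fun g hg => hmS' g (Finset.mem_filter.1 hg).1) j
        (fun g hg => (Finset.mem_filter.1 hg).2)
        (fun g hg => (Finset.mem_filter.1 (Finset.mem_filter.1 hg).1).2)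
      rcases h4 with h4 | h4
      · exact Nat.le_floor h4
      · rw [h4]
        exact Nat.zero_le _
    have h5 : (S'.image fun g : G2 => ⌊2 * ((g : Mat) 0 0 - (g : Mat) 1 1)⌋).card ≤
        (Finset.Icc ⌊-(2 * (XSp2.K2 * Y))⌋ ⌊2 * (XSp2.K2 * Y)⌋).card := by
      apply Finset.card_le_card
      intro j hj
      obtain ⟨g, hg, rfl⟩ := Finset.mem_image.1 hj
      obtain ⟨m, t, hd⟩ := XSp2.dat h1 hO hκ hκY (hmS' g hg)
      have ha : |(g : Mat) 0 0 - (g : Mat) 1 1| ≤ XSp2.K2 * Y := by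
        apply abs_le_of_sq_le_sq _ (by positivity)
        have := hd.ad
        nlinarith [sq_nonneg Y]
      rw [abs_le] at ha
      rw [Finset.mem_Icc]
      constructor <;> apply Int.floor_le_floor <;> linarith
    rw [Int.card_Icc] at h5
    have hKY : 0 < XSp2.K2 * Y := by positivity
    have h6 : (((⌊2 * (XSp2.K2 * Y)⌋ + 1 - ⌊-(2 * (XSp2.K2 * Y))⌋).toNat : ℕ) : ℝ) ≤
        (4 * XSp2.K2 + 3) * Y := by
      have h7 : ⌊-(2 * (XSp2.K2 * Y))⌋ ≤ ⌊2 * (XSp2.K2 * Y)⌋ := Int.floor_le_floor (by linarith)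
      have h8 : (((⌊2 * (XSp2.K2 * Y)⌋ + 1 - ⌊-(2 * (XSp2.K2 * Y))⌋).toNat : ℕ) : ℤ) =
          ⌊2 * (XSp2.K2 * Y)⌋ + 1 - ⌊-(2 * (XSp2.K2 * Y))⌋ := Int.toNat_of_nonneg (by omega)
      have h9 : (((⌊2 * (XSp2.K2 * Y)⌋ + 1 - ⌊-(2 * (XSp2.K2 * Y))⌋).toNat : ℕ) : ℝ) =
          (⌊2 * (XSp2.K2 * Y)⌋ : ℝ) + 1 - (⌊-(2 * (XSp2.K2 * Y))⌋ : ℝ) := by
        exact_mod_cast h8
      rw [h9]
      have h10 := Int.floor_le (2 * (XSp2.K2 * Y))
      have h11 := Int.lt_floor_add_one (-(2 * (XSp2.K2 * Y)))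
      nlinarith
    calc ((S'.card : ℕ) : ℝ) ≤ (⌊2 * B⌋₊ : ℝ) * ((S'.image fun g : G2 =>
          ⌊2 * ((g : Mat) 0 0 - (g : Mat) 1 1)⌋).card : ℝ) := by exact_mod_cast h3
      _ ≤ 2 * B * ((4 * XSp2.K2 + 3) * Y) := by
          apply mul_le_mul (Nat.floor_le (by positivity)) _ (Nat.cast_nonneg _) (by positivity)
          exact (by exact_mod_cast h5 : ((S'.image fun g : G2 =>
            ⌊2 * ((g : Mat) 0 0 - (g : Mat) 1 1)⌋).card : ℝ) ≤ _).trans h6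
  have hY53 : Y ^ (5 / 3 : ℝ) = Y ^ (2 / 3 : ℝ) * Y := by
    rw [← Real.rpow_add_one hY0.ne']
    norm_num
  have hYle : Y ≤ Y ^ (5 / 3 : ℝ) := by
    calc Y = Y ^ (1 : ℝ) := (Real.rpow_one Y).symm
      _ ≤ Y ^ (5 / 3 : ℝ) := Real.rpow_le_rpow_of_exponent_le hY (by norm_num)
  calc (S.card : ℝ) = ((S.filter P).card : ℝ) + ((S.filter fun g => ¬ P g).card : ℝ) := by
        exact_mod_cast hsplit.symm
    _ ≤ 3 * Y + 2 * B * ((4 * XSp2.K2 + 3) * Y) := add_le_add hsc hns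
    _ = 3 * Y + (4 * XSp2.K2 + 3) * (2 * (C₁ * A)) * Y ^ (5 / 3 : ℝ) := by
        rw [hY53, hB]
        ring
    _ ≤ 3 * Y ^ (5 / 3 : ℝ) + (4 * XSp2.K2 + 3) * (2 * (C₁ * A)) * Y ^ (5 / 3 : ℝ) := by
        linarith
    _ = _ := by ring

end Pool.Agent.HoloQUE
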