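import Pool.Agent.Work.MP_d2a4bb_nt.NC.Basic

/-!
# Item TTc: the counting form of the duality inequality
-/

set_option autoImplicit false

open MeasureTheory UpperHalfPlane Matrix
open scoped MatrixGroups ModularForm Manifold ENNReal Classical

noncomputable section

namespace Pool.Agent.HoloQUE

namespace XTTc

/-- The mass of a bounded measurable set is finite. -/
theorem ms_lt_top {F : ℍ → ℝ} {B : Set ℍ} (hF : Continuous F) (hB : Bornology.IsBounded B) :
    ms F B < ⊤ := by
  have hc : IsCompact (closure B) := hB.isCompact_closure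
  have hcont : Continuous fun z => F z ^ 2 := hF.pow 2
  obtain ⟨C, hC⟩ := (hc.image hcont).isBounded.bddAbove
  have hC' : ∀ z ∈ closure B, F z ^ 2 ≤ C := fun z hz => hC (Set.mem_image_of_mem _ hz)
  have h1 : ms F B ≤ ms F (closure B) :=
    lintegral_mono_set subset_closure
  have h2 : ms F (closure B) ≤ ENNReal.ofReal C * volume (closure B) := by
    have h3 : ms F (closure B) ≤ ∫⁻ _ in closure B, ENNReal.ofReal C := by
      refine setLIntegral_mono' isClosed_closure.measurableSet ?_
      intro z hz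
      exact ENNReal.ofReal_le_ofReal (hC' z hz)
    rwa [setLIntegral_const] at h3
  exact lt_of_le_of_lt (h1.trans h2) (ENNReal.mul_lt_top ENNReal.ofReal_lt_top hc.measure_lt_top)

end XTTc

theorem prf_TTc (h1 : S_TT) : S_TTc := by
  intro O F D B E w S K hO hF h0 hinv hD hD1 hBm hw hamp hBb hE hS hK
  have hm := XTTc.ms_lt_top hF hBb
  have h2 := h1 O F D B E w hO hF h0 hinv hD hBm hw hamp
  have h3 : ∑' t : Tri O E Set.univ, ms F {z ∈ B | (t.1.1⁻¹ * t.1.2.2 * t.1.2.1) • z ∈ B} ≤
      (K : ℝ≥0∞) * ms F B := by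
    have h4 : ∀ t : Tri O E Set.univ,
        ms F {z ∈ B | (t.1.1⁻¹ * t.1.2.2 * t.1.2.1) • z ∈ B} ≤
          (Tri O E S).indicator (fun _ => ms F B) t.1 := by
      rintro ⟨⟨x, y, γ⟩, hx, hy, hγ, -⟩
      by_cases hs : (x, y, γ) ∈ Tri O E S
      · rw [Set.indicator_of_mem hs]
        exact lintegral_mono_set fun z hz => hz.1
      · rw [Set.indicator_of_notMem hs]
        have he : {z ∈ B | (x⁻¹ * γ * y) • z ∈ B} = ∅ := by
          ext z
          simp only [Set.mem_ofPred_eq, Set.mem_empty_iff_false, iff_false, not_and]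
          intro hz hz'
          refine hs ⟨hx, hy, hγ, ?_⟩
          refine hS _ ?_ z hz hz'
          have hdx : 0 < (x : Mat).det := hE x hx
          have hdy : 0 < (y : Mat).det := hE y hy
          have hdγ : (γ : Mat).det = 1 := (hO.mem_normOne.1 hγ).2
          have hdx' : 0 < ((x⁻¹ : G2) : Mat).det := by
            have h5 : ((x⁻¹ : G2) : Mat).det * (x : Mat).det = 1 := by
              rw [← Matrix.det_mul, ← Units.val_mul, inv_mul_cancel, Units.val_one,
                Matrix.det_one]
            by_contra hcon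
            have h6 := mul_nonpos_of_nonpos_of_nonneg (not_lt.1 hcon) hdx.le
            linarith
          rw [Units.val_mul, Units.val_mul, Matrix.det_mul, Matrix.det_mul, hdγ, mul_one]
          exact mul_pos hdx' hdy
        show ms F {z ∈ B | (x⁻¹ * γ * y) • z ∈ B} ≤ 0
        rw [he]
        simp [ms]
    calc ∑' t : Tri O E Set.univ, ms F {z ∈ B | (t.1.1⁻¹ * t.1.2.2 * t.1.2.1) • z ∈ B}
        ≤ ∑' t : Tri O E Set.univ, (Tri O E S).indicator (fun _ => ms F B) t.1 :=
          ENNReal.tsum_le_tsum h4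
      _ ≤ ∑' t, (Tri O E S).indicator (fun _ => ms F B) t :=
          ENNReal.tsum_comp_le_tsum_of_injective Subtype.val_injective _
      _ = ∑' _ : Tri O E S, ms F B := (tsum_subtype (Tri O E S) fun _ => ms F B).symm
      _ = (Tri O E S).encard * ms F B := ENNReal.tsum_set_const _ _
      _ ≤ (K : ℝ≥0∞) * ms F B := by
          gcongr
          have h7 : ((Tri O E S).encard : ℝ≥0∞) ≤ ((K : ℕ∞) : ℝ≥0∞) :=
            ENat.toENNReal_le.2 hK
          simpa using h7
  rw [hD1, mul_one] at h2
  have h8 : ms F B ^ 2 ≤ ENNReal.ofReal (w ^ 2) * ((K : ℝ≥0∞) * ms F B) :=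
    h2.trans (mul_le_mul_right h3 _)
  have h9 : ENNReal.ofReal (w ^ 2 * K) = ENNReal.ofReal (w ^ 2) * (K : ℝ≥0∞) := by
    rw [ENNReal.ofReal_mul (sq_nonneg w), ENNReal.ofReal_natCast]
  rw [h9]
  rcases eq_or_ne (ms F B) 0 with hz | hz
  · rw [hz]
    exact zero_le
  · rw [← mul_assoc, sq] at h8
    exact (ENNReal.mul_le_mul_iff_left hz hm.ne).1 h8

end Pool.Agent.HoloQUE
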