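import Pool.Agent.Work.MP_d2a4bb_nt.NC.Gen
import Pool.Agent.Work.MP_d2a4bb_nt.NC.I_Tube

/-!
# Item TubeP: the estimate for neighbourhoods of geodesics, for a plentiful set of primes
-/

set_option autoImplicit false

open MeasureTheory UpperHalfPlane Matrix
open scoped MatrixGroups ModularForm Manifold ENNReal Classical

noncomputable section

namespace Pool.Agent.HoloQUE

namespace XTubeP

open XTube

/-! ### The case of small `r` -/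

theorem small (h1 : S_Ma) (h2 : S_Mb) (h6 : S_Cj) (h7 : S_Sc) (h8 : S_Iso)
    (h9 : S_TTs) (h10 : S_NBi) (N₁ : ℝ → ℕ) {CB CG k1 k2 as' c₁ ap c₂ am c₃ : ℝ}
    (hCB : 0 < CB) (hCG : 0 < CG) (hk1 : 0 < k1) (hk2 : 0 < k2) (has : 0 < as') (hc₁ : 0 < c₁)
    (hap : 0 < ap) (hc₂ : 0 < c₂) (ham : 0 < am) (hc₃ : 0 < c₃)
    (hGT : ∀ (r ρ : ℝ) (g : G2) (z₁ z₂ : ℍ), 0 < r → r ≤ 2 → 0 < ρ → 0 < (g : Mat).det →
      z₁ ∈ B0 r → z₂ ∈ B0 r → g • z₁ ∈ B0 r → g • z₂ ∈ B0 r → ρ ≤ dist z₁ z₂ →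
      g ∈ Sp (CG * r / ρ) ∨ g ∈ Sm (CG * r / ρ))
    (hC1 : ∀ (O : Subring Mat) (ρ X : ℝ), QOrder O → 0 ≤ ρ → ρ ≤ 16 → 1 ≤ X →
      (C1 O (Sb I ρ) X).Finite ∧ ((C1 O (Sb I ρ) X).ncard : ℝ) ≤ k1 * X * (1 + √X * ρ) ^ 2)
    (hC2 : ∀ (O : Subring Mat) (ρ Y : ℝ), QOrder O → 0 ≤ ρ → ρ ≤ 16 → 1 ≤ Y →
      (C2 O (Sb I ρ) Y).Finite ∧
        ((C2 O (Sb I ρ) Y).ncard : ℝ) ≤ k2 * Y ^ (1 + 1 : ℝ) * (1 + Y * ρ) ^ 2)
    (hs1 : ∀ (O : Subring Mat) (κ X : ℝ), QOrder O → 0 ≤ κ → κ * √X ≤ c₁ →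
      1 ≤ X → (C1 O (Sp κ) X).Finite ∧ ((C1 O (Sp κ) X).ncard : ℝ) ≤ as' * X ∧
        (C1 O (Sm κ) X).Finite ∧ ((C1 O (Sm κ) X).ncard : ℝ) ≤ as' * X)
    (hsp : ∀ (O : Subring Mat) (κ Y : ℝ), QOrder O → 0 ≤ κ → κ * Y ≤ c₂ →
      1 ≤ Y → (C2 O (Sp κ) Y).Finite ∧ ((C2 O (Sp κ) Y).ncard : ℝ) ≤ ap * Y ^ (5 / 3 : ℝ))
    (hsm : ∀ (O : Subring Mat) (κ Y : ℝ), QOrder O → 0 ≤ κ → κ * Y ^ 4 ≤ c₃ →
      1 ≤ Y → (C2 O (Sm κ) Y).Finite ∧ ((C2 O (Sm κ) Y).ncard : ℝ) ≤ am * Y ^ (5 / 3 : ℝ)) :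
    ∃ s₀ : ℝ, 0 < s₀ ∧ s₀ ≤ 1 ∧ ∀ (O : Subring Mat) (PP : Set ℕ) (F : ℍ → ℝ) (D : Set ℍ),
      QOrder O → (∀ p ∈ PP, Good O p) → Plenty PP N₁ → AmpP O PP F →
      IsFundamentalDomain (Gam O) D volume → ms F D = 1 →
      (∀ (z : ℍ) (r : ℝ), 0 < r → r ≤ 8 →
        ms F (Metric.closedBall z r) ≤ ENNReal.ofReal (CB * r ^ (1 / 2 : ℝ))) →
      ∀ (h : G2) (r : ℝ), 0 < r → r ≤ s₀ ^ 60 →
        ms F {z | h⁻¹ • z ∈ B0 r} ≤ ENNReal.ofReal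
          (((16 * (60 * as') + 4 * √(256 * (20000 * k1) * CB)) +
            (16 * (246 * (ap + am)) + 4 * √(256 * (900000 * k2) * CB))) *
              r ^ (1 / 100 : ℝ)) := by
  set N₀ : ℕ := N₁ (1 / 30) with hN₀def
  have hcm : 0 < min c₁ (min c₂ c₃) := lt_min hc₁ (lt_min hc₂ hc₃)
  refine ⟨min 1 (min (min c₁ (min c₂ c₃) / (1679616 * CG)) (1 / ((N₀ : ℝ) + 1))), ?_,
    min_le_left _ _, ?_⟩
  · refine lt_min one_pos (lt_min ?_ ?_) <;> positivity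
  intro O PP F D hO hGood hPP hF hD hm hBall h r hr hrs
  set s₀ : ℝ := min 1 (min (min c₁ (min c₂ c₃) / (1679616 * CG)) (1 / ((N₀ : ℝ) + 1)))
    with hs₀
  have hs₀0 : 0 < s₀ := by
    rw [hs₀]
    refine lt_min one_pos (lt_min ?_ ?_) <;> positivity
  have hs₀1 : s₀ ≤ 1 := min_le_left _ _
  have hs₀2 : s₀ ≤ min c₁ (min c₂ c₃) / (1679616 * CG) :=
    (min_le_right _ _).trans (min_le_left _ _)
  have hs₀3 : s₀ ≤ 1 / ((N₀ : ℝ) + 1) := (min_le_right _ _).trans (min_le_right _ _)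
  -- the parameter `s`
  obtain ⟨s, hs, hsr⟩ : ∃ s : ℝ, 0 < s ∧ s ^ 60 = r := by
    refine ⟨r ^ (1 / 60 : ℝ), Real.rpow_pos_of_pos hr _, ?_⟩
    rw [← Real.rpow_natCast (r ^ (1 / 60 : ℝ)) 60, ← Real.rpow_mul hr.le]
    norm_num
  have hss : s ≤ s₀ := by
    rw [← hsr] at hrs
    exact (pow_le_pow_iff_left₀ hs.le hs₀0.le (by norm_num)).1 hrs
  have hs1' : s ≤ 1 := hss.trans hs₀1
  have hr1 : r ≤ 1 := by
    rw [← hsr]
    exact pow_le_one₀ hs.le hs1'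
  have hr100 : r ^ (1 / 100 : ℝ) = s ^ (3 / 5 : ℝ) := by
    rw [← hsr, ← Real.rpow_natCast s 60, ← Real.rpow_mul hs.le]
    norm_num
  -- the parameter `N`
  obtain ⟨N, hN1, hN2⟩ : ∃ N : ℕ, 1 / s ≤ N ∧ (N : ℝ) < 1 / s + 1 :=
    ⟨⌈1 / s⌉₊, Nat.le_ceil _, Nat.ceil_lt_add_one (by positivity)⟩
  have hNs : 1 ≤ N * s := by
    rwa [div_le_iff₀ hs] at hN1
  have hNs2 : N * s ≤ 2 := by
    have : (N : ℝ) * s < (1 / s + 1) * s := mul_lt_mul_of_pos_right hN2 hs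
    have e : (1 / s + 1) * s = 1 + s := by field_simp
    linarith
  have hNbig : (N₀ : ℝ) + 1 ≤ N := by
    refine le_trans ?_ hN1
    rw [le_div_iff₀ hs]
    have : s ≤ 1 / ((N₀ : ℝ) + 1) := hss.trans hs₀3
    rw [le_div_iff₀ (by positivity)] at this
    linarith [mul_comm s ((N₀ : ℝ) + 1)]
  have hNN₀ : N₀ ≤ N := by
    have : (N₀ : ℝ) ≤ N := by linarith
    exact_mod_cast this
  have hNone : 1 ≤ N := by
    have : (1 : ℝ) ≤ N := by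
      have h1 : (0 : ℝ) ≤ N₀ := Nat.cast_nonneg _
      linarith
    exact_mod_cast this
  have hN0 : (0 : ℝ) < N := by exact_mod_cast hNone
  have hN1' : (1 : ℝ) ≤ N := by exact_mod_cast hNone
  -- `ρ`, `κ`, `c`
  have hρ : 0 < s ^ 40 := by positivity
  have hρ8 : s ^ 40 ≤ 8 := (pow_le_one₀ hs.le hs1').trans (by norm_num)
  have hκ : CG * r / s ^ 40 = CG * s ^ 20 := by
    rw [← hsr]
    field_simp
  have hρc : (s ^ 40) ^ (1 / 2 : ℝ) = s ^ 20 := by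
    rw [← Real.rpow_natCast s 40, ← Real.rpow_mul hs.le, ← Real.rpow_natCast s 20]
    norm_num
  have hS₁ : ∀ g : G2, 0 < (g : Mat).det →
      g ∉ cs h (Sp (CG * s ^ 20)) ∪ cs h (Sm (CG * s ^ 20)) →
      ms F {z ∈ {z : ℍ | h⁻¹ • z ∈ B0 r} | g • z ∈ {z : ℍ | h⁻¹ • z ∈ B0 r}} ≤
        ENNReal.ofReal (CB * s ^ 20) := by
    intro g hg hgS
    have := off_S1 h8 hr (by linarith) hρ hρ8 hGT hBall h g hg (by rw [hκ]; exact hgS)
    rwa [hρc] at this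
  have hκ0 : 0 ≤ CG * s ^ 20 := by positivity
  -- the smallness of `κ`
  have hsm' : 1679616 * CG * s ≤ min c₁ (min c₂ c₃) := by
    have : s ≤ min c₁ (min c₂ c₃) / (1679616 * CG) := hss.trans hs₀2
    rw [le_div_iff₀ (by positivity)] at this
    linarith [mul_comm s (1679616 * CG)]
  have hκY : ∀ Y : ℝ, 0 ≤ Y → Y ≤ (3 * N) ^ 2 → CG * s ^ 20 * Y ^ 4 ≤ min c₁ (min c₂ c₃) := by
    intro Y hY0 hY
    refine le_trans ?_ hsm'
    have e1 : Y ^ 4 ≤ ((3 * (N : ℝ)) ^ 2) ^ 4 := pow_le_pow_left₀ hY0 hY 4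
    have e2 : ((N : ℝ) * s) ^ 8 ≤ 2 ^ 8 := pow_le_pow_left₀ (by positivity) hNs2 8
    have e3 : s ^ 12 ≤ s := by
      calc s ^ 12 ≤ s ^ 1 := pow_le_pow_of_le_one hs.le hs1' (by norm_num)
        _ = s := pow_one s
    calc CG * s ^ 20 * Y ^ 4 ≤ CG * s ^ 20 * ((3 * (N : ℝ)) ^ 2) ^ 4 := by gcongr
      _ = CG * 6561 * s ^ 12 * ((N : ℝ) * s) ^ 8 := by ring
      _ ≤ CG * 6561 * s * 2 ^ 8 := by gcongr
      _ = 1679616 * CG * s := by ring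
  have hκY1 : ∀ Y : ℝ, 1 ≤ Y → Y ≤ (3 * N) ^ 2 → CG * s ^ 20 * Y ≤ min c₁ (min c₂ c₃) := by
    intro Y hY1 hY
    refine le_trans ?_ (hκY Y (by linarith) hY)
    refine mul_le_mul_of_nonneg_left ?_ hκ0
    calc Y = Y ^ 1 := (pow_one Y).symm
      _ ≤ Y ^ 4 := pow_le_pow_right₀ hY1 (by norm_num)
  have hκX : ∀ X : ℝ, 1 ≤ X → X ≤ (3 * N) ^ 2 → CG * s ^ 20 * √X ≤ c₁ := by
    intro X hX1 hX
    refine le_trans ?_ ((hκY1 X hX1 hX).trans (min_le_left _ _))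
    refine mul_le_mul_of_nonneg_left ?_ hκ0
    rw [Real.sqrt_le_left (by linarith)]
    nlinarith
  -- scalars and conjugation
  obtain ⟨hScb, hScp, hScm, hSccs⟩ := h7
  obtain ⟨hOj, hj1, hj2, hj3⟩ := h6 O h hO
  have hSp := hSccs h _ (hScp (CG * s ^ 20))
  have hSm := hSccs h _ (hScm (CG * s ^ 20))
  have hS2 := hSccs h _ (hScb I 8)
  have hS₂ : ∀ g : G2, 0 < (g : Mat).det → ∀ z ∈ {z : ℍ | h⁻¹ • z ∈ B0 r},
      g • z ∈ {z : ℍ | h⁻¹ • z ∈ B0 r} → g ∈ cs h (Sb I 8) := by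
    intro g hg z hz hgz
    rw [hj3]
    exact in_S2 h8 h r g hg z hz hgz
  -- the primes
  set P : Finset ℕ := (Finset.Ioc N (3 * N)).filter (· ∈ PP) with hPdef
  have hPm : ∀ p ∈ P, N < p ∧ p ≤ 3 * N ∧ p ∈ PP := by
    intro p hp
    rw [hPdef, Finset.mem_filter, Finset.mem_Ioc] at hp
    exact ⟨hp.1.1, hp.1.2, hp.2⟩
  have hPcard : (N : ℝ) ^ (29 / 30 : ℝ) ≤ P.card := by
    have := hPP (1 / 30) (by norm_num) N hNN₀
    rw [show (1 : ℝ) - 1 / 30 = 29 / 30 by norm_num] at this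
    exact this
  have hPle : P.card ≤ 3 * N := by
    calc P.card ≤ (Finset.Ioc N (3 * N)).card := Finset.card_filter_le _ _
      _ ≤ 3 * N := by
        rw [Nat.card_Ioc]
        omega
  have hch : ∀ p ∈ P, ∃ A : Finset G2, Reps O p A ∧ A.card = p + 1 ∧
      ((∀ z, F z ≤ 2 / √(p : ℝ) * ∑ x ∈ A, F (x • z)) ∨
        ∀ z, F z ≤ 4 / (3 * (p : ℝ)) * ∑ x ∈ NB O p A, F (x • z)) := by
    intro p hp
    exact hF.amp p (hPm p hp).2.2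
  choose! A hAR hAc hAalt using hch
  have hPall : ∀ p ∈ P, Good O p ∧ p ≤ 3 * N ∧ Reps O p (A p) ∧ (A p).card = p + 1 := by
    intro p hp
    have := hPm p hp
    exact ⟨hGood p this.2.2, this.2.1, hAR p hp, hAc p hp⟩
  set Pa : Finset ℕ := P.filter fun p => ∀ z, F z ≤ 2 / √(p : ℝ) * ∑ x ∈ A p, F (x • z) with hPa
  set Pb : Finset ℕ := P.filter fun p =>
    ¬ ∀ z, F z ≤ 2 / √(p : ℝ) * ∑ x ∈ A p, F (x • z) with hPb
  have hPab : Pa.card + Pb.card = P.card := by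
    rw [hPa, hPb]
    exact Finset.card_filter_add_card_filter_not _
  have hPab' : (Pa.card : ℝ) + Pb.card = P.card := by exact_mod_cast hPab
  have hPaP : Pa ⊆ P := Finset.filter_subset _ _
  have hPbP : Pb ⊆ P := Finset.filter_subset _ _
  rw [hr100]
  set T1 : ℝ := 16 * (60 * as') + 4 * √(256 * (20000 * k1) * CB) with hT1
  set T2 : ℝ := 16 * (246 * (ap + am)) + 4 * √(256 * (900000 * k2) * CB) with hT2
  have hT1' : 0 ≤ T1 := by positivity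
  have hT2' : 0 ≤ T2 := by positivity
  have hsp35 : 0 ≤ s ^ (3 / 5 : ℝ) := by positivity
  have hbd : Bornology.IsBounded {z : ℍ | h⁻¹ • z ∈ B0 r} :=
    Metric.isBounded_closedBall.subset (sub_ball h8 h r)
  rcases le_total (P.card : ℝ) (2 * Pa.card) with hcase | hcase
  · have key := typeA (P := Pa) (A := A) (N := N) (s := s) (c := CB * s ^ 20) (CB := CB) (a := as')
      (a1 := k1) (Sa := cs h (Sp (CG * s ^ 20))) (Sb' := cs h (Sm (CG * s ^ 20)))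
      (S₂ := cs h (Sb I 8)) h1 h9 hO hF.cont hF.nn hF.inv hD hm (meas_B h8 h r) hbd hSp hSm hS2
      hNone hs hs1' hNs hNs2 (fun p hp => hPall p (hPaP hp)) (fun p hp => (hPm p (hPaP hp)).1)
      ((Finset.card_le_card hPaP).trans hPle) (hPcard.trans hcase)
      (fun p hp => (Finset.mem_filter.1 hp).2) rfl hCB.le has.le hk1.le hS₂ hS₁
      (fun X hX1 hX2 => trf (hj1 _ _)
        ⟨(hs1 _ _ X hOj hκ0 (hκX X hX1 hX2) hX1).1, (hs1 _ _ X hOj hκ0 (hκX X hX1 hX2) hX1).2.1⟩)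
      (fun X hX1 hX2 => trf (hj1 _ _) (hs1 _ _ X hOj hκ0 (hκX X hX1 hX2) hX1).2.2)
      (fun X hX1 => trf (hj1 _ _) (hC1 _ 8 X hOj (by norm_num) (by norm_num) hX1))
    refine key.trans (ENNReal.ofReal_le_ofReal ?_)
    rw [← hT1]
    exact mul_le_mul_of_nonneg_right (by linarith) hsp35
  · have hcase' : (P.card : ℝ) ≤ 2 * Pb.card := by linarith
    have key := typeB (P := Pb) (A := A) (N := N) (s := s) (c := CB * s ^ 20) (CB := CB) (a := ap)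
      (b := am) (a1 := k2) (Sa := cs h (Sp (CG * s ^ 20))) (Sb' := cs h (Sm (CG * s ^ 20)))
      (S₂ := cs h (Sb I 8)) h2 h9 h10 hO hF.cont hF.nn hF.inv hD hm (meas_B h8 h r) hbd hSp hSm
      hS2 hNone hs hs1' hNs hNs2 (fun p hp => hPall p (hPbP hp))
      (fun p hp => (hPm p (hPbP hp)).1)
      ((Finset.card_le_card hPbP).trans hPle) (hPcard.trans hcase')
      (fun p hp => (hAalt p (hPbP hp)).resolve_left (Finset.mem_filter.1 hp).2) rfl hCB.le hap.le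
      ham.le hk2.le hS₂ hS₁
      (fun Y hY1 hY2 => trf (hj2 _ _) (hsp _ _ Y hOj hκ0
        ((hκY1 Y hY1 hY2).trans ((min_le_right _ _).trans (min_le_left _ _))) hY1))
      (fun Y hY1 hY2 => trf (hj2 _ _) (hsm _ _ Y hOj hκ0
        ((hκY Y (by linarith) hY2).trans ((min_le_right _ _).trans (min_le_right _ _))) hY1))
      (fun Y hY1 => trf (hj2 _ _) (hC2 _ 8 Y hOj (by norm_num) (by norm_num) hY1))
    refine key.trans (ENNReal.ofReal_le_ofReal ?_)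
    rw [← hT2]
    exact mul_le_mul_of_nonneg_right (by linarith) hsp35

end XTubeP

theorem prf_TubeP (h1 : S_Ma) (h2 : S_Mb) (h3 : S_C1b) (h4 : S_C2b) (h6 : S_Cj)
    (h7 : S_Sc) (h8 : S_Iso) (h9 : S_TTs) (h10 : S_NBi) (h11 : S_S1) (h12 : S_Sp2) (h13 : S_Sm2)
    (h14 : S_GT) (h15 : S_BallP) : S_TubeP := by
  intro N₁
  obtain ⟨CB, hCB, hBall⟩ := h15 N₁ (1 / 2) (by norm_num)
  obtain ⟨CG, hCG, hGT⟩ := h14
  obtain ⟨k1, hk1, hC1⟩ := h3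
  obtain ⟨k2, hk2, hC2⟩ := h4 1 one_pos
  obtain ⟨as', c₁, has, hc₁, hs1⟩ := h11
  obtain ⟨ap, c₂, hap, hc₂, hsp⟩ := h12
  obtain ⟨am, c₃, ham, hc₃, hsm⟩ := h13
  obtain ⟨s₀, hs₀, hs₀1, hsmall⟩ := XTubeP.small h1 h2 h6 h7 h8 h9 h10 N₁ hCB hCG hk1 hk2
    has hc₁ hap hc₂ ham hc₃ hGT hC1 hC2 hs1 hsp hsm
  set T : ℝ := (16 * (60 * as') + 4 * √(256 * (20000 * k1) * CB)) +
    (16 * (246 * (ap + am)) + 4 * √(256 * (900000 * k2) * CB)) with hT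
  have hT0 : 0 < T := by positivity
  have hs35 : 0 < s₀ ^ (3 / 5 : ℝ) := Real.rpow_pos_of_pos hs₀ _
  refine ⟨2 * CB / s₀ ^ (3 / 5 : ℝ) + T, by positivity, ?_⟩
  intro O PP F D hO hGood hPP hF hD hm h r hr hr2
  have hr100 : 0 < r ^ (1 / 100 : ℝ) := Real.rpow_pos_of_pos hr _
  have hB := hBall O PP F D hO hGood hPP hF hD hm
  rcases le_or_gt r (s₀ ^ 60) with hcase | hcase
  · refine (hsmall O PP F D hO hGood hPP hF hD hm hB h r hr hcase).trans (ENNReal.ofReal_le_ofReal ?_)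
    refine mul_le_mul_of_nonneg_right ?_ hr100.le
    have : 0 ≤ 2 * CB / s₀ ^ (3 / 5 : ℝ) := by positivity
    linarith
  · refine ((XTube.ms_mono (XTube.sub_ball h8 h r)).trans (hB (h • I) 4 (by norm_num)
      (by norm_num))).trans (ENNReal.ofReal_le_ofReal ?_)
    have e4 : (4 : ℝ) ^ (1 / 2 : ℝ) = 2 := by
      rw [← Real.sqrt_eq_rpow]
      rw [show (4 : ℝ) = 2 ^ 2 by norm_num]
      exact Real.sqrt_sq (by norm_num)
    have e5 : s₀ ^ (3 / 5 : ℝ) ≤ r ^ (1 / 100 : ℝ) := by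
      have : s₀ ^ (3 / 5 : ℝ) = (s₀ ^ 60) ^ (1 / 100 : ℝ) := by
        rw [← Real.rpow_natCast s₀ 60, ← Real.rpow_mul hs₀.le]
        norm_num
      rw [this]
      exact Real.rpow_le_rpow (by positivity) hcase.le (by norm_num)
    rw [e4]
    calc CB * 2 = 2 * CB / s₀ ^ (3 / 5 : ℝ) * s₀ ^ (3 / 5 : ℝ) := by
          field_simp
      _ ≤ 2 * CB / s₀ ^ (3 / 5 : ℝ) * r ^ (1 / 100 : ℝ) := by gcongr
      _ ≤ (2 * CB / s₀ ^ (3 / 5 : ℝ) + T) * r ^ (1 / 100 : ℝ) := by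
          refine mul_le_mul_of_nonneg_right (by linarith) hr100.le

end Pool.Agent.HoloQUE
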