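import Pool.Agent.Work.MP_d2a4bb_nt.NC.I_AmpP
import Pool.Agent.Work.MP_d2a4bb_nt.NC.I_BallP
import Pool.Agent.Work.MP_d2a4bb_nt.NC.I_TubeP
import Pool.Agent.Work.MP_d2a4bb_nt.NC.I_BrA
import Pool.Agent.Work.MP_d2a4bb_nt.NC.I_BrB
import Pool.Agent.Work.MP_d2a4bb_nt.NC.I_BrCP
import Pool.Agent.Work.MP_d2a4bb_nt.NC.I_BrD
import Pool.Agent.Work.MP_d2a4bb_nt.NC.I_BrE
import Pool.Agent.Work.MP_d2a4bb_nt.NC.I_C1b
import Pool.Agent.Work.MP_d2a4bb_nt.NC.I_C2b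
import Pool.Agent.Work.MP_d2a4bb_nt.NC.I_Cj
import Pool.Agent.Work.MP_d2a4bb_nt.NC.I_Cnt
import Pool.Agent.Work.MP_d2a4bb_nt.NC.I_Ct
import Pool.Agent.Work.MP_d2a4bb_nt.NC.I_Dim
import Pool.Agent.Work.MP_d2a4bb_nt.NC.I_Dvb
import Pool.Agent.Work.MP_d2a4bb_nt.NC.I_ExE
import Pool.Agent.Work.MP_d2a4bb_nt.NC.I_ExQ
import Pool.Agent.Work.MP_d2a4bb_nt.NC.I_ExQO
import Pool.Agent.Work.MP_d2a4bb_nt.NC.I_ExR
import Pool.Agent.Work.MP_d2a4bb_nt.NC.I_FinA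
import Pool.Agent.Work.MP_d2a4bb_nt.NC.I_FinB
import Pool.Agent.Work.MP_d2a4bb_nt.NC.I_GT
import Pool.Agent.Work.MP_d2a4bb_nt.NC.I_Geo
import Pool.Agent.Work.MP_d2a4bb_nt.NC.I_Incl
import Pool.Agent.Work.MP_d2a4bb_nt.NC.I_Iso
import Pool.Agent.Work.MP_d2a4bb_nt.NC.I_L1
import Pool.Agent.Work.MP_d2a4bb_nt.NC.I_L2
import Pool.Agent.Work.MP_d2a4bb_nt.NC.I_Lim
import Pool.Agent.Work.MP_d2a4bb_nt.NC.I_Ma
import Pool.Agent.Work.MP_d2a4bb_nt.NC.I_Ma1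
import Pool.Agent.Work.MP_d2a4bb_nt.NC.I_Mb
import Pool.Agent.Work.MP_d2a4bb_nt.NC.I_Mb1
import Pool.Agent.Work.MP_d2a4bb_nt.NC.I_Mx
import Pool.Agent.Work.MP_d2a4bb_nt.NC.I_NBi
import Pool.Agent.Work.MP_d2a4bb_nt.NC.I_Pr
import Pool.Agent.Work.MP_d2a4bb_nt.NC.I_S1
import Pool.Agent.Work.MP_d2a4bb_nt.NC.I_Sc
import Pool.Agent.Work.MP_d2a4bb_nt.NC.I_Sm2
import Pool.Agent.Work.MP_d2a4bb_nt.NC.I_Sp2
import Pool.Agent.Work.MP_d2a4bb_nt.NC.I_TT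
import Pool.Agent.Work.MP_d2a4bb_nt.NC.I_TTc
import Pool.Agent.Work.MP_d2a4bb_nt.NC.I_TTs
import Pool.Agent.Work.MP_d2a4bb_nt.QA.I_INT

/-!
# Block [d2a4bb NC]: the items without hypotheses
-/

set_option autoImplicit false

namespace Pool.Agent.HoloQUE

theorem all_Cnt : S_Cnt := prf_Cnt
theorem all_L1 : S_L1 := prf_L1
theorem all_L2 : S_L2 := prf_L2
theorem all_NBi : S_NBi := prf_NBi all_L1
theorem all_Mx : S_Mx := prf_Mx
theorem all_Ma1 : S_Ma1 := prf_Ma1 all_L1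
theorem all_Mb1 : S_Mb1 := prf_Mb1 all_L1 all_L2 all_NBi
theorem all_Ma : S_Ma := prf_Ma all_Ma1 all_Mx
theorem all_Mb : S_Mb := prf_Mb all_Mb1 all_Mx all_NBi
theorem all_Iso : S_Iso := prf_Iso
theorem all_AmpP : S_AmpP := prf_AmpP all_NBi
theorem all_TT : S_TT := prf_TT all_Cnt
theorem all_TTc : S_TTc := prf_TTc all_TT
theorem all_TTs : S_TTs := prf_TTs all_TT
theorem all_Lim : S_Lim := prf_Lim
theorem all_Cj : S_Cj := prf_Cj all_Iso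
theorem all_Sc : S_Sc := prf_Sc
theorem all_Geo : S_Geo := prf_Geo
theorem all_Dvb : S_Dvb := prf_Dvb
theorem all_C1b : S_C1b := prf_C1b all_Geo
theorem all_C2b : S_C2b := prf_C2b all_Geo all_Dvb
theorem all_Pr : S_Pr := prf_Pr
theorem all_BallP : S_BallP :=
  prf_BallP all_Ma all_Mb all_C1b all_C2b all_Cj all_Sc all_Iso all_TTc all_NBi
theorem all_S1 : S_S1 := prf_S1 all_Geo
theorem all_Sp2 : S_Sp2 := prf_Sp2 all_Geo all_Dvb
theorem all_Sm2 : S_Sm2 := prf_Sm2 all_Geo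
theorem all_GT : S_GT := prf_GT all_Iso all_Geo
theorem all_Incl : S_Incl := prf_Incl all_Iso
theorem all_TubeP : S_TubeP :=
  prf_TubeP all_Ma all_Mb all_C1b all_C2b all_Cj all_Sc all_Iso all_TTs all_NBi all_S1 all_Sp2
    all_Sm2 all_GT all_BallP
theorem all_BrA : S_BrA := prf_BrA Pool.Agent.Work.MP_d2a4bb_nt.QA.INT_pf
theorem all_BrB : S_BrB := prf_BrB
theorem all_BrCP : S_BrCP := prf_BrCP
theorem all_BrD : S_BrD := prf_BrD
theorem all_BrE : S_BrE := prf_BrE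
theorem all_Dim : S_Dim := prf_Dim
theorem all_FinB : FinalB :=
  prf_FinB all_TubeP all_AmpP all_Lim all_BrA all_BrB all_BrCP all_BrD all_Incl
theorem all_FinA : FinalA :=
  prf_FinA all_BallP all_AmpP all_Lim all_BrA all_BrB all_BrCP all_BrD all_Dim

/-! ### The order of discriminant `6` -/

private theorem natsmul (p : ℕ) (y : Mat) : (p : ℝ) • y = (p : Mat) * y := by
  have h : (p : Mat) = (p : ℝ) • (1 : Mat) := by
    rw [Nat.cast_smul_eq_nsmul, nsmul_eq_mul, mul_one]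
  rw [h, smul_mul_assoc, one_mul]

/-- All primes `p > 3` are good for the maximal order of discriminant `6`. -/
theorem all_Ex6 : ∃ (Q : HQ.QuatOrder) (N₀ : ℝ → ℕ), (∀ x, x ∈ Q.O ↔ IsR6 x) ∧
    GoodSet Q {p | p.Prime ∧ 3 < p} N₀ := by
  obtain ⟨Q, hQ⟩ := prf_ExQO
  have hQO : QOrder Q.O := all_BrA Q
  choose n₀ hn₀ using all_Pr
  classical
  refine ⟨Q, fun ε => if h : 0 < ε then max (n₀ ε h) 3 else 0, hQ, ?_, ?_⟩
  · intro ε hε N hN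
    simp only [dif_pos hε] at hN
    have hN1 : n₀ ε hε ≤ N := le_trans (le_max_left _ _) hN
    have hN3 : 3 ≤ N := le_trans (le_max_right _ _) hN
    refine le_trans (hn₀ ε hε N hN1) (Nat.cast_le.2 (Finset.card_le_card fun p hp => ?_))
    rw [Finset.mem_filter, Finset.mem_Ioc] at hp
    refine (@Finset.mem_filter ℕ (· ∈ {p : ℕ | p.Prime ∧ 3 < p})
      (fun _ => Classical.propDecidable _) _ p).2 ⟨Finset.mem_Ioc.2 hp.1, hp.2, by omega⟩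
  · rintro p ⟨hp, hp3⟩
    obtain ⟨hE1, hE2⟩ := prf_ExE Q.O hQ
    have hR := prf_ExR Q.O p hQ hp hp3
    refine ⟨hp, ?_, ?_⟩
    · obtain ⟨ρ, hρ, hk⟩ := hR
      refine ⟨ρ, hρ, fun x => ?_⟩
      rw [hk x]
      constructor
      · rintro ⟨y, hy, hxy⟩
        refine ⟨⟨y, hy⟩, Subtype.ext ?_⟩
        rw [hxy]
        exact natsmul p y
      · rintro ⟨y, hxy⟩
        refine ⟨(y : Mat), y.2, ?_⟩
        rw [hxy]
        exact (natsmul p y).symm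
    · obtain ⟨A, hA, hc⟩ := prf_Ct Q.O p hQO hp hE1 hE2 hR
      rw [prf_BrE Q p A hQO hp hA, hc]

end Pool.Agent.HoloQUE
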