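import Pool.Agent.Work.MP_d2a4bb_nt.NC.Statement

/-!
# Notions used in the proofs
-/

set_option autoImplicit false

open MeasureTheory UpperHalfPlane Matrix
open scoped MatrixGroups ModularForm Manifold ENNReal Classical

noncomputable section

namespace Pool.Agent.HoloQUE

/-- `O` is an order of an indefinite quaternion division algebra over `ℚ`, embedded in `M₂(ℝ)`. -/
structure QOrder (O : Subring Mat) : Prop where
  tr : ∀ x ∈ O, ∃ n : ℤ, x.trace = n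
  dt : ∀ x ∈ O, ∃ n : ℤ, x.det = n
  ne : ∀ x ∈ O, x ≠ 0 → x.det ≠ 0
  span : Submodule.span ℝ (O : Set Mat) = ⊤

/-- The elements of a set are inequivalent modulo `O¹`. -/
def Ineq (O : Subring Mat) (A : Finset G2) : Prop :=
  ∀ x ∈ A, ∀ y ∈ A, y * x⁻¹ ∈ normOne O → y = x

/-- The products `x y`, `x, y ∈ A`, which are not divisible by `p`. -/
def NB (O : Subring Mat) (p : ℕ) (A : Finset G2) : Finset G2 :=
  ((A ×ˢ A).filter fun t => ¬ Dv O p ((t.1 * t.2 : G2) : Mat)).image fun t => t.1 * t.2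

/-- The amplified functions: continuous, nonnegative, `Γ`-invariant functions which satisfy for all
large good primes one of the two amplification inequalities. -/
structure AmpFn (O : Subring Mat) (p₀ : ℕ) (F : ℍ → ℝ) : Prop where
  cont : Continuous F
  nn : ∀ z, 0 ≤ F z
  inv : ∀ g ∈ normOne O, ∀ z, F (g • z) = F z
  amp : ∀ p, p₀ < p → Good O p → ∃ A : Finset G2, Reps O p A ∧ A.card = p + 1 ∧
    ((∀ z, F z ≤ 2 / √(p : ℝ) * ∑ x ∈ A, F (x • z)) ∨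
      ∀ z, F z ≤ 4 / (3 * (p : ℝ)) * ∑ x ∈ NB O p A, F (x • z))

/-- `∫_B F²`. -/
def ms (F : ℍ → ℝ) (B : Set ℍ) : ℝ≥0∞ := ∫⁻ z in B, ENNReal.ofReal (F z ^ 2)

/-- The set of triples `(x, y, γ)` with `x ∈ E`, `y ∈ E'`, `γ ∈ O¹` and `x⁻¹ γ y ∈ S`. -/
def Tri2 (O : Subring Mat) (E E' : Finset G2) (S : Set G2) : Set (G2 × G2 × G2) :=
  {t | t.1 ∈ E ∧ t.2.1 ∈ E' ∧ t.2.2 ∈ normOne O ∧ t.1⁻¹ * t.2.2 * t.2.1 ∈ S}

/-- The set of triples `(x, y, γ)` with `x ∈ E`, `y ∈ E`, `γ ∈ O¹` and `x⁻¹ γ y ∈ S`. -/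
def Tri (O : Subring Mat) (E : Finset G2) (S : Set G2) : Set (G2 × G2 × G2) := Tri2 O E E S

/-- The set `S` is invariant under multiplication by scalars. -/
def ScInv (S : Set G2) : Prop :=
  ∀ (a : ℝˣ) (g : G2), g ∈ S → GeneralLinearGroup.scalar (Fin 2) a * g ∈ S

/-- The elements of `O` in `S` of reduced norm between `1` and `X`. -/
def C1 (O : Subring Mat) (S : Set G2) (X : ℝ) : Set G2 :=
  {g | g ∈ S ∧ (g : Mat) ∈ O ∧ 0 < (g : Mat).det ∧ (g : Mat).det ≤ X}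

/-- The elements of `O` in `S` of reduced norm `m ^ 2` with an integer `1 ≤ m ≤ Y`. -/
def C2 (O : Subring Mat) (S : Set G2) (Y : ℝ) : Set G2 :=
  {g | g ∈ S ∧ (g : Mat) ∈ O ∧ ∃ m : ℕ, 1 ≤ m ∧ (m : ℝ) ≤ Y ∧ (g : Mat).det = (m : ℝ) ^ 2}

/-- The elements of `O` in `S` of reduced norm `n`. -/
def C0 (O : Subring Mat) (S : Set G2) (n : ℕ) : Set G2 :=
  {g | g ∈ S ∧ (g : Mat) ∈ O ∧ (g : Mat).det = n}

/-- The elements of `GL₂(ℝ)⁺` which move `z` by at most `ρ`. -/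
def Sb (z : ℍ) (ρ : ℝ) : Set G2 := {g | 0 < (g : Mat).det ∧ dist (g • z) z ≤ ρ}

/-- The elements of `GL₂(ℝ)⁺` which move `i` by at most `8` and are almost diagonal. -/
def Sp (κ : ℝ) : Set G2 := {g | g ∈ Sb I 8 ∧
  |(g : Mat) 0 1| ≤ κ * √(g : Mat).det ∧ |(g : Mat) 1 0| ≤ κ * √(g : Mat).det}

/-- The elements of `GL₂(ℝ)⁺` which move `i` by at most `8` and are almost antidiagonal. -/
def Sm (κ : ℝ) : Set G2 := {g | g ∈ Sb I 8 ∧
  |(g : Mat) 0 0| ≤ κ * √(g : Mat).det ∧ |(g : Mat) 1 1| ≤ κ * √(g : Mat).det}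

/-- The conjugate `h⁻¹ O h`. -/
def cj (h : G2) (O : Subring Mat) : Subring Mat where
  carrier := {x | (h : Mat) * x * ((h⁻¹ : G2) : Mat) ∈ O}
  mul_mem' := by
    intro x y hx hy
    have e : (h : Mat) * (x * y) * ((h⁻¹ : G2) : Mat) =
        ((h : Mat) * x * ((h⁻¹ : G2) : Mat)) * ((h : Mat) * y * ((h⁻¹ : G2) : Mat)) := by
      have h1 : ((h⁻¹ : G2) : Mat) * (h : Mat) = 1 := by
        rw [← Units.val_mul, inv_mul_cancel, Units.val_one]
      calc (h : Mat) * (x * y) * ((h⁻¹ : G2) : Mat)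
          = (h : Mat) * x * 1 * y * ((h⁻¹ : G2) : Mat) := by simp only [mul_one, mul_assoc]
        _ = (h : Mat) * x * (((h⁻¹ : G2) : Mat) * (h : Mat)) * y * ((h⁻¹ : G2) : Mat) := by rw [h1]
        _ = _ := by simp only [mul_assoc]
    show (h : Mat) * (x * y) * ((h⁻¹ : G2) : Mat) ∈ O
    rw [e]
    exact O.mul_mem hx hy
  one_mem' := by
    show (h : Mat) * 1 * ((h⁻¹ : G2) : Mat) ∈ O
    rw [mul_one, ← Units.val_mul, mul_inv_cancel, Units.val_one]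
    exact O.one_mem
  add_mem' := by
    intro x y hx hy
    show (h : Mat) * (x + y) * ((h⁻¹ : G2) : Mat) ∈ O
    rw [mul_add, add_mul]
    exact O.add_mem hx hy
  zero_mem' := by
    show (h : Mat) * 0 * ((h⁻¹ : G2) : Mat) ∈ O
    rw [mul_zero, zero_mul]
    exact O.zero_mem
  neg_mem' := by
    intro x hx
    show (h : Mat) * (-x) * ((h⁻¹ : G2) : Mat) ∈ O
    rw [mul_neg, neg_mul]
    exact O.neg_mem hx

/-- The conjugate set `h S h⁻¹`. -/
def cs (h : G2) (S : Set G2) : Set G2 := {g | h⁻¹ * g * h ∈ S}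

/-- The neighbourhood of the vertical geodesic. -/
def B0 (r : ℝ) : Set ℍ := {z | dist z I ≤ 4 ∧ |z.re| ≤ r * z.im}

end Pool.Agent.HoloQUE
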