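import Pool.Agent.Work.MP_d2a4bb_nt.NC.Basic

/-!
# Item Amp: Hecke forms are amplified functions
-/

set_option autoImplicit false

open MeasureTheory UpperHalfPlane Matrix
open scoped MatrixGroups ModularForm Manifold ENNReal Classical

noncomputable section

namespace Pool.Agent.HoloQUE

namespace XAmp

variable {O : Subring Mat}

theorem sigma_pos {g : G2} (hg : 0 < (g : Mat).det) (c : ℂ) : σ g c = c := by
  simp [σ, hg]

/-- the slash action and the function `y ^ (k / 2) |f|` -/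
theorem norm_slash (k : ℤ) (f : ℍ → ℂ) {g : G2} (hg : 0 < (g : Mat).det) (z : ℍ) :
    ‖(f ∣[k] g) z‖ * z.im ^ ((k : ℝ) / 2) =
      (g : Mat).det ^ ((k : ℝ) / 2 - 1) * (‖f (g • z)‖ * (g • z).im ^ ((k : ℝ) / 2)) := by
  have hD : 0 < ‖denom g z‖ := norm_pos_iff.2 (denom_ne_zero g z)
  have hy := z.im_pos
  have hdv : g.det.val = (g : Mat).det := GeneralLinearGroup.val_det_apply g
  rw [ModularForm.slash_apply, norm_mul, norm_mul, norm_σ, norm_zpow, norm_zpow,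
    im_smul_eq_div_normSq, hdv, abs_of_pos hg, Complex.norm_real, Real.norm_eq_abs,
    abs_of_pos hg, Complex.normSq_eq_norm_sq]
  set d := (g : Mat).det with hd
  set D := ‖denom g z‖
  set y := z.im
  have h1 : (d * y / D ^ 2) ^ ((k : ℝ) / 2) =
      d ^ ((k : ℝ) / 2) * y ^ ((k : ℝ) / 2) * (D ^ k)⁻¹ := by
    rw [Real.div_rpow (by positivity) (by positivity), Real.mul_rpow hg.le hy.le, div_eq_mul_inv]
    congr 2
    rw [← Real.rpow_natCast D 2, ← Real.rpow_mul hD.le, ← Real.rpow_intCast D k]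
    congr 1
    push_cast
    ring
  have h2 : d ^ (k - 1) = d ^ ((k : ℝ) / 2 - 1) * d ^ ((k : ℝ) / 2) := by
    rw [← Real.rpow_add hg, ← Real.rpow_intCast d (k - 1)]
    congr 1
    push_cast
    ring
  rw [h1, h2, _root_.zpow_neg]
  ring

/-- the slash action of scalars -/
theorem slash_scalar (k : ℤ) (f : ℍ → ℂ) {p : ℝ} (hp : 0 < p) {s : G2}
    (hs : (s : Mat) = p • (1 : Mat)) : f ∣[k] s = ((p : ℂ) ^ (k - 2)) • f := by
  have hs2 : s = GeneralLinearGroup.scalar (Fin 2) (Units.mk0 p hp.ne') := by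
    apply ext_G2
    rw [coe_scalar, hs]
    rfl
  have hdet : (s : Mat).det = p ^ 2 := by
    rw [hs, det_smul2, Matrix.det_one, mul_one]
  have hpos : 0 < (s : Mat).det := by
    rw [hdet]
    positivity
  have hdv : s.det.val = (s : Mat).det := GeneralLinearGroup.val_det_apply s
  funext z
  rw [ModularForm.slash_apply, sigma_pos hpos, hdv, abs_of_pos hpos, hdet]
  have h1 : s • z = z := by
    rw [hs2, glScalar_smul]
  have h2 : denom s z = (p : ℂ) := by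
    rw [hs2, denom_scalar]
    rfl
  rw [h1, h2, Pi.smul_apply, smul_eq_mul]
  have hpc : (p : ℂ) ≠ 0 := by exact_mod_cast hp.ne'
  have h3 : ((p ^ 2 : ℝ) : ℂ) ^ (k - 1) * (p : ℂ) ^ (-k) = (p : ℂ) ^ (k - 2) := by
    push_cast
    rw [← zpow_natCast (p : ℂ) 2, ← _root_.zpow_mul, ← zpow_add₀ hpc]
    congr 1
    push_cast
    ring
  rw [mul_assoc, h3, mul_comm]

/-- products of elements of reduced norm `p` which are divisible by `p` act by a scalar -/
theorem slash_dv {k : ℤ} {f : ℍ → ℂ} (hO : QOrder O) (hinv : ∀ g ∈ normOne O, f ∣[k] g = f)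
    {p : ℕ} (hp : 0 < p) {g : G2} (hg : (g : Mat).det = (p : ℝ) ^ 2) (hd : Dv O p (g : Mat)) :
    f ∣[k] g = ((p : ℂ) ^ (k - 2)) • f := by
  obtain ⟨w, hw, hgw⟩ := hd
  have hpr : (0 : ℝ) < p := by exact_mod_cast hp
  have hdw : w.det = 1 := by
    rw [hgw, det_smul2] at hg
    have h : (p : ℝ) ^ 2 * w.det = (p : ℝ) ^ 2 * 1 := by rw [hg, mul_one]
    exact mul_left_cancel₀ (pow_ne_zero 2 hpr.ne') h
  obtain ⟨u, hu⟩ := exists_G2 (x := w) (by rw [hdw]; exact one_ne_zero)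
  have hu1 : u ∈ normOne O := by
    rw [hO.mem_normOne, hu]
    exact ⟨hw, hdw⟩
  obtain ⟨s, hs⟩ := exists_G2 (x := (p : ℝ) • (1 : Mat)) (by
    rw [det_smul2, Matrix.det_one, mul_one]
    exact pow_ne_zero 2 hpr.ne')
  have hgs : g = u * s := by
    apply ext_G2
    rw [Units.val_mul, hu, hs, hgw, mul_smul_comm, mul_one]
  rw [hgs, SlashAction.slash_mul, hinv u hu1, slash_scalar k f hpr hs, Complex.ofReal_natCast]

/-- for each `y` there is exactly one `x` with `x y` divisible by `p` -/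
theorem card_dv (hO : QOrder O) {p : ℕ} (hp : 0 < p) {A : Finset G2} (hA : Reps O p A) :
    ((A ×ˢ A).filter fun t => Dv O p ((t.1 * t.2 : G2) : Mat)).card = A.card := by
  have hpr : (0 : ℝ) < p := by exact_mod_cast hp
  have key : ∀ x ∈ A, ∀ y ∈ A, ∀ y' : G2, (y' : Mat) = (y : Mat).adjugate →
      Dv O p ((x * y : G2) : Mat) → x * y'⁻¹ ∈ normOne O := by
    intro x hx y hy y' hy' ⟨w, hw, hxw⟩
    have hyd : (y : Mat).det = p := (hA.mem y hy).2
    have hxd : (x : Mat).det = p := (hA.mem x hx).2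
    refine hO.normOne_of_eq hw ?_ ?_
    · rw [Units.val_mul] at hxw
      have h1 : (x : Mat) * ((y : Mat) * (y : Mat).adjugate) =
          ((p : ℝ) • w) * (y : Mat).adjugate := by
        rw [← mul_assoc, hxw]
      rw [mul_adj, hyd, mul_smul_comm, mul_one, smul_mul_assoc] at h1
      rw [hy']
      exact smul_right_injective Mat hpr.ne' h1
    · rw [hxd, hy', det_adj, hyd]
  refine Finset.card_bij (fun t _ => t.2) ?_ ?_ ?_
  · intro t ht
    exact (Finset.mem_product.1 (Finset.mem_filter.1 ht).1).2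
  · intro t ht t' ht' h
    obtain ⟨h1, h2⟩ := Finset.mem_filter.1 ht
    obtain ⟨h1', h2'⟩ := Finset.mem_filter.1 ht'
    obtain ⟨ha, hb⟩ := Finset.mem_product.1 h1
    obtain ⟨ha', hb'⟩ := Finset.mem_product.1 h1'
    have h' : t.2 = t'.2 := h
    obtain ⟨y', hy'⟩ := exists_G2 (x := (t.2 : Mat).adjugate) (by
      rw [det_adj]
      exact det_ne _)
    have k1 := key t.1 ha t.2 hb y' hy' h2
    have k2 := key t'.1 ha' t'.2 hb' y' (by rw [← h']; exact hy') h2'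
    refine Prod.ext ?_ h'
    refine (hA.uniq t'.1 ha' t.1 ha ?_)
    have k3 := (normOne O).mul_mem k1 ((normOne O).inv_mem k2)
    have e : t.1 * y'⁻¹ * (t'.1 * y'⁻¹)⁻¹ = t.1 * t'.1⁻¹ := by group
    rwa [e] at k3
  · intro y hy
    obtain ⟨hyO, hyd⟩ := hA.mem y hy
    obtain ⟨y', hy'⟩ := exists_G2 (x := (y : Mat).adjugate) (by
      rw [det_adj]
      exact det_ne _)
    have hy'R : y' ∈ Rn O p := by
      refine ⟨?_, ?_⟩
      · rw [hy']
        exact hO.adj_mem hyO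
      · rw [hy', det_adj, hyd]
    obtain ⟨x, hx, hxy⟩ := hA.rep y' hy'R
    refine ⟨(x, y), ?_, rfl⟩
    rw [Finset.mem_filter, Finset.mem_product]
    refine ⟨⟨hx, hy⟩, ?_⟩
    have hxy' := (normOne O).inv_mem hxy
    refine ⟨(((y' * x⁻¹)⁻¹ : G2) : Mat), hxy'.1, ?_⟩
    have e1 : x * y = (y' * x⁻¹)⁻¹ * (y' * y) := by group
    show ((x * y : G2) : Mat) = _
    rw [e1, Units.val_mul, Units.val_mul, hy', adj_mul_self, hyd, mul_smul_comm, mul_one]

/-- the square of the Hecke operator -/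
theorem hecke_sq {k : ℤ} {f : ℍ → ℂ} (hO : QOrder O) (hinv : ∀ g ∈ normOne O, f ∣[k] g = f)
    {p : ℕ} (hp : 0 < p) {A : Finset G2} (hA : Reps O p A) {c : ℂ}
    (hc : ∑ x ∈ A, f ∣[k] x = c • f) :
    (c ^ 2 - (A.card : ℂ) * (p : ℂ) ^ (k - 2)) • f =
      ∑ t ∈ (A ×ˢ A).filter (fun t => ¬ Dv O p ((t.1 * t.2 : G2) : Mat)), f ∣[k] (t.1 * t.2) := by
  have hpr : (0 : ℝ) < p := by exact_mod_cast hp
  have h1 : ∑ t ∈ A ×ˢ A, f ∣[k] (t.1 * t.2) = (c ^ 2) • f := by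
    rw [Finset.sum_product_right]
    have h2 : ∀ y ∈ A, ∑ x ∈ A, f ∣[k] (x * y) = c • (f ∣[k] y) := by
      intro y hy
      have h3 : ∀ x ∈ A, f ∣[k] (x * y) = (f ∣[k] x) ∣[k] y := fun x _ =>
        SlashAction.slash_mul k x y f
      rw [Finset.sum_congr rfl h3, ← SlashAction.sum_slash, hc, ModularForm.smul_slash,
        sigma_pos]
      rw [(hA.mem y hy).2]
      exact hpr
    rw [Finset.sum_congr rfl h2, ← Finset.smul_sum, hc, smul_smul, sq]
  have h4 : ∑ t ∈ (A ×ˢ A).filter (fun t => Dv O p ((t.1 * t.2 : G2) : Mat)),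
      f ∣[k] (t.1 * t.2) = ((A.card : ℂ) * (p : ℂ) ^ (k - 2)) • f := by
    have h5 : ∀ t ∈ (A ×ˢ A).filter (fun t => Dv O p ((t.1 * t.2 : G2) : Mat)),
        f ∣[k] (t.1 * t.2) = ((p : ℂ) ^ (k - 2)) • f := by
      intro t ht
      obtain ⟨h1, h2⟩ := Finset.mem_filter.1 ht
      obtain ⟨ha, hb⟩ := Finset.mem_product.1 h1
      refine slash_dv hO hinv hp ?_ h2
      rw [Units.val_mul, Matrix.det_mul, (hA.mem t.1 ha).2, (hA.mem t.2 hb).2, sq]
    rw [Finset.sum_congr rfl h5, Finset.sum_const, card_dv hO hp hA, mul_smul,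
      Nat.cast_smul_eq_nsmul]
  have h6 := Finset.sum_filter_add_sum_filter_not (A ×ˢ A)
    (fun t => Dv O p ((t.1 * t.2 : G2) : Mat)) (fun t => f ∣[k] (t.1 * t.2))
  rw [h1, h4] at h6
  rw [sub_smul, ← h6, add_sub_cancel_left]

end XAmp

open XAmp

theorem prf_Amp (h1 : S_NBi) : S_Amp := by
  intro O p₀ k f hO hf
  have hinv : ∀ g ∈ normOne O, ∀ z : ℍ, ‖f (g • z)‖ * (g • z).im ^ ((k : ℝ) / 2) =
      ‖f z‖ * z.im ^ ((k : ℝ) / 2) := by
    intro g hg z
    have hd : (g : Mat).det = 1 := hg.2.2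
    have h := norm_slash k f (g := g) (by rw [hd]; exact one_pos) z
    rw [hf.inv g hg, hd, Real.one_rpow, one_mul] at h
    exact h.symm
  refine ⟨?_, ?_, hinv, ?_⟩
  · refine hf.holo.continuous.norm.mul ?_
    refine Continuous.rpow_const UpperHalfPlane.continuous_im ?_
    intro z
    exact Or.inl z.im_pos.ne'
  · intro z
    exact mul_nonneg (norm_nonneg _) (Real.rpow_nonneg z.im_pos.le _)
  intro p hp0 hgood
  obtain ⟨A, hA, hcard⟩ := hgood.reps
  obtain ⟨c, hc⟩ := hf.eig p hgood hp0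
  have hp : 0 < p := hgood.prime.pos
  have hpr : (0 : ℝ) < p := by exact_mod_cast hp
  refine ⟨A, hA, hcard, ?_⟩
  set F : ℍ → ℝ := fun z => ‖f z‖ * z.im ^ ((k : ℝ) / 2) with hF
  have hFnn : ∀ z, 0 ≤ F z := fun z => mul_nonneg (norm_nonneg _) (Real.rpow_nonneg z.im_pos.le _)
  set q : ℝ := (p : ℝ) ^ ((k : ℝ) / 2 - 1) with hq
  have hqpos : 0 < q := Real.rpow_pos_of_pos hpr _
  have hq2 : q ^ 2 = (p : ℝ) ^ (k - 2) := by
    rw [hq, ← Real.rpow_natCast, ← Real.rpow_mul hpr.le, ← Real.rpow_intCast]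
    congr 1
    push_cast
    ring
  by_cases hcase : q * √(p : ℝ) / 2 ≤ ‖c‖
  · left
    intro z
    have h2 : ‖c‖ * F z ≤ q * ∑ x ∈ A, F (x • z) := by
      have h3 : ‖c‖ * F z = ‖(∑ x ∈ A, f ∣[k] x) z‖ * z.im ^ ((k : ℝ) / 2) := by
        rw [hc A hA, Pi.smul_apply, smul_eq_mul, norm_mul, mul_assoc]
      rw [h3, Finset.sum_apply, Finset.mul_sum]
      refine (mul_le_mul_of_nonneg_right (norm_sum_le _ _)
        (Real.rpow_nonneg z.im_pos.le _)).trans ?_
      rw [Finset.sum_mul]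
      refine Finset.sum_le_sum fun x hx => ?_
      have hxd : (x : Mat).det = p := (hA.mem x hx).2
      have h4 := norm_slash k f (g := x) (by rw [hxd]; exact hpr) z
      rw [h4, hxd]
    have hs : 0 < √(p : ℝ) := Real.sqrt_pos.2 hpr
    have h5 : q * √(p : ℝ) / 2 * F z ≤ q * ∑ x ∈ A, F (x • z) :=
      (mul_le_mul_of_nonneg_right hcase (hFnn z)).trans h2
    have h6 : √(p : ℝ) / 2 * F z ≤ ∑ x ∈ A, F (x • z) := by
      refine le_of_mul_le_mul_left ?_ hqpos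
      calc q * (√(p : ℝ) / 2 * F z) = q * √(p : ℝ) / 2 * F z := by ring
        _ ≤ _ := h5
    show F z ≤ 2 / √(p : ℝ) * ∑ x ∈ A, F (x • z)
    rw [div_mul_eq_mul_div, le_div_iff₀ hs]
    linarith
  · right
    push Not at hcase
    intro z
    have h7 := hecke_sq hO hf.inv hp hA (hc A hA)
    have h8 := congrFun h7 z
    rw [Pi.smul_apply, smul_eq_mul, Finset.sum_apply, hcard] at h8
    set B := (A ×ˢ A).filter (fun t => ¬ Dv O p ((t.1 * t.2 : G2) : Mat)) with hB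
    have h9 : ‖c ^ 2 - ((p + 1 : ℕ) : ℂ) * (p : ℂ) ^ (k - 2)‖ * F z ≤
        q ^ 2 * ∑ x ∈ NB O p A, F (x • z) := by
      rw [(h1 O p A hO hgood hA).2.2.1 (fun g => F (g • z)), Finset.mul_sum]
      have e : ‖c ^ 2 - ((p + 1 : ℕ) : ℂ) * (p : ℂ) ^ (k - 2)‖ * F z =
          ‖∑ t ∈ B, (f ∣[k] (t.1 * t.2)) z‖ * z.im ^ ((k : ℝ) / 2) := by
        rw [← h8, norm_mul, mul_assoc]
      rw [e]
      refine (mul_le_mul_of_nonneg_right (norm_sum_le _ _)
        (Real.rpow_nonneg z.im_pos.le _)).trans ?_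
      rw [Finset.sum_mul]
      refine Finset.sum_le_sum fun t ht => ?_
      obtain ⟨ht1, -⟩ := Finset.mem_filter.1 ht
      obtain ⟨ha, hb⟩ := Finset.mem_product.1 ht1
      have hd : ((t.1 * t.2 : G2) : Mat).det = (p : ℝ) ^ 2 := by
        rw [Units.val_mul, Matrix.det_mul, (hA.mem t.1 ha).2, (hA.mem t.2 hb).2, sq]
      have h10 := norm_slash k f (g := t.1 * t.2) (by rw [hd]; positivity) z
      rw [h10, hd]
      refine le_of_eq ?_
      have h11 : ((p : ℝ) ^ 2) ^ ((k : ℝ) / 2 - 1) = q ^ 2 := by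
        rw [hq, ← Real.rpow_natCast, ← Real.rpow_natCast, ← Real.rpow_mul hpr.le,
          ← Real.rpow_mul hpr.le, mul_comm]
      rw [h11]
    have h12 : 3 * (p : ℝ) / 4 * q ^ 2 ≤ ‖c ^ 2 - ((p + 1 : ℕ) : ℂ) * (p : ℂ) ^ (k - 2)‖ := by
      have h13 : ‖((p + 1 : ℕ) : ℂ) * (p : ℂ) ^ (k - 2)‖ = ((p : ℝ) + 1) * q ^ 2 := by
        rw [norm_mul, norm_zpow, Complex.norm_natCast, Complex.norm_natCast, hq2]
        push_cast
        ring
      have h14 : ‖c ^ 2‖ ≤ (p : ℝ) / 4 * q ^ 2 := by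
        rw [norm_pow]
        have h15 : ‖c‖ ^ 2 ≤ (q * √(p : ℝ) / 2) ^ 2 :=
          pow_le_pow_left₀ (norm_nonneg _) hcase.le 2
        refine h15.trans (le_of_eq ?_)
        rw [div_pow, mul_pow, Real.sq_sqrt hpr.le]
        ring
      have h16 := norm_sub_norm_le (((p + 1 : ℕ) : ℂ) * (p : ℂ) ^ (k - 2)) (c ^ 2)
      rw [norm_sub_rev, h13] at h16
      nlinarith [sq_nonneg q, h16, h14]
    have h17 : 3 * (p : ℝ) / 4 * F z ≤ ∑ x ∈ NB O p A, F (x • z) := by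
      refine le_of_mul_le_mul_left ?_ (pow_pos hqpos 2)
      calc q ^ 2 * (3 * (p : ℝ) / 4 * F z) = 3 * (p : ℝ) / 4 * q ^ 2 * F z := by ring
        _ ≤ _ := (mul_le_mul_of_nonneg_right h12 (hFnn z)).trans h9
    show F z ≤ 4 / (3 * (p : ℝ)) * ∑ x ∈ NB O p A, F (x • z)
    rw [div_mul_eq_mul_div, le_div_iff₀ (by positivity)]
    linarith

end Pool.Agent.HoloQUE
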