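import Pool.Agent.Work.MP_d2a4bb_nt.NC.Gen
import Pool.Agent.Work.MP_d2a4bb_nt.NC.I_Amp

/-!
# Item AmpP: Hecke forms are amplified functions, for a set of primes
-/

set_option autoImplicit false

open MeasureTheory UpperHalfPlane Matrix
open scoped MatrixGroups ModularForm Manifold ENNReal Classical

noncomputable section

namespace Pool.Agent.HoloQUE

open XAmp

theorem prf_AmpP (h1 : S_NBi) : S_AmpP := by
  intro O P k f hO hP holo finv feig
  have hinv : ∀ g ∈ normOne O, ∀ z : ℍ, ‖f (g • z)‖ * (g • z).im ^ ((k : ℝ) / 2) =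
      ‖f z‖ * z.im ^ ((k : ℝ) / 2) := by
    intro g hg z
    have hd : (g : Mat).det = 1 := hg.2.2
    have h := norm_slash k f (g := g) (by rw [hd]; exact one_pos) z
    rw [finv g hg, hd, Real.one_rpow, one_mul] at h
    exact h.symm
  refine ⟨?_, ?_, hinv, ?_⟩
  · refine holo.continuous.norm.mul ?_
    refine Continuous.rpow_const UpperHalfPlane.continuous_im ?_
    intro z
    exact Or.inl z.im_pos.ne'
  · intro z
    exact mul_nonneg (norm_nonneg _) (Real.rpow_nonneg z.im_pos.le _)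
  intro p hpP
  have hgood := hP p hpP
  obtain ⟨A, hA, hcard⟩ := hgood.reps
  obtain ⟨c, hc⟩ := feig p hpP
  have hp : 0 < p := hgood.prime.pos
  have hpr : (0 : ℝ) < p := by exact_mod_cast hp
  refine ⟨A, hA, hcard, ?_⟩
  set F : ℍ → ℝ := fun z => ‖f z‖ * z.im ^ ((k : ℝ) / 2) with hF
  have hFnn : ∀ z, 0 ≤ F z := fun z => mul_nonneg (norm_nonneg _) (Real.rpow_nonneg z.im_pos.le _)
  set q : ℝ := (p : ℝ) ^ ((k : ℝ) / 2 - 1) with hq
  have hqpos : 0 < q := Real.rpow_pos_of_pos hpr _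
  have hq2 : q ^ 2 = (p : ℝ) ^ (k - 2) := by
    rw [hq, ← Real.rpow_natCast, ← Real.rpow_mul hpr.le, ← Real.rpow_intCast]
    congr 1
    push_cast
    ring
  by_cases hcase : q * √(p : ℝ) / 2 ≤ ‖c‖
  · left
    intro z
    have h2 : ‖c‖ * F z ≤ q * ∑ x ∈ A, F (x • z) := by
      have h3 : ‖c‖ * F z = ‖(∑ x ∈ A, f ∣[k] x) z‖ * z.im ^ ((k : ℝ) / 2) := by
        rw [hc A hA, Pi.smul_apply, smul_eq_mul, norm_mul, mul_assoc]
      rw [h3, Finset.sum_apply, Finset.mul_sum]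
      refine (mul_le_mul_of_nonneg_right (norm_sum_le _ _)
        (Real.rpow_nonneg z.im_pos.le _)).trans ?_
      rw [Finset.sum_mul]
      refine Finset.sum_le_sum fun x hx => ?_
      have hxd : (x : Mat).det = p := (hA.mem x hx).2
      have h4 := norm_slash k f (g := x) (by rw [hxd]; exact hpr) z
      rw [h4, hxd]
    have hs : 0 < √(p : ℝ) := Real.sqrt_pos.2 hpr
    have h5 : q * √(p : ℝ) / 2 * F z ≤ q * ∑ x ∈ A, F (x • z) :=
      (mul_le_mul_of_nonneg_right hcase (hFnn z)).trans h2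
    have h6 : √(p : ℝ) / 2 * F z ≤ ∑ x ∈ A, F (x • z) := by
      refine le_of_mul_le_mul_left ?_ hqpos
      calc q * (√(p : ℝ) / 2 * F z) = q * √(p : ℝ) / 2 * F z := by ring
        _ ≤ _ := h5
    show F z ≤ 2 / √(p : ℝ) * ∑ x ∈ A, F (x • z)
    rw [div_mul_eq_mul_div, le_div_iff₀ hs]
    linarith
  · right
    push Not at hcase
    intro z
    have h7 := hecke_sq hO finv hp hA (hc A hA)
    have h8 := congrFun h7 z
    rw [Pi.smul_apply, smul_eq_mul, Finset.sum_apply, hcard] at h8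
    set B := (A ×ˢ A).filter (fun t => ¬ Dv O p ((t.1 * t.2 : G2) : Mat)) with hB
    have h9 : ‖c ^ 2 - ((p + 1 : ℕ) : ℂ) * (p : ℂ) ^ (k - 2)‖ * F z ≤
        q ^ 2 * ∑ x ∈ NB O p A, F (x • z) := by
      rw [(h1 O p A hO hgood hA).2.2.1 (fun g => F (g • z)), Finset.mul_sum]
      have e : ‖c ^ 2 - ((p + 1 : ℕ) : ℂ) * (p : ℂ) ^ (k - 2)‖ * F z =
          ‖∑ t ∈ B, (f ∣[k] (t.1 * t.2)) z‖ * z.im ^ ((k : ℝ) / 2) := by
        rw [← h8, norm_mul, mul_assoc]
      rw [e]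
      refine (mul_le_mul_of_nonneg_right (norm_sum_le _ _)
        (Real.rpow_nonneg z.im_pos.le _)).trans ?_
      rw [Finset.sum_mul]
      refine Finset.sum_le_sum fun t ht => ?_
      obtain ⟨ht1, -⟩ := Finset.mem_filter.1 ht
      obtain ⟨ha, hb⟩ := Finset.mem_product.1 ht1
      have hd : ((t.1 * t.2 : G2) : Mat).det = (p : ℝ) ^ 2 := by
        rw [Units.val_mul, Matrix.det_mul, (hA.mem t.1 ha).2, (hA.mem t.2 hb).2, sq]
      have h10 := norm_slash k f (g := t.1 * t.2) (by rw [hd]; positivity) z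
      rw [h10, hd]
      refine le_of_eq ?_
      have h11 : ((p : ℝ) ^ 2) ^ ((k : ℝ) / 2 - 1) = q ^ 2 := by
        rw [hq, ← Real.rpow_natCast, ← Real.rpow_natCast, ← Real.rpow_mul hpr.le,
          ← Real.rpow_mul hpr.le, mul_comm]
      rw [h11]
    have h12 : 3 * (p : ℝ) / 4 * q ^ 2 ≤ ‖c ^ 2 - ((p + 1 : ℕ) : ℂ) * (p : ℂ) ^ (k - 2)‖ := by
      have h13 : ‖((p + 1 : ℕ) : ℂ) * (p : ℂ) ^ (k - 2)‖ = ((p : ℝ) + 1) * q ^ 2 := by
        rw [norm_mul, norm_zpow, Complex.norm_natCast, Complex.norm_natCast, hq2]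
        push_cast
        ring
      have h14 : ‖c ^ 2‖ ≤ (p : ℝ) / 4 * q ^ 2 := by
        rw [norm_pow]
        have h15 : ‖c‖ ^ 2 ≤ (q * √(p : ℝ) / 2) ^ 2 :=
          pow_le_pow_left₀ (norm_nonneg _) hcase.le 2
        refine h15.trans (le_of_eq ?_)
        rw [div_pow, mul_pow, Real.sq_sqrt hpr.le]
        ring
      have h16 := norm_sub_norm_le (((p + 1 : ℕ) : ℂ) * (p : ℂ) ^ (k - 2)) (c ^ 2)
      rw [norm_sub_rev, h13] at h16
      nlinarith [sq_nonneg q, h16, h14]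
    have h17 : 3 * (p : ℝ) / 4 * F z ≤ ∑ x ∈ NB O p A, F (x • z) := by
      refine le_of_mul_le_mul_left ?_ (pow_pos hqpos 2)
      calc q ^ 2 * (3 * (p : ℝ) / 4 * F z) = 3 * (p : ℝ) / 4 * q ^ 2 * F z := by ring
        _ ≤ _ := (mul_le_mul_of_nonneg_right h12 (hFnn z)).trans h9
    show F z ≤ 4 / (3 * (p : ℝ)) * ∑ x ∈ NB O p A, F (x • z)
    rw [div_mul_eq_mul_div, le_div_iff₀ (by positivity)]
    linarith

end Pool.Agent.HoloQUE
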