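import Pool.Agent.Work.MP_d2a4bb_nt.NC.Gen

/-!
# Item FinA: assembly of Theorem A (small balls and Hausdorff dimension), plentiful sets of primes
-/

set_option autoImplicit false

open MeasureTheory UpperHalfPlane Matrix HQ
open scoped MatrixGroups ModularForm Manifold ENNReal Classical Topology

noncomputable section

namespace Pool.Agent.HoloQUE

namespace XFinA

/-- The mass of a measurable set. -/
theorem ms_eq (k : ℕ) (f : ℍ → ℂ) (B : Set ℍ) (hB : MeasurableSet B) :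
    ms (fun z => ‖f z‖ * z.im ^ (((k : ℤ) : ℝ) / 2)) B = mu k f B := by
  rw [ms, mu, withDensity_apply _ hB]
  refine lintegral_congr fun z => ?_
  congr 1
  rw [mul_pow, ← Real.rpow_natCast (z.im ^ (((k : ℤ) : ℝ) / 2)) 2, ← Real.rpow_mul z.im_pos.le,
    ← Real.rpow_natCast z.im k]
  congr 2
  push_cast
  ring

/-- The primes of a good set are good for the order. -/
theorem good (h5 : S_BrB) (Q : QuatOrder) (P : Set ℕ) (N₀ : ℝ → ℕ) (hQ : GoodSet Q P N₀) :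
    ∀ p ∈ P, Good Q.O p := fun p hp =>
  h5 Q p (hQ.2 p hp).1 (hQ.2 p hp).2.1 (hQ.2 p hp).2.2

/-- A Hecke form is an amplified function. -/
theorem amp (h2 : S_AmpP) (h4 : S_BrA) (h5 : S_BrB) (h6 : S_BrCP) (Q : QuatOrder) (P : Set ℕ)
    (N₀ : ℝ → ℕ) (hQ : GoodSet Q P N₀) (k : ℕ) (f : ℍ → ℂ)
    (hf : HeckeP Q P k f) : AmpP Q.O P fun z => ‖f z‖ * z.im ^ (((k : ℤ) : ℝ) / 2) := by
  obtain ⟨hi, he⟩ := h6 Q P k f (h4 Q) hf.even hf.form (fun p hp => (hQ.2 p hp).1) hf.eigen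
  exact h2 Q.O P (k : ℤ) f (h4 Q) (good h5 Q P N₀ hQ) hf.form.1 hi he

/-- The estimate for one form. -/
theorem one (h2 : S_AmpP) (h4 : S_BrA) (h5 : S_BrB) (h6 : S_BrCP) (h7 : S_BrD) (N₀ : ℝ → ℕ)
    (δ C : ℝ)
    (hC : ∀ (O : Subring Mat) (P : Set ℕ) (F : ℍ → ℝ) (D : Set ℍ),
      QOrder O → (∀ p ∈ P, Good O p) → Plenty P N₀ → AmpP O P F →
      IsFundamentalDomain (Gam O) D volume → ms F D = 1 →
      ∀ (z : ℍ) (r : ℝ), 0 < r → r ≤ 8 →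
        ms F (Metric.closedBall z r) ≤ ENNReal.ofReal (C * r ^ δ))
    (Q : QuatOrder) (P : Set ℕ) (hQ : GoodSet Q P N₀) (k : ℕ) (f : ℍ → ℂ) (hf : HeckeP Q P k f)
    (z : ℍ) (r : ℝ) (h0 : 0 < r) (h1 : r ≤ 1) :
    mu k f (Metric.ball z r) ≤ ENNReal.ofReal (C * r ^ δ) := by
  obtain ⟨D, hD, hD1⟩ := hf.norm
  have hb := hC Q.O P _ D (h4 Q) (good h5 Q P N₀ hQ) hQ.1 (amp h2 h4 h5 h6 Q P N₀ hQ k f hf)
    (h7 Q D hD) (by rw [ms_eq k f D hD.1]; exact hD1) z r h0 (by linarith)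
  rw [ms_eq k f _ Metric.isClosed_closedBall.measurableSet] at hb
  exact (measure_mono Metric.ball_subset_closedBall).trans hb

/-- The estimate for limits. -/
theorem lim (h3 : S_Lim) (Q : QuatOrder) (P : Set ℕ) (δ C : ℝ) (hC0 : 0 < C)
    (key : ∀ (k : ℕ) (f : ℍ → ℂ), HeckeP Q P k f → ∀ (z : ℍ) (r : ℝ), 0 < r → r ≤ 1 →
      mu k f (Metric.ball z r) ≤ ENNReal.ofReal (C * r ^ δ))
    (k : ℕ → ℕ) (f : ℕ → ℍ → ℂ) (ν : Measure ℍ) (hf : ∀ j, HeckeP Q P (k j) (f j))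
    (hν : WeakLim k f ν) (z : ℍ) (r : ℝ) (hr0 : 0 < r) (hr1 : r ≤ 1) :
    ν (Metric.ball z r) ≤ ENNReal.ofReal (C * r ^ δ) := by
  have hloc : ∀ j, IsFiniteMeasureOnCompacts (mu (k j) (f j)) := by
    intro j
    have : IsLocallyFiniteMeasure (mu (k j) (f j)) :=
      ⟨fun z => ⟨Metric.ball z 1, Metric.ball_mem_nhds z one_pos,
        lt_of_le_of_lt (key (k j) (f j) (hf j) z 1 one_pos le_rfl) ENNReal.ofReal_lt_top⟩⟩
    exact isFiniteMeasureOnCompacts_of_isLocallyFiniteMeasure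
  exact h3 (fun j => mu (k j) (f j)) ν hloc hν.1 hν.2 (Metric.ball z r) _ Metric.isOpen_ball
    Metric.isBounded_ball (mul_nonneg hC0.le (Real.rpow_nonneg hr0.le _))
    fun j => key (k j) (f j) (hf j) z r hr0 hr1

end XFinA

open XFinA in
theorem prf_FinA (h1 : S_BallP) (h2 : S_AmpP) (h3 : S_Lim) (h4 : S_BrA) (h5 : S_BrB)
    (h6 : S_BrCP) (h7 : S_BrD) (h8 : S_Dim) : FinalA := by
  intro N₀ δ hδ
  obtain ⟨C, hC0, hC⟩ := h1 N₀ δ hδ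
  refine ⟨C, hC0, fun Q P hQ => ⟨one h2 h4 h5 h6 h7 N₀ δ C hC Q P hQ, ?_⟩⟩
  intro k f ν hf hν
  refine ⟨lim h3 Q P δ C hC0 (one h2 h4 h5 h6 h7 N₀ δ C hC Q P hQ) k f ν hf hν, ?_⟩
  refine h8 ν fun δ' hδ' => ?_
  obtain ⟨C', hC0', hC'⟩ := h1 N₀ δ' hδ'
  exact ⟨C', lim h3 Q P δ' C' hC0' (one h2 h4 h5 h6 h7 N₀ δ' C' hC' Q P hQ) k f ν hf hν⟩

end Pool.Agent.HoloQUE
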