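import Pool.Agent.Work.MP_d2a4bb_nt.NC.Basic

/-!
# Item Ma1: triples for one prime, first type
-/

set_option autoImplicit false

open MeasureTheory UpperHalfPlane Matrix
open scoped MatrixGroups ModularForm Manifold ENNReal Classical

noncomputable section

namespace Pool.Agent.HoloQUE

namespace XMa1

variable {O : Subring Mat}

/-- From `x⁻¹ γ = x'⁻¹ γ'` it follows that `x' = x` and `γ' = γ`. -/
theorem core {p : ℕ} {A : Finset G2} (hA : Reps O p A) {x x' γ γ' : G2} (hx : x ∈ A)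
    (hx' : x' ∈ A) (hg : γ ∈ normOne O) (hg' : γ' ∈ normOne O) (e : x⁻¹ * γ = x'⁻¹ * γ') :
    x' = x ∧ γ' = γ := by
  have h1 : x' * x⁻¹ = γ' * γ⁻¹ := by
    have h2 : x' * (x⁻¹ * γ) = γ' := by rw [e, mul_inv_cancel_left]
    rw [← h2]
    simp only [mul_assoc, mul_inv_cancel, mul_one]
  have h3 : x' * x⁻¹ ∈ normOne O := by
    rw [h1]
    exact (normOne O).mul_mem hg' ((normOne O).inv_mem hg)
  have h4 : x' = x := hA.uniq x hx x' hx' h3
  subst h4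
  exact ⟨rfl, (mul_left_cancel e).symm⟩

/-- The element `p x⁻¹ γ y`. -/
def bG (p : ℝˣ) (t : G2 × G2 × G2) : G2 :=
  GeneralLinearGroup.scalar (Fin 2) p * (t.1⁻¹ * t.2.2 * t.2.1)

theorem bG_coe {n : ℕ} (p : ℝˣ) (hp : (p : ℝ) = n) (t : G2 × G2 × G2) (hx : t.1 ∈ Rn O n) :
    ((bG p t : G2) : Mat) = ((t.1 : Mat).adjugate * (t.2.2 : Mat)) * (t.2.1 : Mat) := by
  have hd : (t.1 : Mat).det = n := hx.2
  have hn : (n : ℝ) ≠ 0 := by rw [← hp]; exact p.ne_zero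
  unfold bG
  rw [Units.val_mul, Units.val_mul, Units.val_mul, coe_scalar, coe_inv, hd, hp]
  simp only [smul_mul_assoc, one_mul, smul_smul]
  rw [mul_inv_cancel₀ hn, one_smul]

theorem bG_smul (p : ℝˣ) (t : G2 × G2 × G2) :
    ((bG p t : G2) : Mat) = (p : ℝ) • ((t.1⁻¹ * t.2.2 * t.2.1 : G2) : Mat) := by
  unfold bG
  rw [Units.val_mul, coe_scalar, smul_mul_assoc, one_mul]

end XMa1

open XMa1 in
/-- Item Ma1. -/
theorem prf_Ma1 (h1 : S_L1) : S_Ma1 := by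
  intro O p A S hO hG hS hA hc
  have hp0 : (p : ℝ) ≠ 0 := by
    have := hG.prime.pos
    positivity
  have hpv : ((Units.mk0 (p : ℝ) hp0 : ℝˣ) : ℝ) = p := rfl
  -- facts on triples
  have mem : ∀ t ∈ Tri O A S, (t.1 ∈ A ∧ t.2.1 ∈ A ∧ t.2.2 ∈ normOne O ∧
      t.1⁻¹ * t.2.2 * t.2.1 ∈ S) := fun t ht => ht
  have uO : ∀ t ∈ Tri O A S, (t.1 : Mat).adjugate * (t.2.2 : Mat) ∈ O := by
    intro t ht
    obtain ⟨hx, -, hg, -⟩ := mem t ht
    exact O.mul_mem (hO.adj_mem (hA.mem _ hx).1) (hO.mem_normOne.1 hg).1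
  have bO : ∀ t ∈ Tri O A S, ((bG (Units.mk0 (p : ℝ) hp0) t : G2) : Mat) ∈ O := by
    intro t ht
    rw [bG_coe _ hpv t (hA.mem _ (mem t ht).1)]
    exact O.mul_mem (uO t ht) (hA.mem _ (mem t ht).2.1).1
  have bD : ∀ t ∈ Tri O A S,
      ((bG (Units.mk0 (p : ℝ) hp0) t : G2) : Mat).det = ((p ^ 2 : ℕ) : ℝ) := by
    intro t ht
    obtain ⟨hx, hy, hg, -⟩ := mem t ht
    rw [bG_coe _ hpv t (hA.mem _ hx), Matrix.det_mul, Matrix.det_mul, det_adj,
      (hA.mem _ hx).2, (hA.mem _ hy).2, (hO.mem_normOne.1 hg).2]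
    push_cast
    ring
  have bS : ∀ t ∈ Tri O A S, bG (Units.mk0 (p : ℝ) hp0) t ∈ S := by
    intro t ht
    exact hS _ _ (mem t ht).2.2.2
  -- the two parts
  have hsub : Tri O A S ⊆
      {t | t ∈ Tri O A S ∧ ¬ Dv O p ((bG (Units.mk0 (p : ℝ) hp0) t : G2) : Mat)} ∪
      {t | t ∈ Tri O A S ∧ Dv O p ((bG (Units.mk0 (p : ℝ) hp0) t : G2) : Mat)} := by
    intro t ht
    by_cases hd : Dv O p ((bG (Units.mk0 (p : ℝ) hp0) t : G2) : Mat)
    · exact Or.inr ⟨ht, hd⟩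
    · exact Or.inl ⟨ht, hd⟩
  refine (Set.encard_le_encard hsub).trans ((Set.encard_union_le _ _).trans ?_)
  refine add_le_add ?_ ?_
  · refine Set.encard_le_encard_of_injOn (f := bG (Units.mk0 (p : ℝ) hp0)) ?_ ?_
    · rintro t ⟨ht, -⟩
      exact ⟨bS t ht, bO t ht, bD t ht⟩
    · rintro ⟨x, y, γ⟩ ⟨ht, hnd⟩ ⟨x', y', γ'⟩ ⟨ht', hnd'⟩ hb
      have e1 := bG_coe _ hpv _ (hA.mem _ (mem _ ht).1)
      have e2 := bG_coe _ hpv _ (hA.mem _ (mem _ ht').1)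
      have hy : y' = y := by
        refine hA.uniq y (mem _ ht).2.1 y' (mem _ ht').2.1 ?_
        refine h1 O p y y' _ _ _ hO hG (hA.mem _ (mem _ ht).2.1) (hA.mem _ (mem _ ht').2.1)
          (bO _ ht) (uO _ ht) (uO _ ht') hnd e1 ?_
        rw [hb]
        exact e2
      subst hy
      have hb2 : x⁻¹ * γ = x'⁻¹ * γ' := by
        have := mul_left_cancel hb
        exact mul_right_cancel this
      obtain ⟨hx, hγ⟩ := core hA (mem _ ht).1 (mem _ ht').1 (mem _ ht).2.2.1 (mem _ ht').2.2.1 hb2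
      have hx : x' = x := hx
      have hγ : γ' = γ := hγ
      subst hx hγ
      rfl
  · have hcard : ((p + 1 : ℕ) : ℕ∞) * (C0 O S 1).encard =
        ((A : Set G2) ×ˢ (C0 O S 1)).encard := by
      rw [Set.encard_prod, Set.encard_coe_eq_coe_finsetCard, hc]
    rw [hcard]
    refine Set.encard_le_encard_of_injOn (f := fun t => (t.2.1, t.1⁻¹ * t.2.2 * t.2.1)) ?_ ?_
    · rintro t ⟨ht, y, hy, hd⟩
      refine ⟨(mem t ht).2.1, (mem t ht).2.2.2, ?_, ?_⟩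
      · have h2 : ((t.1⁻¹ * t.2.2 * t.2.1 : G2) : Mat) = y := by
          have h3 := (bG_smul (Units.mk0 (p : ℝ) hp0) t).symm.trans hd
          exact smul_right_injective _ hp0 h3
        show ((t.1⁻¹ * t.2.2 * t.2.1 : G2) : Mat) ∈ O
        rw [h2]
        exact hy
      · have h4 := bD t ht
        rw [bG_smul, det_smul2, hpv] at h4
        show ((t.1⁻¹ * t.2.2 * t.2.1 : G2) : Mat).det = ((1 : ℕ) : ℝ)
        have h5 : (p : ℝ) ^ 2 ≠ 0 := pow_ne_zero 2 hp0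
        apply mul_left_cancel₀ h5
        rw [h4]
        push_cast
        ring
    · rintro ⟨x, y, γ⟩ ⟨ht, -⟩ ⟨x', y', γ'⟩ ⟨ht', -⟩ hb
      have hb1 : y = y' := congrArg Prod.fst hb
      have hb2 : x⁻¹ * γ * y = x'⁻¹ * γ' * y' := congrArg Prod.snd hb
      subst hb1
      have hb3 : x⁻¹ * γ = x'⁻¹ * γ' := mul_right_cancel hb2
      obtain ⟨hx, hγ⟩ := core hA (mem _ ht).1 (mem _ ht').1 (mem _ ht).2.2.1 (mem _ ht').2.2.1 hb3
      have hx : x' = x := hx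
      have hγ : γ' = γ := hγ
      subst hx hγ
      rfl

end Pool.Agent.HoloQUE
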