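import Pool.Agent.Work.MP_d2a4bb_nt.NC.Final

/-!
# Item MainA: assembly of Theorem A (small balls)
-/

set_option autoImplicit false

open MeasureTheory UpperHalfPlane Matrix HQ
open scoped MatrixGroups Manifold ENNReal Topology

noncomputable section

namespace Pool.Agent.HoloQUE

namespace XMainA

/-- The mass of a measurable set. -/
theorem ms_eq (k : ℕ) (f : ℍ → ℂ) (B : Set ℍ) (hB : MeasurableSet B) :
    ms (fun z => ‖f z‖ * z.im ^ (((k : ℤ) : ℝ) / 2)) B = mu k f B := by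
  rw [ms, mu, withDensity_apply _ hB]
  refine lintegral_congr fun z => ?_
  congr 1
  rw [mul_pow, ← Real.rpow_natCast (z.im ^ (((k : ℤ) : ℝ) / 2)) 2, ← Real.rpow_mul z.im_pos.le,
    ← Real.rpow_natCast z.im k]
  congr 2
  push_cast
  ring

/-- A Hecke form is an amplified function. -/
theorem amp (h2 : S_Amp) (h4 : S_BrA) (h6 : S_BrC) (Q : QuatOrder) (p₀ k : ℕ) (f : ℍ → ℂ)
    (hf : HeckeN Q p₀ k f) : AmpFn Q.O p₀ fun z => ‖f z‖ * z.im ^ (((k : ℤ) : ℝ) / 2) :=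
  h2 Q.O p₀ (k : ℤ) f (h4 Q) (h6 Q p₀ k f (h4 Q) hf.even hf.form hf.eigen)

/-- The estimate for one form, with the exponent `δ`. -/
theorem one (h2 : S_Amp) (h4 : S_BrA) (h5 : S_BrB) (h6 : S_BrC) (h7 : S_BrD) (p₀ : ℕ) (δ C : ℝ)
    (hC : ∀ (O : Subring Mat) (F : ℍ → ℝ) (D : Set ℍ),
      QOrder O → (∀ p : ℕ, p.Prime → p₀ < p → Good O p) → AmpFn O p₀ F →
      IsFundamentalDomain (Gam O) D volume → ms F D = 1 →
      ∀ (z : ℍ) (r : ℝ), 0 < r → r ≤ 8 →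
        ms F (Metric.closedBall z r) ≤ ENNReal.ofReal (C * r ^ δ))
    (Q : QuatOrder) (hQ : GoodAbove Q p₀) (k : ℕ) (f : ℍ → ℂ) (hf : HeckeN Q p₀ k f) (z : ℍ)
    (r : ℝ) (h0 : 0 < r) (h1 : r ≤ 1) :
    mu k f (Metric.ball z r) ≤ ENNReal.ofReal (C * r ^ δ) := by
  obtain ⟨D, hD, hD1⟩ := hf.norm
  have hg : ∀ p : ℕ, p.Prime → p₀ < p → Good Q.O p := fun p hp hp0 =>
    h5 Q p hp (hQ p hp hp0).1 (hQ p hp hp0).2
  have hb := hC Q.O _ D (h4 Q) hg (amp h2 h4 h6 Q p₀ k f hf) (h7 Q D hD)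
    (by rw [ms_eq k f D hD.1]; exact hD1) z r h0 (by linarith)
  rw [ms_eq k f _ Metric.isClosed_closedBall.measurableSet] at hb
  exact (measure_mono Metric.ball_subset_closedBall).trans hb

end XMainA

open XMainA in
theorem prf_MainA (h1 : S_Ball) (h2 : S_Amp) (h3 : S_Lim) (h4 : S_BrA) (h5 : S_BrB)
    (h6 : S_BrC) (h7 : S_BrD) : MainA := by
  intro p₀ η hη
  have hδ : max η (1 / 2) < 2 / 3 := max_lt hη (by norm_num)
  obtain ⟨C, hC0, hC⟩ := h1 p₀ (max η (1 / 2)) hδ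
  have hδ0 : 0 < max η (1 / 2) := lt_of_lt_of_le (by norm_num) (le_max_right _ _)
  refine ⟨C, hC0, fun Q hQ => ?_⟩
  have key := one h2 h4 h5 h6 h7 p₀ _ C hC Q hQ
  have cmp : ∀ r : ℝ, 0 < r → r ≤ 1 →
      ENNReal.ofReal (C * r ^ max η (1 / 2)) ≤ ENNReal.ofReal (C * r ^ η) := fun r hr0 hr1 =>
    ENNReal.ofReal_le_ofReal (mul_le_mul_of_nonneg_left
      (Real.rpow_le_rpow_of_exponent_ge hr0 hr1 (le_max_left _ _)) hC0.le)
  refine ⟨fun k f hf z r hr0 hr1 => (key k f hf z r hr0 hr1).trans (cmp r hr0 hr1), ?_⟩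
  intro k f ν hf hν
  have hloc : ∀ j, IsFiniteMeasureOnCompacts (mu (k j) (f j)) := by
    intro j
    have : IsLocallyFiniteMeasure (mu (k j) (f j)) :=
      ⟨fun z => ⟨Metric.ball z 1, Metric.ball_mem_nhds z one_pos,
        lt_of_le_of_lt (key (k j) (f j) (hf j) z 1 one_pos le_rfl) ENNReal.ofReal_lt_top⟩⟩
    exact isFiniteMeasureOnCompacts_of_isLocallyFiniteMeasure
  have lim : ∀ (z : ℍ) (r : ℝ), 0 < r → r ≤ 1 →
      ν (Metric.ball z r) ≤ ENNReal.ofReal (C * r ^ max η (1 / 2)) := fun z r hr0 hr1 =>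
    h3 (fun j => mu (k j) (f j)) ν hloc hν.1 hν.2 (Metric.ball z r) _ Metric.isOpen_ball
      Metric.isBounded_ball (mul_nonneg hC0.le (Real.rpow_nonneg hr0.le _))
      fun j => key (k j) (f j) (hf j) z r hr0 hr1
  refine ⟨fun z r hr0 hr1 => (lim z r hr0 hr1).trans (cmp r hr0 hr1), fun z => ?_⟩
  have ht : Filter.Tendsto (fun r : ℝ => ENNReal.ofReal (C * r ^ max η (1 / 2))) (𝓝[>] 0)
      (𝓝 0) := by
    have hc : ContinuousAt (fun r : ℝ => C * r ^ max η (1 / 2)) 0 :=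
      continuousAt_const.mul (Real.continuousAt_rpow_const 0 _ (Or.inr hδ0.le))
    have hc' := ENNReal.tendsto_ofReal (hc.tendsto.mono_left (nhdsWithin_le_nhds (s := Set.Ioi 0)))
    rw [Real.zero_rpow hδ0.ne', mul_zero, ENNReal.ofReal_zero] at hc'
    exact hc'
  have hz : ν {z} ≤ 0 := by
    refine ge_of_tendsto ht ?_
    filter_upwards [Ioc_mem_nhdsGT (zero_lt_one' ℝ)] with r hr
    exact (measure_mono (Set.singleton_subset_iff.mpr (Metric.mem_ball_self hr.1))).trans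
      (lim z r hr.1 hr.2)
  exact le_antisymm hz bot_le

end Pool.Agent.HoloQUE
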