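import Pool.Agent.Work.MP_d2a4bb_nt.NC.Basic

/-!
# Item Ord: orders of quaternion division algebras
-/

set_option autoImplicit false

open MeasureTheory UpperHalfPlane Matrix
open scoped MatrixGroups ModularForm Manifold ENNReal Classical

noncomputable section

namespace Pool.Agent.HoloQUE

universe u

namespace XOrd

/-- If `(r + s X) K = 0` with `K` invertible, then `r + s X = 0`. -/
theorem cancel {K L : Mat} (hK : K.det ≠ 0) (h : L * K = 0) : L = 0 := by
  have h1 : L * (K * K.adjugate) = 0 := by rw [← mul_assoc, h, zero_mul]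
  rw [mul_adj, mul_smul_comm, mul_one] at h1
  exact (smul_eq_zero.1 h1).resolve_left hK

theorem scalar_case {X Y : Mat} (hK : (X * Y - Y * X).det ≠ 0) (r s : ℝ)
    (h : r • (1 : Mat) + s • X = 0) : r = 0 ∧ s = 0 := by
  have hs : s = 0 := by
    by_contra hs
    apply hK
    have h1 : X = (-(r / s)) • (1 : Mat) := by
      have h2 : s • X = (-r) • (1 : Mat) := by
        rw [_root_.neg_smul]; exact eq_neg_of_add_eq_zero_right h
      have h3 : s⁻¹ • (s • X) = s⁻¹ • ((-r) • (1 : Mat)) := by rw [h2]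
      rw [smul_smul, inv_mul_cancel₀ hs, one_smul, smul_smul] at h3
      rw [h3]; congr 1; field_simp
    rw [h1, smul_mul_assoc, mul_smul_comm, one_mul, mul_one, sub_self, Matrix.det_zero]
  refine ⟨?_, hs⟩
  rw [hs, zero_smul, add_zero] at h
  have h1 := congrFun (congrFun h 0) 0
  simpa using h1

theorem indep {X Y : Mat} (hK : (X * Y - Y * X).det ≠ 0) (a b c e : ℝ)
    (h : a • (1 : Mat) + b • X + c • Y + e • (X * Y) = 0) : a = 0 ∧ b = 0 ∧ c = 0 ∧ e = 0 := by
  have h1 : (c • (1 : Mat) + e • X) * (X * Y - Y * X) = 0 := by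
    have e1 : (c • (1 : Mat) + e • X) * (X * Y - Y * X) =
        X * (a • (1 : Mat) + b • X + c • Y + e • (X * Y)) -
          (a • (1 : Mat) + b • X + c • Y + e • (X * Y)) * X := by
      simp only [mul_add, add_mul, mul_sub, smul_mul_assoc, mul_smul_comm, mul_assoc, one_mul,
        mul_one]
      abel
    rw [e1, h, mul_zero, zero_mul, sub_zero]
  obtain ⟨hc, he⟩ := scalar_case hK c e (cancel hK h1)
  rw [hc, he, zero_smul, zero_smul, add_zero, add_zero] at h
  obtain ⟨ha, hb⟩ := scalar_case hK a b h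
  exact ⟨ha, hb, hc, he⟩

theorem linInd {X Y : Mat} (hK : (X * Y - Y * X).det ≠ 0) :
    LinearIndependent ℝ ![(1 : Mat), X, Y, X * Y] := by
  rw [Fintype.linearIndependent_iff]
  intro f hf
  rw [Fin.sum_univ_four] at hf
  obtain ⟨h0, h1, h2, h3⟩ := indep hK (f 0) (f 1) (f 2) (f 3) hf
  intro i
  fin_cases i
  · exact h0
  · exact h1
  · exact h2
  · exact h3

theorem span_top {X Y : Mat} (hK : (X * Y - Y * X).det ≠ 0) :
    Submodule.span ℝ (Set.range ![(1 : Mat), X, Y, X * Y]) = ⊤ := by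
  apply (linInd hK).span_eq_top_of_card_eq_finrank'
  rw [Module.finrank_matrix]
  simp

section Alg

variable {M : Type u} [DivisionRing M] [Algebra ℚ M] (ι : M →ₐ[ℚ] Mat)

theorem det_ne_of_ne {y : M} (hy : y ≠ 0) : (ι y).det ≠ 0 := by
  intro h
  have h1 : ι y * ι y⁻¹ = 1 := by rw [← map_mul, mul_inv_cancel₀ hy, map_one]
  have h2 := congrArg Matrix.det h1
  rw [Matrix.det_mul, h, zero_mul, Matrix.det_one] at h2
  exact zero_ne_one h2

theorem comm_det {x y : M} (h : x * y ≠ y * x) : (ι x * ι y - ι y * ι x).det ≠ 0 := by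
  rw [← map_mul, ← map_mul, ← map_sub]
  exact det_ne_of_ne ι (sub_ne_zero.2 h)

theorem map_smulQ (q : ℚ) (x : M) : ι (q • x) = (q : ℝ) • ι x := by
  rw [map_smul]
  ext i j
  simp [Rat.smul_def]

include ι in
/-- coordinates over `ℚ` -/
theorem indepQ {x y : M} (h : x * y ≠ y * x) (a b c e : ℚ)
    (h0 : a • (1 : M) + b • x + c • y + e • (x * y) = 0) : a = 0 ∧ b = 0 ∧ c = 0 ∧ e = 0 := by
  have h1 := congrArg ι h0
  simp only [map_add, map_smulQ, map_one, map_mul, map_zero] at h1
  obtain ⟨h2, h3, h4, h5⟩ := indep (comm_det ι h) _ _ _ _ h1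
  exact ⟨by exact_mod_cast h2, by exact_mod_cast h3, by exact_mod_cast h4, by exact_mod_cast h5⟩

include ι in
theorem exists_coord {x y : M} (h : x * y ≠ y * x) (hM : Module.finrank ℚ M = 4) (w : M) :
    ∃ a b c e : ℚ, w = a • (1 : M) + b • x + c • y + e • (x * y) := by
  have h1 : LinearIndependent ℚ ![(1 : M), x, y, x * y] := by
    rw [Fintype.linearIndependent_iff]
    intro f hf
    rw [Fin.sum_univ_four] at hf
    obtain ⟨h0, h1, h2, h3⟩ := indepQ ι h (f 0) (f 1) (f 2) (f 3) hf
    intro i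
    fin_cases i
    · exact h0
    · exact h1
    · exact h2
    · exact h3
  have : FiniteDimensional ℚ M := FiniteDimensional.of_finrank_pos (by rw [hM]; norm_num)
  have h2 : Submodule.span ℚ (Set.range ![(1 : M), x, y, x * y]) = ⊤ := by
    apply h1.span_eq_top_of_card_eq_finrank'
    rw [hM]; simp
  have h3 : w ∈ Submodule.span ℚ (Set.range ![(1 : M), x, y, x * y]) := by
    rw [h2]; trivial
  obtain ⟨f, hf⟩ := (Submodule.mem_span_range_iff_exists_fun ℚ).1 h3
  rw [Fin.sum_univ_four] at hf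
  exact ⟨f 0, f 1, f 2, f 3, hf.symm⟩

/-- The quadratic equation over `ℚ`. -/
theorem quad {x y : M} (h : x * y ≠ y * x) (hM : Module.finrank ℚ M = 4) :
    ∃ t d : ℚ, x * x - t • x + d • (1 : M) = 0 ∧ (ι x).trace = t ∧ (ι x).det = d := by
  obtain ⟨a, b, c, e, hw⟩ := exists_coord ι h hM (x * x)
  have h1 := congrArg ι hw
  simp only [map_add, map_smulQ, map_one, map_mul] at h1
  have h2 : ι x * ι x = (ι x).trace • ι x - (ι x).det • (1 : Mat) := by
    have h3 := mul_adj (ι x)
    rw [adj_eq, mul_sub, mul_smul_comm, mul_one] at h3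
    rw [← h3]; abel
  have h3 : ((a : ℝ) + (ι x).det) • (1 : Mat) + ((b : ℝ) - (ι x).trace) • ι x + (c : ℝ) • ι y +
      (e : ℝ) • (ι x * ι y) = 0 := by
    rw [add_smul, sub_smul]
    have h4 := h1.symm.trans h2
    rw [← sub_eq_zero] at h4
    rw [← h4]; abel
  obtain ⟨ha, hb, hc, he⟩ := indep (comm_det ι h) _ _ _ _ h3
  have hc' : c = 0 := by exact_mod_cast hc
  have he' : e = 0 := by exact_mod_cast he
  refine ⟨b, -a, ?_, by linarith, by push_cast; linarith⟩
  rw [hw, hc', he', zero_smul, zero_smul, _root_.neg_smul]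
  abel

include ι in
open Polynomial in
/-- Integrality of the coefficients. -/
theorem int_coeff {x y : M} (h : x * y ≠ y * x) (t d : ℚ) (hq : x * x - t • x + d • (1 : M) = 0)
    (hx : IsIntegral ℤ x) : (∃ n : ℤ, t = n) ∧ ∃ n : ℤ, d = n := by
  obtain ⟨p, hp, hpx⟩ := hx
  set f : ℚ[X] := X ^ 2 - C t * X + C d with hf
  have hfe : f = X ^ 2 + (- C t * X + C d) := by rw [hf]; ring
  have hlin : (- C t * X + C d : ℚ[X]).degree < 2 := by
    have h1 : (- C t * X + C d : ℚ[X]) = C (-t) * X + C d := by rw [C_neg]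
    rw [h1]
    exact lt_of_le_of_lt degree_linear_le (by norm_num)
  have hmon : f.Monic := by
    rw [hfe]
    exact monic_X_pow_add hlin
  have hdeg : f.degree = 2 := by
    rw [hfe, degree_add_eq_left_of_degree_lt (by rw [degree_X_pow]; exact hlin), degree_X_pow]
    rfl
  have hfx : aeval x f = 0 := by
    rw [hf]
    simp only [map_add, map_sub, map_mul, map_pow, aeval_X, aeval_C]
    rw [← hq, Algebra.smul_def, Algebra.smul_def, mul_one, sq]
  have hpx' : aeval x (p.map (algebraMap ℤ ℚ)) = 0 := by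
    rw [aeval_map_algebraMap]
    exact hpx
  have hdvd : f ∣ p.map (algebraMap ℤ ℚ) := by
    rw [← modByMonic_eq_zero_iff_dvd hmon]
    set r := p.map (algebraMap ℤ ℚ) %ₘ f with hr
    have hnd : f.natDegree = 2 := natDegree_eq_of_degree_eq_some hdeg
    have h1 : r.natDegree < 2 := by
      rw [← hnd]
      exact natDegree_modByMonic_lt _ hmon (by rintro h1; rw [h1, natDegree_one] at hnd; omega)
    have h2 : aeval x r = 0 := by
      have h3 := modByMonic_add_div (p.map (algebraMap ℤ ℚ)) (q := f)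
      have h4 := congrArg (aeval x) h3
      rw [map_add, map_mul, hfx, zero_mul, add_zero, hpx'] at h4
      exact h4
    have h3 : r = C (r.coeff 1) * X + C (r.coeff 0) :=
      eq_X_add_C_of_natDegree_le_one (by omega)
    rw [h3] at h2
    simp only [map_add, map_mul, aeval_X, aeval_C] at h2
    have h4 : (r.coeff 0) • (1 : M) + (r.coeff 1) • x + (0 : ℚ) • y + (0 : ℚ) • (x * y) = 0 := by
      rw [Algebra.smul_def, Algebra.smul_def, mul_one, zero_smul, zero_smul, add_zero, add_zero,
        add_comm, h2]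
    obtain ⟨h5, h6, -, -⟩ := indepQ ι h _ _ _ _ h4
    rw [h3, h5, h6]; simp
  obtain ⟨g, hg⟩ := IsIntegrallyClosed.eq_map_mul_C_of_dvd ℚ hp hdvd
  rw [hmon.leadingCoeff, C_1, mul_one] at hg
  constructor
  · refine ⟨-(g.coeff 1), ?_⟩
    have h1 : f.coeff 1 = -t := by
      rw [hf]; simp [coeff_C]
    rw [← hg, coeff_map] at h1
    have h2 : ((g.coeff 1 : ℤ) : ℚ) = -t := h1
    push_cast
    linarith
  · refine ⟨g.coeff 0, ?_⟩
    have h1 : f.coeff 0 = d := by
      rw [hf]; simp
    rw [← hg, coeff_map] at h1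
    exact h1.symm

omit [Algebra ℚ M] in
/-- Elements of `O` are integral. -/
theorem isInt (O : Subring M) (hO : O.toAddSubgroup.FG) {x : M} (hx : x ∈ O) :
    IsIntegral ℤ x := by
  let S : Subalgebra ℤ M := subalgebraOfSubring O
  have hS : (Subalgebra.toSubmodule S).FG := by
    rw [Submodule.fg_iff_addSubgroup_fg]
    exact hO
  exact IsIntegral.of_mem_of_fg S hS x hx

end Alg

end XOrd

open XOrd

theorem prf_Ord : S_Ord.{u} := by
  intro M _ _ _ ι O hM hfg hO
  -- two elements of `O` which do not commute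
  have hnc : ∃ x ∈ O, ∃ y ∈ O, x * y ≠ y * x := by
    by_contra hcon
    push Not at hcon
    have hcomm : ∀ x y : M, x * y = y * x := by
      intro x y
      obtain ⟨m, hm, hmx⟩ := hO x
      obtain ⟨k, hk, hky⟩ := hO y
      have h1 := hcon _ hmx _ hky
      have h2 : (m : M) * x * ((k : M) * y) = ((m : M) * (k : M)) * (x * y) := by
        rw [mul_assoc, mul_assoc, ← mul_assoc x, ← Nat.cast_comm k x]
        simp only [mul_assoc]
      have h3 : (k : M) * y * ((m : M) * x) = ((m : M) * (k : M)) * (y * x) := by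
        rw [mul_assoc, ← mul_assoc y, ← Nat.cast_comm m y]
        simp only [← mul_assoc]
        rw [Nat.cast_comm k (m : M)]
      rw [h2, h3] at h1
      have : CharZero M := algebraRat.charZero M
      have h4 : ((m : M) * (k : M)) ≠ 0 :=
        mul_ne_zero (Nat.cast_ne_zero.2 hm.ne') (Nat.cast_ne_zero.2 hk.ne')
      exact mul_left_cancel₀ h4 h1
    have htop : (⊤ : Subalgebra ℚ M) ≤ ⊥ := by
      refine le_trans ?_ (Algebra.IsCentral.out (K := ℚ) (D := M))
      intro x _
      rw [Subalgebra.mem_center_iff]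
      intro y
      exact hcomm y x
    have h1 : Module.finrank ℚ M = 1 :=
      Subalgebra.bot_eq_top_iff_finrank_eq_one.1 (le_bot_iff.1 htop).symm
    omega
  have hmem : ∀ z : Mat, z ∈ O.map (ι : M →+* Mat) → ∃ x ∈ O, ι x = z := by
    intro z hz
    obtain ⟨x, hx, hxz⟩ := Subring.mem_map.1 hz
    exact ⟨x, hx, hxz⟩
  -- trace and determinant
  have key : ∀ x ∈ O, (∃ n : ℤ, (ι x).trace = n) ∧ ∃ n : ℤ, (ι x).det = n := by
    intro x hx
    have hint := isInt O hfg hx
    by_cases hc : ∀ y : M, x * y = y * x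
    · have h1 : x ∈ Subalgebra.center ℚ M := by
        rw [Subalgebra.mem_center_iff]
        intro y
        exact (hc y).symm
      have h2 := Algebra.IsCentral.out (K := ℚ) (D := M) h1
      obtain ⟨q, hq⟩ := Algebra.mem_bot.1 h2
      rw [← hq] at hint
      have h3 : IsIntegral ℤ q := by
        have h4 : Function.Injective (algebraMap ℚ M) := (algebraMap ℚ M).injective
        have h5 : IsIntegral ℤ (IsScalarTower.toAlgHom ℤ ℚ M q) := hint
        exact (isIntegral_algHom_iff (IsScalarTower.toAlgHom ℤ ℚ M) h4).1 h5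
      obtain ⟨n, hn⟩ := IsIntegrallyClosed.isIntegral_iff.1 h3
      have h4 : ι x = ((n : ℤ) : ℝ) • (1 : Mat) := by
        rw [← hq, ← hn, Algebra.algebraMap_eq_smul_one, map_smulQ, map_one]
        simp
      constructor
      · refine ⟨2 * n, ?_⟩
        rw [h4, Matrix.trace_fin_two]
        simp
        ring
      · refine ⟨n ^ 2, ?_⟩
        rw [h4, det_smul2]
        simp
    · push Not at hc
      obtain ⟨y, hy⟩ := hc
      obtain ⟨t, d, h1, h2, h3⟩ := quad ι hy hM
      obtain ⟨⟨a, ha⟩, b, hb⟩ := int_coeff ι hy t d h1 hint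
      exact ⟨⟨a, by rw [h2, ha]; simp⟩, b, by rw [h3, hb]; simp⟩
  refine ⟨?_, ?_, ?_, ?_⟩
  · intro z hz
    obtain ⟨x, hx, rfl⟩ := hmem z hz
    exact (key x hx).1
  · intro z hz
    obtain ⟨x, hx, rfl⟩ := hmem z hz
    exact (key x hx).2
  · intro z hz hne
    obtain ⟨x, hx, rfl⟩ := hmem z hz
    apply det_ne_of_ne ι
    rintro rfl
    exact hne (map_zero ι)
  · obtain ⟨x, hx, y, hy, hxy⟩ := hnc
    rw [← top_le_iff, ← span_top (comm_det ι hxy)]
    apply Submodule.span_mono
    rintro z ⟨i, rfl⟩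
    have hm : ∀ w ∈ O, ι w ∈ (O.map (ι : M →+* Mat) : Set Mat) := fun w hw =>
      Subring.mem_map.2 ⟨w, hw, rfl⟩
    fin_cases i
    · have := hm 1 O.one_mem
      rw [map_one] at this
      exact this
    · exact hm x hx
    · exact hm y hy
    · have := hm (x * y) (O.mul_mem hx hy)
      rw [map_mul] at this
      exact this

end Pool.Agent.HoloQUE
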