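import Mathlib

/-!
# Holomorphic Hecke forms on compact arithmetic surfaces: the notions used in the statements
-/

set_option autoImplicit false

open MeasureTheory UpperHalfPlane Matrix
open scoped MatrixGroups ModularForm Manifold ENNReal

noncomputable section

namespace Pool.Agent.HoloQUE

/-- The real `2 × 2` matrices. -/
abbrev Mat : Type := Matrix (Fin 2) (Fin 2) ℝ

/-- The group `GL₂(ℝ)`, acting on the upper half-plane `ℍ` by Möbius transformations. -/
abbrev G2 : Type := GL (Fin 2) ℝ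

/-- The group `O¹` of the units of `O` of determinant (reduced norm) one. -/
def normOne (O : Subring Mat) : Subgroup G2 where
  carrier := {g | (g : Mat) ∈ O ∧ ((g⁻¹ : G2) : Mat) ∈ O ∧ (g : Mat).det = 1}
  mul_mem' := by
    rintro a b ⟨ha, ha', ha1⟩ ⟨hb, hb', hb1⟩
    refine ⟨?_, ?_, ?_⟩
    · rw [Units.val_mul]
      exact O.mul_mem ha hb
    · rw [_root_.mul_inv_rev, Units.val_mul]
      exact O.mul_mem hb' ha'
    · rw [Units.val_mul, Matrix.det_mul, ha1, hb1, one_mul]
  one_mem' := by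
    refine ⟨?_, ?_, ?_⟩
    · rw [Units.val_one]
      exact O.one_mem
    · rw [inv_one, Units.val_one]
      exact O.one_mem
    · simp
  inv_mem' := by
    rintro a ⟨ha, ha', ha1⟩
    refine ⟨ha', ?_, ?_⟩
    · rw [inv_inv]
      exact ha
    · have h : ((a⁻¹ : G2) : Mat).det * (a : Mat).det = 1 := by
        rw [← Matrix.det_mul, ← Units.val_mul, inv_mul_cancel, Units.val_one, Matrix.det_one]
      rwa [ha1, mul_one] at h

/-- The image `Γ` of `O¹` in `PGL₂(ℝ)` (it lies in `PSL₂(ℝ)`). -/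
def Gam (O : Subring Mat) : Subgroup PGL(2, ℝ) := (normOne O).map ProjGenLinGroup.mk

/-- The elements of `O` of determinant (reduced norm) `n`. -/
def Rn (O : Subring Mat) (n : ℕ) : Set G2 := {x | (x : Mat) ∈ O ∧ (x : Mat).det = n}

/-- `A` is a set of representatives of the classes `O¹ x` of elements of reduced norm `n`. -/
structure Reps (O : Subring Mat) (n : ℕ) (A : Finset G2) : Prop where
  mem : ∀ x ∈ A, x ∈ Rn O n
  rep : ∀ y ∈ Rn O n, ∃ x ∈ A, y * x⁻¹ ∈ normOne O
  uniq : ∀ x ∈ A, ∀ y ∈ A, y * x⁻¹ ∈ normOne O → y = x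

/-- `p` divides `x` in `O`. -/
def Dv (O : Subring Mat) (p : ℕ) (x : Mat) : Prop := ∃ y ∈ O, x = (p : ℝ) • y

/-- A good prime: `O / p O` is isomorphic to `M₂(𝔽_p)`, and the set `O¹ \ {x ∈ O | nrd x = p}`
has exactly `p + 1` elements (for maximal orders, and for all Eichler orders, these are the primes
which do not divide the discriminant of `O`, by a theorem of Eichler). -/
structure Good (O : Subring Mat) (p : ℕ) : Prop where
  prime : p.Prime
  red : ∃ ρ : O →+* Matrix (Fin 2) (Fin 2) (ZMod p), Function.Surjective ρ ∧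
    ∀ x : O, ρ x = 0 ↔ Dv O p x
  reps : ∃ A : Finset G2, Reps O p A ∧ A.card = p + 1

/-- `f` is a holomorphic Hecke form of weight `k`: it is holomorphic, it is invariant under the
weight `k` action of `O¹`, and it is an eigenfunction of the Hecke operators
`T_p f = ∑ f ∣[k] x`, the sum over `O¹ \ {x ∈ O | nrd x = p}`, for all good primes `p > p₀`. -/
structure HeckeForm (O : Subring Mat) (p₀ : ℕ) (k : ℤ) (f : ℍ → ℂ) : Prop where
  holo : MDiff f
  inv : ∀ g ∈ normOne O, f ∣[k] g = f
  eig : ∀ p, Good O p → p₀ < p → ∃ c : ℂ, ∀ A, Reps O p A → ∑ x ∈ A, f ∣[k] x = c • f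

/-- The measure `y ^ k |f| ^ 2 dμ` on the upper half-plane, where `dμ = dx dy / y ^ 2` is the
hyperbolic area (the `volume` of Mathlib). -/
def massM (k : ℤ) (f : ℍ → ℂ) : Measure ℍ :=
  volume.withDensity fun z => ENNReal.ofReal (‖f z‖ ^ 2 * z.im ^ k)

/-- The mass of `f` on the surface `Γ \ ℍ` is one. -/
def Normalised (O : Subring Mat) (k : ℤ) (f : ℍ → ℂ) : Prop :=
  ∃ D : Set ℍ, IsFundamentalDomain (Gam O) D volume ∧ massM k f D = 1

/-- The complete geodesic `a |z|² + b Re z + c = 0` of the upper half-plane. -/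
def geod (a b c : ℝ) : Set ℍ := {z | a * (z.re ^ 2 + z.im ^ 2) + b * z.re + c = 0}

end Pool.Agent.HoloQUE
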