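import Pool.Agent.Work.MP_d2a4bb_nt.NC.Defs

/-!
# Non-concentration of holomorphic Hecke forms: the items

All statements are uniform in the order `O` (given `p₀`) and in the weight. The proof of each item
is in its docstring. Basic facts (`x ∈ O → adj x ∈ O`, membership in `O¹`, ...) are in
`NC/Basic.lean`.
-/

set_option autoImplicit false

open MeasureTheory UpperHalfPlane Matrix
open scoped MatrixGroups ModularForm Manifold ENNReal Classical

noncomputable section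

namespace Pool.Agent.HoloQUE

universe u

/-! ### Part I: algebra -/

/-- Item Ord: an order `O` of a quaternion division algebra `M` over `ℚ` with an embedding
`ι : M → M₂(ℝ)` gives a `QOrder`. Proof. `ι` is injective and maps nonzero (invertible) elements to
invertible matrices, so `ne`. Integrality: `x ∈ O` is integral over `ℤ` (`O` is a finitely generated
`ℤ`-module), so its minimal polynomial `f` over `ℚ` has integer coefficients
(`minpoly.isIntegrallyClosed_eq_field_fractions'`). `f` is irreducible and its degree divides `4`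
(`M` is a module over the field `ℚ(x)`); it is not `4`, else `M = ℚ(x)` is commutative and the
centre has dimension `4`. If the degree is `1` then `x` is a rational number, in fact an integer `n`,
trace `2 n`, determinant `n ^ 2`. If it is `2`: `ι x` is not a scalar matrix (it would commute with
`ι M`, so `x` would be central, `x ∈ ℚ`), `f (ι x) = 0`, so `f` is the characteristic polynomial of
`ι x` (two monic quadratic polynomials which annihilate a nonscalar matrix are equal: their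
difference is linear). So trace and determinant are integers. Span: choose `x, y ∈ M` which do not
commute (exist, since the centre has dimension `1`), multiplied by integers so that they are in `O`.
With `X = ι x`, `Y = ι y` the matrices `1, X, Y, X Y` are linearly independent over `ℝ`: the
determinant of their coordinates is `± det (X Y - Y X)` (`ring`), and `X Y - Y X = ι (x y - y x)` is
invertible. -/
def S_Ord : Prop :=
  ∀ (M : Type u) [DivisionRing M] [Algebra ℚ M] [Algebra.IsCentral ℚ M] (ι : M →ₐ[ℚ] Mat)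
    (O : Subring M), Module.finrank ℚ M = 4 → O.toAddSubgroup.FG →
    (∀ x : M, ∃ n : ℕ, 0 < n ∧ (n : M) * x ∈ O) → QOrder (O.map (ι : M →+* Mat))

/-- Item Cnt: `O` is countable. Proof. Let `e : Fin 4 → Mat` be four elements of `O` which are a
basis of `M₂(ℝ)` (from `span`; `exists_linearIndependent` or `Submodule.span` finrank arguments).
The map `x ↦ (tr (x e_j))_j` from `O` to `ℤ ^ 4` is injective: the trace form of `M₂(ℝ)` is
nondegenerate. Alternative: `O` is discrete, since for `x ≠ y` in `O` one has `|det (x - y)| ≥ 1`,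
and a discrete subset of a second countable space is countable. -/
def S_Cnt : Prop := ∀ O : Subring Mat, QOrder O → (O : Set Mat).Countable

/-- Item L1: uniqueness of the right divisor of norm `p`. Proof. Let `ρ` be as in `Good`. For
`x ∈ Rn O p`: `adj x ∈ O`, `x * adj x = p`, `ρ (adj x) ≠ 0` (else `adj x = p y` and `p = p ^ 2 det y`),
so `det (ρ x) = 0` because `ρ x * ρ (adj x) = ρ p = 0`. Fact for 2 by 2 matrices over a field: if
`A B C = 0` and `det B = 0` then `A B = 0` or `B C = 0` (`B = v wᵀ`). Now `b = u x = v y`, so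
`ρ v * ρ y * ρ (adj x) = ρ (u x adj x) = ρ (p u) = 0`, and `ρ v * ρ y = ρ b ≠ 0`. So
`ρ (y adj x) = 0`, `y adj x = p g` with `g ∈ O`, `det g = 1`, and `y = g x`. -/
def S_L1 : Prop :=
  ∀ (O : Subring Mat) (p : ℕ) (x y : G2) (b u v : Mat), QOrder O → Good O p → x ∈ Rn O p →
    y ∈ Rn O p → b ∈ O → u ∈ O → v ∈ O → ¬ Dv O p b → b = u * x → b = v * y →
    y * x⁻¹ ∈ normOne O

/-- Item L2. Proof. As in L1: `ρ b * ρ (adj y) * ρ (adj x) = 0`, `det (ρ (adj y)) = 0` and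
`ρ (adj y) * ρ (adj x) = ρ (adj (x y)) ≠ 0`. -/
def S_L2 : Prop :=
  ∀ (O : Subring Mat) (p : ℕ) (x y : G2) (b : Mat), QOrder O → Good O p → x ∈ Rn O p →
    y ∈ Rn O p → b ∈ O → ¬ Dv O p ((x * y : G2) : Mat) →
    Dv O p (b * (y : Mat).adjugate * (x : Mat).adjugate) → Dv O p (b * (y : Mat).adjugate)

/-- Item NBi: the primitive products. Proof (from L1). The determinants are `p ^ 2`. If
`x' y' = g x y` with `g ∈ O¹`, all of `x, y, x', y'` in `A`, `x y` and so `x' y'` not divisible by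
`p`, then L1 for `b = x' y' = (g x) y` gives `y' y⁻¹ ∈ O¹`, so `y' = y`, then `x' = g x`, so
`x' = x`. With `g = 1` this shows that the product map is injective on the pairs. -/
def S_NBi : Prop :=
  ∀ (O : Subring Mat) (p : ℕ) (A : Finset G2), QOrder O → Good O p → Reps O p A →
    (∀ x ∈ NB O p A, x ∈ Rn O (p ^ 2)) ∧ Ineq O (NB O p A) ∧
    (∀ F : G2 → ℝ, ∑ x ∈ NB O p A, F x =
      ∑ t ∈ (A ×ˢ A).filter (fun t => ¬ Dv O p ((t.1 * t.2 : G2) : Mat)), F (t.1 * t.2)) ∧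
    (NB O p A).card ≤ A.card ^ 2

/-- Item Mx: triples for coprime norms. Proof. The map `(x, y, γ) ↦ b = adj x * γ * y`
`= (n : scalar) * (x⁻¹ γ y)` has values in the right hand side (`ScInv`, `det b = n n'`). It is
injective: let `b = adj x γ y = adj x' γ' y'`, `a n + c n' = 1`. Then `n' y' = y' adj y y` and
`n y' = γ'⁻¹ x' adj x' γ' y' = γ'⁻¹ x' b = γ'⁻¹ x' adj x γ y`, so `y' = (a n + c n') y' ∈ O y`, say
`y' = u y`, `det u = 1`, `u ∈ O¹`, so `y' = y` (`Ineq`). Then `adj x γ = adj x' γ'`; taking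
adjugates, `γ⁻¹ x = γ'⁻¹ x'`, so `x' x⁻¹ = γ' γ⁻¹ ∈ O¹`, `x' = x` and `γ' = γ`. -/
def S_Mx : Prop :=
  ∀ (O : Subring Mat) (n n' : ℕ) (E E' : Finset G2) (S : Set G2), QOrder O → ScInv S →
    0 < n → 0 < n' → n.Coprime n' → (∀ x ∈ E, x ∈ Rn O n) → (∀ x ∈ E', x ∈ Rn O n') →
    Ineq O E → Ineq O E' → (Tri2 O E E' S).encard ≤ (C0 O S (n * n')).encard

/-- Item Ma1: triples for one prime, first type. Proof (from L1). Map `(x, y, γ)` to
`b = adj x γ y ∈ O`, `det b = p ^ 2`, `b ∈ S` (`ScInv`). On the triples with `¬ Dv b` the map is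
injective: `y` is determined by L1 (`b = (adj x γ) y`), then `adj x γ`, hence `x` and `γ` as in Mx.
If `b = p ε`, then `ε ∈ O`, `det ε = 1`, `ε ∈ S`; for given `ε` and `y` the product
`adj x γ = p ε y⁻¹` is determined, hence `x` and `γ`. So there are at most `p + 1` triples for
each `ε`. -/
def S_Ma1 : Prop :=
  ∀ (O : Subring Mat) (p : ℕ) (A : Finset G2) (S : Set G2), QOrder O → Good O p → ScInv S →
    Reps O p A → A.card = p + 1 →
    (Tri O A S).encard ≤ (C0 O S (p ^ 2)).encard + (p + 1 : ℕ) * (C0 O S 1).encard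

/-- Item Mb1: triples for one prime, second type. Proof (from L1, L2, NBi). `b = adj x γ y ∈ O`,
`det b = p ^ 4`. (1) `¬ Dv b`: the map is injective. Write `y = y₁ y₂` with `y₁, y₂ ∈ A`. By L1
(`b = (adj x γ y₁) y₂`) `y₂` is determined, then `b y₂⁻¹ = adj x γ y₁` is in `O` and not divisible by
`p`, so `y₁` is determined by L1; then `adj x γ`, and `x`, `γ` by `Ineq` of `NB` as in Mx.
(2) `b = p b₀`, `¬ Dv b₀`: `det b₀ = p ^ 2`, `b₀ ∈ O ∩ S`. From `p b₀ adj y = adj x γ y adj y =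
p ^ 2 adj x γ` we get `Dv (b₀ adj y)`, `adj y = adj y₂ adj y₁`, so by L2 `Dv (b₀ adj y₂)`, i.e.
`b₀ ∈ O y₂`. By L1 `y₂` is determined by `b₀`. There are at most `p + 1` choices of `y₁ ∈ A`, and
`b, y` determine `x, γ`. So at most `p + 1` triples for each `b₀`. (3) `b = p ^ 2 ε`, `ε ∈ O ∩ S`,
`det ε = 1`: at most `card NB ≤ (p + 1) ^ 2` triples for each `ε`. -/
def S_Mb1 : Prop :=
  ∀ (O : Subring Mat) (p : ℕ) (A : Finset G2) (S : Set G2), QOrder O → Good O p → ScInv S →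
    Reps O p A → A.card = p + 1 →
    (Tri O (NB O p A) S).encard ≤ (C0 O S (p ^ 4)).encard +
      (p + 1 : ℕ) * (C0 O S (p ^ 2)).encard + ((p + 1) ^ 2 : ℕ) * (C0 O S 1).encard

/-- Item Ma: all primes of a set `P`, first type. Proof. `Tri O (⋃ A p) S` is the union over
`(p, q) ∈ P × P` of `Tri2 O (A p) (A q) S`; use Mx for `p ≠ q` and Ma1 for `p = q`. The sets
`C0 O S (p q)` are in `C1 O S (R ^ 2)`, and each element of `C1 O S (R ^ 2)` is in at most two of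
them (its determinant is `p q` for at most two ordered pairs). `C0 O S 1 = C1 O S 1` up to
inclusion. -/
def S_Ma : Prop :=
  ∀ (O : Subring Mat) (P : Finset ℕ) (R : ℕ) (A : ℕ → Finset G2) (S : Set G2), QOrder O →
    ScInv S → (∀ p ∈ P, Good O p ∧ p ≤ R ∧ Reps O p (A p) ∧ (A p).card = p + 1) →
    (Tri O (P.biUnion A) S).encard ≤
      2 * (C1 O S ((R : ℝ) ^ 2)).encard + (P.card * (R + 1) : ℕ) * (C1 O S 1).encard

/-- Item Mb: all primes of a set `P`, second type. Proof. As for Ma, with `Mb1` and the norms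
`p ^ 2`: `det b = (p q) ^ 2` with `p q ≤ R ^ 2`; the sets `C0 O S ((p q) ^ 2)` are in
`C2 O S (R ^ 2)`, each element is in at most two of them. The elements `b₀` of the second term of
Mb1 are in `C2 O S R` (`m = p`), and the sets for different `p` are disjoint. -/
def S_Mb : Prop :=
  ∀ (O : Subring Mat) (P : Finset ℕ) (R : ℕ) (A : ℕ → Finset G2) (S : Set G2), QOrder O →
    ScInv S → (∀ p ∈ P, Good O p ∧ p ≤ R ∧ Reps O p (A p) ∧ (A p).card = p + 1) →
    (Tri O (P.biUnion fun p => NB O p (A p)) S).encard ≤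
      2 * (C2 O S ((R : ℝ) ^ 2)).encard + (R + 1 : ℕ) * (C2 O S R).encard +
        (P.card * (R + 1) ^ 2 : ℕ) * (C2 O S 1).encard

/-! ### Part II: analysis on the surface -/

/-- Item Iso: `GL₂(ℝ)` acts on the upper half-plane by isometries. Proof. For positive determinant
`g` is a scalar times an element of `SL₂(ℝ)` (Mathlib: `IsIsometricSMul SL(2, ℝ) ℍ`,
`glScalar_smul`); in general `g = J (J g)` (`J_sq`) and `J` acts by `z ↦ - conj z`; or directly from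
`cosh_dist`, `im_smul_eq_div_normSq`. -/
def S_Iso : Prop := ∀ (g : G2) (z w : ℍ), dist (g • z) (g • w) = dist z w

/-- Item Amp: Hecke forms are amplified functions. Proof. `F (g • z)` for `g ∈ GL₂(ℝ)⁺`:
`|(f ∣[k] g) z| * (im z) ^ (k / 2) = (det g) ^ (k / 2 - 1) * F (g • z)` (*), because
`im (g z) = det g * im z / |denom g z| ^ 2`. So `F` is `O¹`-invariant. Let `p` be good, `A` the
representatives, `c` the eigenvalue. By (*), `|c| F z ≤ p ^ (k / 2 - 1) * ∑_{x ∈ A} F (x z)`. Let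
`L = |c| p ^ (1 - k / 2)`. If `L ≥ √p / 2` the first inequality follows. Otherwise: applying
`T_p` twice, `c ^ 2 f = ∑_{x, y ∈ A} f ∣[k] (x y)` (`SlashAction.slash_mul`, `sum_slash`; for
`y` fixed, `∑_x f ∣ x ∣ y = (c • f) ∣ y`, all determinants are positive, so `σ = id`). If
`Dv (x y)`, then `x y = p γ` with `γ ∈ O¹` and `f ∣[k] (p γ) = p ^ (k - 2) f`. For each `y ∈ A`
there is exactly one such `x ∈ A`: the representative of the class of `adj y` (`adj y ∈ Rn O p`;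
`adj y = γ x` gives `x y = γ⁻¹ p`; conversely `x y = p γ` gives `x = γ adj y`). So
`(c ^ 2 - (p + 1) p ^ (k - 2)) f = ∑ f ∣[k] (x y)`, the sum over the pairs with `¬ Dv (x y)`. By (*)
`|c ^ 2 - (p + 1) p ^ (k - 2)| F z ≤ p ^ (k - 2) ∑ F (x y z)`, the sum over the same pairs, which is
the sum over `NB` by NBi. As `|c ^ 2| p ^ (2 - k) = L ^ 2 ≤ p / 4`, the left factor is at least
`(p + 1 - p / 4) p ^ (k - 2) ≥ (3 / 4) p * p ^ (k - 2)`. -/
def S_Amp : Prop :=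
  ∀ (O : Subring Mat) (p₀ : ℕ) (k : ℤ) (f : ℍ → ℂ), QOrder O → HeckeForm O p₀ k f →
    AmpFn O p₀ fun z => ‖f z‖ * z.im ^ ((k : ℝ) / 2)

/-- Item TT: the duality inequality. Proof. Write `Γ = Gam O` (countable by Cnt), `h = F` on `B` and
`0` outside, `h₁ z = ∑_{x ∈ E} h (x⁻¹ z)`, `H z = ∑_{γ ∈ Γ} h₁ (γ z)` (values in `[0, ∞]`).
`∫_B F² ≤ w ∑_x ∫ h(z) F(x z) = w ∑_x ∫ h(x⁻¹ z) F(z) = w ∫ h₁ F = w ∫_D H F` (invariance of the
measure under `GL₂(ℝ)`, `IsFundamentalDomain.lintegral_eq_tsum''`, invariance of `F` under `Γ`)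
`≤ w (∫_D H²)^{1/2} (∫_D F²)^{1/2}` (`ENNReal.lintegral_mul_le_Lp_mul_Lq`). As `H` is
`Γ`-invariant, `∫_D H² = ∫_D H ∑_γ h₁(γ z) = ∫_ℍ H h₁ = ∑_γ ∑_{x,y} ∫ h(x⁻¹ γ z) h(y⁻¹ z) dz
= ∑_γ ∑_{x,y} ∫ h(x⁻¹ γ y z) h(z) dz`, and `h(g z) h(z) ≤ (h(g z)² + h(z)²) / 2` on the set
`{z ∈ B, g z ∈ B}` and `0` outside. The sum over `(x, y, γ)` is symmetric under
`(x, y, γ) ↦ (y, x, γ⁻¹)`, `g ↦ g⁻¹`, and `∫_{z ∈ B, g z ∈ B} F(g z)² = ∫_{z ∈ B, g⁻¹ z ∈ B} F(z)²`,
so `∫_D H² ≤ ∑_γ ∑_{x,y} ∫_{z ∈ B, x⁻¹ γ y z ∈ B} F²`. Every `γ ∈ Gam O` is the image of an element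
of `normOne O`, so the sum over `Γ` is at most the sum over `normOne O`. -/
def S_TT : Prop :=
  ∀ (O : Subring Mat) (F : ℍ → ℝ) (D B : Set ℍ) (E : Finset G2) (w : ℝ), QOrder O →
    Continuous F → (∀ z, 0 ≤ F z) → (∀ g ∈ normOne O, ∀ z, F (g • z) = F z) →
    IsFundamentalDomain (Gam O) D volume → MeasurableSet B → 0 ≤ w →
    (∀ z ∈ B, F z ≤ w * ∑ x ∈ E, F (x • z)) →
    ms F B ^ 2 ≤ ENNReal.ofReal (w ^ 2) * ms F D *
      ∑' t : Tri O E Set.univ, ms F {z ∈ B | (t.1.1⁻¹ * t.1.2.2 * t.1.2.1) • z ∈ B}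

/-- Item TTc: the counting form. Proof (from TT). Only the triples in `Tri O E S` contribute to the
sum in TT (`x⁻¹ γ y` has positive determinant), each at most `ms F B`; `ms F B` is finite since `F`
is bounded on the bounded set `B`; divide. -/
def S_TTc : Prop :=
  ∀ (O : Subring Mat) (F : ℍ → ℝ) (D B : Set ℍ) (E : Finset G2) (w : ℝ) (S : Set G2) (K : ℕ),
    QOrder O →
    Continuous F → (∀ z, 0 ≤ F z) → (∀ g ∈ normOne O, ∀ z, F (g • z) = F z) →
    IsFundamentalDomain (Gam O) D volume → ms F D = 1 → MeasurableSet B → 0 ≤ w →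
    (∀ z ∈ B, F z ≤ w * ∑ x ∈ E, F (x • z)) → Bornology.IsBounded B →
    (∀ x ∈ E, 0 < (x : Mat).det) →
    (∀ g : G2, 0 < (g : Mat).det → ∀ z ∈ B, g • z ∈ B → g ∈ S) →
    (Tri O E S).encard ≤ K → ms F B ≤ ENNReal.ofReal (w ^ 2 * K)

/-- Item TTs: the split form. Proof (from TT). With `m = ms F B < ∞`: the triples of `Tri O E S₁`
contribute at most `K₁ m`, the others at most `K₂ c`, so `m² ≤ w² K₁ m + w² K₂ c`, which gives
`m ≤ w² K₁ + w √(K₂ c)`. -/
def S_TTs : Prop :=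
  ∀ (O : Subring Mat) (F : ℍ → ℝ) (D B : Set ℍ) (E : Finset G2) (w : ℝ) (S₁ S₂ : Set G2)
    (K₁ K₂ : ℕ) (c : ℝ),
    QOrder O →
    Continuous F → (∀ z, 0 ≤ F z) → (∀ g ∈ normOne O, ∀ z, F (g • z) = F z) →
    IsFundamentalDomain (Gam O) D volume → ms F D = 1 → MeasurableSet B → 0 ≤ w →
    (∀ z ∈ B, F z ≤ w * ∑ x ∈ E, F (x • z)) → Bornology.IsBounded B →
    (∀ x ∈ E, 0 < (x : Mat).det) → 0 ≤ c →
    (∀ g : G2, 0 < (g : Mat).det → ∀ z ∈ B, g • z ∈ B → g ∈ S₂) →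
    (∀ g : G2, 0 < (g : Mat).det → g ∉ S₁ → ms F {z ∈ B | g • z ∈ B} ≤ ENNReal.ofReal c) →
    (Tri O E S₁).encard ≤ K₁ → (Tri O E S₂).encard ≤ K₂ →
    ms F B ≤ ENNReal.ofReal (w ^ 2 * K₁ + w * √(K₂ * c))

/-- Item Lim: mass of open sets under weak limits. Proof. The functions
`φ_n w = max 0 (min 1 (n * infDist w Uᶜ))` (`Metric.infDist`; for `U = univ` impossible, `U` is
bounded) are continuous, supported in the compact closed ball (`ProperSpace ℍ`), at most the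
indicator of `U`, and increase to it; `∫ φ_n dν = lim_j ∫ φ_n dμ_j ≤ M`; monotone convergence. -/
def S_Lim : Prop :=
  ∀ (μ : ℕ → Measure ℍ) (ν : Measure ℍ), (∀ j, IsFiniteMeasureOnCompacts (μ j)) →
    IsFiniteMeasureOnCompacts ν →
    (∀ φ : ℍ → ℝ, Continuous φ → HasCompactSupport φ →
      Filter.Tendsto (fun j => ∫ z, φ z ∂(μ j)) Filter.atTop (nhds (∫ z, φ z ∂ν))) →
    ∀ (U : Set ℍ) (M : ℝ), IsOpen U → Bornology.IsBounded U → 0 ≤ M →
      (∀ j, μ j U ≤ ENNReal.ofReal M) → ν U ≤ ENNReal.ofReal M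

/-! ### Part III: counting -/

/-- Item Cj: conjugation. Proof. Traces, determinants and spans are invariant under conjugation; the
bijections are `g ↦ h⁻¹ g h`; the last two statements are the definition of `Sb` with Iso. -/
def S_Cj : Prop :=
  ∀ (O : Subring Mat) (h : G2), QOrder O → QOrder (cj h O) ∧
    (∀ (S : Set G2) (X : ℝ), (C1 O (cs h S) X).encard = (C1 (cj h O) S X).encard) ∧
    (∀ (S : Set G2) (Y : ℝ), (C2 O (cs h S) Y).encard = (C2 (cj h O) S Y).encard) ∧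
    ∀ ρ : ℝ, cs h (Sb I ρ) = Sb (h • I) ρ

/-- Item Sc: the sets are invariant under scalars. Proof. A scalar `a` acts trivially on `ℍ`,
`det (a g) = a ^ 2 det g`, entries are multiplied by `a`, `√(a ^ 2 det g) = |a| √(det g)`. -/
def S_Sc : Prop :=
  (∀ (z : ℍ) (ρ : ℝ), ScInv (Sb z ρ)) ∧ (∀ κ, ScInv (Sp κ)) ∧ (∀ κ, ScInv (Sm κ)) ∧
    ∀ (h : G2) (S : Set G2), ScInv S → ScInv (cs h S)

/-- Item Geo: the displacement of `i`. Proof. `cosh_dist`, `im_smul_eq_div_normSq`,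
`coe_smul_of_det_pos`: `cosh (dist (g i) i) = (a² + b² + c² + d²) / (2 det g)`. -/
def S_Geo : Prop :=
  ∀ g : G2, 0 < (g : Mat).det →
    ((g : Mat) 0 0 - (g : Mat) 1 1) ^ 2 + ((g : Mat) 0 1 + (g : Mat) 1 0) ^ 2 =
        2 * (g : Mat).det * (Real.cosh (dist (g • I) I) - 1) ∧
      ((g : Mat) 0 0 + (g : Mat) 1 1) ^ 2 + ((g : Mat) 0 1 - (g : Mat) 1 0) ^ 2 =
        2 * (g : Mat).det * (Real.cosh (dist (g • I) I) + 1)

/-- Item C1b: counting near the identity. Proof (from Geo). The coordinates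
`α = (a + d) / 2`, `τ = (b - c) / 2`, `ω₁ = (a - d) / 2`, `ω₂ = (b + c) / 2` satisfy
`det = α² + τ² - ω₁² - ω₂²`, `|ω_i| ≤ √X * C ρ` (`cosh x - 1 ≤ C² x²` on `[0, 16]`) and
`|α|, |τ| ≤ C √X`. If two elements `x, y` of the set have the same
`(⌊2α⌋, ⌊2τ⌋, ⌊2ω₁⌋, ⌊2ω₂⌋)`, then `|det (x - y)| < 1` (each difference is less than `1 / 2`, so
`α² + τ² < 1 / 2` and `ω₁² + ω₂² < 1 / 2`), so `det (x - y) = 0` and `x = y` (`dt`, `ne`). Count the
cells: at most `(4 C √X + 3)² (4 C √X ρ + 3)²`. -/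
def S_C1b : Prop :=
  ∃ C : ℝ, 0 < C ∧ ∀ (O : Subring Mat) (ρ X : ℝ), QOrder O → 0 ≤ ρ → ρ ≤ 16 → 1 ≤ X →
    (C1 O (Sb I ρ) X).Finite ∧ ((C1 O (Sb I ρ) X).ncard : ℝ) ≤ C * X * (1 + √X * ρ) ^ 2

/-- Item Dvb: the divisor bound (`Pool.Agent.Work.MP_e0aece_nt.DivisorBound`). -/
def S_Dvb : Prop :=
  ∀ ε : ℝ, 0 < ε → ∃ C : ℝ, 0 < C ∧ ∀ n : ℕ, 0 < n → (n.divisors.card : ℝ) ≤ C * (n : ℝ) ^ ε

/-- Item C2b: counting elements whose norm is a square. Proof (from Geo, Dvb). For `x` in the set,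
`det x = m ^ 2`, `x₀ = 2 x - tr x ∈ O` has trace `0`, coordinates `(0, 2 τ, 2 ω₁, 2 ω₂)` in the
notation of C1b with `|τ| ≤ C m`, `|ω_i| ≤ C m ρ`; as in C1b (three coordinates; differences less
than `1 / 2` in the coordinates of `x₀`) the number of matrices `x₀` is at most
`(C Y + 3) (C Y ρ + 3)²`. If `x₀ ≠ 0` then `D = det x₀ = 4 m² - t² = (2 m - t) (2 m + t)`, `t = tr x`,
is a nonzero integer with `|D| ≤ C Y²`, so for given `x₀` there are at most `2 d(|D|)` pairs `(m, t)`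
(`2 m - t` divides `D` and determines the other factor), and `(x₀, t)` determines `x`. If `x₀ = 0`
then `x` is scalar, `x = ± m`. Total at most `C_ε Y^{2 ε'} (C Y + 3) (C Y ρ + 3)² + 2 Y`. -/
def S_C2b : Prop :=
  ∀ ε : ℝ, 0 < ε → ∃ C : ℝ, 0 < C ∧ ∀ (O : Subring Mat) (ρ Y : ℝ), QOrder O → 0 ≤ ρ → ρ ≤ 16 →
    1 ≤ Y → (C2 O (Sb I ρ) Y).Finite ∧
      ((C2 O (Sb I ρ) Y).ncard : ℝ) ≤ C * Y ^ (1 + ε) * (1 + Y * ρ) ^ 2

/-- Item Pr: many primes in `(N, 3 N]`. Proof. `θ (3 N) - θ (N) ≥ 3 N log 2 - o(N) - N log 4 =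
N log 2 - o(N)` (`Chebyshev.theta_ge`, `Chebyshev.theta_le_log4_mul_x`), and it is at most
`log (3 N)` times the number of these primes. -/
def S_Pr : Prop :=
  ∀ ε : ℝ, 0 < ε → ∃ N₀ : ℕ, ∀ N : ℕ, N₀ ≤ N →
    (N : ℝ) ^ (1 - ε) ≤ (((Finset.Ioc N (3 * N)).filter Nat.Prime).card : ℝ)

/-- Item Ball: the small ball estimate for amplified functions, uniform in the order. Proof. Let
`ε > 0` be small, `N₀` from Pr and `≥ p₀`, `N = max N₀ ⌈r ^ (-2/3)⌉`, so `N` is between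
`r ^ (-2/3)` and `C r ^ (-2/3)`; `P` the primes in `(N, 3 N]`, `P = Pa ∪ Pb` according to the
alternative in `AmpFn.amp` (with sets `A p`), `R = 3 N`, `B = closedBall z r`, `S = Sb z (2 r)`
(Iso). Case `2 |Pa| ≥ |P|`: averaging, `F ≤ w ∑_{x ∈ E} F (x •)`, `E = ⋃_{p ∈ Pa} A p` (disjoint,
the determinants are different), `w = 2 / (√N |Pa|)`. Ma with C1b (and Cj: `S` is the conjugate of
`Sb I (2 r)` by `h = z.toSL2R`, `h • I = z`), `N r ≤ C`: `#Tri ≤ C N²`, and TTc: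
`ms F B ≤ C N / |Pa|² ≤ C N ^ (-1 + 2 ε)`. Case `2 |Pb| ≥ |P|`: `E = ⋃ NB (A p)`,
`w = 4 / (3 N |Pb|)`, by Mb, C2b and `N² r ≤ C N^{1/2}`: `#Tri ≤ C N ^ (3 + 2 ε)`, so
`ms F B ≤ C N ^ (1 + 2 ε) / |Pb|² ≤ C N ^ (-1 + 4 ε)`. -/
def S_Ball : Prop :=
  ∀ (p₀ : ℕ) (δ : ℝ), δ < 2 / 3 → ∃ C : ℝ, 0 < C ∧ ∀ (O : Subring Mat) (F : ℍ → ℝ) (D : Set ℍ),
    QOrder O → (∀ p : ℕ, p.Prime → p₀ < p → Good O p) → AmpFn O p₀ F →
    IsFundamentalDomain (Gam O) D volume → ms F D = 1 →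
    ∀ (z : ℍ) (r : ℝ), 0 < r → r ≤ 8 → ms F (Metric.closedBall z r) ≤ ENNReal.ofReal (C * r ^ δ)

/-! ### Part IV: neighbourhoods of geodesics -/

/-- Item S1: counting almost diagonal and almost antidiagonal elements. Proof (from Geo: the entries
of `g` are at most `C √(det g)`). `Sp`: the map `g ↦ (⌊4 a⌋, ⌊4 d⌋)` is injective on the set: if the
differences of `a` and `d` are less than `1 / 4` and `|b|, |c| ≤ κ √X ≤ 1 / 8` then the determinant
of the difference is less than `1` in modulus, so `0`, so the difference is `0`. The same for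
`Sm`. -/
def S_S1 : Prop :=
  ∃ C c : ℝ, 0 < C ∧ 0 < c ∧ ∀ (O : Subring Mat) (κ X : ℝ), QOrder O → 0 ≤ κ → κ * √X ≤ c →
    1 ≤ X → (C1 O (Sp κ) X).Finite ∧ ((C1 O (Sp κ) X).ncard : ℝ) ≤ C * X ∧
      (C1 O (Sm κ) X).Finite ∧ ((C1 O (Sm κ) X).ncard : ℝ) ≤ C * X

/-- Item Sp2: almost diagonal elements whose norm is a square. Proof (from Geo, Dvb). Here
`|b|, |c| ≤ κ m ≤ 1 / 8` and `|a|, |d| ≤ C m`. `x₀ = 2 x - tr x` has entries `a - d, 2 b, 2 c,
d - a`; if two such matrices have the same `⌊2 (a - d)⌋`, then the determinant of the difference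
is less than `1` in modulus, so they are equal. So there are at most `C Y` matrices `x₀`. Each
`x₀ ≠ 0` comes from at most `2 d(|D|)` elements `x`, `D = det x₀ = 4 m² - t²` (see C2b), with
`|D| ≤ C Y²`, and `d(n) ≤ C n ^ (1/3)`. For `x₀ = 0` there are at most `2 Y` elements. -/
def S_Sp2 : Prop :=
  ∃ C c : ℝ, 0 < C ∧ 0 < c ∧ ∀ (O : Subring Mat) (κ Y : ℝ), QOrder O → 0 ≤ κ → κ * Y ≤ c →
    1 ≤ Y → (C2 O (Sp κ) Y).Finite ∧ ((C2 O (Sp κ) Y).ncard : ℝ) ≤ C * Y ^ (5 / 3 : ℝ)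

/-- Item Sm2: almost antidiagonal elements whose norm is a square (lattice points on an arc of a
hyperbola; no three points in a short arc). Proof (from Geo). Fix `m ≤ Y` and consider the elements
with `det = m²`. `|a|, |d| ≤ κ m`, `tr x` is an integer of modulus `< 1`, so `d = -a`, and
`b c = - m² - a²`, `m / C ≤ |b|, |c| ≤ C m`. Let `x₁, x₂, x₃` be distinct with `b`'s of the same sign
in an interval of length `ℓ`, `x = x₁ - x₂`, `y = x₁ - x₃`, `⟨x, y⟩ = det (x + y) - det x - det y`.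
`G = 4 det x det y - ⟨x, y⟩²` is an integer. It is not `0`: otherwise the form
`s² det x + s t ⟨x, y⟩ + t² det y = det (s x + t y)` has a rational zero `(s, t) ≠ 0`, so
`s x + t y = 0` (`ne`), the three points are on a line, but `det (x₁ + s (x₂ - x₁)) = m²` is a
quadratic equation in `s` with leading coefficient `det (x₂ - x₁) ≠ 0`, so it has at most two roots.
On the other hand `G = - (b_x c_y - b_y c_x)² + O(κ² m⁴)` and `c_i = - m² / b_i + O(κ² m)`, so
`b_x c_y - b_y c_x = ± m² (b₁ - b₂) (b₁ - b₃) (b₂ - b₃) / (b₁ b₂ b₃) + O(κ² m²)`, at most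
`C ℓ³ / m + 1 / 10` in modulus. So `ℓ ≥ c' m ^ (1/3)`: an interval of length `c'' m ^ (1/3)` contains
the `b`'s of at most two elements, and there are at most `C m ^ (2/3)` elements with determinant
`m²`. Sum over `m ≤ Y`. -/
def S_Sm2 : Prop :=
  ∃ C c : ℝ, 0 < C ∧ 0 < c ∧ ∀ (O : Subring Mat) (κ Y : ℝ), QOrder O → 0 ≤ κ → κ * Y ^ 4 ≤ c →
    1 ≤ Y → (C2 O (Sm κ) Y).Finite ∧ ((C2 O (Sm κ) Y).ncard : ℝ) ≤ C * Y ^ (5 / 3 : ℝ)

/-- Item GT: an element which moves two distant points of the neighbourhood `B0 r` of the vertical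
geodesic to this neighbourhood is almost diagonal or almost antidiagonal. Proof. `dist (g i) i ≤ 8`
by Iso. Divide `g` by `√(det g)`, so `ad - bc = 1`, all entries at most `C₀` (Geo). If
`C r / ρ ≥ C₀` the claim is trivial, so assume `ρ ≥ C₁ r` with `C₁` large. For `z = x + i y` in `B0 r`:
`e⁻⁴ ≤ y ≤ e⁴`, `|x| ≤ r y`; `re (g z) / im (g z) = (a c |z|² + (a d + b c) x + b d) / y`, so
`|a c |z|² + b d| ≤ C₂ r` for `z = z₁, z₂`. `dist z_i (i y_i) ≤ r`, so
`|log (y₁ / y₂)| = dist (i y₁) (i y₂) ≥ ρ - 2 r ≥ ρ / 2`, and `||z₁|² - |z₂|²| ≥ c₃ ρ`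
(as `r² ≤ 2 r ≤ 2 ρ / C₁`). So `|a c| ≤ C r / ρ` and `|b d| ≤ C r / ρ`. If `|a d| ≥ 1 / 2`
then `|a|, |d| ≥ 1 / (2 C₀)` and `|c|, |b| ≤ 2 C₀ C r / ρ`; otherwise `|b c| ≥ 1 / 2` and
`|a|, |d| ≤ 2 C₀ C r / ρ`. -/
def S_GT : Prop :=
  ∃ C : ℝ, 0 < C ∧ ∀ (r ρ : ℝ) (g : G2) (z₁ z₂ : ℍ), 0 < r → r ≤ 2 → 0 < ρ → 0 < (g : Mat).det →
    z₁ ∈ B0 r → z₂ ∈ B0 r → g • z₁ ∈ B0 r → g • z₂ ∈ B0 r → ρ ≤ dist z₁ z₂ →
    g ∈ Sp (C * r / ρ) ∨ g ∈ Sm (C * r / ρ)

/-- Item Incl: every neighbourhood of a piece of a geodesic is contained in an image of `B0`. Proof.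
If the set is empty take `h = 1`. Otherwise there is `w₀` on the geodesic with
`dist w₀ z₀ ≤ 2`. If `a ≠ 0` let `s₁ ≠ s₂` be the roots of `a t² + b t + c`, `h₀` the matrix with rows
`(s₁, s₂)`, `(1, 1)` (exchange the roots to have positive determinant); if `a = 0` let `h₀` have rows
`(1, -c/b)`, `(0, 1)`. Then `h₀` maps the points `i t`, `t > 0`, onto the geodesic
(`a |z|² + b x + c` at `z = h₀ (i t)` is zero; conversely `h₀⁻¹ z` has real part `0`). Let
`w₀ = h₀ (i t)`, `h = h₀ diag(√t, 1/√t)`, so `h i = w₀`. For `z` in the set, `z' = h⁻¹ z`,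
`dist z' i = dist z w₀ ≤ 3`, and for some `v > 0`, `dist z' (i v) < r`:
`cosh (dist z' (i v)) = (x² + y² + v²) / (2 y v) ≥ √(1 + x² / y²)`, so `|x| / y ≤ sinh r ≤ 2 r`. -/
def S_Incl : Prop :=
  ∀ (a b c r : ℝ) (z₀ : ℍ), 0 < b ^ 2 - 4 * a * c → 0 < r → r ≤ 1 →
    ∃ h : G2, {z : ℍ | dist z z₀ ≤ 1 ∧ ∃ w ∈ geod a b c, dist z w < r} ⊆
      {z | h⁻¹ • z ∈ B0 (2 * r)}

/-- Item Tube: the estimate for neighbourhoods of geodesics. Proof. `B = {z | h⁻¹ z ∈ B0 r}` is in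
the closed ball of radius `4` about `h i`, so by Ball (`δ = 1/2`) the claim is clear for `r ≥ r₀`,
`r₀` to be chosen. Let `r < r₀`, `N = ⌈r ^ (-1/60)⌉`, `ρ = r ^ (2/3)`, `κ = C r / ρ = C r ^ (1/3) ≤
C' N ^ (-20)` (`C` from GT), `R = 3 N`, `P`, `Pa`, `Pb` and `w` as in Ball, `S₁ = cs h (Sp κ) ∪
cs h (Sm κ)`, `S₂ = Sb (h i) 8`. For `g ∉ S₁` with positive determinant the set
`{z ∈ B | g z ∈ B}` has diameter less than `ρ` by GT (applied to `h⁻¹ g h`), so by Ball with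
`δ = 1/2` its mass is at most `c = C ρ ^ (1/2) ≤ C' N ^ (-20)`. `K₂`: Ma, Mb with C1b, C2b give
`#Tri O E S₂ ≤ C N ^ 20`, crude; better `C N^10`. `K₁` (use Tri for a union of two sets is at most
the sum; Ma, Mb for `cs h (Sp κ)` and `cs h (Sm κ)`, Cj, S1 resp. Sp2, Sm2 with `X ≤ 9 N²`,
`Y ≤ 9 N²`, where `κ Y⁴ ≤ c` for large `N`): `K₁ ≤ C N²` for the first type and
`K₁ ≤ C N ^ (10/3)` for the second. TTs: first type, `w = 2 / (√N |Pa|)`: `ms F B ≤ C N^{-1+2ε} +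
C N^{-3}`; second type, `w = 4 / (3 N |Pb|)`: `ms F B ≤ C N^{10/3 - 4 + 2 ε} + C N^{-3}`. With
`ε = 1/30` this is at most `C N ^ (-3/5) ≤ C r ^ (1/100)`. -/
def S_Tube : Prop :=
  ∀ p₀ : ℕ, ∃ C : ℝ, 0 < C ∧ ∀ (O : Subring Mat) (F : ℍ → ℝ) (D : Set ℍ),
    QOrder O → (∀ p : ℕ, p.Prime → p₀ < p → Good O p) → AmpFn O p₀ F →
    IsFundamentalDomain (Gam O) D volume → ms F D = 1 →
    ∀ (h : G2) (r : ℝ), 0 < r → r ≤ 2 →
      ms F {z | h⁻¹ • z ∈ B0 r} ≤ ENNReal.ofReal (C * r ^ (1 / 100 : ℝ))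

/-! ### Part V: the example of discriminant 6 -/

/-- Item Ct: the number of classes of norm `p` for a principal order. Proof. Let `V = 𝔽_p²`. For
`x ∈ Rn O p`, `ρ x` has rank one (see L1); let `ℓ(x) = ker (ρ x)`, a line. (1) If `ℓ(x) = ℓ(y)` then
`y x⁻¹ ∈ O¹`: `ρ (adj x)` has image in `ℓ(x)`, so `ρ (y adj x) = 0`, see L1. Conversely equivalent
elements have the same line. (2) Every line `ℓ` occurs: `L = {x ∈ O | ρ x kills ℓ}` is a left ideal,
`L = O z`; as `ρ` is surjective, `L` contains `x` with `ρ x ≠ 0`, so `ρ z ≠ 0`; `p ∈ L`, `p = u z`,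
`p² = det u det z`, so `det z ∈ {± 1, ± p, ± p²}`. `± 1` is impossible (`z` would be a unit, `ρ z`
invertible), `± p²` is impossible (`u` would be a unit, `z = u⁻¹ p`, `ρ z = 0`). If
`det z = -p` replace `z` by `e z`. (3) There are `p + 1` lines: kernels of `(1, t)`, `t ∈ 𝔽_p`, and
of `(0, 1)`. Choose one element for each. -/
def S_Ct : Prop :=
  ∀ (O : Subring Mat) (p : ℕ), QOrder O → p.Prime →
    (∀ L : AddSubgroup Mat, (∀ x ∈ L, x ∈ O) → (∀ u ∈ O, ∀ x ∈ L, u * x ∈ L) →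
      ∃ z ∈ L, ∀ x ∈ L, ∃ u ∈ O, x = u * z) →
    (∃ e ∈ O, e.det = -1) →
    (∃ ρ : O →+* Matrix (Fin 2) (Fin 2) (ZMod p), Function.Surjective ρ ∧
      ∀ x : O, ρ x = 0 ↔ Dv O p x) →
    ∃ A : Finset G2, Reps O p A ∧ A.card = p + 1

/-- The matrix of the quaternion `a + b i + c j + d i j`, `i² = -1`, `j² = 3`. -/
def q6 (a b c d : ℝ) : Mat := !![a + c * √3, -b + d * √3; b + d * √3, a - c * √3]

/-- The maximal order of discriminant `6`: the quaternions `(a + b i + c j + d i j) / 2` with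
integers `a, b, c, d` of the same parity. -/
def IsR6 (x : Mat) : Prop :=
  ∃ a b c d : ℤ, (a - b) % 2 = 0 ∧ (a - c) % 2 = 0 ∧ (a - d) % 2 = 0 ∧
    x = q6 (a / 2) (b / 2) (c / 2) (d / 2)

/-- Item ExQ: this is an order. Proof. Closed under products: expand. `det (q6 a b c d) =
a² + b² - 3 c² - 3 d²`, an integer if `a, b, c, d` are halves of integers of the same parity; it is
nonzero for rational `(a, b, c, d) ≠ 0`: a sum of two squares divisible by `3` has both terms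
divisible by `3`, descent. The matrices `1, i, j, ij` span `M₂(ℝ)`. -/
def S_ExQ : Prop :=
  ∃ O : Subring Mat, (∀ x, x ∈ O ↔ IsR6 x) ∧ QOrder O

/-- Item ExE: left ideals are principal. Proof. Euclidean algorithm: for rational `(a, b, c, d)`
there is `q ∈ O` with `|nrd (α - q)| < 1`: subtract integers so that all coordinates are at most
`1 / 2` in modulus; then `nrd ≤ 1 / 2`. If `nrd > -1` we are done. Otherwise `c² + d² ≥ 1 / 3`;
subtract `(± 1 ± i ± j ± i j) / 2` with the signs of the coordinates: the new coordinates are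
`1 / 2 - |·|`, so `a² + b² ≤ 1 / 2` and `c² + d² = 1 / 2 - (|c| + |d|) + (c² + d²)` (old values on the
right) `< 1 / 3` (since `|c| + |d| ≥ 1 / 2 + √(s - 1 / 4)`, `s = c² + d²`; or: from `s ≥ 1 / 3` both
are at least `1 / 4`, so the new ones are at most `1 / 4`). So `|nrd| < 1`. For an ideal `L ≠ 0`
take `z ∈ L` nonzero with `|det z|` minimal; for `x ∈ L` approximate `x z⁻¹`. The element `1 + i + j`
has determinant `-1`. -/
def S_ExE : Prop :=
  ∀ O : Subring Mat, (∀ x, x ∈ O ↔ IsR6 x) →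
    (∀ L : AddSubgroup Mat, (∀ x ∈ L, x ∈ O) → (∀ u ∈ O, ∀ x ∈ L, u * x ∈ L) →
      ∃ z ∈ L, ∀ x ∈ L, ∃ u ∈ O, x = u * z) ∧ ∃ e ∈ O, e.det = -1

/-- Item ExR: reduction modulo `p`. Proof. Choose `s, t ∈ 𝔽_p` with `s² + t² = 3`
(`ZMod.sq_add_sq`), `I = !![0, -1; 1, 0]`, `J = !![s, t; t, -s]`: `I² = -1`, `J² = 3`, `I J = - J I`.
`ρ ((a + b i + c j + d i j) / 2) = (a + b I + c J + d I J) / 2`. `1, I, J, I J` is a basis of
`M₂(𝔽_p)` for `p > 3` (in coordinates the determinant is `± 4 (s² + t²) = ± 12`), so `ρ` is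
surjective and its kernel is `p O` (all of `a, b, c, d` divisible by `p`; the parity is kept as `p` is
odd). -/
def S_ExR : Prop :=
  ∀ (O : Subring Mat) (p : ℕ), (∀ x, x ∈ O ↔ IsR6 x) → p.Prime → 3 < p →
    ∃ ρ : O →+* Matrix (Fin 2) (Fin 2) (ZMod p), Function.Surjective ρ ∧
      ∀ x : O, ρ x = 0 ↔ Dv O p x

end Pool.Agent.HoloQUE
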